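import Pool.Agent.NW3.RepairM3
import Pool.Agent.H56.FP.WMain
import Pool.Agent.NW.Conc

set_option autoImplicit false
set_option linter.unusedSectionVars false

/-!
# Bounded fractional decompositions of tripartite graphs by sampling

Input: a fractional triangle decomposition theorem `FT ρ` for weighted locally balanced tripartite
graphs.  Output: weights at most `C / n` with edge sums in `[1 - γ, 1]`, for all tripartite graphs
with deficiencies at most `(ρ - ε) n` and imbalances at most `θ n`.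
-/

open Finset

namespace NW3

open H56FP NWC

/-- The fractional theorem with constant `ρ`. -/
def FT (ρ : ℝ) : Prop := ∀ (m : ℕ) (g : M3 ℝ m) (d : ZMod 3 → Fin m → ℝ),
  WSetup g d (ρ * m) → ∃ w, IsDecomp g w

section Pin

variable {ι : Type*} [Fintype ι] [DecidableEq ι] {V : Type*} [Fintype V] [DecidableEq V]

/-- point mass -/
noncomputable def pin3 (x : V) : V → ℝ := fun a => if a = x then 1 else 0

theorem pw_pin3 (x : V) : PW (pin3 x) := by
  refine ⟨fun a => ?_, ?_⟩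
  · unfold pin3; split_ifs <;> norm_num
  · simp [pin3]

/-- two coordinates pinned, the others uniform -/
noncomputable def pp3 (q₁ q₂ : ι) (x y : V) : ι → V → ℝ :=
  fun l => if l = q₁ then pin3 x else if l = q₂ then pin3 y else unifW V

theorem pw_pp3 [Nonempty V] (q₁ q₂ : ι) (x y : V) (l : ι) : PW (pp3 q₁ q₂ x y l) := by
  unfold pp3
  split_ifs
  · exact pw_pin3 x
  · exact pw_pin3 y
  · exact pw_unif

theorem prodW_pp3 (q₁ q₂ : ι) (hq : q₁ ≠ q₂) (x y : V) (ω : ι → V) :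
    prodW (pp3 q₁ q₂ x y) ω
      = if ω q₁ = x ∧ ω q₂ = y then (1 / (Fintype.card V : ℝ)) ^ (Fintype.card ι - 2) else 0 := by
  unfold prodW
  rw [← Finset.mul_prod_erase univ _ (Finset.mem_univ q₁),
    ← Finset.mul_prod_erase (univ.erase q₁) _
      (Finset.mem_erase.2 ⟨hq.symm, Finset.mem_univ q₂⟩)]
  have h1 : ∏ l ∈ (univ.erase q₁).erase q₂, pp3 q₁ q₂ x y l (ω l)
      = (1 / (Fintype.card V : ℝ)) ^ (Fintype.card ι - 2) := by
    rw [Finset.prod_congr rfl (g := fun _ => 1 / (Fintype.card V : ℝ)), Finset.prod_const]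
    · congr 1
      rw [Finset.card_erase_of_mem (Finset.mem_erase.2 ⟨hq.symm, Finset.mem_univ q₂⟩),
        Finset.card_erase_of_mem (Finset.mem_univ q₁), Finset.card_univ]
      omega
    · intro l hl
      have hl1 : l ≠ q₂ := Finset.ne_of_mem_erase hl
      have hl2 : l ≠ q₁ := Finset.ne_of_mem_erase (Finset.mem_of_mem_erase hl)
      unfold pp3
      rw [if_neg hl2, if_neg hl1]
      rfl
  rw [h1]
  have h2 : pp3 q₁ q₂ x y q₁ (ω q₁) = if ω q₁ = x then 1 else 0 := by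
    unfold pp3 pin3
    rw [if_pos rfl]
  have h3 : pp3 q₁ q₂ x y q₂ (ω q₂) = if ω q₂ = y then 1 else 0 := by
    unfold pp3 pin3
    rw [if_neg hq.symm, if_pos rfl]
  rw [h2, h3]
  by_cases h4 : ω q₁ = x <;> by_cases h5 : ω q₂ = y <;> simp [h4, h5]

theorem pr_cond_le3 {p : ι → V → ℝ} (hp : ∀ i, PW (p i)) (k : ι)
    (F : V → (ι → V) → Prop) (hF : ∀ a ω b, F a (Function.update ω k b) ↔ F a ω) (δ : ℝ)
    (h : ∀ a, Pr (prodW p) (F a) ≤ δ) : Pr (prodW p) (fun ω => F (ω k) ω) ≤ δ := by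
  classical
  rw [pr_eq_ex, ex_resample hp k]
  have h1 : (fun ω : ι → V => Ex (p k) (fun a =>
      if F (Function.update ω k a k) (Function.update ω k a) then (1 : ℝ) else 0))
      = fun ω => Ex (p k) (fun a => if F a ω then (1 : ℝ) else 0) := by
    funext ω
    congr 1
    funext a
    rw [Function.update_self]
    by_cases h2 : F a ω
    · rw [if_pos h2, if_pos ((hF a ω a).2 h2)]
    · rw [if_neg h2, if_neg (fun h3 => h2 ((hF a ω a).1 h3))]
  rw [h1]
  have h2 : Ex (prodW p) (fun ω => Ex (p k) (fun a => if F a ω then (1 : ℝ) else 0))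
      = Ex (p k) (fun a => Pr (prodW p) (F a)) := by
    simp_rw [pr_eq_ex]
    unfold Ex
    simp_rw [Finset.mul_sum]
    rw [Finset.sum_comm]
    refine Finset.sum_congr rfl fun a _ => Finset.sum_congr rfl fun ω _ => ?_
    ring
  rw [h2]
  exact ex_le_const (hp k) h

end Pin

section Dev

variable {n m : ℕ}

/-- mean of a function -/
noncomputable def mean (f : Fin n → ℝ) : ℝ := (∑ x, f x) / n

theorem ex_unif (f : Fin n → ℝ) : Ex (unifW (Fin n)) f = mean f := by
  unfold Ex unifW mean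
  rw [Fintype.card_fin, ← Finset.mul_sum]
  ring

theorem dev_le (hn : 0 < n) (p : ZMod 3 × Fin m → Fin n → ℝ) (hp : ∀ q, PW (p q)) (l : ZMod 3)
    (b0 : Fin m) (hb0 : ∀ b, b ≠ b0 → p (l, b) = unifW (Fin n)) (f : Fin n → ℝ)
    (hf0 : ∀ x, 0 ≤ f x) (hf1 : ∀ x, f x ≤ 1) (τ : ℝ) (hτ : 4 ≤ τ * m) :
    Pr (prodW p) (fun ω => τ * m < |∑ b, f (ω (l, b)) - m * mean f|)
      ≤ 2 * Real.exp (-(τ ^ 2 * m / 8)) := by
  have hn' : (0 : ℝ) < n := by exact_mod_cast hn
  have : Nonempty (Fin n) := ⟨⟨0, hn⟩⟩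
  have hm0 : (0 : ℝ) < m := by
    have h0 : (0 : ℝ) ≤ m := Nat.cast_nonneg m
    rcases h0.eq_or_lt with h | h
    · rw [← h] at hτ; linarith
    · exact h
  have hτ0 : 0 < τ := by
    by_contra h
    have : τ * m ≤ 0 := mul_nonpos_of_nonpos_of_nonneg (not_lt.1 h) hm0.le
    linarith
  have hmean0 : 0 ≤ mean f := by
    unfold mean
    exact div_nonneg (Finset.sum_nonneg fun x _ => hf0 x) hn'.le
  have hmean1 : mean f ≤ 1 := by
    rw [← ex_unif]
    exact ex_le_const pw_unif hf1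
  let emb : Fin m ↪ ZMod 3 × Fin m := ⟨fun b => (l, b), fun b c h => (Prod.mk.inj h).2⟩
  set s : Finset (ZMod 3 × Fin m) := (univ.erase b0).map emb with hs
  have hcard : (s.card : ℝ) = m - 1 := by
    rw [hs, Finset.card_map, Finset.card_erase_of_mem (Finset.mem_univ _), Finset.card_univ,
      Fintype.card_fin, Nat.cast_sub]
    · push_cast; ring
    · exact_mod_cast Nat.one_le_iff_ne_zero.2 (by rintro rfl; exact b0.elim0)
  have hsum : ∀ F : ZMod 3 × Fin m → ℝ, ∑ q ∈ s, F q = ∑ b ∈ univ.erase b0, F (l, b) := by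
    intro F
    rw [hs, Finset.sum_map]
    rfl
  have hex : ∑ q ∈ s, Ex (p q) f = (m - 1) * mean f := by
    rw [hsum (fun q => Ex (p q) f), Finset.sum_congr rfl (g := fun _ => mean f)]
    · rw [Finset.sum_const, nsmul_eq_mul]
      congr 1
      rw [← hcard, hs, Finset.card_map]
    · intro b hb
      rw [hb0 b (Finset.ne_of_mem_erase hb), ex_unif]
  have h1 := hoeffding_upper hp s (fun _ => f) (fun _ => hf0) (fun _ => hf1) (m : ℝ) hm0
    (by rw [hcard]; linarith) (τ * m / 2) (by positivity)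
  have h2 := hoeffding_lower hp s (fun _ => f) (fun _ => hf0) (fun _ => hf1) (m : ℝ) hm0
    (by rw [hcard]; linarith) (τ * m / 2) (by positivity)
  have h3 : -((τ * (m : ℝ) / 2) ^ 2 / (2 * (m : ℝ))) = -(τ ^ 2 * (m : ℝ) / 8) := by
    field_simp
    ring
  rw [h3, hex] at h1 h2
  refine le_trans (pr_mono (pw_prod hp) (F := fun ω =>
    (((m : ℝ) - 1) * mean f + τ * m / 2 ≤ ∑ q ∈ s, f (ω q)) ∨
    (∑ q ∈ s, f (ω q) ≤ ((m : ℝ) - 1) * mean f - τ * m / 2)) ?_)
    ((pr_or (pw_prod hp) _ _).trans (by linarith))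
  intro ω hω
  have h4 : ∑ b, f (ω (l, b)) = f (ω (l, b0)) + ∑ q ∈ s, f (ω q) := by
    rw [hsum (fun q => f (ω q)), Finset.add_sum_erase univ (fun b => f (ω (l, b)))
      (Finset.mem_univ b0)]
  rw [h4] at hω
  have h5 := hf0 (ω (l, b0))
  have h6 := hf1 (ω (l, b0))
  rcases lt_abs.1 hω with h | h
  · left; nlinarith
  · right; nlinarith

end Dev

section Main

theorem e21' (i : ZMod 3) : i + 2 + 1 = i := by revert i; decide

variable {n m : ℕ}

/-- the pulled back weights -/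
def pull (g : M3 ℝ n) (ω : ZMod 3 × Fin m → Fin n) : M3 ℝ m :=
  fun i a b => g i (ω (i, a)) (ω (i + 1, b))

/-- all degrees of the sample are as expected -/
def GoodS (g : M3 ℝ n) (τ : ℝ) (ω : ZMod 3 × Fin m → Fin n) : Prop :=
  (∀ i a, |∑ b, g i (ω (i, a)) (ω (i + 1, b)) - m * mean (g i (ω (i, a)))| ≤ τ * m) ∧
  (∀ i a, |∑ c, g (i + 2) (ω (i + 2, c)) (ω (i, a))
    - m * mean (fun c => g (i + 2) c (ω (i, a)))| ≤ τ * m)

/-- the coordinate of part `l` that may be pinned -/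
theorem exists_b0 (q₁ q₂ : ZMod 3 × Fin m) (hq : q₁.1 ≠ q₂.1) (x y : Fin n) (l : ZMod 3) :
    ∃ b0 : Fin m, ∀ b, b ≠ b0 → pp3 q₁ q₂ x y (l, b) = unifW (Fin n) := by
  by_cases h1 : l = q₁.1
  · refine ⟨q₁.2, fun b hb => ?_⟩
    unfold pp3
    rw [if_neg, if_neg]
    · rintro rfl
      exact hq h1.symm
    · rintro rfl
      exact hb rfl
  · by_cases h2 : l = q₂.1
    · refine ⟨q₂.2, fun b hb => ?_⟩
      unfold pp3
      rw [if_neg, if_neg]
      · rintro rfl
        exact hb rfl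
      · rintro rfl
        exact h1 rfl
    · refine ⟨q₁.2, fun b hb => ?_⟩
      unfold pp3
      rw [if_neg, if_neg]
      · rintro rfl
        exact h2 rfl
      · rintro rfl
        exact h1 rfl

theorem pr_bad3 (hn : 0 < n) (g : M3 ℝ n) (h0 : ∀ i a b, 0 ≤ g i a b) (h1 : ∀ i a b, g i a b ≤ 1)
    (τ : ℝ) (hτ : 4 ≤ τ * m) (q₁ q₂ : ZMod 3 × Fin m) (hq : q₁.1 ≠ q₂.1) (x y : Fin n) :
    Pr (prodW (pp3 q₁ q₂ x y)) (fun ω => ¬ GoodS g τ ω)
      ≤ 12 * m * Real.exp (-(τ ^ 2 * m / 8)) := by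
  have : Nonempty (Fin n) := ⟨⟨0, hn⟩⟩
  have hpw := pw_pp3 q₁ q₂ x y
  set δ := 2 * Real.exp (-(τ ^ 2 * (m : ℝ) / 8)) with hδ
  set F₁ : ZMod 3 × Fin m → Fin n → (ZMod 3 × Fin m → Fin n) → Prop := fun q v ω =>
    τ * m < |∑ b, g q.1 v (ω (q.1 + 1, b)) - m * mean (g q.1 v)| with hF₁
  set F₂ : ZMod 3 × Fin m → Fin n → (ZMod 3 × Fin m → Fin n) → Prop := fun q v ω =>
    τ * m < |∑ c, g (q.1 + 2) (ω (q.1 + 2, c)) v - m * mean (fun c => g (q.1 + 2) c v)| with hF₂
  have hn1 : ∀ i : ZMod 3, i + 1 ≠ i := by decide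
  have hn2 : ∀ i : ZMod 3, i + 2 ≠ i := by decide
  have e1 : ∀ q, Pr (prodW (pp3 q₁ q₂ x y)) (fun ω => F₁ q (ω q) ω) ≤ δ := by
    intro q
    refine pr_cond_le3 hpw q (F₁ q) ?_ δ ?_
    · intro a ω b
      have : ∀ c, Function.update ω q b (q.1 + 1, c) = ω (q.1 + 1, c) := by
        intro c
        refine Function.update_of_ne ?_ _ _
        intro h
        exact hn1 q.1 (congrArg Prod.fst h)
      simp only [hF₁, this]
    · intro v
      obtain ⟨b0, hb0⟩ := exists_b0 q₁ q₂ hq x y (q.1 + 1)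
      exact dev_le hn _ hpw (q.1 + 1) b0 hb0 (g q.1 v) (h0 _ _) (h1 _ _) τ hτ
  have e2 : ∀ q, Pr (prodW (pp3 q₁ q₂ x y)) (fun ω => F₂ q (ω q) ω) ≤ δ := by
    intro q
    refine pr_cond_le3 hpw q (F₂ q) ?_ δ ?_
    · intro a ω b
      have : ∀ c, Function.update ω q b (q.1 + 2, c) = ω (q.1 + 2, c) := by
        intro c
        refine Function.update_of_ne ?_ _ _
        intro h
        exact hn2 q.1 (congrArg Prod.fst h)
      simp only [hF₂, this]
    · intro v
      obtain ⟨b0, hb0⟩ := exists_b0 q₁ q₂ hq x y (q.1 + 2)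
      exact dev_le hn _ hpw (q.1 + 2) b0 hb0 (fun c => g (q.1 + 2) c v) (fun c => h0 _ _ _)
        (fun c => h1 _ _ _) τ hτ
  have e3 : Pr (prodW (pp3 q₁ q₂ x y)) (fun ω => ¬ GoodS g τ ω)
      ≤ Pr (prodW (pp3 q₁ q₂ x y)) (fun ω => (∃ q, F₁ q (ω q) ω) ∨ ∃ q, F₂ q (ω q) ω) := by
    refine pr_mono (pw_prod hpw) ?_
    intro ω hω
    unfold GoodS at hω
    rw [not_and_or] at hω
    rcases hω with h | h
    · left
      push Not at h
      obtain ⟨i, a, h⟩ := h
      exact ⟨(i, a), h⟩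
    · right
      push Not at h
      obtain ⟨i, a, h⟩ := h
      exact ⟨(i, a), h⟩
  refine e3.trans ((pr_or (pw_prod hpw) _ _).trans ?_)
  have e4 : Pr (prodW (pp3 q₁ q₂ x y)) (fun ω => ∃ q, F₁ q (ω q) ω) ≤ 3 * m * δ := by
    refine (pr_exists_le' (pw_prod hpw) _).trans ((Finset.sum_le_sum fun q _ => e1 q).trans ?_)
    rw [Finset.sum_const, Finset.card_univ, Fintype.card_prod, ZMod.card, Fintype.card_fin,
      nsmul_eq_mul]
    push_cast
    exact le_rfl
  have e5 : Pr (prodW (pp3 q₁ q₂ x y)) (fun ω => ∃ q, F₂ q (ω q) ω) ≤ 3 * m * δ := by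
    refine (pr_exists_le' (pw_prod hpw) _).trans ((Finset.sum_le_sum fun q _ => e2 q).trans ?_)
    rw [Finset.sum_const, Finset.card_univ, Fintype.card_prod, ZMod.card, Fintype.card_fin,
      nsmul_eq_mul]
    push_cast
    exact le_rfl
  refine (add_le_add e4 e5).trans (le_of_eq ?_)
  rw [hδ]
  ring

/-- the average over the pairs of coordinates of the parts `i`, `j` -/
noncomputable def pavg (i j : ZMod 3) (x y : Fin n)
    (Φ : (ZMod 3 × Fin m → Fin n) → Fin m → Fin m → ℝ) : ℝ :=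
  (∑ ω : ZMod 3 × Fin m → Fin n, ∑ a, ∑ b, if ω (i, a) = x ∧ ω (j, b) = y then Φ ω a b else 0)
    * ((1 / (n : ℝ)) ^ (3 * m - 2) / (m : ℝ) ^ 2)

theorem pavg_eq (i j : ZMod 3) (hij : i ≠ j) (x y : Fin n)
    (Φ : (ZMod 3 × Fin m → Fin n) → Fin m → Fin m → ℝ) :
    pavg i j x y Φ = (∑ a, ∑ b, Ex (prodW (pp3 (i, a) (j, b) x y)) (fun ω => Φ ω a b))
      / (m : ℝ) ^ 2 := by
  unfold pavg
  rw [mul_div_assoc', Finset.sum_mul]
  congr 1
  unfold Ex
  have h1 : ∀ a : Fin m, ∑ b, ∑ ω, prodW (pp3 (i, a) (j, b) x y) ω * Φ ω a b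
      = ∑ ω, ∑ b, prodW (pp3 (i, a) (j, b) x y) ω * Φ ω a b := fun a => Finset.sum_comm
  rw [Finset.sum_congr rfl fun a _ => h1 a, Finset.sum_comm]
  refine Finset.sum_congr rfl fun ω _ => ?_
  rw [Finset.sum_mul]
  refine Finset.sum_congr rfl fun a _ => ?_
  rw [Finset.sum_mul]
  refine Finset.sum_congr rfl fun b _ => ?_
  have hne : ((i, a) : ZMod 3 × Fin m) ≠ (j, b) := fun h => hij (congrArg Prod.fst h)
  rw [prodW_pp3 _ _ hne, Fintype.card_prod, ZMod.card, Fintype.card_fin, Fintype.card_fin]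
  by_cases h : ω (i, a) = x ∧ ω (j, b) = y
  · rw [if_pos h, if_pos h, mul_comm]
  · rw [if_neg h, if_neg h, zero_mul, zero_mul]

theorem pavg_bounds (hn : 0 < n) (hm : 0 < m) (i j : ZMod 3) (hij : i ≠ j) (x y : Fin n)
    (Φ : (ZMod 3 × Fin m → Fin n) → Fin m → Fin m → ℝ) (Good : (ZMod 3 × Fin m → Fin n) → Prop)
    (G κ p : ℝ) (hG : 0 ≤ G) (hκ0 : 0 ≤ κ) (hκ : κ ≤ 1) (hp0 : 0 ≤ p)
    (hp : ∀ a b, Pr (prodW (pp3 ((i, a) : ZMod 3 × Fin m) (j, b) x y)) (fun ω => ¬ Good ω) ≤ p)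
    (hΦ0 : ∀ ω a b, 0 ≤ Φ ω a b)
    (hΦ1 : ∀ ω a b, ω (i, a) = x → ω (j, b) = y → Φ ω a b ≤ G)
    (hΦ2 : ∀ ω a b, Good ω → ω (i, a) = x → ω (j, b) = y → (1 - κ) * G ≤ Φ ω a b) :
    (1 - κ - p) * G ≤ pavg i j x y Φ ∧ pavg i j x y Φ ≤ G := by
  classical
  have : Nonempty (Fin n) := ⟨⟨0, hn⟩⟩
  have hm' : (0 : ℝ) < m := by exact_mod_cast hm
  have hcard : ∀ c : ℝ, ∑ _a : Fin m, ∑ _b : Fin m, c = c * (m : ℝ) ^ 2 := by
    intro c
    simp only [Finset.sum_const, Finset.card_univ, Fintype.card_fin, nsmul_eq_mul]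
    ring
  rw [pavg_eq i j hij]
  constructor
  · rw [le_div_iff₀ (by positivity), ← hcard]
    refine Finset.sum_le_sum fun a _ => Finset.sum_le_sum fun b _ => ?_
    have hne : ((i, a) : ZMod 3 × Fin m) ≠ (j, b) := fun h => hij (congrArg Prod.fst h)
    have hpw := pw_pp3 ((i, a) : ZMod 3 × Fin m) (j, b) x y
    have h1 := hp a b
    rw [pr_not (pw_prod hpw)] at h1
    have h2 : (1 - κ) * G * Pr (prodW (pp3 ((i, a) : ZMod 3 × Fin m) (j, b) x y)) Good
        ≤ Ex (prodW (pp3 ((i, a) : ZMod 3 × Fin m) (j, b) x y)) (fun ω => Φ ω a b) := by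
      rw [pr_eq_ex, ← ex_mul_left]
      unfold Ex
      refine Finset.sum_le_sum fun ω _ => ?_
      by_cases h3 : ω (i, a) = x ∧ ω (j, b) = y
      · refine mul_le_mul_of_nonneg_left ?_ ((pw_prod hpw).1 ω)
        simp only
        by_cases h4 : Good ω
        · rw [if_pos h4, mul_one]
          exact hΦ2 ω a b h4 h3.1 h3.2
        · rw [if_neg h4, mul_zero]
          exact hΦ0 ω a b
      · rw [prodW_pp3 _ _ hne, if_neg h3, zero_mul, zero_mul]
    have h3 : 0 ≤ (1 - κ) * G := mul_nonneg (by linarith) hG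
    have h4 : (1 - κ) * G * (1 - p) ≤ (1 - κ) * G *
        Pr (prodW (pp3 ((i, a) : ZMod 3 × Fin m) (j, b) x y)) Good :=
      mul_le_mul_of_nonneg_left (by linarith) h3
    have h5 : (1 - κ - p) * G ≤ (1 - κ) * G * (1 - p) := by
      have e : (1 - κ) * G * (1 - p) = (1 - κ - p) * G + κ * p * G := by ring
      have : 0 ≤ κ * p * G := by positivity
      linarith
    linarith
  · rw [div_le_iff₀ (by positivity), ← hcard]
    refine Finset.sum_le_sum fun a _ => Finset.sum_le_sum fun b _ => ?_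
    have hne : ((i, a) : ZMod 3 × Fin m) ≠ (j, b) := fun h => hij (congrArg Prod.fst h)
    have hpw := pw_pp3 ((i, a) : ZMod 3 × Fin m) (j, b) x y
    have h1 : Ex (prodW (pp3 ((i, a) : ZMod 3 × Fin m) (j, b) x y)) (fun ω => Φ ω a b)
        ≤ Ex (prodW (pp3 ((i, a) : ZMod 3 × Fin m) (j, b) x y)) (fun _ => G) := by
      unfold Ex
      refine Finset.sum_le_sum fun ω _ => ?_
      by_cases h3 : ω (i, a) = x ∧ ω (j, b) = y
      · exact mul_le_mul_of_nonneg_left (hΦ1 ω a b h3.1 h3.2) ((pw_prod hpw).1 ω)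
      · rw [prodW_pp3 _ _ hne, if_neg h3, zero_mul, zero_mul]
    rwa [ex_const (pw_prod hpw)] at h1

/-- the density of the averaged weight -/
theorem pavg_third (hn : 0 < n) (hm : 0 < m) (i j l : ZMod 3) (hij : i ≠ j) (hli : l ≠ i)
    (hlj : l ≠ j) (x y z : Fin n)
    (D : (ZMod 3 × Fin m → Fin n) → Fin m → Fin m → Fin m → ℝ) (G : ℝ) (_hG : 0 ≤ G)
    (hD : ∀ ω a b c, ω (i, a) = x → ω (j, b) = y → D ω a b c ≤ G) :
    pavg i j x y (fun ω a b => ∑ c, if ω (l, c) = z then D ω a b c else 0) * n ≤ m * G := by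
  classical
  have : Nonempty (Fin n) := ⟨⟨0, hn⟩⟩
  have hm' : (0 : ℝ) < m := by exact_mod_cast hm
  have hn' : (0 : ℝ) < n := by exact_mod_cast hn
  have hcard : ∀ c : ℝ, ∑ _a : Fin m, ∑ _b : Fin m, c = c * (m : ℝ) ^ 2 := by
    intro c
    simp only [Finset.sum_const, Finset.card_univ, Fintype.card_fin, nsmul_eq_mul]
    ring
  rw [← le_div_iff₀ hn', pavg_eq i j hij, div_le_iff₀ (by positivity), ← hcard]
  refine Finset.sum_le_sum fun a _ => Finset.sum_le_sum fun b _ => ?_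
  have hne : ((i, a) : ZMod 3 × Fin m) ≠ (j, b) := fun h => hij (congrArg Prod.fst h)
  have hpw := pw_pp3 ((i, a) : ZMod 3 × Fin m) (j, b) x y
  have h1 : Ex (prodW (pp3 ((i, a) : ZMod 3 × Fin m) (j, b) x y))
      (fun ω => ∑ c, if ω (l, c) = z then D ω a b c else 0)
      ≤ Ex (prodW (pp3 ((i, a) : ZMod 3 × Fin m) (j, b) x y))
        (fun ω => ∑ c, G * (if ω (l, c) = z then 1 else 0)) := by
    unfold Ex
    refine Finset.sum_le_sum fun ω _ => ?_
    by_cases h3 : ω (i, a) = x ∧ ω (j, b) = y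
    · refine mul_le_mul_of_nonneg_left ?_ ((pw_prod hpw).1 ω)
      refine Finset.sum_le_sum fun c _ => ?_
      by_cases h4 : ω (l, c) = z
      · rw [if_pos h4, if_pos h4, mul_one]
        exact hD ω a b c h3.1 h3.2
      · rw [if_neg h4, if_neg h4, mul_zero]
    · rw [prodW_pp3 _ _ hne, if_neg h3, zero_mul, zero_mul]
  refine h1.trans ?_
  rw [ex_sum]
  have h2 : ∀ c ∈ (univ : Finset (Fin m)), Ex (prodW (pp3 ((i, a) : ZMod 3 × Fin m) (j, b) x y))
      (fun ω => G * (if ω (l, c) = z then 1 else 0)) ≤ G / n := by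
    intro c _
    rw [ex_mul_left, ex_coord hpw (l, c) (fun v => if v = z then (1 : ℝ) else 0)]
    have h3 : pp3 ((i, a) : ZMod 3 × Fin m) (j, b) x y (l, c) = unifW (Fin n) := by
      unfold pp3
      rw [if_neg (fun h => hli (congrArg Prod.fst h)), if_neg (fun h => hlj (congrArg Prod.fst h))]
    rw [h3]
    unfold Ex unifW
    simp only [mul_ite, mul_one, mul_zero, Finset.sum_ite_eq', Finset.mem_univ, if_true,
      Fintype.card_fin]
    rw [mul_one_div]
  refine (Finset.sum_le_card_nsmul _ _ _ h2).trans (le_of_eq ?_)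
  rw [Finset.card_univ, Fintype.card_fin, nsmul_eq_mul]
  ring

theorem pavg_sum (i j : ZMod 3) (x y : Fin n)
    (Φ : Fin n → (ZMod 3 × Fin m → Fin n) → Fin m → Fin m → ℝ) :
    ∑ z, pavg i j x y (Φ z) = pavg i j x y (fun ω a b => ∑ z, Φ z ω a b) := by
  unfold pavg
  rw [← Finset.sum_mul]
  congr 1
  rw [Finset.sum_comm]
  refine Finset.sum_congr rfl fun ω _ => ?_
  rw [Finset.sum_comm]
  refine Finset.sum_congr rfl fun a _ => ?_
  rw [Finset.sum_comm]
  refine Finset.sum_congr rfl fun b _ => ?_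
  by_cases h : ω (i, a) = x ∧ ω (j, b) = y
  · simp only [if_pos h]
  · simp only [if_neg h, Finset.sum_const_zero]

theorem sum_third (l : ZMod 3) (ω : ZMod 3 × Fin m → Fin n) (E : Fin m → ℝ) :
    ∑ z, ∑ c, (if ω (l, c) = z then E c else 0) = ∑ c, E c := by
  rw [Finset.sum_comm]
  refine Finset.sum_congr rfl fun c _ => ?_
  rw [Finset.sum_ite_eq]
  simp

/-- the three representations of the averaged weight -/
theorem pavg_cyc (D : (ZMod 3 × Fin m → Fin n) → Fin m → Fin m → Fin m → ℝ) (x y z : Fin n) :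
    pavg 0 1 x y (fun ω a b => ∑ c, if ω (2, c) = z then D ω a b c else 0)
      = pavg 1 2 y z (fun ω b c => ∑ a, if ω (0, a) = x then D ω a b c else 0) ∧
    pavg 0 1 x y (fun ω a b => ∑ c, if ω (2, c) = z then D ω a b c else 0)
      = pavg 2 0 z x (fun ω c a => ∑ b, if ω (1, b) = y then D ω a b c else 0) := by
  have h0 : ∀ ω : ZMod 3 × Fin m → Fin n, (∑ a, ∑ b, if ω (0, a) = x ∧ ω (1, b) = y then
      ∑ c, (if ω (2, c) = z then D ω a b c else 0) else 0)
      = ∑ a, ∑ b, ∑ c, if ω (0, a) = x ∧ ω (1, b) = y ∧ ω (2, c) = z then D ω a b c else 0 := by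
    intro ω
    refine Finset.sum_congr rfl fun a _ => Finset.sum_congr rfl fun b _ => ?_
    by_cases h : ω (0, a) = x ∧ ω (1, b) = y
    · rw [if_pos h]
      refine Finset.sum_congr rfl fun c _ => ?_
      by_cases h' : ω (2, c) = z
      · rw [if_pos h', if_pos ⟨h.1, h.2, h'⟩]
      · rw [if_neg h', if_neg (fun e => h' e.2.2)]
    · rw [if_neg h]
      symm
      refine Finset.sum_eq_zero fun c _ => if_neg (fun e => h ⟨e.1, e.2.1⟩)
  have h1 : ∀ ω : ZMod 3 × Fin m → Fin n, (∑ b, ∑ c, if ω (1, b) = y ∧ ω (2, c) = z then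
      ∑ a, (if ω (0, a) = x then D ω a b c else 0) else 0)
      = ∑ a, ∑ b, ∑ c, if ω (0, a) = x ∧ ω (1, b) = y ∧ ω (2, c) = z then D ω a b c else 0 := by
    intro ω
    have e : (∑ a, ∑ b, ∑ c,
        if ω (0, a) = x ∧ ω (1, b) = y ∧ ω (2, c) = z then D ω a b c else 0)
        = ∑ b, ∑ c, ∑ a,
        if ω (0, a) = x ∧ ω (1, b) = y ∧ ω (2, c) = z then D ω a b c else 0 := by
      rw [Finset.sum_comm]
      refine Finset.sum_congr rfl fun b _ => ?_
      rw [Finset.sum_comm]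
    rw [e]
    refine Finset.sum_congr rfl fun b _ => Finset.sum_congr rfl fun c _ => ?_
    by_cases h : ω (1, b) = y ∧ ω (2, c) = z
    · rw [if_pos h]
      refine Finset.sum_congr rfl fun a _ => ?_
      by_cases h' : ω (0, a) = x
      · rw [if_pos h', if_pos ⟨h', h.1, h.2⟩]
      · rw [if_neg h', if_neg (fun e => h' e.1)]
    · rw [if_neg h]
      symm
      refine Finset.sum_eq_zero fun a _ => if_neg (fun e => h ⟨e.2.1, e.2.2⟩)
  have h2 : ∀ ω : ZMod 3 × Fin m → Fin n, (∑ c, ∑ a, if ω (2, c) = z ∧ ω (0, a) = x then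
      ∑ b, (if ω (1, b) = y then D ω a b c else 0) else 0)
      = ∑ a, ∑ b, ∑ c, if ω (0, a) = x ∧ ω (1, b) = y ∧ ω (2, c) = z then D ω a b c else 0 := by
    intro ω
    have e : (∑ a, ∑ b, ∑ c,
        if ω (0, a) = x ∧ ω (1, b) = y ∧ ω (2, c) = z then D ω a b c else 0)
        = ∑ c, ∑ a, ∑ b,
        if ω (0, a) = x ∧ ω (1, b) = y ∧ ω (2, c) = z then D ω a b c else 0 := by
      rw [Finset.sum_congr rfl fun a _ => Finset.sum_comm]
      rw [Finset.sum_comm]
    rw [e]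
    refine Finset.sum_congr rfl fun c _ => Finset.sum_congr rfl fun a _ => ?_
    by_cases h : ω (2, c) = z ∧ ω (0, a) = x
    · rw [if_pos h]
      refine Finset.sum_congr rfl fun b _ => ?_
      by_cases h' : ω (1, b) = y
      · rw [if_pos h', if_pos ⟨h.2, h', h.1⟩]
      · rw [if_neg h', if_neg (fun e => h' e.2.1)]
    · rw [if_neg h]
      symm
      refine Finset.sum_eq_zero fun b _ => if_neg (fun e => h ⟨e.2.2, e.1⟩)
  unfold pavg
  constructor
  · congr 1
    refine Finset.sum_congr rfl fun ω _ => ?_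
    rw [h0 ω, h1 ω]
  · congr 1
    refine Finset.sum_congr rfl fun ω _ => ?_
    rw [h0 ω, h2 ω]

theorem exists_m3 (τ γ : ℝ) (hτ : 0 < τ) (hγ : 0 < γ) : ∃ m : ℕ, 0 < m ∧ 4 ≤ τ * (m : ℝ) ∧
    12 * (m : ℝ) * Real.exp (-(τ ^ 2 * (m : ℝ) / 8)) ≤ γ := by
  obtain ⟨m, hm⟩ := exists_nat_ge (1 + 4 / τ + 1536 / (τ ^ 4 * γ))
  have h1 : 0 < 4 / τ := by positivity
  have h2 : 0 < 1536 / (τ ^ 4 * γ) := by positivity
  have hm1 : (0 : ℝ) < m := by linarith
  refine ⟨m, by exact_mod_cast hm1, ?_, ?_⟩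
  · have h3 : 4 / τ ≤ (m : ℝ) := by linarith
    rw [div_le_iff₀ hτ] at h3
    linarith
  · have h3 : 1536 / (τ ^ 4 * γ) ≤ (m : ℝ) := by linarith
    rw [div_le_iff₀ (by positivity)] at h3
    set t : ℝ := τ ^ 2 * (m : ℝ) / 8 with ht
    have ht0 : 0 < t := by positivity
    have h4 := Real.quadratic_le_exp_of_nonneg ht0.le
    have h5 : t ^ 2 / 2 ≤ Real.exp t := by linarith
    rw [Real.exp_neg, ← div_eq_mul_inv, div_le_iff₀ (Real.exp_pos _)]
    have h6 : 12 * (m : ℝ) ≤ γ * (t ^ 2 / 2) := by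
      rw [ht]
      have h7 : γ * ((τ ^ 2 * (m : ℝ) / 8) ^ 2 / 2) = (m : ℝ) * ((m : ℝ) * (τ ^ 4 * γ)) / 128 := by
        ring
      rw [h7]
      nlinarith
    exact h6.trans (mul_le_mul_of_nonneg_left h5 hγ.le)

end Main

/-- **P-N1** from a fractional theorem, by sampling. -/
theorem sample3 (ρ : ℝ) (hρ : ρ ≤ 1 / 4) (hF : FT ρ) (ε γ : ℝ) (hε : 0 < ε) (hγ : 0 < γ) :
    ∃ θ : ℝ, 0 < θ ∧ ∃ C : ℝ, 0 < C ∧ ∀ (n : ℕ) (g : M3 ℝ n), 0 < n →
    (∀ i a b, 0 ≤ g i a b) → (∀ i a b, g i a b ≤ 1) →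
    (∀ i a, ∑ b, (1 - g i a b) ≤ (ρ - ε) * n) →
    (∀ i a, ∑ c, (1 - g (i + 2) c a) ≤ (ρ - ε) * n) →
    (∀ i a, |∑ b, g i a b - ∑ c, g (i + 2) c a| ≤ θ * n) →
    ∃ w : Fin n → Fin n → Fin n → ℝ, (∀ a b c, 0 ≤ w a b c) ∧
      (∀ a b c, w a b c * n ≤ C * g 0 a b ∧ w a b c * n ≤ C * g 1 b c ∧
        w a b c * n ≤ C * g 2 c a) ∧
      (∀ a b, (1 - γ) * g 0 a b ≤ ∑ c, w a b c ∧ ∑ c, w a b c ≤ g 0 a b) ∧
      (∀ b c, (1 - γ) * g 1 b c ≤ ∑ a, w a b c ∧ ∑ a, w a b c ≤ g 1 b c) ∧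
      (∀ c a, (1 - γ) * g 2 c a ≤ ∑ b, w a b c ∧ ∑ b, w a b c ≤ g 2 c a) := by
  classical
  set η : ℝ := min (min (γ / 4) (ε / 4)) (1 / 4) with hη
  have hη0 : 0 < η := lt_min (lt_min (by linarith) (by linarith)) (by norm_num)
  have hη1 : 4 * η ≤ γ := by
    have : η ≤ γ / 4 := (min_le_left _ _).trans (min_le_left _ _)
    linarith
  have hη2 : 4 * η ≤ ε := by
    have : η ≤ ε / 4 := (min_le_left _ _).trans (min_le_right _ _)
    linarith
  have hη3 : η ≤ 1 / 4 := min_le_right _ _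
  set τ : ℝ := η / 24 with hτ
  have hτ0 : 0 < τ := by positivity
  obtain ⟨m, hm0, hm4, hmγ⟩ := exists_m3 τ (γ / 2) hτ0 (by linarith)
  have hm' : (0 : ℝ) < m := by exact_mod_cast hm0
  refine ⟨τ, hτ0, m, hm', ?_⟩
  intro n g hn h0 h1 hrow hcol hbal
  have hn' : (0 : ℝ) < n := by exact_mod_cast hn
  have : Nonempty (Fin n) := ⟨⟨0, hn⟩⟩
  -- means
  have hmean_row : ∀ i a, 1 - (ρ - ε) ≤ mean (g i a) := by
    intro i a
    have e := hrow i a
    rw [Finset.sum_sub_distrib] at e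
    simp only [Finset.sum_const, Finset.card_univ, Fintype.card_fin, nsmul_eq_mul, mul_one] at e
    unfold mean
    rw [le_div_iff₀ hn']
    linarith
  have hmean_col : ∀ i a, 1 - (ρ - ε) ≤ mean (fun c => g (i + 2) c a) := by
    intro i a
    have e := hcol i a
    rw [Finset.sum_sub_distrib] at e
    simp only [Finset.sum_const, Finset.card_univ, Fintype.card_fin, nsmul_eq_mul, mul_one] at e
    unfold mean
    rw [le_div_iff₀ hn']
    linarith
  have hmean_bal : ∀ i a, |mean (g i a) - mean (fun c => g (i + 2) c a)| ≤ τ := by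
    intro i a
    have e := hbal i a
    unfold mean
    rw [← sub_div, abs_div, abs_of_pos hn', div_le_iff₀ hn']
    exact e
  -- decompositions of good samples
  have hex : ∀ ω : ZMod 3 × Fin m → Fin n, ∃ (h : M3 ℝ m) (D : Fin m → Fin m → Fin m → ℝ),
      (GoodS g τ ω → (∀ i a b, (1 - 2 * η) * g i (ω (i, a)) (ω (i + 1, b)) ≤ h i a b ∧
        h i a b ≤ g i (ω (i, a)) (ω (i + 1, b))) ∧ IsDecomp h D) ∧
      (¬ GoodS g τ ω → D = fun _ _ _ => 0) := by
    intro ω
    by_cases hω : GoodS g τ ω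
    · have e1 : ∀ i a, ∑ b, (1 - pull g ω i a b) ≤ (ρ - ε + τ) * m := by
        intro i a
        have e := (abs_le.1 (hω.1 i a)).1
        rw [Finset.sum_sub_distrib]
        simp only [Finset.sum_const, Finset.card_univ, Fintype.card_fin, nsmul_eq_mul, mul_one]
        unfold pull
        have e' := mul_le_mul_of_nonneg_left (hmean_row i (ω (i, a))) hm'.le
        nlinarith
      have e2 : ∀ i a, ∑ c, (1 - pull g ω (i + 2) c a) ≤ (ρ - ε + τ) * m := by
        intro i a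
        have e := (abs_le.1 (hω.2 i a)).1
        rw [Finset.sum_sub_distrib]
        simp only [Finset.sum_const, Finset.card_univ, Fintype.card_fin, nsmul_eq_mul, mul_one]
        unfold pull
        rw [e21' i]
        have e' := mul_le_mul_of_nonneg_left (hmean_col i (ω (i, a))) hm'.le
        nlinarith
      have e3 : ∀ i a, |∑ b, pull g ω i a b - ∑ c, pull g ω (i + 2) c a| ≤ 3 * τ * m := by
        intro i a
        have f1 := abs_le.1 (hω.1 i a)
        have f2 := abs_le.1 (hω.2 i a)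
        have f3 := abs_le.1 (hmean_bal i (ω (i, a)))
        have f4 := mul_le_mul_of_nonneg_left f3.1 hm'.le
        have f5 := mul_le_mul_of_nonneg_left f3.2 hm'.le
        unfold pull
        rw [e21' i, abs_le]
        constructor <;> nlinarith [f1.1, f1.2, f2.1, f2.2]
      obtain ⟨h, d, hh, S⟩ := repairM3 (pull g ω) ((ρ - ε + τ) * m) (3 * τ * m) η
        (fun i a b => h0 _ _ _) (fun i a b => h1 _ _ _) e1 e2
        (by
          have : ρ - ε + τ < 1 / 2 := by linarith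
          nlinarith) e3
        (by
          have f1 : (1 : ℝ) / 2 * m ≤ (m : ℝ) - 2 * ((ρ - ε + τ) * m) := by
            have : ρ - ε + τ ≤ 1 / 4 := by linarith
            nlinarith
          have f2 := mul_le_mul_of_nonneg_left f1 hη0.le
          have f3 : 4 * (3 * τ * m) = η * ((1 : ℝ) / 2 * m) := by rw [hτ]; ring
          linarith) hη0.le (by linarith)
      have S' : WSetup h d (ρ * m) := by
        refine ⟨S.g0, S.g1, S.row, S.col, fun i a => (S.dk i a).trans ?_⟩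
        have : (ρ - ε + τ) * m + 2 * η * m = (ρ - ε + τ + 2 * η) * m := by ring
        rw [this]
        exact mul_le_mul_of_nonneg_right (by linarith) hm'.le
      obtain ⟨D, hD⟩ := hF m h d S'
      exact ⟨h, D, fun _ => ⟨hh, hD⟩, fun h' => absurd hω h'⟩
    · exact ⟨fun _ _ _ => 0, fun _ _ _ => 0, fun h' => absurd h' hω, fun _ => rfl⟩
  choose h D hg hb using hex
  have hD0 : ∀ ω a b c, 0 ≤ D ω a b c := by
    intro ω a b c
    by_cases hω : GoodS g τ ω
    · exact (hg ω hω).2.1 a b c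
    · rw [hb ω hω]
  -- sums over one index
  have hs0 : ∀ ω a b, ∑ c, D ω a b c ≤ g 0 (ω (0, a)) (ω (1, b)) := by
    intro ω a b
    by_cases hω : GoodS g τ ω
    · rw [(hg ω hω).2.2.1 a b]
      have := ((hg ω hω).1 0 a b).2
      rwa [z01] at this
    · rw [hb ω hω]
      simp only [Finset.sum_const_zero]
      exact h0 _ _ _
  have hs1 : ∀ ω b c, ∑ a, D ω a b c ≤ g 1 (ω (1, b)) (ω (2, c)) := by
    intro ω b c
    by_cases hω : GoodS g τ ω
    · rw [(hg ω hω).2.2.2.1 b c]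
      have := ((hg ω hω).1 1 b c).2
      rwa [z11] at this
    · rw [hb ω hω]
      simp only [Finset.sum_const_zero]
      exact h0 _ _ _
  have hs2 : ∀ ω c a, ∑ b, D ω a b c ≤ g 2 (ω (2, c)) (ω (0, a)) := by
    intro ω c a
    by_cases hω : GoodS g τ ω
    · rw [(hg ω hω).2.2.2.2 c a]
      have := ((hg ω hω).1 2 c a).2
      rwa [z21] at this
    · rw [hb ω hω]
      simp only [Finset.sum_const_zero]
      exact h0 _ _ _
  have ht0 : ∀ ω a b, GoodS g τ ω → (1 - 2 * η) * g 0 (ω (0, a)) (ω (1, b)) ≤ ∑ c, D ω a b c := by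
    intro ω a b hω
    rw [(hg ω hω).2.2.1 a b]
    have := ((hg ω hω).1 0 a b).1
    rwa [z01] at this
  have ht1 : ∀ ω b c, GoodS g τ ω → (1 - 2 * η) * g 1 (ω (1, b)) (ω (2, c)) ≤ ∑ a, D ω a b c := by
    intro ω b c hω
    rw [(hg ω hω).2.2.2.1 b c]
    have := ((hg ω hω).1 1 b c).1
    rwa [z11] at this
  have ht2 : ∀ ω c a, GoodS g τ ω → (1 - 2 * η) * g 2 (ω (2, c)) (ω (0, a)) ≤ ∑ b, D ω a b c := by
    intro ω c a hω
    rw [(hg ω hω).2.2.2.2 c a]
    have := ((hg ω hω).1 2 c a).1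
    rwa [z21] at this
  have hpb : ∀ (i j : ZMod 3), i ≠ j → ∀ (x y : Fin n) (a b : Fin m),
      Pr (prodW (pp3 ((i, a) : ZMod 3 × Fin m) (j, b) x y)) (fun ω => ¬ GoodS g τ ω) ≤ γ / 2 :=
    fun i j hij x y a b => (pr_bad3 hn g h0 h1 τ hm4 (i, a) (j, b) hij x y).trans hmγ
  refine ⟨fun x y z => pavg 0 1 x y (fun ω a b => ∑ c, if ω (2, c) = z then D ω a b c else 0),
    ?_, ?_, ?_, ?_, ?_⟩
  · intro x y z
    unfold pavg
    refine mul_nonneg ?_ (by positivity)
    refine Finset.sum_nonneg fun ω _ => Finset.sum_nonneg fun a _ => Finset.sum_nonneg fun b _ => ?_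
    split_ifs
    · refine Finset.sum_nonneg fun c _ => ?_
      split_ifs
      · exact hD0 _ _ _ _
      · exact le_rfl
    · exact le_rfl
  · intro x y z
    refine ⟨?_, ?_, ?_⟩
    · refine pavg_third hn hm0 0 1 2 (by decide) (by decide) (by decide) x y z D (g 0 x y)
        (h0 _ _ _) ?_
      intro ω a b c h3 h4
      have := Finset.single_le_sum (f := fun c => D ω a b c) (fun c _ => hD0 ω a b c)
        (Finset.mem_univ c)
      have := hs0 ω a b
      rw [h3, h4] at this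
      linarith
    · change pavg 0 1 x y (fun ω a b => ∑ c, if ω (2, c) = z then D ω a b c else 0) * (n : ℝ) ≤ _
      rw [(pavg_cyc D x y z).1]
      refine pavg_third hn hm0 1 2 0 (by decide) (by decide) (by decide) y z x
        (fun ω b c a => D ω a b c) (g 1 y z) (h0 _ _ _) ?_
      intro ω b c a h3 h4
      have := Finset.single_le_sum (f := fun a => D ω a b c) (fun a _ => hD0 ω a b c)
        (Finset.mem_univ a)
      have := hs1 ω b c
      rw [h3, h4] at this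
      linarith
    · change pavg 0 1 x y (fun ω a b => ∑ c, if ω (2, c) = z then D ω a b c else 0) * (n : ℝ) ≤ _
      rw [(pavg_cyc D x y z).2]
      refine pavg_third hn hm0 2 0 1 (by decide) (by decide) (by decide) z x y
        (fun ω c a b => D ω a b c) (g 2 z x) (h0 _ _ _) ?_
      intro ω c a b h3 h4
      have := Finset.single_le_sum (f := fun b => D ω a b c) (fun b _ => hD0 ω a b c)
        (Finset.mem_univ b)
      have := hs2 ω c a
      rw [h3, h4] at this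
      linarith
  · intro x y
    rw [pavg_sum]
    simp only [sum_third]
    have e := pavg_bounds hn hm0 0 1 (by decide) x y (fun ω a b => ∑ c, D ω a b c) (GoodS g τ)
      (g 0 x y) (2 * η) (γ / 2) (h0 _ _ _) (by linarith) (by linarith) (by linarith)
      (hpb 0 1 (by decide) x y) (fun ω a b => Finset.sum_nonneg fun c _ => hD0 ω a b c)
      (by
        intro ω a b h3 h4
        have := hs0 ω a b
        rwa [h3, h4] at this)
      (by
        intro ω a b hω h3 h4
        have := ht0 ω a b hω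
        rwa [h3, h4] at this)
    refine ⟨le_trans ?_ e.1, e.2⟩
    exact mul_le_mul_of_nonneg_right (by linarith) (h0 _ _ _)
  · intro y z
    have e0 : ∀ x, pavg 0 1 x y (fun ω a b => ∑ c, if ω (2, c) = z then D ω a b c else 0)
        = pavg 1 2 y z (fun ω b c => ∑ a, if ω (0, a) = x then D ω a b c else 0) :=
      fun x => (pavg_cyc D x y z).1
    simp only [e0]
    rw [pavg_sum]
    simp only [sum_third]
    have e := pavg_bounds hn hm0 1 2 (by decide) y z (fun ω b c => ∑ a, D ω a b c) (GoodS g τ)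
      (g 1 y z) (2 * η) (γ / 2) (h0 _ _ _) (by linarith) (by linarith) (by linarith)
      (hpb 1 2 (by decide) y z) (fun ω b c => Finset.sum_nonneg fun a _ => hD0 ω a b c)
      (by
        intro ω b c h3 h4
        have := hs1 ω b c
        rwa [h3, h4] at this)
      (by
        intro ω b c hω h3 h4
        have := ht1 ω b c hω
        rwa [h3, h4] at this)
    refine ⟨le_trans ?_ e.1, e.2⟩
    exact mul_le_mul_of_nonneg_right (by linarith) (h0 _ _ _)
  · intro z x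
    have e0 : ∀ y, pavg 0 1 x y (fun ω a b => ∑ c, if ω (2, c) = z then D ω a b c else 0)
        = pavg 2 0 z x (fun ω c a => ∑ b, if ω (1, b) = y then D ω a b c else 0) :=
      fun y => (pavg_cyc D x y z).2
    simp only [e0]
    rw [pavg_sum]
    simp only [sum_third]
    have e := pavg_bounds hn hm0 2 0 (by decide) z x (fun ω c a => ∑ b, D ω a b c) (GoodS g τ)
      (g 2 z x) (2 * η) (γ / 2) (h0 _ _ _) (by linarith) (by linarith) (by linarith)
      (hpb 2 0 (by decide) z x) (fun ω c a => Finset.sum_nonneg fun b _ => hD0 ω a b c)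
      (by
        intro ω c a h3 h4
        have := hs2 ω c a
        rwa [h3, h4] at this)
      (by
        intro ω c a hω h3 h4
        have := ht2 ω c a hω
        rwa [h3, h4] at this)
    refine ⟨le_trans ?_ e.1, e.2⟩
    exact mul_le_mul_of_nonneg_right (by linarith) (h0 _ _ _)

end NW3
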