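import Pool.Agent.NW3.AbsA
import Pool.Agent.NW.Absorber

/-!
# 3-partite absorbers: one absorber for all locally balanced graphs on a small set
-/

set_option linter.unusedSectionVars false

namespace NW

open Finset

namespace Ab3

open Ab

variable {V : Type} [DecidableEq V] {κ : V → Fin 3}

/-- a transversal triangle inside `W` -/
def Tr (κ : V → Fin 3) (W : Finset V) (t : V × V × V) : Prop :=
  t.1 ∈ W ∧ t.2.1 ∈ W ∧ t.2.2 ∈ W ∧ Tv κ t.1 t.2.1 t.2.2

/-- signed sums of at most `k` transversal triangles of `W` -/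
def Sg (κ : V → Fin 3) (W : Finset V) (k : ℕ) (f : Sym2 V → ℤ) : Prop :=
  ∃ p m : List (V × V × V), p.length + m.length ≤ k ∧ (∀ t ∈ p, Tr κ W t) ∧
    (∀ t ∈ m, Tr κ W t) ∧ ∀ e, f e = ((tsum p).count e : ℤ) - ((tsum m).count e : ℤ)

variable {W : Finset V}

theorem Sg.zero : Sg κ W 0 0 := by
  refine ⟨[], [], by simp, by simp, by simp, fun e => ?_⟩
  simp [tsum_nil]

theorem Sg.mono {k k' : ℕ} {f : Sym2 V → ℤ} (h : Sg κ W k f) (hk : k ≤ k') : Sg κ W k' f := by
  obtain ⟨p, m, h1, h2⟩ := h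
  exact ⟨p, m, h1.trans hk, h2⟩

theorem Sg.add {k l : ℕ} {f g : Sym2 V → ℤ} (hf : Sg κ W k f) (hg : Sg κ W l g) :
    Sg κ W (k + l) (f + g) := by
  obtain ⟨p, m, h1, h2, h3, h4⟩ := hf
  obtain ⟨p', m', k1, k2, k3, k4⟩ := hg
  refine ⟨p ++ p', m ++ m', ?_, ?_, ?_, fun e => ?_⟩
  · rw [List.length_append, List.length_append]
    omega
  · intro t ht
    rcases List.mem_append.1 ht with h | h
    · exact h2 t h
    · exact k2 t h
  · intro t ht
    rcases List.mem_append.1 ht with h | h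
    · exact h3 t h
    · exact k3 t h
  · rw [Pi.add_apply, h4, k4, tsum_append, tsum_append, Multiset.count_add, Multiset.count_add]
    push_cast
    ring

theorem Sg.neg {k : ℕ} {f : Sym2 V → ℤ} (hf : Sg κ W k f) : Sg κ W k (-f) := by
  obtain ⟨p, m, h1, h2, h3, h4⟩ := hf
  refine ⟨m, p, by omega, h3, h2, fun e => ?_⟩
  rw [Pi.neg_apply, h4]
  ring

theorem Sg.sub {k l : ℕ} {f g : Sym2 V → ℤ} (hf : Sg κ W k f) (hg : Sg κ W l g) :
    Sg κ W (k + l) (f - g) := by
  rw [sub_eq_add_neg]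
  exact hf.add hg.neg

theorem Sg.sum {ι : Type*} (s : Finset ι) (k : ι → ℕ) (f : ι → Sym2 V → ℤ)
    (h : ∀ i ∈ s, Sg κ W (k i) (f i)) : Sg κ W (∑ i ∈ s, k i) (∑ i ∈ s, f i) := by
  classical
  induction s using Finset.induction_on with
  | empty =>
    rw [Finset.sum_empty, Finset.sum_empty]
    exact Sg.zero
  | insert a s ha ih =>
    rw [Finset.sum_insert ha, Finset.sum_insert ha]
    exact (h a (Finset.mem_insert_self _ _)).add
      (ih fun i hi => h i (Finset.mem_insert_of_mem hi))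

theorem Sg.nsmul {k : ℕ} {f : Sym2 V → ℤ} (hf : Sg κ W k f) (n : ℕ) :
    Sg κ W (n * k) (n • f) := by
  induction n with
  | zero =>
    rw [zero_mul, zero_smul]
    exact Sg.zero
  | succ n ih =>
    rw [add_mul, one_mul, succ_nsmul]
    exact ih.add hf

theorem Sg.tri {a b c : V} (ha : a ∈ W) (hb : b ∈ W) (hc : c ∈ W) (ht : Tv κ a b c) :
    Sg κ W 1 (dl s(a, b) + dl s(b, c) + dl s(a, c)) := by
  refine ⟨[(a, b, c)], [], by simp, ?_, by simp, fun e => ?_⟩
  · intro t ht'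
    rw [List.mem_singleton] at ht'
    subst ht'
    exact ⟨ha, hb, hc, ht⟩
  · rw [tsum_cons, tsum_nil]
    simp only [trim, Pi.add_apply, dl, add_zero, Multiset.count_add, Multiset.count_singleton,
      Multiset.count_zero]
    push_cast
    ring

theorem Sg.ms {D : Finset (Sym2 V)} {k : ℕ} (h : Sg κ W k (∑ d ∈ D, dl d)) :
    ∃ p m : List (V × V × V), p.length + m.length ≤ k ∧ (∀ t ∈ p, Tr κ W t) ∧
      (∀ t ∈ m, Tr κ W t) ∧ tsum p = tsum m + D.val := by
  obtain ⟨p, m, h1, h2, h3, h4⟩ := h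
  refine ⟨p, m, h1, h2, h3, ?_⟩
  rw [Multiset.ext]
  intro e
  have h5 := h4 e
  have h6 : (∑ d ∈ D, dl d) e = (D.val.count e : ℤ) := by
    rw [Finset.sum_apply]
    unfold dl
    rw [Finset.sum_ite_eq, Multiset.count_eq_of_nodup D.nodup]
    simp only [Finset.mem_val]
    split_ifs <;> simp
  rw [h6] at h5
  rw [Multiset.count_add]
  omega

variable [Fintype V]

/-- the degree of `x` in `D` into the part `i` -/
def dg (κ : V → Fin 3) (D : Finset (Sym2 V)) (x : V) (i : Fin 3) : ℕ :=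
  ((nbr D x).filter fun u => κ u = i).card

/-- the third colour of a pair -/
def thd (κ : V → Fin 3) : Sym2 V → Fin 3 :=
  Sym2.lift ⟨fun x y => -(κ x + κ y), fun x y => by
    change -(κ x + κ y) = -(κ y + κ x)
    rw [add_comm]⟩

theorem thd_mk (x y : V) : thd κ s(x, y) = -(κ x + κ y) := rfl

theorem third : ∀ a b : Fin 3, a ≠ b → b ≠ -(a + b) ∧ a ≠ -(a + b) := by decide

/-- **The algebra** in the 3-partite case. -/
theorem sg_balanced {D : Finset (Sym2 V)} {U : Finset V} (hU : U ⊆ W) (hD : D ⊆ U.sym2)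
    (hcol : ∀ u v, s(u, v) ∈ D → κ u ≠ κ v)
    (hbal : ∀ x i j, i ≠ κ x → j ≠ κ x → dg κ D x i = dg κ D x j)
    (c : Fin 3 → V) (hκ : ∀ i, κ (c i) = i) (hc : ∀ i, c i ∈ W) :
    Sg κ W (16 * D.card) (∑ d ∈ D, dl d) := by
  have hNL : NL D := by
    intro d hd
    induction d with
    | _ a b =>
      rw [Sym2.mk_isDiag_iff]
      intro e
      exact hcol a b hd (by rw [e])
  -- edges with two spokes
  have h1 : ∀ d ∈ D, Sg κ W 1 (dl d + ∑ x ∈ U, if x ∈ d then dl s(x, c (thd κ d)) else 0) := by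
    intro d hd
    induction d with
    | _ a b =>
      have h3 := Finset.mem_sym2_iff.1 (hD hd)
      have h4 := hNL _ hd
      rw [Sym2.mk_isDiag_iff] at h4
      have haU := h3 a (Sym2.mem_mk_left _ _)
      have hbU := h3 b (Sym2.mem_mk_right _ _)
      have hab := hcol a b hd
      obtain ⟨t1, t2⟩ := third _ _ hab
      rw [← Finset.sum_filter, filter_pair haU hbU, Finset.sum_pair h4, thd_mk]
      have h5 := Sg.tri (κ := κ) (hU haU) (hU hbU) (hc (-(κ a + κ b)))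
        ⟨hab, by rw [hκ]; exact t1, by rw [hκ]; exact t2⟩
      have e : dl s(a, b) + (dl s(a, c (-(κ a + κ b))) + dl s(b, c (-(κ a + κ b)))) =
          dl s(a, b) + dl s(b, c (-(κ a + κ b))) + dl s(a, c (-(κ a + κ b))) := by
        abel
      rw [e]
      exact h5
  have h2 := Sg.sum D (fun _ => 1) _ h1
  rw [Finset.sum_const, smul_eq_mul, mul_one, Finset.sum_add_distrib, Finset.sum_comm] at h2
  -- the spokes at a vertex
  obtain ⟨h, hh⟩ : ∃ h : V → ℕ, h = fun x => dg κ D x (κ x + 1) := ⟨_, rfl⟩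
  have h3 : ∀ x ∈ U, (∑ d ∈ D, if x ∈ d then dl s(x, c (thd κ d)) else 0) =
      h x • (dl s(x, c (κ x + 1)) + dl s(x, c (κ x + 2))) := by
    intro x _
    have e1 : (∑ d ∈ D, if x ∈ d then dl s(x, c (thd κ d)) else 0) =
        ∑ u ∈ nbr D x, dl s(x, c (-(κ x + κ u))) := by
      rw [← Finset.sum_filter]
      symm
      refine Finset.sum_bij (fun u _ => s(x, u)) ?_ ?_ ?_ ?_
      · intro u hu
        rw [Finset.mem_filter]
        exact ⟨mem_nbr.1 hu, Sym2.mem_mk_left _ _⟩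
      · intro a _ b _ h
        rw [Sym2.eq_iff] at h
        rcases h with h | h
        · exact h.2
        · exact h.2.trans h.1
      · intro d hd
        rw [Finset.mem_filter] at hd
        obtain ⟨u, rfl⟩ := Sym2.mem_iff_exists.1 hd.2
        exact ⟨u, mem_nbr.2 hd.1, rfl⟩
      · intro u _
        rfl
    rw [e1, ← Finset.sum_fiberwise (nbr D x) κ]
    have e2 : ∀ i : Fin 3, (∑ u ∈ (nbr D x).filter (fun u => κ u = i),
        dl s(x, c (-(κ x + κ u)))) = dg κ D x i • dl s(x, c (-(κ x + i))) := by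
      intro i
      rw [Finset.sum_congr rfl (g := fun _ => dl s(x, c (-(κ x + i)))) (fun u hu => by
        rw [(Finset.mem_filter.1 hu).2]), Finset.sum_const]
      rfl
    rw [Finset.sum_congr rfl fun i _ => e2 i]
    have e3 : dg κ D x (κ x) = 0 := by
      unfold dg
      rw [Finset.card_eq_zero, Finset.filter_eq_empty_iff]
      intro u hu e
      exact hcol x u (mem_nbr.1 hu) e.symm
    have e4 : dg κ D x (κ x + 1) = h x := by rw [hh]
    have e5 : dg κ D x (κ x + 2) = h x := by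
      rw [hh]
      exact hbal x _ _ (by simp) (by simp)
    have e6 : ∀ a : Fin 3, ∀ F : Fin 3 → (Sym2 V → ℤ), ∑ i, F i = F a + F (a + 1) + F (a + 2) := by
      intro a F
      rw [Fin.sum_univ_three]
      fin_cases a
      · rfl
      · change F 0 + F 1 + F 2 = F 1 + F 2 + F 0
        abel
      · change F 0 + F 1 + F 2 = F 2 + F 0 + F 1
        abel
    rw [e6 (κ x), e3, e4, e5, zero_smul, zero_add, smul_add, add_comm]
    have f1 : ∀ a : Fin 3, -(a + (a + 1)) = a + 2 ∧ -(a + (a + 2)) = a + 1 := by decide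
    rw [(f1 (κ x)).1, (f1 (κ x)).2]
  rw [Finset.sum_congr rfl h3] at h2
  -- pairs of spokes
  have f2 : ∀ a : Fin 3, a ≠ a + 1 ∧ a + 1 ≠ a + 2 ∧ a ≠ a + 2 := by decide
  have h4 : ∀ x ∈ U, Sg κ W (h x * 1) (h x • (dl s(x, c (κ x + 1)) +
      dl s(c (κ x + 1), c (κ x + 2)) + dl s(x, c (κ x + 2)))) := by
    intro x hx
    refine Sg.nsmul (Sg.tri (hU hx) (hc _) (hc _) ?_) _
    obtain ⟨g1, g2, g3⟩ := f2 (κ x)
    exact ⟨by rw [hκ]; exact g1, by rw [hκ, hκ]; exact g2, by rw [hκ]; exact g3⟩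
  have h5 := Sg.sum U _ _ h4
  -- totals
  obtain ⟨H, hH⟩ : ∃ H : Fin 3 → ℕ, H = fun i => ∑ x ∈ U.filter (fun x => κ x = i), h x :=
    ⟨_, rfl⟩
  have hcount : ∀ i j : Fin 3, ∑ x ∈ U.filter (fun x => κ x = i), dg κ D x j =
      ∑ x ∈ U.filter (fun x => κ x = i), ∑ y ∈ U.filter (fun y => κ y = j),
        if s(x, y) ∈ D then 1 else 0 := by
    intro i j
    refine Finset.sum_congr rfl fun x _ => ?_
    rw [← Finset.card_filter]
    unfold dg
    congr 1
    ext u
    rw [Finset.mem_filter, Finset.mem_filter, Finset.mem_filter, mem_nbr]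
    constructor
    · rintro ⟨k1, k2⟩
      exact ⟨⟨Finset.mem_sym2_iff.1 (hD k1) u (Sym2.mem_mk_right _ _), k2⟩, k1⟩
    · rintro ⟨⟨_, k2⟩, k1⟩
      exact ⟨k1, k2⟩
  have hsym : ∀ i j : Fin 3, ∑ x ∈ U.filter (fun x => κ x = i), dg κ D x j =
      ∑ x ∈ U.filter (fun x => κ x = j), dg κ D x i := by
    intro i j
    rw [hcount, hcount, Finset.sum_comm]
    refine Finset.sum_congr rfl fun y _ => Finset.sum_congr rfl fun x _ => ?_
    rw [Sym2.eq_swap]
  have hHi : ∀ i j : Fin 3, j ≠ i → H i = ∑ x ∈ U.filter (fun x => κ x = i), dg κ D x j := by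
    intro i j hij
    rw [hH]
    refine Finset.sum_congr rfl fun x hx => ?_
    have hx' := (Finset.mem_filter.1 hx).2
    rw [hh]
    exact hbal x _ _ (by simp) (by rw [hx']; exact hij)
  have hHH : ∀ i j : Fin 3, i ≠ j → H i = H j := by
    intro i j hij
    rw [hHi i j hij.symm, hsym, ← hHi j i hij]
  have hH1 : H 1 = H 0 := hHH 1 0 (by decide)
  have hH2 : H 2 = H 0 := hHH 2 0 (by decide)
  have hpair : ∑ x ∈ U, h x • dl s(c (κ x + 1), c (κ x + 2)) =
      H 0 • (dl s(c 0, c 1) + dl s(c 1, c 2) + dl s(c 0, c 2)) := by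
    rw [← Finset.sum_fiberwise U κ]
    have e1 : ∀ i : Fin 3, (∑ x ∈ U.filter (fun x => κ x = i),
        h x • dl s(c (κ x + 1), c (κ x + 2))) = H i • dl s(c (i + 1), c (i + 2)) := by
      intro i
      rw [hH, Finset.sum_smul]
      refine Finset.sum_congr rfl fun x hx => ?_
      rw [(Finset.mem_filter.1 hx).2]
    rw [Finset.sum_congr rfl fun i _ => e1 i, Fin.sum_univ_three, hH1, hH2]
    have e2 : dl s(c ((1 : Fin 3) + 1), c ((1 : Fin 3) + 2)) = dl s(c 0, c 2) := by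
      rw [Sym2.eq_swap]
      rfl
    have e3 : dl s(c ((0 : Fin 3) + 1), c ((0 : Fin 3) + 2)) = dl s(c 1, c 2) := rfl
    have e4 : dl s(c ((2 : Fin 3) + 1), c ((2 : Fin 3) + 2)) = dl s(c 0, c 1) := rfl
    rw [e2, e3, e4, smul_add, smul_add]
    abel
  have h6 : Sg κ W (H 0 * 1) (H 0 • (dl s(c 0, c 1) + dl s(c 1, c 2) + dl s(c 0, c 2))) :=
    Sg.nsmul (Sg.tri (hc 0) (hc 1) (hc 2) ⟨by rw [hκ, hκ]; decide, by rw [hκ, hκ]; decide,
      by rw [hκ, hκ]; decide⟩) _
  have h7 := (h2.sub h5).add h6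
  have e : ∑ d ∈ D, dl d = ∑ d ∈ D, dl d +
      ∑ x ∈ U, h x • (dl s(x, c (κ x + 1)) + dl s(x, c (κ x + 2))) -
      ∑ x ∈ U, h x • (dl s(x, c (κ x + 1)) + dl s(c (κ x + 1), c (κ x + 2)) +
        dl s(x, c (κ x + 2))) + H 0 • (dl s(c 0, c 1) + dl s(c 1, c 2) + dl s(c 0, c 2)) := by
    rw [← hpair, add_sub_assoc, ← Finset.sum_sub_distrib, add_assoc, ← Finset.sum_add_distrib]
    rw [left_eq_add]
    refine Finset.sum_eq_zero fun x _ => ?_
    rw [← smul_sub, ← smul_add]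
    have : dl s(x, c (κ x + 1)) + dl s(x, c (κ x + 2)) - (dl s(x, c (κ x + 1)) +
        dl s(c (κ x + 1), c (κ x + 2)) + dl s(x, c (κ x + 2))) +
        dl s(c (κ x + 1), c (κ x + 2)) = 0 := by
      abel
    rw [this, smul_zero]
  rw [e]
  refine h7.mono ?_
  have b1 : ∑ x ∈ U, h x ≤ 2 * D.card := by
    rw [← handshake hD hNL]
    refine Finset.sum_le_sum fun x _ => ?_
    rw [hh]
    exact Finset.card_filter_le _ _
  have b2 : H 0 ≤ ∑ x ∈ U, h x := by
    rw [hH]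
    exact Finset.sum_le_sum_of_subset (Finset.filter_subset _ _)
  rw [← Finset.sum_mul]
  omega

theorem St.octs {E : Finset (Sym2 V)} {W B S₀ : Finset V} {q : ℕ} {b : Multiset (Sym2 V)}
    (hR : Rich κ E B q) (hWB : W ⊆ B) (hWS : W ⊆ S₀) (l : List (V × V × V)) :
    ∀ (k : ℕ) (a : Multiset (Sym2 V)), (∀ t ∈ l, Tr κ W t) → k + 3 * l.length ≤ q →
      St κ E W B S₀ k a b → St κ E W B S₀ (k + 3 * l.length) (tsum l + a) b := by
  induction l with
  | nil =>
    intro k a _ _ h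
    rw [tsum_nil, zero_add]
    exact h
  | cons t l ih =>
    intro k a hl hk h
    rw [List.length_cons] at hk ⊢
    obtain ⟨t1, t2, t3, t4⟩ := hl t (List.mem_cons_self ..)
    have h1 := h.oct hR (by omega) hWB hWS t1 t2 t3 t4
    have h2 := ih (k + 3) _ (fun t ht => hl t (List.mem_cons_of_mem _ ht)) (by omega) h1
    have e : tsum (t :: l) + a = tsum l + (trim t.1 t.2.1 t.2.2 + a) := by
      rw [tsum_cons]
      abel
    rw [e]
    exact h2.mono (by omega)

theorem St.cancels {E : Finset (Sym2 V)} {W B S₀ : Finset V} {q : ℕ} {a b : Multiset (Sym2 V)}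
    (hR : Rich κ E B q) (hWB : W ⊆ B) (hWS : W ⊆ S₀)
    (ha : ∀ e ∈ a, ∀ v ∈ e, v ∈ W) (hb : ∀ e ∈ b, ∀ v ∈ e, v ∈ W) (s : Multiset (Sym2 V)) :
    ∀ k, (∀ e ∈ s, ∀ v ∈ e, v ∈ W) → k + 2 * s.card ≤ q →
      St κ E W B S₀ k (s + a) (s + b) → St κ E W B S₀ (k + 2 * s.card) a b := by
  induction s using Multiset.induction_on with
  | empty =>
    intro k _ _ h
    rw [zero_add, zero_add] at h
    exact h
  | cons e s ih =>
    intro k hs hk h
    rw [Multiset.card_cons] at hk ⊢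
    have hs' : ∀ e ∈ s, ∀ v ∈ e, v ∈ W := fun e he =>
      hs e (Multiset.mem_cons_of_mem he)
    have h2 := hs e (Multiset.mem_cons_self _ _)
    induction e with
    | _ x y =>
      rw [Multiset.cons_add, Multiset.cons_add] at h
      have supp : ∀ c : Multiset (Sym2 V), (∀ e ∈ c, ∀ v ∈ e, v ∈ W) →
          ∀ e ∈ s + c, ∀ v ∈ e, v ∈ W := by
        intro c hc e he
        rcases Multiset.mem_add.1 he with he | he
        · exact hs' e he
        · exact hc e he
      have h3 := h.cancel hR (by omega) hWB hWS (supp a ha) (supp b hb)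
        (h2 x (Sym2.mem_mk_left _ _)) (h2 y (Sym2.mem_mk_right _ _))
      exact (ih (k + 2) hs' (by omega) h3).mono (by omega)

theorem tsum_mem {W : Finset V} {l : List (V × V × V)} (hl : ∀ t ∈ l, Tr κ W t) :
    ∀ e ∈ tsum l, ∀ v ∈ e, v ∈ W := by
  induction l with
  | nil =>
    intro e he
    exact absurd he (Multiset.notMem_zero e)
  | cons t l ih =>
    intro e he
    rw [tsum_cons] at he
    rcases Multiset.mem_add.1 he with he | he
    · obtain ⟨t1, t2, t3, _⟩ := hl t (List.mem_cons_self ..)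
      simp only [trim, Multiset.mem_add, Multiset.mem_singleton] at he
      rcases he with (rfl | rfl) | rfl
      · intro v hv
        rcases Sym2.mem_iff.1 hv with rfl | rfl <;> assumption
      · intro v hv
        rcases Sym2.mem_iff.1 hv with rfl | rfl <;> assumption
      · intro v hv
        rcases Sym2.mem_iff.1 hv with rfl | rfl <;> assumption
    · exact ih (fun t ht => hl t (List.mem_cons_of_mem _ ht)) e he

theorem good_dec {E : Finset (Sym2 V)} {B S W : Finset V} {N : Multiset (Sym2 V)}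
    (h : Good E B S N) {D : Finset (Sym2 V)} (hWB : W ⊆ B) (hD : ∀ e ∈ D, ∀ v ∈ e, v ∈ W)
    (hm : MDec κ W (N + D.val)) : Dec ((⟨N, h.nd⟩ : Finset (Sym2 V)) ∪ D) := by
  have hd : Disjoint (⟨N, h.nd⟩ : Finset (Sym2 V)) D := by
    rw [Finset.disjoint_left]
    intro e he he'
    obtain ⟨v, hv, hvB⟩ := h.new e he
    exact hvB (hWB (hD e he' v hv))
  apply hm.dec
  rw [← Finset.disjUnion_eq_union _ _ hd, Finset.disjUnion_val]

/-- an absorber for one divisible graph -/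
theorem one {E : Finset (Sym2 V)} {W B S₀ U : Finset V} {q : ℕ} (hR : Rich κ E B q)
    (hWB : W ⊆ B) (hWS : W ⊆ S₀) {D : Finset (Sym2 V)} (hU : U ⊆ W) (hD : D ⊆ U.sym2)
    (hsg : Sg κ W (16 * D.card) (∑ d ∈ D, dl d)) (hq : S₀.card + 144 * D.card ≤ q) :
    ∃ (A : Finset (Sym2 V)) (S : Finset V), S₀ ⊆ S ∧ S.card ≤ S₀.card + 144 * D.card ∧ A ⊆ E ∧
      (∀ e ∈ A, ∃ v ∈ e, v ∉ B) ∧ (∀ e ∈ A, ∀ v ∈ e, v ∈ S) ∧ Dec A ∧ Dec (A ∪ D) := by
  obtain ⟨p, m, h1, h2, h3, h4⟩ := hsg.ms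
  have s1 := St.octs hR hWB hWS p _ _ h2 (by omega) (St.start κ E W B S₀)
  have s2 := St.octs hR hWB hWS m _ _ h3 (by omega) s1.symm
  have s3 := s2.symm
  have e : tsum p + 0 = tsum m + D.val := by rw [add_zero, h4]
  rw [e] at s3
  have hDW : ∀ e ∈ D, ∀ v ∈ e, v ∈ W := fun e he v hv =>
    hU (Finset.mem_sym2_iff.1 (hD he) v hv)
  have s4 := St.cancels hR hWB hWS (a := D.val) (b := 0) hDW
    (fun e he => absurd he (Multiset.notMem_zero e)) (tsum m) _ (tsum_mem h3) (by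
      rw [tsum_card]
      omega) s3
  rw [tsum_card] at s4
  obtain ⟨S, N, k1, k2, k3, k4, k5⟩ := s4
  refine ⟨⟨N, k3.nd⟩, S, k1, by omega, fun e he => k3.sub e he, fun e he => k3.new e he,
    fun e he => k3.supp e he, ?_, good_dec k3 hWB hDW k4⟩
  apply k5.dec
  rw [add_zero]

/-- a common absorber for finitely many graphs -/
theorem many {E : Finset (Sym2 V)} {W F U : Finset V} {q T : ℕ} (hR : Rich κ E (F ∪ W) q)
    (hU : U ⊆ W) (𝒟 : Finset (Finset (Sym2 V))) :
    (∀ D ∈ 𝒟, D ⊆ U.sym2 ∧ D.card ≤ T ∧ Sg κ W (16 * D.card) (∑ d ∈ D, dl d)) →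
    ∀ S₀ : Finset V, W ⊆ S₀ → 2 * (S₀.card + 𝒟.card * (144 * T)) ≤ q →
    ∃ (A : Finset (Sym2 V)) (S : Finset V), S₀ ⊆ S ∧ S.card ≤ S₀.card + 𝒟.card * (144 * T) ∧
      A ⊆ E ∧ (∀ e ∈ A, ∃ v ∈ e, v ∉ F ∪ S₀) ∧ (∀ e ∈ A, ∀ v ∈ e, v ∈ S) ∧ Dec A ∧
      ∀ D ∈ 𝒟, Dec (A ∪ D) := by
  induction 𝒟 using Finset.induction_on with
  | empty =>
    intro _ S₀ _ _
    refine ⟨∅, S₀, Finset.Subset.refl _, by simp, by simp, by simp, by simp, Dec.empty, by simp⟩
  | insert D 𝒟 hD𝒟 ih =>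
    intro h S₀ hWS hq
    rw [Finset.card_insert_of_notMem hD𝒟, add_mul, one_mul] at hq ⊢
    obtain ⟨h1, h2, h3⟩ := h D (Finset.mem_insert_self _ _)
    -- the first absorber
    have hR' : Rich κ E (F ∪ S₀) (q - S₀.card) := by
      intro l i S hl hli hS
      obtain ⟨w, w0, w1, w2, w3⟩ := hR l i (S ∪ S₀) hl hli (by
        have := Finset.card_union_le S S₀
        omega)
      rw [Finset.mem_union, not_or] at w1 w2
      exact ⟨w, w0, w1.1, by rw [Finset.mem_union, not_or]; exact ⟨w2.1, w1.2⟩, w3⟩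
    obtain ⟨A₁, S₁, a1, a2, a3, a4, a5, a6, a7⟩ := one (q := q - S₀.card) hR'
      (hWS.trans Finset.subset_union_right) hWS hU h1 h3 (by
        have : 144 * D.card ≤ 144 * T := Nat.mul_le_mul_left _ h2
        omega)
    have h144 : 144 * D.card ≤ 144 * T := Nat.mul_le_mul_left _ h2
    obtain ⟨A₂, S₂, b1, b2, b3, b4, b5, b6, b7⟩ := ih
      (fun D hD => h D (Finset.mem_insert_of_mem hD)) S₁ (hWS.trans a1) (by omega)
    have hd : Disjoint A₁ A₂ := by
      rw [Finset.disjoint_left]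
      intro e he he'
      obtain ⟨v, hv, hv'⟩ := b4 e he'
      exact hv' (Finset.mem_union_right _ (a5 e he v hv))
    have hdD : ∀ D' ∈ insert D 𝒟, Disjoint D' A₁ ∧ Disjoint D' A₂ := by
      intro D' hD'
      have hD1 : ∀ e ∈ D', ∀ v ∈ e, v ∈ S₀ := fun e he v hv =>
        hWS (hU (Finset.mem_sym2_iff.1 ((h D' hD').1 he) v hv))
      constructor
      · rw [Finset.disjoint_left]
        intro e he he'
        obtain ⟨v, hv, hv'⟩ := a4 e he'
        exact hv' (Finset.mem_union_right _ (hD1 e he v hv))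
      · rw [Finset.disjoint_left]
        intro e he he'
        obtain ⟨v, hv, hv'⟩ := b4 e he'
        exact hv' (Finset.mem_union_right _ (a1 (hD1 e he v hv)))
    refine ⟨A₁ ∪ A₂, S₂, a1.trans b1, by omega, Finset.union_subset a3 b3, ?_, ?_,
      a6.union b6 hd, ?_⟩
    · intro e he
      rcases Finset.mem_union.1 he with he | he
      · exact a4 e he
      · obtain ⟨v, hv, hv'⟩ := b4 e he
        refine ⟨v, hv, fun h => hv' ?_⟩
        rcases Finset.mem_union.1 h with h | h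
        · exact Finset.mem_union_left _ h
        · exact Finset.mem_union_right _ (a1 h)
    · intro e he v hv
      rcases Finset.mem_union.1 he with he | he
      · exact b1 (a5 e he v hv)
      · exact b5 e he v hv
    · intro D' hD'
      obtain ⟨d1, d2⟩ := hdD D' hD'
      rcases Finset.mem_insert.1 hD' with rfl | hD'
      · have e : A₁ ∪ A₂ ∪ D' = (A₁ ∪ D') ∪ A₂ := by
          rw [Finset.union_right_comm]
        rw [e]
        exact a7.union b6 (Finset.disjoint_union_left.2 ⟨hd, d2⟩)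
      · rw [Finset.union_assoc]
        exact a6.union (b7 D' hD') (Finset.disjoint_union_right.2 ⟨hd, d1.symm⟩)

end Ab3

open Ab Ab3

/-- N5 (absorber, 3-partite): one absorber for all locally balanced graphs on the small set `U`;
`F ⊇ U` is the forbidden set. -/
def AbsorberStatement3 : Prop :=
  ∀ m : ℕ, ∃ C : ℕ,
    ∀ (V : Type) [Fintype V] [DecidableEq V] (κ : V → Fin 3) (E : Finset (Sym2 V))
      (U F : Finset V), (∀ u v, s(u, v) ∈ E → κ u ≠ κ v) →
      U.card ≤ m → U ⊆ F →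
      (∀ (S : Finset V) (i : Fin 3), S.card ≤ 4 → (∀ x ∈ S, κ x ≠ i) →
        C ≤ ((cnbr E S F).filter fun z => κ z = i).card) →
      ∃ A, A ⊆ E ∧ Dec A ∧ A.card ≤ C ∧ (∀ e ∈ A, ∃ v ∈ e, v ∉ F) ∧
        ∀ D, D ⊆ U.sym2 → (∀ u v, s(u, v) ∈ D → κ u ≠ κ v) →
          (∀ x i j, i ≠ κ x → j ≠ κ x → ((nbr D x).filter fun u => κ u = i).card =
            ((nbr D x).filter fun u => κ u = j).card) → Dec (A ∪ D)

/-- **N5: 3-partite absorbers.** -/
theorem absorber3 : AbsorberStatement3 := by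
  intro m
  obtain ⟨M, hM⟩ : ∃ M, M = (m + 1) ^ 2 := ⟨_, rfl⟩
  obtain ⟨q, hq⟩ : ∃ q, q = 3 * (m + 3 + 2 ^ M * (144 * M)) := ⟨_, rfl⟩
  refine ⟨(q + 1) ^ 2, ?_⟩
  intro V _ _ κ E U F hcolE hUm hUF hC
  have hqC : q ≤ (q + 1) ^ 2 := by nlinarith
  have hR : Rich κ E F q := by
    intro l i S hl hli hS
    have h1 := hC l.toFinset i ((List.toFinset_card_le l).trans hl)
      (fun x hx => hli x (List.mem_toFinset.1 hx))
    have h2 : S.card < ((cnbr E l.toFinset F).filter fun z => κ z = i).card := by omega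
    obtain ⟨w, hw, hwS⟩ := Finset.exists_mem_notMem_of_card_lt_card h2
    unfold cnbr at hw
    rw [Finset.mem_filter, Finset.mem_filter] at hw
    refine ⟨w, hw.2, hwS, hw.1.2.1, fun a ha => ?_⟩
    rw [Sym2.eq_swap]
    exact hw.1.2.2 a (List.mem_toFinset.2 ha)
  -- three extra vertices
  have hq5 : 5 ≤ q := by omega
  have hex : ∀ i : Fin 3, ∃ c, κ c = i ∧ c ∉ F := by
    intro i
    obtain ⟨c, c0, -, cF, -⟩ := hR [] i ∅ (by simp) (by simp) (by rw [Finset.card_empty]; omega)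
    exact ⟨c, c0, cF⟩
  choose c hκ cF using hex
  obtain ⟨W, hW⟩ : ∃ W : Finset V, W = {c 0, c 1, c 2} ∪ U := ⟨_, rfl⟩
  have hUW : U ⊆ W := hW ▸ Finset.subset_union_right
  have hWc : W.card ≤ m + 3 := by
    rw [hW]
    have h1 := Finset.card_union_le {c 0, c 1, c 2} U
    have h2 : ({c 0, c 1, c 2} : Finset V).card ≤ 3 := Finset.card_le_three
    omega
  have hcW : ∀ i, c i ∈ W := by
    intro i
    rw [hW]
    fin_cases i <;> simp
  have hcard : U.sym2.card ≤ M := by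
    rw [Finset.card_sym2, Nat.choose_two_right, hM]
    have h1 : (U.card + 1) * (U.card + 1 - 1) ≤ (m + 1) * (m + 1) :=
      Nat.mul_le_mul (by omega) (by omega)
    have h2 : (U.card + 1) * (U.card + 1 - 1) / 2 ≤ (U.card + 1) * (U.card + 1 - 1) :=
      Nat.div_le_self _ _
    calc _ ≤ _ := h2
      _ ≤ (m + 1) * (m + 1) := h1
      _ = (m + 1) ^ 2 := by ring
  classical
  obtain ⟨𝒟, h𝒟⟩ : ∃ 𝒟, 𝒟 = U.sym2.powerset.filter fun D =>
      (∀ u v, s(u, v) ∈ D → κ u ≠ κ v) ∧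
      (∀ x i j, i ≠ κ x → j ≠ κ x → ((nbr D x).filter fun u => κ u = i).card =
            ((nbr D x).filter fun u => κ u = j).card) := ⟨_, rfl⟩
  have h𝒟c : 𝒟.card ≤ 2 ^ M := by
    rw [h𝒟]
    refine (Finset.card_filter_le _ _).trans ?_
    rw [Finset.card_powerset]
    exact Nat.pow_le_pow_right (by norm_num) hcard
  have hR' : Rich κ E (F ∪ W) (q - W.card) := by
    intro l i S hl hli hS
    obtain ⟨w, w0, w1, w2, w3⟩ := hR l i (S ∪ W) hl hli (by
      have := Finset.card_union_le S W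
      omega)
    rw [Finset.mem_union, not_or] at w1
    exact ⟨w, w0, w1.1, by rw [Finset.mem_union, not_or]; exact ⟨w2, w1.2⟩, w3⟩
  have hmul : 𝒟.card * (144 * M) ≤ 2 ^ M * (144 * M) := Nat.mul_le_mul_right _ h𝒟c
  obtain ⟨A, S, a1, a2, a3, a4, a5, a6, a7⟩ := many (U := U) (T := M) hR' hUW 𝒟 (by
    intro D hD
    rw [h𝒟, Finset.mem_filter, Finset.mem_powerset] at hD
    exact ⟨hD.1, (Finset.card_le_card hD.1).trans hcard,
      sg_balanced hUW hD.1 hD.2.1 hD.2.2 c hκ hcW⟩) W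
    (Finset.Subset.refl _) (by omega)
  refine ⟨A, a3, a6, ?_, ?_, ?_⟩
  · have h1 : A ⊆ S.sym2 := fun e he => Finset.mem_sym2_iff.2 (a5 e he)
    have h2 := Finset.card_le_card h1
    rw [Finset.card_sym2, Nat.choose_two_right] at h2
    have h3 : S.card ≤ q := by omega
    have h4 : (S.card + 1) * (S.card + 1 - 1) / 2 ≤ (S.card + 1) * (S.card + 1 - 1) :=
      Nat.div_le_self _ _
    have h5 : (S.card + 1) * (S.card + 1 - 1) ≤ (q + 1) * (q + 1) :=
      Nat.mul_le_mul (by omega) (by omega)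
    calc A.card ≤ _ := h2
      _ ≤ _ := h4
      _ ≤ (q + 1) * (q + 1) := h5
      _ = (q + 1) ^ 2 := by ring
  · intro e he
    obtain ⟨v, hv, hv'⟩ := a4 e he
    exact ⟨v, hv, fun h => hv' (Finset.mem_union_left _ h)⟩
  · intro D hD h1 h2
    apply a7 D
    rw [h𝒟, Finset.mem_filter, Finset.mem_powerset]
    exact ⟨hD, h1, h2⟩

end NW
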