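import Pool.Agent.NW3.Statements3
import Pool.Agent.NW3.Absorber
import Pool.Agent.NW.Transfer

/-!
# Project NW3: `NW3.AbsorberStatement3` from `NW.absorber3`

The extra clause (the vertices of the absorber which lie in `F` lie in `U`) is obtained by
restricting everything to the vertices outside `F \ U`.
-/

set_option linter.unusedSectionVars false

namespace NW3

open Finset NW

/-- **P5: 3-partite absorbers.** -/
theorem absorber : AbsorberStatement3 := by
  intro m
  obtain ⟨C, hC⟩ := NW.absorber3 m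
  refine ⟨C, ?_⟩
  intro V _ _ κ E U F hE hUm hUF hrich
  obtain ⟨S, hS⟩ : ∃ S : Finset V, S = univ.filter (fun v => v ∈ F → v ∈ U) := ⟨_, rfl⟩
  have hSm : ∀ v, v ∈ S ↔ (v ∈ F → v ∈ U) := by
    intro v
    rw [hS, Finset.mem_filter]
    exact ⟨fun h => h.2, fun h => ⟨Finset.mem_univ _, h⟩⟩
  have hUS : ∀ v ∈ U, v ∈ S := fun v hv => (hSm v).2 fun _ => hv
  obtain ⟨A, a1, a2, a3, a4, a5⟩ := hC S (fun v => κ v) (res S E) (U.subtype (fun v => v ∈ S))
    (F.subtype (fun v => v ∈ S)) (fun u v huv => hE _ _ (mk_mem_res.1 huv)) (by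
      refine le_trans ?_ hUm
      rw [← Finset.card_map (Function.Embedding.subtype _)]
      refine Finset.card_le_card fun v hv => ?_
      obtain ⟨a, ha, rfl⟩ := Finset.mem_map.1 hv
      exact Finset.mem_subtype.1 ha) (fun v hv =>
        Finset.mem_subtype.2 (hUF (Finset.mem_subtype.1 hv))) (by
      intro T i hT hTi
      have h1 := hrich (T.map (Function.Embedding.subtype _)) i (by rwa [Finset.card_map]) (by
        intro x hx
        obtain ⟨a, ha, rfl⟩ := Finset.mem_map.1 hx
        exact hTi a ha)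
      refine h1.trans ?_
      rw [← Finset.card_map (Function.Embedding.subtype _)]
      refine Finset.card_le_card fun z hz => ?_
      rw [Finset.mem_inter, cnbr, Finset.mem_filter, mem_part] at hz
      obtain ⟨⟨_, z1, z2⟩, z3⟩ := hz
      refine Finset.mem_map.2 ⟨⟨z, (hSm z).2 fun h => absurd h z1⟩, ?_, rfl⟩
      rw [Finset.mem_filter, cnbr, Finset.mem_filter]
      refine ⟨⟨Finset.mem_univ _, fun h => z1 (Finset.mem_subtype.1 h), fun x hx => ?_⟩, z3⟩
      exact mk_mem_res.2 (z2 x (Finset.mem_map.2 ⟨x, hx, rfl⟩)))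
  have hmem : ∀ e ∈ img Subtype.val A, ∃ e' ∈ A, Sym2.map Subtype.val e' = e := by
    intro e he
    unfold img at he
    exact Finset.mem_image.1 he
  refine ⟨img Subtype.val A, img_val_subset_of_subset_res a1, a2.img Subtype.val_injective,
    Finset.card_image_le.trans a3, ?_, ?_, ?_⟩
  · intro e he
    obtain ⟨e', he', rfl⟩ := hmem e he
    obtain ⟨v, hv, hv'⟩ := a4 e' he'
    exact ⟨v, Sym2.mem_map.2 ⟨v, hv, rfl⟩, fun h => hv' (Finset.mem_subtype.2 h)⟩
  · intro e he v hv
    obtain ⟨e', he', rfl⟩ := hmem e he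
    obtain ⟨w, hw, rfl⟩ := Sym2.mem_map.1 hv
    exact (hSm _).1 w.2
  · intro D hD hD3 hbal
    have hDS : D ⊆ edg S := by
      intro e he
      induction e using Sym2.ind with
      | _ a b =>
        have h1 := Finset.mem_sym2_iff.1 (hD he)
        exact mk_mem_edg.2 ⟨hUS a (h1 a (Sym2.mem_mk_left _ _)),
          hUS b (h1 b (Sym2.mem_mk_right _ _)), fun h => hD3 a b he (by rw [h])⟩
    have hp : ∀ (x : S) (i : Fin 3),
        ((nbr (res S D) x).filter fun u : S => κ (u : V) = i).card = pdeg κ D i x := by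
      intro x i
      unfold pdeg
      rw [← Finset.card_map (Function.Embedding.subtype _)]
      congr 1
      ext u
      rw [Finset.mem_map, Finset.mem_filter]
      constructor
      · rintro ⟨a, ha, rfl⟩
        rw [Finset.mem_filter, mem_nbr] at ha
        exact ⟨Finset.mem_univ _, mk_mem_res.1 ha.1, ha.2⟩
      · rintro ⟨_, h1, h2⟩
        refine ⟨⟨u, (mk_mem_edg.1 (hDS h1)).2.1⟩, ?_, rfl⟩
        rw [Finset.mem_filter, mem_nbr]
        exact ⟨mk_mem_res.2 h1, h2⟩
    have h := a5 (res S D) (by
      intro e he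
      induction e using Sym2.ind with
      | _ a b =>
        have h1 := Finset.mem_sym2_iff.1 (hD (mk_mem_res.1 he))
        rw [Finset.mem_sym2_iff]
        intro c hc
        rw [Finset.mem_subtype]
        rcases Sym2.mem_iff.1 hc with rfl | rfl
        · exact h1 _ (Sym2.mem_mk_left _ _)
        · exact h1 _ (Sym2.mem_mk_right _ _)) (fun u v huv => hD3 _ _ (mk_mem_res.1 huv)) (by
      intro x i j hi hj
      rw [hp, hp]
      exact hbal x i j hi hj)
    have h2 := h.img (f := Subtype.val) Subtype.val_injective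
    rwa [img_union, img_res hDS] at h2

end NW3
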