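import Pool.Agent.NW3.Statements3
import Pool.Agent.NW.Transfer

/-!
# Project NW3, P2: the approximate decomposition of 3-partite graphs, relative to a vertex set
-/

set_option linter.unusedSectionVars false

namespace NW3

open Finset NW

section Sub

variable {V : Type*} [DecidableEq V] [Fintype V]

/-- the parts of the subtype -/
theorem card_part_sub (κ : V → Fin 3) (X : Finset V) (i : Fin 3) :
    (part (fun v : X => κ v) i).card = (X ∩ part κ i).card := by
  rw [← Finset.card_map (Function.Embedding.subtype (fun v => v ∈ X))]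
  congr 1
  ext v
  simp only [Finset.mem_map, Finset.mem_inter, mem_part, Function.Embedding.subtype_apply,
    Subtype.exists, exists_and_left, exists_prop, exists_eq_right_right]
  tauto

theorem pdeg_res {κ : V → Fin 3} {X : Finset V} {E : Finset (Sym2 V)} (hE : E ⊆ X.sym2)
    (i : Fin 3) (v : X) : pdeg (fun v : X => κ v) (res X E) i v = pdeg κ E i v := by
  unfold pdeg
  rw [← Finset.card_map (Function.Embedding.subtype (fun v => v ∈ X))]
  congr 1
  ext u
  simp only [Finset.mem_map, Finset.mem_filter, Finset.mem_univ, true_and,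
    Function.Embedding.subtype_apply, Subtype.exists, exists_and_left, exists_prop,
    exists_eq_right_right, mk_mem_res]
  constructor
  · rintro ⟨h1, h2⟩
    exact h1
  · intro h
    refine ⟨h, ?_⟩
    have := Finset.mem_sym2_iff.1 (hE h.1)
    exact this u (Sym2.mem_mk_right _ _)

theorem tri3_res {κ : V → Fin 3} {X : Finset V} {E : Finset (Sym2 V)} (h : Tri3 κ E) :
    Tri3 (fun v : X => κ v) (res X E) := by
  intro u v huv
  exact h u v (mk_mem_res.1 huv)

theorem card_sub (κ : V → Fin 3) (X : Finset V) (n : ℕ) (h : ∀ i, (X ∩ part κ i).card = n) :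
    Fintype.card X = 3 * n := by
  have h1 : (univ : Finset X).card = ∑ i : Fin 3, (part (fun v : X => κ v) i).card :=
    Finset.card_eq_sum_card_fiberwise (fun _ _ => Finset.mem_coe.2 (Finset.mem_univ _))
  rw [Finset.card_univ] at h1
  rw [h1, Finset.sum_congr rfl (fun i _ => (card_part_sub κ X i).trans (h i))]
  simp

end Sub

theorem ad3 : AD3Statement := by
  intro hN lo hi hlo hF γ hγ
  obtain ⟨δ, hδ, hN'⟩ := hN (γ / 3) (by positivity)
  obtain ⟨τ, hτ, C, n1, hF'⟩ := hF δ hδ
  obtain ⟨n2, hN''⟩ := hN' C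
  refine ⟨τ, hτ, max n1 n2, ?_⟩
  intro V _ _ κ X n E hT hEX hn hpart hdeg hbal
  have hcard : Fintype.card X = 3 * n := card_sub κ X n hpart
  have hT' : Tri3 (fun v : X => κ v) (res X E) := tri3_res hT
  have hdeg' : ∀ (v : X) (i : Fin 3), i ≠ κ v →
      lo * (n : ℝ) ≤ (pdeg (fun v : X => κ v) (res X E) i v : ℝ) ∧
        (pdeg (fun v : X => κ v) (res X E) i v : ℝ) ≤ hi * (n : ℝ) := by
    intro v i hi
    rw [pdeg_res hEX]
    exact hdeg v v.2 i hi
  obtain ⟨w, hw, hs⟩ := hF' X (fun v : X => κ v) n (res X E) hT' ((le_max_left _ _).trans hn)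
    (fun i => (card_part_sub κ X i).trans (hpart i)) hdeg' (by
      intro v i j hi hj
      rw [pdeg_res hEX, pdeg_res hEX]
      exact hbal v v.2 i j hi hj)
  obtain ⟨𝒯, hTT, hdT⟩ := hN'' X (res X E) hT'.nl (by
    rw [hcard]
    have := (le_max_right n1 n2).trans hn
    omega) (by
      intro v
      have h1 : ∑ i, pdeg (fun v : X => κ v) (res X E) i v = deg (res X E) v := sum_pdeg _ _ _
      have h2 : (Fintype.card X : ℝ) = 3 * n := by rw [hcard]; push_cast; ring
      rw [h2, ← h1]
      push_cast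
      obtain ⟨i, j, hij, hi, hj⟩ : ∃ i j : Fin 3, i ≠ j ∧ i ≠ κ v ∧ j ≠ κ v := by
        generalize κ v = k
        revert k
        decide
      have h3 := (hdeg' v i hi).1
      have h4 := (hdeg' v j hj).1
      have h5 : (pdeg (fun v : X => κ v) (res X E) i v : ℝ) +
          (pdeg (fun v : X => κ v) (res X E) j v : ℝ) ≤
          ∑ i, (pdeg (fun v : X => κ v) (res X E) i v : ℝ) := by
        rw [← Finset.sum_pair (f := fun i => (pdeg (fun v : X => κ v) (res X E) i v : ℝ)) hij]
        exact Finset.sum_le_sum_of_subset_of_nonneg (Finset.subset_univ _)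
          (fun _ _ _ => Nat.cast_nonneg _)
      have h6 : (0 : ℝ) ≤ n := Nat.cast_nonneg _
      have h7 : 3 / 4 * (n : ℝ) ≤ lo * n := mul_le_mul_of_nonneg_right hlo h6
      linarith) w hw hs
  have hE : E ⊆ edg X := by
    intro e he
    rw [mem_edg]
    exact ⟨fun v hv => Finset.mem_sym2_iff.1 (hEX he) v hv, hT.nl e he⟩
  have hP : 𝒯.biUnion edg ⊆ res X E := hTT.subset
  refine ⟨img Subtype.val (𝒯.biUnion edg), img_val_subset_of_subset_res hP,
    hTT.dec.img Subtype.val_injective, fun v hv => ?_⟩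
  have h1 : E \ img Subtype.val (𝒯.biUnion edg) =
      img Subtype.val (res X E \ 𝒯.biUnion edg) := by
    unfold img
    rw [Finset.image_sdiff _ _ (Sym2.map.injective Subtype.val_injective)]
    have h2 := img_res hE
    unfold img at h2
    rw [h2]
  rw [h1]
  have h4 := hdT ⟨v, hv⟩
  rw [hcard] at h4
  have h5 : deg (img Subtype.val (res X E \ 𝒯.biUnion edg)) v =
    deg (res X E \ 𝒯.biUnion edg) ⟨v, hv⟩ :=
      deg_img_val (H := res X E \ 𝒯.biUnion edg) ⟨v, hv⟩
  rw [h5]
  refine h4.trans (le_of_eq ?_)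
  push_cast
  ring

end NW3
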