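import Pool.Agent.NW3.Statements3

/-!
# Project NW3, row P7: from the 3-partite theorem to protoplexes

A partial latin square `P` of order `n` is turned into the 3-partite graph of the pairs
(row, column), (row, symbol), (column, symbol) which are not used by `P`.  The vertex set is
`Fin 3 × Fin n` (rows `0`, columns `1`, symbols `2`).
-/

set_option linter.unusedSectionVars false

namespace NW3

open Finset NW

section Proto

variable {n : ℕ}

/-- the triple `f = (row, column, symbol)` is filled in `P` -/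
def Filled (P : Fin n → Fin n → Option (Fin n)) (f : Fin 3 → Fin n) : Prop :=
  P (f 0) (f 1) = some (f 2)

/-- the pair is not used by `P` -/
def Adj3 (P : Fin n → Fin n → Option (Fin n)) (x y : Fin 3 × Fin n) : Prop :=
  x.1 ≠ y.1 ∧ ∀ f : Fin 3 → Fin n, Filled P f → f x.1 = x.2 → f y.1 ≠ y.2

theorem Adj3.symm {P : Fin n → Fin n → Option (Fin n)} {x y : Fin 3 × Fin n}
    (h : Adj3 P x y) : Adj3 P y x :=
  ⟨h.1.symm, fun f hf hy hx => h.2 f hf hx hy⟩

open Classical in
/-- the complement graph of `P` -/
noncomputable def compl3 (P : Fin n → Fin n → Option (Fin n)) : Finset (Sym2 (Fin 3 × Fin n)) :=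
  univ.filter (fun e => ∃ x y, e = s(x, y) ∧ Adj3 P x y)

theorem mem_compl3 {P : Fin n → Fin n → Option (Fin n)} {x y : Fin 3 × Fin n} :
    s(x, y) ∈ compl3 P ↔ Adj3 P x y := by
  classical
  unfold compl3
  rw [Finset.mem_filter]
  constructor
  · rintro ⟨_, u, v, h, huv⟩
    rcases Sym2.eq_iff.1 h with ⟨rfl, rfl⟩ | ⟨rfl, rfl⟩
    · exact huv
    · exact huv.symm
  · intro h
    exact ⟨Finset.mem_univ _, x, y, rfl, h⟩

/-- two filled triples which agree in two coordinates are equal -/
theorem filled_unique {P : Fin n → Fin n → Option (Fin n)}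
    (hr : ∀ (r c₁ c₂ s : Fin n), P r c₁ = some s → P r c₂ = some s → c₁ = c₂)
    (hc : ∀ (c r₁ r₂ s : Fin n), P r₁ c = some s → P r₂ c = some s → r₁ = r₂)
    {f g : Fin 3 → Fin n} (hf : Filled P f) (hg : Filled P g) {i j : Fin 3} (hij : i ≠ j)
    (hi : f i = g i) (hj : f j = g j) : f = g := by
  unfold Filled at hf hg
  have h01 : f 0 = g 0 → f 1 = g 1 → f = g := by
    intro h0 h1
    have h2 : f 2 = g 2 := by
      rw [h0, h1, hg] at hf
      exact (Option.some.inj hf).symm
    funext l
    fin_cases l <;> [exact h0; exact h1; exact h2]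
  have h02 : f 0 = g 0 → f 2 = g 2 → f = g := by
    intro h0 h2
    refine h01 h0 (hr (g 0) _ _ (g 2) ?_ hg)
    rw [← h0, ← h2]; exact hf
  have h12 : f 1 = g 1 → f 2 = g 2 → f = g := by
    intro h1 h2
    refine h01 (hc (g 1) _ _ (g 2) ?_ hg) h1
    rw [← h1, ← h2]; exact hf
  fin_cases i <;> fin_cases j
  · exact absurd rfl hij
  · exact h01 hi hj
  · exact h02 hi hj
  · exact h01 hj hi
  · exact absurd rfl hij
  · exact h12 hi hj
  · exact h02 hj hi
  · exact h12 hj hi
  · exact absurd rfl hij

open Classical in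
/-- every row, column and symbol is in exactly `k` filled triples -/
theorem card_filled {P : Fin n → Fin n → Option (Fin n)} {k : ℕ}
    (hs : ∀ s : Fin n,
      (Finset.univ.filter (fun p : Fin n × Fin n => P p.1 p.2 = some s)).card = k)
    (hr : ∀ r : Fin n, (Finset.univ.filter (fun c : Fin n => P r c ≠ none)).card = k)
    (hc : ∀ c : Fin n, (Finset.univ.filter (fun r : Fin n => P r c ≠ none)).card = k)
    (i : Fin 3) (a : Fin n) :
    (univ.filter (fun f : Fin 3 → Fin n => Filled P f ∧ f i = a)).card = k := by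
  have h0 : ∀ a : Fin n, (univ.filter (fun f : Fin 3 → Fin n => Filled P f ∧ f 0 = a)).card = k := by
    intro a
    rw [← hr a]
    refine Finset.card_bij (fun f _ => f 1) ?_ ?_ ?_
    · intro f hf
      rw [Finset.mem_filter] at hf ⊢
      refine ⟨Finset.mem_univ _, ?_⟩
      rw [← hf.2.2, hf.2.1]
      exact Option.some_ne_none _
    · intro f hf g hg h
      rw [Finset.mem_filter] at hf hg
      have h' : f 0 = g 0 := hf.2.2.trans hg.2.2.symm
      have h2 : f 2 = g 2 := by
        have h3 := hf.2.1
        have h4 := hg.2.1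
        unfold Filled at h3 h4
        rw [h', h, h4] at h3
        exact (Option.some.inj h3).symm
      funext l
      fin_cases l <;> [exact h'; exact h; exact h2]
    · intro c hc
      rw [Finset.mem_filter] at hc
      obtain ⟨s, hs⟩ := Option.ne_none_iff_exists'.1 hc.2
      refine ⟨![a, c, s], ?_, rfl⟩
      rw [Finset.mem_filter]
      exact ⟨Finset.mem_univ _, hs, rfl⟩
  have h1 : ∀ a : Fin n, (univ.filter (fun f : Fin 3 → Fin n => Filled P f ∧ f 1 = a)).card = k := by
    intro a
    rw [← hc a]
    refine Finset.card_bij (fun f _ => f 0) ?_ ?_ ?_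
    · intro f hf
      rw [Finset.mem_filter] at hf ⊢
      refine ⟨Finset.mem_univ _, ?_⟩
      rw [← hf.2.2, hf.2.1]
      exact Option.some_ne_none _
    · intro f hf g hg h
      rw [Finset.mem_filter] at hf hg
      have h' : f 1 = g 1 := hf.2.2.trans hg.2.2.symm
      have h2 : f 2 = g 2 := by
        have h3 := hf.2.1
        have h4 := hg.2.1
        unfold Filled at h3 h4
        rw [h', h, h4] at h3
        exact (Option.some.inj h3).symm
      funext l
      fin_cases l <;> [exact h; exact h'; exact h2]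
    · intro r hr
      rw [Finset.mem_filter] at hr
      obtain ⟨s, hs⟩ := Option.ne_none_iff_exists'.1 hr.2
      refine ⟨![r, a, s], ?_, rfl⟩
      rw [Finset.mem_filter]
      exact ⟨Finset.mem_univ _, hs, rfl⟩
  have h2 : ∀ a : Fin n, (univ.filter (fun f : Fin 3 → Fin n => Filled P f ∧ f 2 = a)).card = k := by
    intro a
    rw [← hs a]
    refine Finset.card_bij (fun f _ => (f 0, f 1)) ?_ ?_ ?_
    · intro f hf
      rw [Finset.mem_filter] at hf ⊢
      refine ⟨Finset.mem_univ _, ?_⟩
      rw [← hf.2.2]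
      exact hf.2.1
    · intro f hf g hg h
      rw [Finset.mem_filter] at hf hg
      obtain ⟨h3, h4⟩ := Prod.mk.inj h
      have h5 : f 2 = g 2 := hf.2.2.trans hg.2.2.symm
      funext l
      fin_cases l <;> [exact h3; exact h4; exact h5]
    · intro p hp
      rw [Finset.mem_filter] at hp
      refine ⟨![p.1, p.2, a], ?_, rfl⟩
      rw [Finset.mem_filter]
      exact ⟨Finset.mem_univ _, hp.2, rfl⟩
  fin_cases i
  · exact h0 a
  · exact h1 a
  · exact h2 a

/-- the degrees of the complement -/
theorem pdeg_compl3 {P : Fin n → Fin n → Option (Fin n)} {k : ℕ}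
    (hrow : ∀ (r c₁ c₂ s : Fin n), P r c₁ = some s → P r c₂ = some s → c₁ = c₂)
    (hcol : ∀ (c r₁ r₂ s : Fin n), P r₁ c = some s → P r₂ c = some s → r₁ = r₂)
    (hs : ∀ s : Fin n,
      (Finset.univ.filter (fun p : Fin n × Fin n => P p.1 p.2 = some s)).card = k)
    (hr : ∀ r : Fin n, (Finset.univ.filter (fun c : Fin n => P r c ≠ none)).card = k)
    (hc : ∀ c : Fin n, (Finset.univ.filter (fun r : Fin n => P r c ≠ none)).card = k)
    (v : Fin 3 × Fin n) (j : Fin 3) (hj : j ≠ v.1) :
    pdeg Prod.fst (compl3 P) j v + k = n := by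
  classical
  set S : Finset (Fin 3 → Fin n) := univ.filter (fun f => Filled P f ∧ f v.1 = v.2) with hS
  have hScard : S.card = k := card_filled hs hr hc v.1 v.2
  have hinj : Set.InjOn (fun f : Fin 3 → Fin n => f j) (S : Set (Fin 3 → Fin n)) := by
    intro f hf g hg h
    rw [Finset.mem_coe, hS, Finset.mem_filter] at hf hg
    exact filled_unique hrow hcol hf.2.1 hg.2.1 hj h (hf.2.2.trans hg.2.2.symm)
  have h1 : (S.image (fun f => f j)).card = k := by
    rw [Finset.card_image_of_injOn hinj, hScard]
  have h2 : pdeg Prod.fst (compl3 P) j v = ((S.image (fun f => f j))ᶜ).card := by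
    unfold pdeg
    refine Finset.card_bij (fun u _ => u.2) ?_ ?_ ?_
    · intro u hu
      rw [Finset.mem_filter] at hu
      rw [Finset.mem_compl, Finset.mem_image]
      rintro ⟨f, hf, hfu⟩
      rw [hS, Finset.mem_filter] at hf
      have := (mem_compl3.1 hu.2.1).2 f hf.2.1 hf.2.2
      rw [hu.2.2] at this
      exact this hfu
    · intro u hu w hw h
      rw [Finset.mem_filter] at hu hw
      exact Prod.ext (hu.2.2.trans hw.2.2.symm) h
    · intro b hb
      rw [Finset.mem_compl, Finset.mem_image] at hb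
      refine ⟨(j, b), ?_, rfl⟩
      rw [Finset.mem_filter]
      refine ⟨Finset.mem_univ _, ?_, rfl⟩
      rw [mem_compl3]
      refine ⟨hj.symm, fun f hf hv hb' => hb ⟨f, ?_, hb'⟩⟩
      rw [hS, Finset.mem_filter]
      exact ⟨Finset.mem_univ _, hf, hv⟩
  have h3 := Finset.card_compl_add_card (S.image (fun f => f j))
  rw [Fintype.card_fin] at h3
  rw [h2, ← h1]
  exact h3

/-- the vertex set of the triple `f` -/
def tset (f : Fin 3 → Fin n) : Finset (Fin 3 × Fin n) := univ.image (fun l => (l, f l))

theorem mem_tset {f : Fin 3 → Fin n} {x : Fin 3 × Fin n} : x ∈ tset f ↔ f x.1 = x.2 := by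
  unfold tset
  rw [Finset.mem_image]
  constructor
  · rintro ⟨l, _, rfl⟩
    rfl
  · intro h
    exact ⟨x.1, Finset.mem_univ _, Prod.ext rfl h⟩

theorem card_tset (f : Fin 3 → Fin n) : (tset f).card = 3 := by
  unfold tset
  rw [Finset.card_image_of_injective _ (fun a b h => (Prod.mk.inj h).1), Finset.card_univ,
    Fintype.card_fin]

theorem tset_injective {f g : Fin 3 → Fin n} (h : tset f = tset g) : f = g := by
  funext l
  have h1 : (l, f l) ∈ tset g := by
    rw [← h, mem_tset]
  exact (mem_tset.1 h1).symm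

/-- reading off the latin square from a triangle decomposition of the complement -/
theorem latin_of_dec {P : Fin n → Fin n → Option (Fin n)}
    (hrow : ∀ (r c₁ c₂ s : Fin n), P r c₁ = some s → P r c₂ = some s → c₁ = c₂)
    (hcol : ∀ (c r₁ r₂ s : Fin n), P r₁ c = some s → P r₂ c = some s → r₁ = r₂)
    (hD : Dec (compl3 P)) :
    ∃ L : Fin n → Fin n → Fin n,
      (∀ r : Fin n, Function.Injective (L r)) ∧
      (∀ c : Fin n, Function.Injective (fun r : Fin n => L r c)) ∧
      ∀ (r c s : Fin n), P r c = some s → L r c = s := by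
  obtain ⟨T, hT, hTE⟩ := hD.exists_pack
  -- the triples of the latin square
  set Q : (Fin 3 → Fin n) → Prop := fun f => Filled P f ∨ tset f ∈ T with hQ
  -- an unused pair is in a triangle of `T`
  have hedge : ∀ f : Fin 3 → Fin n, tset f ∈ T → ∀ i j : Fin 3, i ≠ j →
      s((i, f i), (j, f j)) ∈ edg (tset f) := by
    intro f _ i j hij
    rw [mk_mem_edg, mem_tset, mem_tset]
    exact ⟨rfl, rfl, fun h => hij (Prod.mk.inj h).1⟩
  have hadj : ∀ f : Fin 3 → Fin n, tset f ∈ T → ∀ i j : Fin 3, i ≠ j →
      Adj3 P (i, f i) (j, f j) := by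
    intro f hf i j hij
    exact mem_compl3.1 ((hT.1 _ hf).2 (hedge f hf i j hij))
  have hun : ∀ f g : Fin 3 → Fin n, Q f → Q g → ∀ i j : Fin 3, i ≠ j → f i = g i → f j = g j →
      f = g := by
    intro f g hf hg i j hij hi hj
    rcases hf with hf | hf <;> rcases hg with hg | hg
    · exact filled_unique hrow hcol hf hg hij hi hj
    · exact absurd hj ((hadj g hg i j hij).2 f hf hi)
    · exact absurd hj.symm ((hadj f hf i j hij).2 g hg hi.symm)
    · by_contra hne
      have hne' : tset f ≠ tset g := fun h => hne (tset_injective h)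
      have h1 := hedge f hf i j hij
      have h2 := hedge g hg i j hij
      rw [← hi, ← hj] at h2
      exact Finset.disjoint_left.1 (hT.2 _ hf _ hg hne') h1 h2
  have hex : ∀ r c : Fin n, ∃ s : Fin n, Q ![r, c, s] := by
    intro r c
    rcases h : P r c with _ | s
    · have h1 : s(((0 : Fin 3), r), ((1 : Fin 3), c)) ∈ compl3 P := by
        rw [mem_compl3]
        refine ⟨by simp, fun f hf h0 h1' => ?_⟩
        simp only at h0 h1'
        unfold Filled at hf
        rw [h0, h1', h] at hf
        exact absurd hf.symm (Option.some_ne_none _)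
      rw [← hTE] at h1
      obtain ⟨t, ht, h1⟩ := Finset.mem_biUnion.1 h1
      obtain ⟨hr', hc', _⟩ := mk_mem_edg.1 h1
      have hinj : Set.InjOn (Prod.fst : Fin 3 × Fin n → Fin 3) (t : Set (Fin 3 × Fin n)) := by
        intro x hx y hy hxy
        by_contra hne
        have h2 : s(x, y) ∈ compl3 P := (hT.1 t ht).2 (mk_mem_edg.2 ⟨hx, hy, hne⟩)
        exact (mem_compl3.1 h2).1 hxy
      have hcard : (t.image Prod.fst).card = 3 := by
        rw [Finset.card_image_of_injOn hinj, (hT.1 t ht).1]
      have huniv : t.image Prod.fst = univ := by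
        rw [← Finset.card_eq_iff_eq_univ, hcard, Fintype.card_fin]
      have h2 : (2 : Fin 3) ∈ t.image Prod.fst := by rw [huniv]; exact Finset.mem_univ _
      obtain ⟨z, hz, hz2⟩ := Finset.mem_image.1 h2
      refine ⟨z.2, Or.inr ?_⟩
      have hsub : tset ![r, c, z.2] ⊆ t := by
        intro x hx
        rw [mem_tset] at hx
        obtain ⟨i, a⟩ := x
        fin_cases i
        · have hx' : r = a := hx
          rw [← hx']; exact hr'
        · have hx' : c = a := hx
          rw [← hx']; exact hc'
        · have hx' : z.2 = a := hx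
          have : z = ((2 : Fin 3), a) := Prod.ext hz2 hx'
          rw [this] at hz
          exact hz
      have heq : tset ![r, c, z.2] = t :=
        Finset.eq_of_subset_of_card_le hsub (by rw [card_tset, (hT.1 t ht).1])
      rw [heq]
      exact ht
    · exact ⟨s, Or.inl h⟩
  choose L hL using hex
  refine ⟨L, ?_, ?_, ?_⟩
  · intro r c₁ c₂ h
    have h1 := hun _ _ (hL r c₁) (hL r c₂) 0 2 (by decide) rfl h
    exact congrFun h1 1
  · intro c r₁ r₂ h
    have h1 := hun _ _ (hL r₁ c) (hL r₂ c) 1 2 (by decide) rfl h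
    exact congrFun h1 0
  · intro r c s h
    have h1 : Q ![r, c, s] := Or.inl h
    exact congrFun (hun _ _ (hL r c) h1 0 1 (by decide) rfl rfl) 2

end Proto

theorem bridge3 : BridgeStatement3 := by
  intro ρ _ H ε hε
  obtain ⟨N, lo, hi, η, hη, hcov, hmain⟩ := H ε hε
  choose f hf using fun r => hmain r η hη
  refine ⟨univ.sup f + 1, ?_⟩
  intro n k hn hk P hrow hcol hs hr hc
  have hn0 : 0 < n := by omega
  have hnR : (0 : ℝ) < (n : ℝ) := by exact_mod_cast hn0
  have ht1 : 1 - (ρ - ε) ≤ 1 - (k : ℝ) / n := by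
    have : (k : ℝ) / n ≤ ρ - ε := by
      rw [div_le_iff₀ hnR]
      exact hk
    linarith
  have ht2 : 1 - (k : ℝ) / n ≤ 1 := by
    have : 0 ≤ (k : ℝ) / n := by positivity
    linarith
  obtain ⟨r, hr1, hr2⟩ := hcov _ ht1 ht2
  have hfr : f r ≤ n := by
    have : f r ≤ univ.sup f := Finset.le_sup (Finset.mem_univ r)
    omega
  have hdeg := pdeg_compl3 hrow hcol hs hr hc
  have hdegR : ∀ (v : Fin 3 × Fin n) (i : Fin 3), i ≠ v.1 →
      (pdeg Prod.fst (compl3 P) i v : ℝ) = (1 - (k : ℝ) / n) * n := by
    intro v i hi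
    have h1 := hdeg v i hi
    have h2 : (pdeg Prod.fst (compl3 P) i v : ℝ) + k = n := by exact_mod_cast h1
    have h3 : (1 - (k : ℝ) / n) * n = n - k := by
      field_simp
    rw [h3]; linarith
  have hDec : Dec (compl3 P) := by
    refine hf r (Fin 3 × Fin n) Prod.fst n (compl3 P) ?_ ?_ hfr ?_ ?_
    · intro u v huv
      exact (mem_compl3.1 huv).1
    · intro v i j hi hj
      have h1 := hdeg v i hi
      have h2 := hdeg v j hj
      omega
    · intro i
      have : part (Prod.fst : Fin 3 × Fin n → Fin 3) i = univ.image (fun a : Fin n => (i, a)) := by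
        ext x
        rw [mem_part, Finset.mem_image]
        constructor
        · intro h
          exact ⟨x.2, Finset.mem_univ _, Prod.ext h.symm rfl⟩
        · rintro ⟨a, _, rfl⟩
          rfl
      rw [this, Finset.card_image_of_injective _ (fun a b h => (Prod.mk.inj h).2),
        Finset.card_univ, Fintype.card_fin]
    · intro v i hi
      rw [hdegR v i hi]
      exact ⟨mul_le_mul_of_nonneg_right hr1 hnR.le, mul_le_mul_of_nonneg_right hr2 hnR.le⟩
  exact latin_of_dec hrow hcol hDec

end NW3
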