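import Pool.Agent.NW3.Defs3
import Pool.Agent.NW.Statements
import Pool.Agent.NW.CoverCore

/-!
# Project NW3: the exact statements of all modules of the 3-partite version

The parameters `lo ≤ hi` bound the degrees (relative to the size of a part) for which the
fractional theorem is available.  The non-regular case is `hi = 2` (no upper bound).
-/

set_option linter.unusedSectionVars false

namespace NW3

open Finset NW

/-- P1 (bounded fractional decomposition), for 3-partite edge sets with degrees between `lo n`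
and `hi n` which are nearly balanced.  Weights at most `C / |V|`, sums in `[1 - δ, 1]`. -/
def Frac3 (lo hi : ℝ) : Prop :=
  ∀ δ : ℝ, 0 < δ → ∃ τ : ℝ, 0 < τ ∧ ∃ C : ℝ, ∃ n0 : ℕ,
    ∀ (V : Type) [Fintype V] [DecidableEq V] (κ : V → Fin 3) (n : ℕ) (E : Finset (Sym2 V)),
      Tri3 κ E → n0 ≤ n → (∀ i, (part κ i).card = n) →
      (∀ v i, i ≠ κ v → lo * (n : ℝ) ≤ (pdeg κ E i v : ℝ) ∧ (pdeg κ E i v : ℝ) ≤ hi * (n : ℝ)) →
      (∀ v i j, i ≠ κ v → j ≠ κ v → (pdeg κ E i v : ℝ) ≤ (pdeg κ E j v : ℝ) + τ * (n : ℝ)) →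
      ∃ w : Finset V → ℝ, IsWt E w C ∧ ∀ e ∈ E, 1 - δ ≤ wsum w e ∧ wsum w e ≤ 1

/-- P2 (approximate decomposition), relative to a vertex set `X` with parts of size `n`. -/
def AD3 (lo hi : ℝ) : Prop :=
  ∀ γ : ℝ, 0 < γ → ∃ τ : ℝ, 0 < τ ∧ ∃ n0 : ℕ,
    ∀ (V : Type) [Fintype V] [DecidableEq V] (κ : V → Fin 3) (X : Finset V) (n : ℕ)
      (E : Finset (Sym2 V)), Tri3 κ E → E ⊆ X.sym2 → n0 ≤ n → (∀ i, (X ∩ part κ i).card = n) →
      (∀ v ∈ X, ∀ i, i ≠ κ v →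
        lo * (n : ℝ) ≤ (pdeg κ E i v : ℝ) ∧ (pdeg κ E i v : ℝ) ≤ hi * (n : ℝ)) →
      (∀ v ∈ X, ∀ i j, i ≠ κ v → j ≠ κ v →
        (pdeg κ E i v : ℝ) ≤ (pdeg κ E j v : ℝ) + τ * (n : ℝ)) →
      ∃ P, P ⊆ E ∧ Dec P ∧ ∀ v ∈ X, (deg (E \ P) v : ℝ) ≤ γ * (n : ℝ)

/-- P2 is proved from P1 and the nibble -/
def AD3Statement : Prop := NibbleStatement → ∀ lo hi : ℝ, 3 / 4 ≤ lo → Frac3 lo hi → AD3 lo hi

/-- the vertices of level `j` (in `U j`, not in `U (j+1)`) with label `a` -/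
def lcls {V : Type*} [DecidableEq V] {A : Type} [DecidableEq A] (U : ℕ → Finset V) (lab : V → A)
    (j : ℕ) (a : A) : Finset V := (U j \ U (j + 1)).filter (fun v => lab v = a)

/-- A labelled vortex `univ = U 0 ⊇ U 1 ⊇ … ⊇ U ℓ ⊇ U (ℓ+1) = ∅`; `s j` is the size of the parts
of `U j`.  Every vertex carries one label.  All vertices of `U (j-1)` (of `U 0 = univ` if
`j = 0`) see the set `U j` and the label classes of level `j` in the right proportion. -/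
structure LVortex {V : Type} [Fintype V] [DecidableEq V] {A : Type} [Fintype A] [DecidableEq A]
    (κ : V → Fin 3) (E : Finset (Sym2 V)) (n K ℓ : ℕ) (τ : ℝ) (U : ℕ → Finset V) (s : ℕ → ℕ)
    (lab : V → A) : Prop where
  zero : U 0 = univ
  sub : ∀ j, U (j + 1) ⊆ U j
  last : U (ℓ + 1) = ∅
  card : ∀ j i, (U j ∩ part κ i).card = s j
  up : ∀ j, j < ℓ → K * s (j + 1) ≤ s j
  low : ∀ j, j < ℓ → s j ≤ 2 * K * s (j + 1)
  dg : ∀ j, j ≤ ℓ → ∀ v ∈ U (j - 1), ∀ i,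
    |((nbr E v ∩ U j ∩ part κ i).card : ℝ) - (pdeg κ E i v : ℝ) / n * s j| ≤ τ * s j
  cls : ∀ j, j ≤ ℓ → ∀ v ∈ U (j - 1), ∀ i (a : A),
    |((nbr E v ∩ lcls U lab j a ∩ part κ i).card : ℝ) -
      (pdeg κ E i v : ℝ) / n * (((s j : ℝ) - s (j + 1)) / Fintype.card A)| ≤ τ * s j
  clscard : ∀ j, j ≤ ℓ → ∀ i (a : A),
    |((lcls U lab j a ∩ part κ i).card : ℝ) - ((s j : ℝ) - s (j + 1)) / Fintype.card A| ≤
      τ * s j

/-- P3 (labelled vortex); `E` is any edge set -/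
def LVortexStatement : Prop :=
  ∀ (A : Type) [Fintype A] [DecidableEq A] [Nonempty A] (K : ℕ), 2 ≤ K → ∀ τ : ℝ, 0 < τ →
    ∀ m : ℕ, ∃ M n0 : ℕ, ∀ (V : Type) [Fintype V] [DecidableEq V] (κ : V → Fin 3) (n : ℕ)
      (E : Finset (Sym2 V)), (∀ i, (part κ i).card = n) → n0 ≤ n →
      ∃ (ℓ : ℕ) (U : ℕ → Finset V) (s : ℕ → ℕ) (lab : V → A),
        LVortex κ E n K ℓ τ U s lab ∧ 2 ≤ ℓ ∧ m ≤ s ℓ ∧ s ℓ ≤ M

/-- the reserved pairs of level `j`: from a vertex of level `j` with line `l` to the vertices of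
level `j+1` whose point lies on `l` -/
def rsv (q : ℕ) {V : Type} [DecidableEq V] (U : ℕ → Finset V) (lab : V → PlPoint q × PlLine q)
    (j : ℕ) : Finset (Sym2 V) :=
  resv q (U j \ U (j + 1)) (U (j + 1) \ U (j + 2)) (fun u => (lab u).1) (fun v => (lab v).2)

/-- P4 (one step of the cover down along a labelled vortex).  `G` is the current graph on `U j`;
it contains the edges of `E` inside `U (j+1)` and the reserved edges of level `j`. -/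
def StepStatement3 : Prop :=
  ∀ lo hi : ℝ, 3 / 4 ≤ lo → AD3 lo hi → ∀ α : ℝ, 0 < α → ∃ K0 : ℕ, ∀ K : ℕ, K0 ≤ K →
    ∀ μ : ℝ, 0 < μ → ∃ (q : ℕ) (hq : Fact q.Prime) (τ : ℝ), 0 < τ ∧ ∃ m : ℕ,
    ∀ (V : Type) [Fintype V] [DecidableEq V] (κ : V → Fin 3) (E G : Finset (Sym2 V))
      (n ℓ : ℕ) (U : ℕ → Finset V) (s : ℕ → ℕ) (lab : V → PlPoint q × PlLine q) (j : ℕ),
      Tri3 κ E → LVortex κ E n K ℓ τ U s lab → m ≤ s ℓ → j < ℓ → Bal3 κ E →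
      (∀ v i, i ≠ κ v →
        (lo + α) * (n : ℝ) ≤ (pdeg κ E i v : ℝ) ∧ (pdeg κ E i v : ℝ) ≤ (hi - α) * (n : ℝ)) →
      G ⊆ E → G ⊆ (U j).sym2 → Bal3 κ G → E ∩ (U (j + 1)).sym2 ⊆ G → E ∩ rsv q U lab j ⊆ G →
      (∀ v ∈ U j, (NW.deg ((E ∩ (U j).sym2) \ G) v : ℝ) ≤ α / 4 * (s j : ℝ)) →
      ∃ D, D ⊆ G ∧ Dec D ∧ G \ D ⊆ (U (j + 1)).sym2 ∧ Disjoint D (U (j + 2)).sym2 ∧
        Disjoint D (rsv q U lab (j + 1)) ∧
        ∀ v ∈ U (j + 1), (NW.deg (D ∩ (U (j + 1)).sym2) v : ℝ) ≤ μ * (s (j + 1) : ℝ)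

/-- P5 (3-partite absorbers) -/
def AbsorberStatement3 : Prop :=
  ∀ m : ℕ, ∃ C : ℕ, ∀ (V : Type) [Fintype V] [DecidableEq V] (κ : V → Fin 3)
    (E : Finset (Sym2 V)) (U F : Finset V), Tri3 κ E → U.card ≤ m → U ⊆ F →
    (∀ (S : Finset V) (i : Fin 3), S.card ≤ 4 → (∀ x ∈ S, κ x ≠ i) →
      C ≤ (cnbr E S F ∩ part κ i).card) →
    ∃ A, A ⊆ E ∧ Dec A ∧ A.card ≤ C ∧ (∀ e ∈ A, ∃ v ∈ e, v ∉ F) ∧
      (∀ e ∈ A, ∀ v ∈ e, v ∈ F → v ∈ U) ∧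
      ∀ D, D ⊆ U.sym2 → Tri3 κ D → Bal3 κ D → Dec (A ∪ D)

/-- P6 (the 3-partite asymptotic theorem for degrees between `lo n` and `hi n`) -/
def Main3 (lo hi : ℝ) : Prop :=
  ∀ α : ℝ, 0 < α → ∃ n0 : ℕ,
    ∀ (V : Type) [Fintype V] [DecidableEq V] (κ : V → Fin 3) (n : ℕ) (E : Finset (Sym2 V)),
      Tri3 κ E → Bal3 κ E → n0 ≤ n → (∀ i, (part κ i).card = n) →
      (∀ v i, i ≠ κ v →
        (lo + α) * (n : ℝ) ≤ (pdeg κ E i v : ℝ) ∧ (pdeg κ E i v : ℝ) ≤ (hi - α) * (n : ℝ)) →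
      Dec E

/-- P6 is proved from P2, P3, P4, P5 -/
def GlueStatement3 : Prop :=
  LVortexStatement → StepStatement3 → AbsorberStatement3 → ∀ lo hi : ℝ, 3 / 4 ≤ lo →
    AD3 lo hi → Main3 lo hi

/-- P7: protoplexes of large order with `k ≤ (ρ - ε) n` are completable -/
def Proto (ρ : ℝ) : Prop :=
  ∀ ε : ℝ, 0 < ε → ∃ n0 : ℕ, ∀ n k : ℕ, n0 ≤ n → (k : ℝ) ≤ (ρ - ε) * n →
    ∀ P : Fin n → Fin n → Option (Fin n),
      (∀ (r c₁ c₂ s : Fin n), P r c₁ = some s → P r c₂ = some s → c₁ = c₂) →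
      (∀ (c r₁ r₂ s : Fin n), P r₁ c = some s → P r₂ c = some s → r₁ = r₂) →
      (∀ s : Fin n,
        (Finset.univ.filter (fun p : Fin n × Fin n => P p.1 p.2 = some s)).card = k) →
      (∀ r : Fin n, (Finset.univ.filter (fun c : Fin n => P r c ≠ none)).card = k) →
      (∀ c : Fin n, (Finset.univ.filter (fun r : Fin n => P r c ≠ none)).card = k) →
      ∃ L : Fin n → Fin n → Fin n,
        (∀ r : Fin n, Function.Injective (L r)) ∧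
        (∀ c : Fin n, Function.Injective (fun r : Fin n => L r c)) ∧
        ∀ (r c s : Fin n), P r c = some s → L r c = s

/-- P7 (bridge): if every `t ∈ [3/4, 1]` with `1 - ρ ≤ t` (the relative degree `1 - k/n`) lies in
the interior of an interval `[lo, hi]` for which `Main3` is known, then `Proto ρ` -/
def BridgeStatement3 : Prop :=
  ∀ ρ : ℝ, 0 < ρ → (∀ ε : ℝ, 0 < ε → ∃ N : ℕ, ∃ lo hi : Fin N → ℝ, ∃ η : ℝ, 0 < η ∧
      (∀ t : ℝ, 1 - (ρ - ε) ≤ t → t ≤ 1 → ∃ r, lo r + η ≤ t ∧ t ≤ hi r - η) ∧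
      ∀ r, Main3 (lo r) (hi r)) → Proto ρ

/-- P8: the fractional theorem for nearly regular complements, `k ≤ (1/5 - ε) n` -/
def FracFifth : Prop :=
  ∀ ε : ℝ, 0 < ε → ∃ η : ℝ, 0 < η ∧ ∀ t : ℝ, 4 / 5 + ε ≤ t → t ≤ 1 → Frac3 (t - η) (t + η)

end NW3
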