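import Pool.Agent.NW3.FracConv3
import Pool.Agent.NW3.Statements3

set_option autoImplicit false
set_option linter.unusedSectionVars false

/-!
# P1: proof of `FracFifth`, and `Frac3` from any weighted fractional theorem
-/

open Finset

namespace NW3

open NW

theorem pdeg_cpt {V : Type} [DecidableEq V] [Fintype V] (κ : V → Fin 3) (E : Finset (Sym2 V))
    (i : Fin 3) (v : V) : (pdeg κ E i v : ℝ) = (degIn E (cpt κ i) v : ℝ) := by
  rw [pdeg_eq_degIn]
  rfl

/-- **P1** -/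
theorem fracFifth : FracFifth := by
  intro ε hε
  obtain ⟨η, hη, h⟩ := fracR_fifth ε hε
  refine ⟨η, hη, ?_⟩
  intro t ht0 ht1 δ hδ
  obtain ⟨θ, hθ, C, h⟩ := h δ hδ
  refine ⟨θ, hθ, C, 1, ?_⟩
  intro V _ _ κ n E h3 hn1 hn hdeg hbal
  refine h V κ n E (1 - t) h3 hn1 hn (by linarith) (by linarith) ?_ ?_
  · intro v i hi
    have := hdeg v i hi
    rw [← pdeg_cpt, abs_le]
    constructor <;> linarith [this.1, this.2]
  · intro v i j hi hj
    rw [← pdeg_cpt, ← pdeg_cpt]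
    exact hbal v i j hi hj

/-- `Frac3` from any weighted fractional theorem (no upper bound for the degrees is needed) -/
theorem frac3_of_FT (ρ : ℝ) (hρ : ρ ≤ 1 / 4) (hF : FT ρ) (ε : ℝ) (hε : 0 < ε) (hi : ℝ) :
    Frac3 (1 - ρ + ε) hi := by
  intro δ hδ
  obtain ⟨θ, hθ, C, h⟩ := frac_of_FT ρ hρ hF ε δ hε hδ
  refine ⟨θ, hθ, C, 1, ?_⟩
  intro V _ _ κ n E h3 hn1 hn hdeg hbal
  refine h V κ n E h3 hn1 hn ?_ ?_
  · intro v i hi
    rw [← pdeg_cpt]
    exact (hdeg v i hi).1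
  · intro v i j hi hj
    rw [← pdeg_cpt, ← pdeg_cpt]
    exact hbal v i j hi hj

end NW3
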