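import Pool.Agent.NW3.Glue3
import Pool.Agent.NW3.AD3
import Pool.Agent.NW3.Bridge3
import Pool.Agent.NW3.FracProof3
import Pool.Agent.NW.LinNibble

/-!
# Project NW3: the completion theorem for protoplexes from the modules

`proto_of_frac`: if `Frac3 (t - η) (t + η)` holds for all `t ∈ [1 - ρ + ε, 1]`, `ρ ≤ 1 / 4`, then
all large protoplexes with `k ≤ (ρ - ε) n` are completable.
-/

set_option linter.unusedSectionVars false

namespace NW3

open Finset NW

/-- smaller intervals are easier -/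
theorem Frac3.mono {lo hi lo' hi' : ℝ} (h : Frac3 lo hi) (h1 : lo ≤ lo') (h2 : hi' ≤ hi) :
    Frac3 lo' hi' := by
  intro δ hδ
  obtain ⟨τ, hτ, C, n0, hn⟩ := h δ hδ
  refine ⟨τ, hτ, C, n0, ?_⟩
  intro V _ _ κ n E ht hn0 hp hd hb
  refine hn V κ n E ht hn0 hp (fun v i hi' => ?_) hb
  obtain ⟨h3, h4⟩ := hd v i hi'
  have hn' : (0 : ℝ) ≤ n := Nat.cast_nonneg n
  exact ⟨(mul_le_mul_of_nonneg_right h1 hn').trans h3,
    h4.trans (mul_le_mul_of_nonneg_right h2 hn')⟩

theorem proto_of_frac (hL : LVortexStatement) (hS : StepStatement3) (hA : AbsorberStatement3)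
    (ρ : ℝ) (hρ0 : 0 < ρ) (hρ : ρ ≤ 1 / 4)
    (hF : ∀ ε : ℝ, 0 < ε → ∃ η : ℝ, 0 < η ∧
      ∀ t : ℝ, 1 - ρ + ε ≤ t → t ≤ 1 → Frac3 (t - η) (t + η)) : Proto ρ := by
  refine bridge3 ρ hρ0 ?_
  intro ε hε
  rcases lt_or_ge ρ ε with hρε | hρε
  · refine ⟨0, fun r => r.elim0, fun r => r.elim0, 1, one_pos, ?_, fun r => r.elim0⟩
    intro t ht ht1
    exfalso
    linarith
  obtain ⟨η0, hη0, hF0⟩ := hF (ε / 2) (by positivity)
  obtain ⟨η, hηdef⟩ : ∃ η : ℝ, η = min η0 (ε / 2) := ⟨_, rfl⟩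
  have hη : 0 < η := by rw [hηdef]; exact lt_min hη0 (by positivity)
  have hηη : η ≤ η0 := by rw [hηdef]; exact min_le_left _ _
  have hηε : η ≤ ε / 2 := by rw [hηdef]; exact min_le_right _ _
  obtain ⟨N, hN⟩ := exists_nat_gt (ρ / (η / 2))
  rw [div_lt_iff₀ (by positivity)] at hN
  let T : Fin N → ℝ := fun r => max (1 - (r : ℕ) * (η / 2)) (1 - ρ + ε / 2)
  have hT1 : ∀ r, T r ≤ 1 := by
    intro r
    refine max_le ?_ (by linarith)
    have : (0 : ℝ) ≤ (r : ℕ) * (η / 2) := by positivity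
    linarith
  refine ⟨N, fun r => T r - η, fun r => T r + η, η / 2, by positivity, ?_, ?_⟩
  · intro t ht ht1
    obtain ⟨m, hm⟩ : ∃ m : ℕ, m = ⌊(1 - t) / (η / 2)⌋₊ := ⟨_, rfl⟩
    have h0 : 0 ≤ (1 - t) / (η / 2) := div_nonneg (by linarith) (by positivity)
    have h1 : (m : ℝ) ≤ (1 - t) / (η / 2) := by rw [hm]; exact Nat.floor_le h0
    have h2 : (1 - t) / (η / 2) < (m : ℝ) + 1 := by rw [hm]; exact Nat.lt_floor_add_one _
    rw [le_div_iff₀ (by positivity)] at h1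
    rw [div_lt_iff₀ (by positivity)] at h2
    have h3 : (m : ℝ) < N := by
      by_contra hc
      push Not at hc
      have : (N : ℝ) * (η / 2) ≤ m * (η / 2) := mul_le_mul_of_nonneg_right hc (by positivity)
      linarith
    have h3' : m < N := by exact_mod_cast h3
    refine ⟨⟨m, h3'⟩, ?_, ?_⟩
    · have h4 : T ⟨m, h3'⟩ ≤ t + η / 2 := by
        refine max_le ?_ (by linarith)
        show 1 - (m : ℝ) * (η / 2) ≤ t + η / 2
        linarith
      linarith
    · have h4 : t ≤ T ⟨m, h3'⟩ := by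
        refine le_trans ?_ (le_max_left _ _)
        show t ≤ 1 - (m : ℝ) * (η / 2)
        linarith
      linarith
  · intro r
    have h5 : 1 - ρ + ε / 2 ≤ T r := le_max_right _ _
    have h6 : Frac3 (T r - η) (T r + η) :=
      (hF0 (T r) h5 (hT1 r)).mono (by linarith) (by linarith)
    have h7 : (3 / 4 : ℝ) ≤ T r - η := by linarith
    exact glue3 hL hS hA _ _ h7 (ad3 nibble _ _ h7 h6)

/-- the case `ρ = 1 / 5` -/
theorem proto_fifth_of (hL : LVortexStatement) (hS : StepStatement3) (hA : AbsorberStatement3) :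
    Proto (1 / 5) :=
  proto_of_frac hL hS hA (1 / 5) (by norm_num) (by norm_num) (fun ε hε => by
    obtain ⟨η, hη, h⟩ := fracFifth ε hε
    exact ⟨η, hη, fun t ht ht1 => h t (by linarith) ht1⟩)

/-- a weighted fractional theorem with constant `ρ ≤ 1 / 4` is enough -/
theorem proto_of_FT (hL : LVortexStatement) (hS : StepStatement3) (hA : AbsorberStatement3)
    (ρ : ℝ) (hρ0 : 0 < ρ) (hρ : ρ ≤ 1 / 4) (hF : FT ρ) : Proto ρ :=
  proto_of_frac hL hS hA ρ hρ0 hρ (fun ε hε => ⟨ε / 2, by positivity, fun t ht _ =>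
    (frac3_of_FT ρ hρ hF (ε / 2) (by positivity) (t + ε / 2)).mono (by linarith) le_rfl⟩)

end NW3
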