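import Pool.Agent.NW3.Statements3
import Pool.Agent.NW.Vortex

/-!
# Project NW3, part P3: labelled vortices
-/

set_option linter.unusedSectionVars false

namespace NW3

open Finset NW NWC

/-- **Labelled sampling lemma.** A random labelling of the vertices with probabilities `p b` meets
every set of a family in about the expected number of points. -/
theorem lsample {V ι B : Type*} [Fintype V] [DecidableEq V] [Fintype B] [DecidableEq B]
    (p : B → ℝ) (hp : PW p) (S : Finset ι) (F : ι → Finset V)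
    (N : ℝ) (hN : 0 < N) (hF : ∀ j ∈ S, ((F j).card : ℝ) ≤ N) (x : ℝ) (hx : 0 ≤ x)
    (h : ((S.card : ℝ) * Fintype.card B) * (2 * Real.exp (-(x ^ 2 / (2 * N)))) < 1) :
    ∃ f : V → B, ∀ j ∈ S, ∀ b,
      |(((F j).filter (fun v => f v = b)).card : ℝ) - p b * (F j).card| < x := by
  classical
  have hp' : ∀ _ : V, PW p := fun _ => hp
  have hex : ∀ b : B, Ex p (fun c : B => if c = b then (1 : ℝ) else 0) = p b := by
    intro b
    simp [Ex]
  obtain ⟨ω, _, hω⟩ := exists_avoid_card (pw_prod (A := fun _ : V => B)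
    (p := fun _ => p) hp') (S ×ˢ (univ : Finset B))
    (fun q ω => ((∑ i ∈ F q.1, Ex p (fun c : B => if c = q.2 then (1 : ℝ) else 0)) + x ≤
        ∑ i ∈ F q.1, (if ω i = q.2 then (1 : ℝ) else 0)) ∨
      (∑ i ∈ F q.1, (if ω i = q.2 then (1 : ℝ) else 0) ≤
        (∑ i ∈ F q.1, Ex p (fun c : B => if c = q.2 then (1 : ℝ) else 0)) - x))
    (2 * Real.exp (-(x ^ 2 / (2 * N)))) (by
      intro q hq
      have hq1 : q.1 ∈ S := (Finset.mem_product.1 hq).1
      refine (pr_or (pw_prod hp') _ _).trans ?_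
      have h1 := hoeffding_upper (p := fun _ : V => p) hp' (F q.1)
        (fun _ c => if c = q.2 then (1 : ℝ) else 0) (fun _ b => by split_ifs <;> norm_num)
        (fun _ b => by split_ifs <;> norm_num) N hN (hF q.1 hq1) x hx
      have h2 := hoeffding_lower (p := fun _ : V => p) hp' (F q.1)
        (fun _ c => if c = q.2 then (1 : ℝ) else 0) (fun _ b => by split_ifs <;> norm_num)
        (fun _ b => by split_ifs <;> norm_num) N hN (hF q.1 hq1) x hx
      linarith) (by
      rw [Finset.card_product, Finset.card_univ]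
      push_cast
      exact h)
  refine ⟨ω, fun j hj b => ?_⟩
  have h2 := hω (j, b) (Finset.mem_product.2 ⟨hj, Finset.mem_univ _⟩)
  rw [not_or, not_le, not_le] at h2
  simp only [hex] at h2
  have h3 : ∑ i ∈ F j, (if ω i = b then (1 : ℝ) else 0) =
      (((F j).filter (fun v => ω v = b)).card : ℝ) := by
    rw [Finset.sum_ite, Finset.sum_const_zero, add_zero, Finset.sum_const, nsmul_eq_mul, mul_one]
  rw [h3, Finset.sum_const, nsmul_eq_mul] at h2
  rw [abs_lt]
  constructor <;> linarith [h2.1, h2.2]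

theorem abs_card_sub_card_le {V : Type*} [DecidableEq V] {P Q B : Finset V} (h1 : P ⊆ Q ∪ B)
    (h2 : Q ⊆ P ∪ B) : |(P.card : ℝ) - Q.card| ≤ B.card := by
  have h3 : P.card ≤ Q.card + B.card := (Finset.card_le_card h1).trans (Finset.card_union_le _ _)
  have h4 : Q.card ≤ P.card + B.card := (Finset.card_le_card h2).trans (Finset.card_union_le _ _)
  have h5 : (P.card : ℝ) ≤ Q.card + B.card := by exact_mod_cast h3
  have h6 : (Q.card : ℝ) ≤ P.card + B.card := by exact_mod_cast h4
  rw [abs_le]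
  constructor <;> linarith

/-- **One step.** -/
theorem lstep {V A : Type*} [Fintype V] [DecidableEq V] [Fintype A] [DecidableEq A] [Nonempty A]
    (κ : V → Fin 3) (E : Finset (Sym2 V)) (X Y : Finset V) (s z : ℕ) (hs : 0 < s) (hz : z ≤ s)
    (hX : ∀ i, (X ∩ part κ i).card = s) (L : ℝ) (hL : (Y.card : ℝ) ≤ L) (x : ℝ) (hx : 0 ≤ x)
    (h : ((3 * (L + 1)) * (Fintype.card A + 1)) *
      (2 * Real.exp (-(x ^ 2 / (2 * (s : ℝ))))) < 1) :
    ∃ (Z : Finset V) (lab : V → A), Z ⊆ X ∧ (∀ i, (Z ∩ part κ i).card = z) ∧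
      (∀ v ∈ Y, ∀ i, |((nbr E v ∩ Z ∩ part κ i).card : ℝ) -
        (nbr E v ∩ X ∩ part κ i).card * ((z : ℝ) / s)| ≤ 2 * x) ∧
      (∀ v ∈ Y, ∀ i a, |((nbr E v ∩ (X \ Z).filter (fun u => lab u = a) ∩ part κ i).card : ℝ) -
        (nbr E v ∩ X ∩ part κ i).card * (((s : ℝ) - z) / s / Fintype.card A)| ≤ 2 * x) ∧
      (∀ i a, |(((X \ Z).filter (fun u => lab u = a) ∩ part κ i).card : ℝ) -
        ((s : ℝ) - z) / Fintype.card A| ≤ 2 * x) := by
  classical
  have hs0 : (0 : ℝ) < s := by exact_mod_cast hs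
  have hzs : (z : ℝ) ≤ s := by exact_mod_cast hz
  have hA0 : (0 : ℝ) < Fintype.card A := by exact_mod_cast Fintype.card_pos
  set p : Option A → ℝ := fun b => Option.elim b ((z : ℝ) / s)
    (fun _ => ((s : ℝ) - z) / s / Fintype.card A) with hpdef
  have hp : PW p := by
    refine ⟨fun b => ?_, ?_⟩
    · cases b with
      | none => show 0 ≤ (z : ℝ) / s; positivity
      | some a =>
        show 0 ≤ ((s : ℝ) - z) / s / Fintype.card A
        exact div_nonneg (div_nonneg (by linarith) hs0.le) hA0.le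
    · rw [Fintype.sum_option]
      show (z : ℝ) / s + ∑ _ : A, ((s : ℝ) - z) / s / Fintype.card A = 1
      rw [Finset.sum_const, Finset.card_univ, nsmul_eq_mul]
      field_simp
      ring
  set S : Finset (Fin 3 × Option V) := univ ×ˢ (insertNone Y) with hS
  have hScard : (S.card : ℝ) ≤ 3 * (L + 1) := by
    rw [hS, Finset.card_product, Finset.card_insertNone, Finset.card_univ, Fintype.card_fin]
    push_cast
    linarith
  set F : Fin 3 × Option V → Finset V := fun q => Option.elim q.2 (X ∩ part κ q.1)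
    (fun v => nbr E v ∩ X ∩ part κ q.1) with hF
  obtain ⟨f, hf⟩ := lsample p hp S F (s : ℝ) hs0 (by
    rintro ⟨i, _ | v⟩ _
    · show (((X ∩ part κ i).card : ℕ) : ℝ) ≤ s
      rw [hX]
    · show (((nbr E v ∩ X ∩ part κ i).card : ℕ) : ℝ) ≤ s
      rw [← hX i, Finset.inter_assoc]
      exact_mod_cast Finset.card_le_card Finset.inter_subset_right) x hx (by
    refine lt_of_le_of_lt (mul_le_mul_of_nonneg_right ?_ (by positivity)) h
    rw [Fintype.card_option]
    push_cast
    exact mul_le_mul_of_nonneg_right hScard (by positivity))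
  -- the two kinds of test sets
  have hsz : ∀ i b, |((((X ∩ part κ i)).filter (fun v => f v = b)).card : ℝ) - p b * s| < x := by
    intro i b
    have h1 := hf (i, none) (by rw [hS]; simp) b
    have h2 : F (i, none) = X ∩ part κ i := rfl
    rw [h2, hX i] at h1
    exact h1
  have hdg : ∀ v ∈ Y, ∀ i b, |(((nbr E v ∩ X ∩ part κ i).filter (fun v => f v = b)).card : ℝ) -
      p b * (nbr E v ∩ X ∩ part κ i).card| < x := by
    intro v hv i b
    exact hf (i, some v) (by rw [hS]; simp [hv]) b
  -- exact sizes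
  have hex : ∀ i, ∃ Z : Finset V, Z ⊆ X ∩ part κ i ∧ Z.card = z ∧
      (((X ∩ part κ i).filter (fun v => f v = none)) ⊆ Z ∨
        Z ⊆ ((X ∩ part κ i).filter (fun v => f v = none))) := by
    intro i
    rcases le_total ((X ∩ part κ i).filter (fun v => f v = none)).card z with hle | hle
    · obtain ⟨Z, hZ1, hZ2, hZ3⟩ := Finset.exists_subsuperset_card_eq
        (Finset.filter_subset (fun v => f v = none) (X ∩ part κ i)) hle (by rw [hX i]; exact hz)
      exact ⟨Z, hZ2, hZ3, Or.inl hZ1⟩
    · obtain ⟨Z, hZ1, hZ2⟩ := Finset.exists_subset_card_eq hle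
      exact ⟨Z, hZ1.trans (Finset.filter_subset _ _), hZ2, Or.inr hZ1⟩
  choose Z hZ1 hZ2 hZ3 using hex
  set W : Finset V := univ.biUnion Z with hW
  have hWX : W ⊆ X := by
    rw [hW]
    exact Finset.biUnion_subset.2 fun i _ => (hZ1 i).trans Finset.inter_subset_left
  have hWi : ∀ i, W ∩ part κ i = Z i := by
    intro i
    ext u
    rw [Finset.mem_inter, hW, Finset.mem_biUnion]
    constructor
    · rintro ⟨⟨j, _, hj⟩, hu⟩
      have h1 : κ u = j := mem_part.1 (Finset.mem_inter.1 (hZ1 j hj)).2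
      have h2 : κ u = i := mem_part.1 hu
      rw [← h2, h1]
      exact hj
    · intro hu
      exact ⟨⟨i, Finset.mem_univ _, hu⟩, (Finset.mem_inter.1 (hZ1 i hu)).2⟩
  have hWmem : ∀ u i, κ u = i → (u ∈ W ↔ u ∈ Z i) := by
    intro u i hu
    rw [← hWi i, Finset.mem_inter, mem_part]
    exact ⟨fun h1 => ⟨h1, hu⟩, fun h1 => h1.1⟩
  -- the set of the moved vertices
  set B : Fin 3 → Finset V := fun i =>
    (Z i \ ((X ∩ part κ i).filter (fun v => f v = none))) ∪
      (((X ∩ part κ i).filter (fun v => f v = none)) \ Z i) with hB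
  have hBcard : ∀ i, ((B i).card : ℝ) ≤ x := by
    intro i
    have h1 := abs_lt.1 (hsz i none)
    have h2 : p none * s = z := by
      show (z : ℝ) / s * s = z
      field_simp
    rw [h2] at h1
    rcases hZ3 i with h3 | h3
    · have h4 : B i = Z i \ ((X ∩ part κ i).filter (fun v => f v = none)) := by
        rw [hB]
        simp only
        rw [Finset.sdiff_eq_empty_iff_subset.2 h3, Finset.union_empty]
      have h5 := Finset.card_sdiff_add_card_eq_card h3
      rw [← h4, hZ2] at h5
      have h6 : ((B i).card : ℝ) +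
          (((X ∩ part κ i).filter (fun v => f v = none)).card : ℝ) = z := by exact_mod_cast h5
      linarith
    · have h4 : B i = ((X ∩ part κ i).filter (fun v => f v = none)) \ Z i := by
        rw [hB]
        simp only
        rw [Finset.sdiff_eq_empty_iff_subset.2 h3, Finset.empty_union]
      have h5 := Finset.card_sdiff_add_card_eq_card h3
      rw [← h4, hZ2] at h5
      have h6 : ((B i).card : ℝ) + (z : ℝ) =
          (((X ∩ part κ i).filter (fun v => f v = none)).card : ℝ) := by exact_mod_cast h5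
      linarith
  set a₀ : A := Classical.arbitrary A with ha₀
  -- membership in the moved set
  have hmv : ∀ u i, κ u = i → u ∈ X → ¬ (u ∈ W ↔ f u = none) → u ∈ B i := by
    intro u i hu huX hn
    rw [hWmem u i hu] at hn
    rw [hB]
    simp only [Finset.mem_union, Finset.mem_sdiff, Finset.mem_filter, Finset.mem_inter, mem_part]
    by_cases h1 : u ∈ Z i
    · left
      refine ⟨h1, fun h2 => hn ?_⟩
      exact ⟨fun _ => h2.2, fun _ => h1⟩
    · right
      refine ⟨⟨⟨huX, hu⟩, ?_⟩, h1⟩
      by_contra h2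
      exact hn ⟨fun h3 => absurd h3 h1, fun h3 => absurd h3 h2⟩
  refine ⟨W, fun v => (f v).getD a₀, hWX, fun i => by rw [hWi, hZ2], ?_, ?_, ?_⟩
  · intro v hv i
    have h1 := abs_lt.1 (hdg v hv i none)
    have h2 : |((nbr E v ∩ W ∩ part κ i).card : ℝ) -
        (((nbr E v ∩ X ∩ part κ i).filter (fun v => f v = none)).card : ℝ)| ≤ (B i).card := by
      refine abs_card_sub_card_le ?_ ?_
      · intro u hu
        simp only [Finset.mem_union, Finset.mem_filter, Finset.mem_inter, mem_part] at hu ⊢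
        by_cases h3 : f u = none
        · exact Or.inl ⟨⟨⟨hu.1.1, hWX hu.1.2⟩, hu.2⟩, h3⟩
        · exact Or.inr (hmv u i hu.2 (hWX hu.1.2) fun h4 => h3 (h4.1 hu.1.2))
      · intro u hu
        simp only [Finset.mem_union, Finset.mem_filter, Finset.mem_inter, mem_part] at hu ⊢
        by_cases h3 : u ∈ W
        · exact Or.inl ⟨⟨hu.1.1.1, h3⟩, hu.1.2⟩
        · exact Or.inr (hmv u i hu.1.2 hu.1.1.2 fun h4 => h3 (h4.2 hu.2))
    have h3 := abs_le.1 (h2.trans (hBcard i))
    have h4 : p none = (z : ℝ) / s := rfl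
    rw [h4] at h1
    rw [abs_le]
    constructor <;> linarith [h1.1, h1.2, h3.1, h3.2]
  · intro v hv i a
    have h1 := abs_lt.1 (hdg v hv i (some a))
    have h2 : |((nbr E v ∩ (X \ W).filter (fun u => (f u).getD a₀ = a) ∩ part κ i).card : ℝ) -
        (((nbr E v ∩ X ∩ part κ i).filter (fun v => f v = some a)).card : ℝ)| ≤ (B i).card := by
      refine abs_card_sub_card_le ?_ ?_
      · intro u hu
        simp only [Finset.mem_union, Finset.mem_filter, Finset.mem_inter, mem_part,
          Finset.mem_sdiff] at hu ⊢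
        obtain ⟨⟨h3, ⟨h4, h5⟩, h6⟩, h7⟩ := hu
        rcases hfu : f u with _ | b
        · exact Or.inr (hmv u i h7 h4 fun h8 => h5 (h8.2 hfu))
        · left
          rw [hfu, Option.getD_some] at h6
          exact ⟨⟨⟨h3, h4⟩, h7⟩, by rw [h6]⟩
      · intro u hu
        simp only [Finset.mem_union, Finset.mem_filter, Finset.mem_inter, mem_part,
          Finset.mem_sdiff] at hu ⊢
        obtain ⟨⟨⟨h3, h4⟩, h5⟩, h6⟩ := hu
        by_cases h7 : u ∈ W
        · refine Or.inr (hmv u i h5 h4 fun h8 => ?_)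
          have h9 := h8.1 h7
          rw [h6] at h9
          exact Option.some_ne_none _ h9
        · left
          exact ⟨⟨h3, ⟨h4, h7⟩, by rw [h6, Option.getD_some]⟩, h5⟩
    have h3 := abs_le.1 (h2.trans (hBcard i))
    have h4 : p (some a) = ((s : ℝ) - z) / s / Fintype.card A := rfl
    rw [h4] at h1
    rw [abs_le]
    constructor <;> linarith [h1.1, h1.2, h3.1, h3.2]
  · intro i a
    have h1 := abs_lt.1 (hsz i (some a))
    have h2 : |(((X \ W).filter (fun u => (f u).getD a₀ = a) ∩ part κ i).card : ℝ) -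
        (((X ∩ part κ i).filter (fun v => f v = some a)).card : ℝ)| ≤ (B i).card := by
      refine abs_card_sub_card_le ?_ ?_
      · intro u hu
        simp only [Finset.mem_union, Finset.mem_filter, Finset.mem_inter, mem_part,
          Finset.mem_sdiff] at hu ⊢
        obtain ⟨⟨⟨h4, h5⟩, h6⟩, h7⟩ := hu
        rcases hfu : f u with _ | b
        · exact Or.inr (hmv u i h7 h4 fun h8 => h5 (h8.2 hfu))
        · left
          rw [hfu, Option.getD_some] at h6
          exact ⟨⟨h4, h7⟩, by rw [h6]⟩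
      · intro u hu
        simp only [Finset.mem_union, Finset.mem_filter, Finset.mem_inter, mem_part,
          Finset.mem_sdiff] at hu ⊢
        obtain ⟨⟨h4, h5⟩, h6⟩ := hu
        by_cases h7 : u ∈ W
        · refine Or.inr (hmv u i h5 h4 fun h8 => ?_)
          have h9 := h8.1 h7
          rw [h6] at h9
          exact Option.some_ne_none _ h9
        · left
          exact ⟨⟨⟨h4, h7⟩, by rw [h6, Option.getD_some]⟩, h5⟩
    have h3 := abs_le.1 (h2.trans (hBcard i))
    have h4 : p (some a) * s = ((s : ℝ) - z) / Fintype.card A := by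
      show ((s : ℝ) - z) / s / Fintype.card A * s = ((s : ℝ) - z) / Fintype.card A
      field_simp
    rw [h4] at h1
    rw [abs_le]
    constructor <;> linarith [h1.1, h1.2, h3.1, h3.2]

theorem card_eq_three_mul {V : Type*} [Fintype V] [DecidableEq V] (κ : V → Fin 3) (X : Finset V)
    (s : ℕ) (hX : ∀ i, (X ∩ part κ i).card = s) : X.card = 3 * s := by
  have h1 : X.card = ∑ i : Fin 3, (X ∩ part κ i).card := by
    rw [Finset.card_eq_sum_card_fiberwise (s := X) (t := univ) (f := κ)
      (fun _ _ => Finset.mem_coe.2 (Finset.mem_univ _))]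
    refine Finset.sum_congr rfl fun i _ => ?_
    congr 1
    ext u
    simp
  rw [h1, Finset.sum_congr rfl (fun i _ => hX i), Finset.sum_const, Finset.card_univ,
    Fintype.card_fin, smul_eq_mul]

/-- **The recursion**, for the remaining `r` levels; `Y` is the previous level, `X` the current
one. -/
theorem lvortex_rec {V A : Type*} [Fintype V] [DecidableEq V] [Fintype A] [DecidableEq A]
    [Nonempty A] (κ : V → Fin 3) (E : Finset (Sym2 V)) (D : V → Fin 3 → ℝ) (K : ℕ) (hK : 2 ≤ K)
    (τ : ℝ) (M : ℕ) (hMK : 2 * K ≤ M)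
    (hprob : ∀ s : ℕ, M ≤ s → ((3 * (6 * (K : ℝ) * s + 1)) * (Fintype.card A + 1)) *
      (2 * Real.exp (-(1 / 2 * √(s : ℝ)))) < 1)
    (hq : ∀ s : ℕ, M ≤ s → (2 + 24 * (K : ℝ)) ≤ τ * qr s) :
    ∀ (r s : ℕ) (X Y : Finset V), M ≤ s / K ^ r → (∀ i, (X ∩ part κ i).card = s) →
      (Y.card : ℝ) ≤ 6 * K * s → X ⊆ Y →
      (∀ v ∈ Y, ∀ i, |((nbr E v ∩ X ∩ part κ i).card : ℝ) - D v i * s| * qr s ≤ 24 * K * s) →
      ∃ (U : ℕ → Finset V) (σ : ℕ → ℕ) (lab : V → A), U 0 = Y ∧ U 1 = X ∧
        (∀ j, U (j + 1) ⊆ U j) ∧ U (r + 2) = ∅ ∧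
        (∀ j i, (U (j + 1) ∩ part κ i).card = σ j) ∧ σ 0 = s ∧
        (∀ j, j < r → σ (j + 1) = σ j / K) ∧
        (∀ j, j ≤ r → ∀ v ∈ U j, ∀ i,
          |((nbr E v ∩ U (j + 1) ∩ part κ i).card : ℝ) - D v i * σ j| ≤ τ * σ j) ∧
        (∀ j, j ≤ r → ∀ v ∈ U j, ∀ i (a : A),
          |((nbr E v ∩ (U (j + 1) \ U (j + 2)).filter (fun u => lab u = a) ∩ part κ i).card : ℝ) -
            D v i * (((σ j : ℝ) - σ (j + 1)) / Fintype.card A)| ≤ τ * σ j) ∧
        (∀ j, j ≤ r → ∀ i (a : A),
          |(((U (j + 1) \ U (j + 2)).filter (fun u => lab u = a) ∩ part κ i).card : ℝ) -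
            ((σ j : ℝ) - σ (j + 1)) / Fintype.card A| ≤ τ * σ j) := by
  have hK0 : 0 < K := by omega
  have hKR : (2 : ℝ) ≤ K := by exact_mod_cast hK
  have hA1 : (1 : ℝ) ≤ Fintype.card A := by exact_mod_cast Fintype.card_pos
  -- one step, with all estimates
  have step : ∀ (s z : ℕ) (X Y : Finset V), M ≤ s → z ≤ s → (∀ i, (X ∩ part κ i).card = s) →
      (Y.card : ℝ) ≤ 6 * K * s →
      (∀ v ∈ Y, ∀ i, |((nbr E v ∩ X ∩ part κ i).card : ℝ) - D v i * s| * qr s ≤ 24 * K * s) →
      ∃ (Z : Finset V) (lab : V → A), Z ⊆ X ∧ (∀ i, (Z ∩ part κ i).card = z) ∧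
        (∀ v ∈ Y, ∀ i, |((nbr E v ∩ Z ∩ part κ i).card : ℝ) - D v i * z| * qr s ≤
          2 * s + 24 * K * z) ∧
        (∀ v ∈ Y, ∀ i, |((nbr E v ∩ X ∩ part κ i).card : ℝ) - D v i * s| ≤ τ * s) ∧
        (∀ v ∈ Y, ∀ i (a : A),
          |((nbr E v ∩ (X \ Z).filter (fun u => lab u = a) ∩ part κ i).card : ℝ) -
            D v i * (((s : ℝ) - z) / Fintype.card A)| ≤ τ * s) ∧
        (∀ i (a : A), |(((X \ Z).filter (fun u => lab u = a) ∩ part κ i).card : ℝ) -
            ((s : ℝ) - z) / Fintype.card A| ≤ τ * s) := by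
    intro s z X Y hMs hzs hX hY hdeg
    have hs : 0 < s := by omega
    have hs0 : (0 : ℝ) < s := by exact_mod_cast hs
    have hzs' : (z : ℝ) ≤ s := by exact_mod_cast hzs
    have hz0 : (0 : ℝ) ≤ z := Nat.cast_nonneg z
    set q : ℝ := qr s with hqdef
    have hq0 : 0 < q := qr_pos hs0
    have hq4 : q ^ 4 = s := qr_pow hs0.le
    have hτq : 2 + 24 * (K : ℝ) ≤ τ * q := hq s hMs
    obtain ⟨Z, lab, hZX, hZc, hZd, hZl, hZk⟩ := lstep (A := A) κ E X Y s z hs hzs hX
      (6 * K * s) hY (q ^ 3) (by positivity) (by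
        have h1 := hprob s hMs
        have h2 : (q ^ 3) ^ 2 / (2 * (s : ℝ)) = 1 / 2 * √(s : ℝ) := by
          have h3 : q ^ 2 = √(s : ℝ) := by
            rw [hqdef]; unfold qr; exact Real.sq_sqrt (Real.sqrt_nonneg _)
          rw [← h3, ← hq4]
          field_simp
        rw [h2]
        exact h1)
    have hq3 : q ^ 3 * q = s := by rw [← hq4]; ring
    -- the basic estimate for the degree into `X`
    have hb : ∀ v ∈ Y, ∀ i, |((nbr E v ∩ X ∩ part κ i).card : ℝ) - D v i * s| ≤
        24 * K * q ^ 3 := by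
      intro v hv i
      have h1 := hdeg v hv i
      have h2 : 24 * (K : ℝ) * s = 24 * K * q ^ 3 * q := by rw [← hq4]; ring
      rw [h2] at h1
      exact le_of_mul_le_mul_right h1 hq0
    have hτ3 : (2 + 24 * (K : ℝ)) * q ^ 3 ≤ τ * s := by
      have h1 : (2 + 24 * (K : ℝ)) * q ^ 3 ≤ τ * q * q ^ 3 :=
        mul_le_mul_of_nonneg_right hτq (by positivity)
      have h2 : τ * q * q ^ 3 = τ * s := by rw [← hq4]; ring
      linarith
    have hq30 : 0 < q ^ 3 := by positivity
    refine ⟨Z, lab, hZX, hZc, ?_, ?_, ?_, ?_⟩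
    · intro v hv i
      have h1 := hZd v hv i
      have h2 := hb v hv i
      have h3 : |((nbr E v ∩ X ∩ part κ i).card : ℝ) * ((z : ℝ) / s) - D v i * z| ≤
          24 * K * q ^ 3 * ((z : ℝ) / s) := by
        have h4 : ((nbr E v ∩ X ∩ part κ i).card : ℝ) * ((z : ℝ) / s) - D v i * z =
            (((nbr E v ∩ X ∩ part κ i).card : ℝ) - D v i * s) * ((z : ℝ) / s) := by
          field_simp
        rw [h4, abs_mul, abs_of_nonneg (show 0 ≤ (z : ℝ) / s by positivity)]
        exact mul_le_mul_of_nonneg_right h2 (by positivity)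
      have h5 : |((nbr E v ∩ Z ∩ part κ i).card : ℝ) - D v i * z| ≤
          2 * q ^ 3 + 24 * K * q ^ 3 * ((z : ℝ) / s) := by
        have h6 := abs_sub_le ((nbr E v ∩ Z ∩ part κ i).card : ℝ)
          (((nbr E v ∩ X ∩ part κ i).card : ℝ) * ((z : ℝ) / s)) (D v i * z)
        linarith
      have h6 := mul_le_mul_of_nonneg_right h5 hq0.le
      refine h6.trans (le_of_eq ?_)
      have h7 : (2 * q ^ 3 + 24 * K * q ^ 3 * ((z : ℝ) / s)) * q =
          2 * (q ^ 3 * q) + 24 * K * (q ^ 3 * q) * ((z : ℝ) / s) := by ring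
      rw [h7, hq3]
      field_simp
    · intro v hv i
      have h2 := hb v hv i
      nlinarith
    · intro v hv i a
      have h1 := hZl v hv i a
      have h2 := hb v hv i
      have h3 : |((nbr E v ∩ X ∩ part κ i).card : ℝ) * (((s : ℝ) - z) / s / Fintype.card A) -
          D v i * (((s : ℝ) - z) / Fintype.card A)| ≤ 24 * K * q ^ 3 := by
        have h4 : ((nbr E v ∩ X ∩ part κ i).card : ℝ) * (((s : ℝ) - z) / s / Fintype.card A) -
            D v i * (((s : ℝ) - z) / Fintype.card A) =
            (((nbr E v ∩ X ∩ part κ i).card : ℝ) - D v i * s) *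
              (((s : ℝ) - z) / s / Fintype.card A) := by
          field_simp
        have h5 : 0 ≤ ((s : ℝ) - z) / s / Fintype.card A :=
          div_nonneg (div_nonneg (by linarith) hs0.le) (by linarith)
        have h6 : ((s : ℝ) - z) / s / Fintype.card A ≤ 1 := by
          have h7 : ((s : ℝ) - z) / s ≤ 1 := by
            rw [div_le_one hs0]
            linarith
          have h8 : 0 ≤ ((s : ℝ) - z) / s := div_nonneg (by linarith) hs0.le
          exact div_le_one_of_le₀ (by linarith) (by linarith)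
        rw [h4, abs_mul, abs_of_nonneg h5]
        calc _ ≤ 24 * K * q ^ 3 * 1 := mul_le_mul h2 h6 h5 (by positivity)
          _ = 24 * K * q ^ 3 := mul_one _
      have h6 := abs_sub_le ((nbr E v ∩ (X \ Z).filter (fun u => lab u = a) ∩ part κ i).card : ℝ)
          (((nbr E v ∩ X ∩ part κ i).card : ℝ) * (((s : ℝ) - z) / s / Fintype.card A))
          (D v i * (((s : ℝ) - z) / Fintype.card A))
      linarith
    · intro i a
      have h1 := hZk i a
      nlinarith
  intro r
  induction r with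
  | zero =>
    intro s X Y hMs hX hY hXY hdeg
    rw [pow_zero, Nat.div_one] at hMs
    obtain ⟨Z, lab, hZX, hZc, _, hd, hl, hk⟩ := step s 0 X Y hMs (Nat.zero_le _) hX hY hdeg
    have hZ : Z = ∅ := by
      rw [Finset.eq_empty_iff_forall_notMem]
      intro u hu
      have h1 := hZc (κ u)
      rw [Finset.card_eq_zero, Finset.eq_empty_iff_forall_notMem] at h1
      exact h1 u (Finset.mem_inter.2 ⟨hu, mem_part.2 rfl⟩)
    subst hZ
    refine ⟨fun j => Nat.casesOn j Y (fun j => Nat.casesOn j X (fun _ => ∅)),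
      fun j => Nat.casesOn j s (fun _ => 0), lab, rfl, rfl, ?_, rfl, ?_, rfl, ?_, ?_, ?_, ?_⟩
    · intro j
      rcases j with _ | _ | j
      · exact hXY
      · exact Finset.empty_subset _
      · exact Finset.empty_subset _
    · intro j i
      rcases j with _ | j
      · exact hX i
      · show ((∅ : Finset V) ∩ part κ i).card = 0
        rw [Finset.empty_inter, Finset.card_empty]
    · intro j hj
      omega
    · intro j hj v hv i
      obtain rfl : j = 0 := by omega
      exact hd v hv i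
    · intro j hj v hv i a
      obtain rfl : j = 0 := by omega
      exact hl v hv i a
    · intro j hj i a
      obtain rfl : j = 0 := by omega
      exact hk i a
  | succ r ih =>
    intro s X Y hMs hX hY hXY hdeg
    have hMs1 : M ≤ (s / K) / K ^ r := by
      rw [Nat.div_div_eq_div_mul, ← pow_succ']
      exact hMs
    have hMz : M ≤ s / K := hMs1.trans (Nat.div_le_self _ _)
    have hMs' : M ≤ s := hMz.trans (Nat.div_le_self _ _)
    have hz1 : s < K * (s / K) + K := by
      have h1 := Nat.div_add_mod s K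
      have h2 := Nat.mod_lt s hK0
      omega
    have hz2 : s ≤ 2 * K * (s / K) := by
      have h3 : K ≤ K * (s / K) := Nat.le_mul_of_pos_right K (by omega)
      have h4 : 2 * K * (s / K) = K * (s / K) + K * (s / K) := by ring
      omega
    have hz3 : K * (s / K) ≤ s := Nat.mul_div_le s K
    obtain ⟨Z, lab, hZX, hZc, hZd, hd, hl, hk⟩ := step s (s / K) X Y hMs' (Nat.div_le_self _ _)
      hX hY hdeg
    set z : ℕ := s / K with hzdef
    have hs0 : (0 : ℝ) < s := by
      have : 0 < s := by omega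
      exact_mod_cast this
    have hz0 : (0 : ℝ) < z := by
      have : 0 < z := by omega
      exact_mod_cast this
    have hz2' : (s : ℝ) ≤ 2 * K * z := by exact_mod_cast hz2
    have hz3' : (K : ℝ) * z ≤ s := by exact_mod_cast hz3
    have hXc : (X.card : ℝ) = 3 * s := by
      have := card_eq_three_mul κ X s hX
      exact_mod_cast this
    set q : ℝ := qr s with hqdef
    have hq0 : 0 < q := qr_pos hs0
    set q₁ : ℝ := qr z with hq₁def
    have hq₁0 : 0 < q₁ := qr_pos hz0
    have hqq : q₁ ≤ 17 / 20 * q := qr_half hz0.le hs0.le (by nlinarith)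
    obtain ⟨U, σ, lab', hU0, hU1, hUs, hUe, hUc, hσ0, hσs, hUd, hUl, hUk⟩ := ih z Z X hMs1 hZc
      (by rw [hXc]; linarith) hZX (by
        intro v hv i
        have h1 := hZd v (hXY hv) i
        set e : ℝ := |((nbr E v ∩ Z ∩ part κ i).card : ℝ) - D v i * z| with he
        have he0 : 0 ≤ e := abs_nonneg _
        have h2 : e * q₁ ≤ e * (17 / 20 * q) := mul_le_mul_of_nonneg_left hqq he0
        have h3 : e * (17 / 20 * q) = 17 / 20 * (e * q) := by ring
        rw [h3] at h2
        have h4 : (s : ℝ) ≤ 2 * (K * z) := by linarith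
        have h5 : 24 * (K : ℝ) * z = 24 * (K * z) := by ring
        rw [h5] at h1 ⊢
        linarith)
    have hanti : ∀ j, U (j + 1) ⊆ Z := by
      intro j
      rw [← hU1]
      induction j with
      | zero => exact Finset.Subset.refl _
      | succ j ihj => exact (hUs (j + 1)).trans ihj
    have hf0 : ∀ a, (X \ Z).filter (fun u => (if u ∈ Z then lab' u else lab u) = a) =
        (X \ Z).filter (fun u => lab u = a) := by
      intro a
      refine Finset.filter_congr fun u hu => ?_
      rw [if_neg (Finset.mem_sdiff.1 hu).2]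
    have hf1 : ∀ j a, (U (j + 1) \ U (j + 2)).filter
        (fun u => (if u ∈ Z then lab' u else lab u) = a) =
        (U (j + 1) \ U (j + 2)).filter (fun u => lab' u = a) := by
      intro j a
      refine Finset.filter_congr fun u hu => ?_
      rw [if_pos (hanti j (Finset.mem_sdiff.1 hu).1)]
    refine ⟨fun j => Nat.casesOn j Y U, fun j => Nat.casesOn j s σ,
      fun u => if u ∈ Z then lab' u else lab u, rfl, hU0, ?_, ?_, ?_, rfl, ?_, ?_, ?_, ?_⟩
    · intro j
      rcases j with _ | j
      · show U 0 ⊆ Y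
        rw [hU0]; exact hXY
      · exact hUs j
    · exact hUe
    · intro j i
      rcases j with _ | j
      · show (U 0 ∩ part κ i).card = s
        rw [hU0]; exact hX i
      · exact hUc j i
    · intro j hj
      rcases j with _ | j
      · exact hσ0
      · exact hσs j (by omega)
    · intro j hj v hv i
      rcases j with _ | j
      · show |((nbr E v ∩ U 0 ∩ part κ i).card : ℝ) - D v i * s| ≤ τ * s
        rw [hU0]
        exact hd v hv i
      · exact hUd j (by omega) v hv i
    · intro j hj v hv i a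
      rcases j with _ | j
      · show |((nbr E v ∩ (U 0 \ U 1).filter
          (fun u => (if u ∈ Z then lab' u else lab u) = a) ∩ part κ i).card : ℝ) -
            D v i * (((s : ℝ) - σ 0) / Fintype.card A)| ≤ τ * s
        rw [hU0, hU1, hσ0, hf0 a]
        exact hl v hv i a
      · show |((nbr E v ∩ (U (j + 1) \ U (j + 2)).filter
          (fun u => (if u ∈ Z then lab' u else lab u) = a) ∩ part κ i).card : ℝ) -
            D v i * (((σ j : ℝ) - σ (j + 1)) / Fintype.card A)| ≤ τ * σ j
        rw [hf1 j a]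
        exact hUl j (by omega) v hv i a
    · intro j hj i a
      rcases j with _ | j
      · show |(((U 0 \ U 1).filter
          (fun u => (if u ∈ Z then lab' u else lab u) = a) ∩ part κ i).card : ℝ) -
            ((s : ℝ) - σ 0) / Fintype.card A| ≤ τ * s
        rw [hU0, hU1, hσ0, hf0 a]
        exact hk i a
      · show |(((U (j + 1) \ U (j + 2)).filter
          (fun u => (if u ∈ Z then lab' u else lab u) = a) ∩ part κ i).card : ℝ) -
            ((σ j : ℝ) - σ (j + 1)) / Fintype.card A| ≤ τ * σ j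
        rw [hf1 j a]
        exact hUk j (by omega) i a

theorem lVortexStatement : LVortexStatement := by
  intro A _ _ _ K hK τ hτ m
  have hK0 : 0 < K := by omega
  have hKR : (2 : ℝ) ≤ K := by exact_mod_cast hK
  have hA1 : (1 : ℝ) ≤ Fintype.card A := by exact_mod_cast Fintype.card_pos
  set R : ℝ := 18 * K * (Fintype.card A + 1) with hR
  obtain ⟨N₀, hN₀, hlarge⟩ := exists_large R (by positivity) (1 / 2) (by norm_num)
  set b : ℝ := (2 + 24 * (K : ℝ)) / τ with hb
  have hb0 : 0 < b := by positivity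
  set M : ℕ := max (max N₀ (2 * K)) (max m ⌈b ^ 4⌉₊) with hM
  have hM1 : N₀ ≤ M := le_trans (le_max_left _ _) (le_max_left _ _)
  have hM2 : 2 * K ≤ M := le_trans (le_max_right _ _) (le_max_left _ _)
  have hM3 : m ≤ M := le_trans (le_max_left _ _) (le_max_right _ _)
  have hM4 : b ^ 4 ≤ M := by
    refine le_trans (Nat.le_ceil _) ?_
    exact_mod_cast le_trans (le_max_right _ _) (le_max_right _ _)
  have hprob : ∀ s : ℕ, M ≤ s → ((3 * (6 * (K : ℝ) * s + 1)) * (Fintype.card A + 1)) *
      (2 * Real.exp (-(1 / 2 * √(s : ℝ)))) < 1 := by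
    intro s hs
    refine lt_of_le_of_lt (mul_le_mul_of_nonneg_right ?_ (by positivity)) (hlarge s (hM1.trans hs))
    have h1 : 3 * ((Fintype.card A : ℝ) + 1) ≤ R := by rw [hR]; nlinarith
    have h2 : 6 * (K : ℝ) ≤ R := by rw [hR]; nlinarith
    have h3 : (0 : ℝ) ≤ s := Nat.cast_nonneg s
    have h4 : 6 * (K : ℝ) * s + 1 ≤ R * s + 1 := by nlinarith
    calc (3 * (6 * (K : ℝ) * s + 1)) * (Fintype.card A + 1) =
        (3 * ((Fintype.card A : ℝ) + 1)) * (6 * (K : ℝ) * s + 1) := by ring
      _ ≤ R * (R * s + 1) := mul_le_mul h1 h4 (by positivity) (by positivity)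
  have hq : ∀ s : ℕ, M ≤ s → (2 + 24 * (K : ℝ)) ≤ τ * qr s := by
    intro s hs
    have h1 : b ^ 4 ≤ qr (s : ℝ) ^ 4 := by
      rw [qr_pow (by positivity)]
      exact hM4.trans (by exact_mod_cast hs)
    have h2 : b ≤ qr (s : ℝ) := le_of_pow_le_pow_left₀ (by norm_num) (qr_nonneg _) h1
    rw [hb, div_le_iff₀ hτ] at h2
    linarith
  refine ⟨K * M, M * K ^ 2, fun V _ _ κ n E hpart hn => ?_⟩
  have hM0 : 0 < M := by omega
  -- the number of levels
  have hex : ∃ r, n / K ^ r < M := ⟨n, by
    rw [Nat.div_eq_of_lt (Nat.lt_pow_self (by omega))]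
    exact hM0⟩
  have hge : ∀ r, r ≤ 2 → M ≤ n / K ^ r := by
    intro r hr
    rw [Nat.le_div_iff_mul_le (by positivity)]
    exact (Nat.mul_le_mul_left M (Nat.pow_le_pow_right hK0 hr)).trans hn
  set r₁ := Nat.find hex with hr₁
  have hr₁3 : 3 ≤ r₁ := by
    by_contra hc
    push Not at hc
    have h1 := Nat.find_spec hex
    rw [← hr₁] at h1
    have h2 := hge r₁ (by omega)
    omega
  obtain ⟨ℓ, hℓ⟩ : ∃ ℓ, r₁ = ℓ + 1 := ⟨r₁ - 1, by omega⟩
  have hMℓ : M ≤ n / K ^ ℓ := by
    have h1 := Nat.find_min hex (m := ℓ) (by omega)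
    omega
  have hℓM : n / K ^ (ℓ + 1) < M := by
    have h1 := Nat.find_spec hex
    rw [← hr₁, hℓ] at h1
    exact h1
  have hn0 : 0 < n := by
    have := hMℓ.trans (Nat.div_le_self _ _)
    omega
  have hnR : (0 : ℝ) < n := by exact_mod_cast hn0
  have hpd : ∀ v i, nbr E v ∩ univ ∩ part κ i = univ.filter (fun u => s(v, u) ∈ E ∧ κ u = i) := by
    intro v i
    ext u
    simp [mem_nbr]
  obtain ⟨U, σ, lab, hU0, hU1, hUs, hUe, hUc, hσ0, hσs, hUd, hUl, hUk⟩ := lvortex_rec (A := A) κ E
    (fun v i => (pdeg κ E i v : ℝ) / n) K hK τ M hM2 hprob hq ℓ n univ univ hMℓ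
    (fun i => by rw [Finset.univ_inter]; exact hpart i) (by
      have h1 := card_eq_three_mul κ univ n (fun i => by rw [Finset.univ_inter]; exact hpart i)
      rw [h1]
      push_cast
      nlinarith) (Finset.Subset.refl _) (by
      intro v _ i
      rw [hpd v i]
      have h1 : (pdeg κ E i v : ℝ) / n * n = pdeg κ E i v := by field_simp
      rw [h1]
      unfold pdeg
      rw [sub_self, abs_zero, zero_mul]
      positivity)
  have hσ : ∀ j, j ≤ ℓ → σ j = n / K ^ j := by
    intro j
    induction j with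
    | zero => intro _; rw [hσ0, pow_zero, Nat.div_one]
    | succ j ihj =>
      intro hj
      rw [hσs j (by omega), ihj (by omega), Nat.div_div_eq_div_mul, ← pow_succ]
  have hσM : ∀ j, j ≤ ℓ → M ≤ σ j := by
    intro j hj
    rw [hσ j hj]
    exact hMℓ.trans (Nat.div_le_div_left (Nat.pow_le_pow_right hK0 hj) (by positivity))
  refine ⟨ℓ, fun j => U (j + 1), σ, lab, ⟨hU1, fun j => hUs (j + 1), hUe, hUc, ?_, ?_, ?_, ?_, ?_⟩,
    by omega, hM3.trans (hσM ℓ le_rfl), ?_⟩
  · intro j hj
    rw [hσs j hj]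
    exact Nat.mul_div_le _ _
  · intro j hj
    have h1 := hσM (j + 1) hj
    rw [hσs j hj] at h1 ⊢
    have h2 := Nat.div_add_mod (σ j) K
    have h3 := Nat.mod_lt (σ j) hK0
    have h4 : K ≤ K * (σ j / K) := Nat.le_mul_of_pos_right K (by omega)
    have h5 : 2 * K * (σ j / K) = K * (σ j / K) + K * (σ j / K) := by ring
    omega
  · intro j hj v hv i
    refine hUd j hj v ?_ i
    rcases j with _ | j
    · rw [hU0]; exact Finset.mem_univ _
    · exact hv
  · intro j hj v hv i a
    refine hUl j hj v ?_ i a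
    rcases j with _ | j
    · rw [hU0]; exact Finset.mem_univ _
    · exact hv
  · intro j hj i a
    exact hUk j hj i a
  · rw [hσ ℓ le_rfl]
    have h1 : n / K ^ ℓ / K < M := by
      rw [Nat.div_div_eq_div_mul, ← pow_succ]
      exact hℓM
    have h2 := (Nat.div_lt_iff_lt_mul hK0).1 h1
    rw [Nat.mul_comm]
    exact h2.le

end NW3
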