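import Pool.Agent.NW.CoverCore

/-!
# Project NW3: the cover down core with a protected inner part

As `NW.cover_core_gen`, but the cells live in a subset `Z` of `U`, and inside `U` only the edges of
`Q` may be used. For `Z = U` and `Q = G` restricted to `U` this is the old statement. In the 3-partite case the
reserved graphs of all levels are chosen in advance, and `Q` avoids the reserved graph of the next
level.
-/

set_option linter.unusedSectionVars false

namespace NW

open Finset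

variable {V : Type*} [DecidableEq V] [Fintype V]

/-- **The combinatorial core of the cover down**, with cells in `Z ⊆ U`, allowed inner edges `Q`
and an abstract perfect matching hypothesis. -/
theorem cover_core3 (q : ℕ) [Fact q.Prime] (G Q : Finset (Sym2 V)) (X U Z : Finset V)
    (hNL : NL G) (hGX : G ⊆ X.sym2) (hUX : U ⊆ X) (hZU : Z ⊆ U) (hQG : Q ⊆ G) (hQU : Q ⊆ U.sym2)
    (c : V → PlPoint q) (lam : V → PlLine q) (g B T cm : ℕ)
    (hB : 0 < B) (P : Finset (Sym2 V))
    (hP : P ⊆ G \ (U.sym2 ∪ resv q (X \ U) Z c lam)) (hPdec : Dec P)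
    (hPdeg : ∀ v ∈ X, deg ((G \ (U.sym2 ∪ resv q (X \ U) Z c lam)) \ P) v ≤ g)
    (hT : ∀ l, ((X \ U).filter fun v => lam v = l).card ≤ T)
    (hcell : ∀ p, (cell q c Z p).card ≤ cm)
    (hcomW : ∀ x ∈ X \ U, ∀ y ∈ X \ U, s(x, y) ∈ G → ∀ p, PlOn q p (lam x) →
      PlOn q p (lam y) →
      2 * g + 4 * B + g * X.card / B < (nbr G x ∩ nbr G y ∩ cell q c Z p).card)
    (hcomU : ∀ x ∈ X \ U, ∀ y ∈ U, s(x, y) ∈ G → ∀ p, PlOn q p (lam x) →
      2 * g + 4 * B + g * X.card / B < (nbr G x ∩ nbr Q y ∩ cell q c Z p).card)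
    (hpm : ∀ v ∈ X \ U, ∀ E' ⊆ G, Dec E' → ∀ D : Finset V, D = nbr G v \ nbr E' v →
      D ⊆ nbr G v ∩ lineSet q c Z (lam v) →
      (nbr G v ∩ lineSet q c Z (lam v)).card ≤ D.card + (g + 2 * B) →
      ∀ F ⊆ edg D, F ⊆ Q →
      (∀ a ∈ D, (nbr Q a ∩ D).card ≤ deg F a + (cm + (g + 2 * B) + T)) → ∃ f, PMOn D F f) :
    ∃ D, D ⊆ G ∧ Dec D ∧ G \ D ⊆ U.sym2 ∧ D ∩ U.sym2 ⊆ Q ∧
      ∀ v ∈ U, degIn D U v ≤ g + 2 * B + q * T := by
  classical
  set W : Finset V := X \ U with hW
  have hWU : Disjoint W U := Finset.sdiff_disjoint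
  have hWZ : Disjoint W Z := Finset.disjoint_of_subset_right hZU hWU
  set R0 : Finset (Sym2 V) := resv q W Z c lam with hR0
  set G' : Finset (Sym2 V) := G \ (U.sym2 ∪ R0) with hG'
  set L : Finset (Sym2 V) := G' \ P with hL
  set R : Finset (Sym2 V) := G ∩ R0 with hR
  set M : Finset (Sym2 V) := R ∪ Q with hM
  have hG'G : G' ⊆ G := Finset.sdiff_subset
  have hLG' : L ⊆ G' := Finset.sdiff_subset
  have hLG : L ⊆ G := hLG'.trans hG'G
  have hMG : M ⊆ G := Finset.union_subset Finset.inter_subset_left hQG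
  have hG'M : Disjoint G' M := by
    rw [Finset.disjoint_left]
    intro e he1 he2
    have h1 := (Finset.mem_sdiff.1 he1).2
    rcases Finset.mem_union.1 he2 with h | h
    · exact h1 (Finset.mem_union_right _ (Finset.mem_inter.1 h).2)
    · exact h1 (Finset.mem_union_left _ (hQU h))
  have hLM : Disjoint L M := Finset.disjoint_of_subset_left hLG' hG'M
  -- the neighbourhoods in `M`
  have hnbrW : ∀ v ∈ W, ∀ u, u ∈ nbr M v ↔ u ∈ nbr G v ∧ u ∈ lineSet q c Z (lam v) := by
    intro v hv u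
    rw [mem_nbr, mem_nbr, hM, Finset.mem_union, hR, Finset.mem_inter]
    constructor
    · rintro (⟨h1, h2⟩ | h2)
      · exact ⟨h1, (mem_resv_iff hWZ hv).1 h2⟩
      · exact absurd (Finset.mk_mem_sym2_iff.1 (hQU h2)).1 (Finset.disjoint_left.1 hWU hv)
    · rintro ⟨h1, h2⟩
      exact Or.inl ⟨h1, (mem_resv_iff hWZ hv).2 h2⟩
  have hnbrU : ∀ v u, u ∈ nbr Q v → u ∈ nbr M v := by
    intro v u h
    rw [mem_nbr] at h ⊢
    exact Finset.mem_union_right _ h
  -- greedy closing of the leftover edges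
  have hLX : L ⊆ X.sym2 := hLG.trans hGX
  have hLcard : L.card ≤ g * X.card := card_le_of_deg hLX hPdeg
  have hclose : ∀ x y, s(x, y) ∈ L → x ∈ W →
      deg L x + deg L y + 4 * B + L.card / B < (nbr M x ∩ nbr M y).card := by
    intro x y hxy hxW
    have hxX : x ∈ X := (Finset.mk_mem_sym2_iff.1 (hLX hxy)).1
    have hyX : y ∈ X := (Finset.mk_mem_sym2_iff.1 (hLX hxy)).2
    have h1 := hPdeg x hxX
    have h2 := hPdeg y hyX
    have h3 : L.card / B ≤ g * X.card / B := Nat.div_le_div_right hLcard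
    obtain ⟨p, hp1, hp2⟩ := pl_meet q (lam x) (lam y)
    by_cases hy : y ∈ W
    · have h4 := hcomW x hxW y hy (hLG hxy) p hp1 hp2
      have h5 : nbr G x ∩ nbr G y ∩ cell q c Z p ⊆ nbr M x ∩ nbr M y := by
        intro u hu
        rw [Finset.mem_inter, Finset.mem_inter] at hu
        rw [Finset.mem_inter]
        exact ⟨(hnbrW x hxW u).2 ⟨hu.1.1, cell_subset_lineSet hp1 hu.2⟩,
          (hnbrW y hy u).2 ⟨hu.1.2, cell_subset_lineSet hp2 hu.2⟩⟩
      have h6 := Finset.card_le_card h5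
      omega
    · have hyU : y ∈ U := by
        by_contra hc
        exact hy (Finset.mem_sdiff.2 ⟨hyX, hc⟩)
      have h4 := hcomU x hxW y hyU (hLG hxy) p hp1
      have h5 : nbr G x ∩ nbr Q y ∩ cell q c Z p ⊆ nbr M x ∩ nbr M y := by
        intro u hu
        rw [Finset.mem_inter, Finset.mem_inter] at hu
        rw [Finset.mem_inter]
        exact ⟨(hnbrW x hxW u).2 ⟨hu.1.1, cell_subset_lineSet hp1 hu.2⟩, hnbrU y u hu.1.2⟩
      have h6 := Finset.card_le_card h5
      omega
  have hLW : ∀ x y, s(x, y) ∈ L → x ∈ W ∨ y ∈ W := by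
    intro x y hxy
    by_contra hc
    push Not at hc
    have hxX : x ∈ X := (Finset.mk_mem_sym2_iff.1 (hLX hxy)).1
    have hyX : y ∈ X := (Finset.mk_mem_sym2_iff.1 (hLX hxy)).2
    have hxU : x ∈ U := by
      by_contra h; exact hc.1 (Finset.mem_sdiff.2 ⟨hxX, h⟩)
    have hyU : y ∈ U := by
      by_contra h; exact hc.2 (Finset.mem_sdiff.2 ⟨hyX, h⟩)
    have h1 := (Finset.mem_sdiff.1 (hLG' hxy)).2
    exact h1 (Finset.mem_union_left _ (Finset.mk_mem_sym2_iff.2 ⟨hxU, hyU⟩))
  obtain ⟨F, hFM, hFdec, hFdeg⟩ := close_edges L M hLM (hNL.mono hLG) (hNL.mono hMG) B hB (by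
    intro x y hxy
    rcases hLW x y hxy with h | h
    · exact hclose x y hxy h
    · have h1 := hclose y x (by rw [Sym2.eq_swap]; exact hxy) h
      rw [Finset.inter_comm]
      omega)
  have hFdeg' : ∀ v ∈ X, deg F v ≤ g + 2 * B := by
    intro v hv
    have h1 := hFdeg v
    have h2 := hPdeg v hv
    omega
  have hWX : W ⊆ X := Finset.sdiff_subset
  -- the sets to be matched
  set Dv : V → Finset V := fun v => nbr (R \ F) v with hDv
  have hDvmem : ∀ v ∈ W, ∀ u, u ∈ Dv v ↔
      u ∈ nbr G v ∧ u ∈ lineSet q c Z (lam v) ∧ s(v, u) ∉ F := by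
    intro v hv u
    rw [hDv, mem_nbr, Finset.mem_sdiff, hR, Finset.mem_inter, mem_resv_iff hWZ hv, mem_nbr]
    tauto
  have hDvU : ∀ v ∈ W, Dv v ⊆ U := by
    intro v hv u hu
    exact hZU (mem_lineSet.1 ((hDvmem v hv u).1 hu).2.1).1
  set K : V → Finset (Sym2 V) := fun v =>
    ((Q \ F) ∩ edg (Dv v)) \ (Finset.univ.filter fun e : Sym2 V => (e.map c).IsDiag) with hK
  have hKmem : ∀ v a b, s(a, b) ∈ K v ↔
      s(a, b) ∈ Q ∧ s(a, b) ∉ F ∧ a ∈ Dv v ∧ b ∈ Dv v ∧ a ≠ b ∧ c a ≠ c b := by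
    intro v a b
    rw [hK, Finset.mem_sdiff, Finset.mem_inter, Finset.mem_sdiff, mk_mem_edg, Finset.mem_filter]
    simp only [Finset.mem_univ, true_and, Sym2.map_mk, Sym2.mk_isDiag_iff]
    tauto
  have hKedg : ∀ v ∈ W, K v ⊆ edg (Dv v) := fun v _ =>
    Finset.sdiff_subset.trans Finset.inter_subset_right
  have hDvW : ∀ v ∈ W, ∀ w ∈ W, v ∉ Dv w := fun v hv w hw h =>
    Finset.disjoint_left.1 hWU hv (hDvU w hw h)
  have hTcount : ∀ v ∈ W, (W.filter fun w => w ≠ v ∧ ¬ Disjoint (K v) (K w)).card ≤ T := by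
    intro v hv
    refine (Finset.card_le_card ?_).trans (hT (lam v))
    intro w hw
    obtain ⟨hwW, hne, hnd⟩ := Finset.mem_filter.1 hw
    refine Finset.mem_filter.2 ⟨hwW, ?_⟩
    rw [Finset.not_disjoint_iff] at hnd
    obtain ⟨e, he1, he2⟩ := hnd
    induction e using Sym2.ind with
    | _ a b =>
      have h1 := (hKmem v a b).1 he1
      have h2 := (hKmem w a b).1 he2
      have ha1 := (mem_lineSet.1 ((hDvmem v hv a).1 h1.2.2.1).2.1).2
      have hb1 := (mem_lineSet.1 ((hDvmem v hv b).1 h1.2.2.2.1).2.1).2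
      have ha2 := (mem_lineSet.1 ((hDvmem w hwW a).1 h2.2.2.1).2.1).2
      have hb2 := (mem_lineSet.1 ((hDvmem w hwW b).1 h2.2.2.2.1).2.1).2
      exact pl_unique q h1.2.2.2.2.2 ha2 hb2 ha1 hb1
  -- the edges at `v` are those of `P`, `L ∪ F` and `R \ F`
  have hnbrE : ∀ v ∈ W, Dv v = nbr G v \ nbr (P ∪ (L ∪ F)) v := by
    intro v hv
    ext u
    rw [Finset.mem_sdiff, hDvmem v hv u, mem_nbr, mem_nbr, Finset.mem_union, Finset.mem_union]
    constructor
    · rintro ⟨h1, h2, h3⟩
      have h6 : s(v, u) ∈ M := mem_nbr.1 ((hnbrW v hv u).2 ⟨mem_nbr.2 h1, h2⟩)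
      refine ⟨h1, ?_⟩
      rintro (h | h | h)
      · exact Finset.disjoint_left.1 hG'M (hP h) h6
      · exact Finset.disjoint_left.1 hLM h h6
      · exact h3 h
    · rintro ⟨hu, h⟩
      push Not at h
      obtain ⟨h5, h5', h7⟩ := h
      refine ⟨hu, ?_, h7⟩
      have h6 : s(v, u) ∉ G' := fun h6 => h5' (Finset.mem_sdiff.2 ⟨h6, h5⟩)
      have h8 : s(v, u) ∈ U.sym2 ∪ R0 := by
        by_contra hc
        exact h6 (Finset.mem_sdiff.2 ⟨hu, hc⟩)
      rcases Finset.mem_union.1 h8 with h | h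
      · exact absurd (Finset.mk_mem_sym2_iff.1 h).1 (Finset.disjoint_left.1 hWU hv)
      · exact (mem_resv_iff hWZ hv).1 h
  have hPLF : Dec (P ∪ (L ∪ F)) := by
    refine Dec.union hPdec hFdec ?_
    rw [Finset.disjoint_left]
    intro e he1 he2
    rcases Finset.mem_union.1 he2 with h | h
    · exact (Finset.mem_sdiff.1 h).2 he1
    · exact Finset.disjoint_left.1 hG'M (hP he1) (hFM h)
  have hPLFG : P ∪ (L ∪ F) ⊆ G := Finset.union_subset (hP.trans hG'G)
    (Finset.union_subset hLG (hFM.trans hMG))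
  obtain ⟨fm, hfm1, hMtdis⟩ := match_loop_gen W Dv K T hTcount (by
    intro v hv F' hF' hF'deg
    refine hpm v hv (P ∪ (L ∪ F)) hPLFG hPLF (Dv v) (hnbrE v hv) ?_ ?_ F'
      (hF'.trans (hKedg v hv)) ?_ ?_
    · intro u hu
      have hu' := (hDvmem v hv u).1 hu
      exact Finset.mem_inter.2 ⟨hu'.1, hu'.2.1⟩
    · have h1 : nbr G v ∩ lineSet q c Z (lam v) ⊆ Dv v ∪ nbr F v := by
        intro u hu
        rw [Finset.mem_inter] at hu
        by_cases h5 : s(v, u) ∈ F
        · exact Finset.mem_union_right _ (mem_nbr.2 h5)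
        · exact Finset.mem_union_left _ ((hDvmem v hv u).2 ⟨hu.1, hu.2, h5⟩)
      have h2 := Finset.card_le_card h1
      have h3 := Finset.card_union_le (Dv v) (nbr F v)
      have h4 := hFdeg' v (hWX hv)
      unfold deg at h4
      omega
    · intro e he
      induction e using Sym2.ind with
      | _ a b =>
        exact ((hKmem v a b).1 (hF' he)).1
    · intro a ha
      have haU : a ∈ U := hDvU v hv ha
      have h3 : nbr Q a ∩ Dv v ⊆ nbr (K v) a ∪ (cell q c Z (c a) ∪ nbr F a) := by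
        intro b hb
        rw [Finset.mem_inter] at hb
        obtain ⟨hba, hbD⟩ := hb
        have hbZ : b ∈ Z := (mem_lineSet.1 ((hDvmem v hv b).1 hbD).2.1).1
        by_cases h4 : c a = c b
        · exact Finset.mem_union_right _ (Finset.mem_union_left _ (mem_cell.2 ⟨hbZ, h4.symm⟩))
        by_cases h6 : s(a, b) ∈ F
        · exact Finset.mem_union_right _ (Finset.mem_union_right _ (mem_nbr.2 h6))
        exact Finset.mem_union_left _ (mem_nbr.2 ((hKmem v a b).2 ⟨mem_nbr.1 hba, h6, ha, hbD,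
          fun h => h4 (congrArg c h), h4⟩))
      have h4 := Finset.card_le_card h3
      have h5 := Finset.card_union_le (nbr (K v) a) (cell q c Z (c a) ∪ nbr F a)
      have h6 := Finset.card_union_le (cell q c Z (c a)) (nbr F a)
      have h8 := hcell (c a)
      have h10 := hFdeg' a (hUX haU)
      have h11 := deg_sdiff_add hF' a
      have h12 := hF'deg a ha
      unfold deg at h10 h11 h12 ⊢
      omega)
  set Mt : V → Finset (Sym2 V) := fun v => pmEdges (Dv v) (fm v) with hMt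
  have hMtK : ∀ v ∈ W, Mt v ⊆ K v := fun v hv => (hfm1 v hv).sub
  have hMtdeg : ∀ u, deg (W.biUnion Mt) u ≤ (W.filter fun v => u ∈ Dv v).card :=
    deg_matchings_le W Dv K fm hfm1
  have hMtdec : Dec (W.biUnion fun v => star v (Dv v) ∪ Mt v) :=
    dec_stars W Dv K (fun v hv => (nl_edg _).mono (hKedg v hv)) hDvW fm hfm1 hMtdis
  set H3 : Finset (Sym2 V) := W.biUnion fun v => star v (Dv v) ∪ Mt v with hH3
  -- `H3` consists of unused edges of `M`
  have hH3sub : H3 ⊆ M \ F := by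
    intro e he
    obtain ⟨v, hv, hev⟩ := Finset.mem_biUnion.1 he
    rcases Finset.mem_union.1 hev with h | h
    · obtain ⟨u, hu, rfl⟩ := mem_star.1 h
      have hu' := (hDvmem v hv u).1 hu
      exact Finset.mem_sdiff.2 ⟨mem_nbr.1 ((hnbrW v hv u).2 ⟨hu'.1, hu'.2.1⟩), hu'.2.2⟩
    · have h1 := hMtK v hv h
      rw [hK, Finset.mem_sdiff, Finset.mem_inter, Finset.mem_sdiff] at h1
      exact Finset.mem_sdiff.2 ⟨Finset.mem_union_right _ h1.1.1.1, h1.1.1.2⟩
  refine ⟨P ∪ ((L ∪ F) ∪ H3), ?_, ?_, ?_, ?_, ?_⟩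
  · refine Finset.union_subset (hP.trans hG'G) (Finset.union_subset
      (Finset.union_subset hLG (hFM.trans hMG)) ?_)
    exact (hH3sub.trans Finset.sdiff_subset).trans hMG
  · refine Dec.union hPdec (Dec.union hFdec hMtdec ?_) ?_
    · rw [Finset.disjoint_left]
      intro e he1 he2
      have h1 := Finset.mem_sdiff.1 (hH3sub he2)
      rcases Finset.mem_union.1 he1 with h | h
      · exact Finset.disjoint_left.1 hLM h h1.1
      · exact h1.2 h
    · rw [Finset.disjoint_left]
      intro e he1 he2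
      rcases Finset.mem_union.1 he2 with h | h
      · rcases Finset.mem_union.1 h with h | h
        · exact (Finset.mem_sdiff.1 h).2 he1
        · exact Finset.disjoint_left.1 hG'M (hP he1) (hFM h)
      · exact Finset.disjoint_left.1 hG'M (hP he1) (Finset.mem_sdiff.1 (hH3sub h)).1
  · intro e he
    obtain ⟨heG, heD⟩ := Finset.mem_sdiff.1 he
    by_contra heU
    apply heD
    by_cases h1 : e ∈ P
    · exact Finset.mem_union_left _ h1
    by_cases h2 : e ∈ G'
    · exact Finset.mem_union_right _ (Finset.mem_union_left _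
        (Finset.mem_union_left _ (Finset.mem_sdiff.2 ⟨h2, h1⟩)))
    by_cases h3 : e ∈ F
    · exact Finset.mem_union_right _ (Finset.mem_union_left _ (Finset.mem_union_right _ h3))
    have h4 : e ∈ R0 := by
      have h5 : e ∈ U.sym2 ∪ R0 := by
        by_contra hc
        exact h2 (Finset.mem_sdiff.2 ⟨heG, hc⟩)
      rcases Finset.mem_union.1 h5 with h | h
      · exact absurd h heU
      · exact h
    obtain ⟨v, hv, u, hu, rfl⟩ := resv_cases h4
    refine Finset.mem_union_right _ (Finset.mem_union_right _ (Finset.mem_biUnion.2 ⟨v, hv, ?_⟩))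
    exact Finset.mem_union_left _ (mem_star.2 ⟨u, (hDvmem v hv u).2
      ⟨mem_nbr.2 heG, hu, h3⟩, rfl⟩)
  · intro e he
    obtain ⟨heD, heU⟩ := Finset.mem_inter.1 he
    have hnotG' : e ∉ G' := fun h => (Finset.mem_sdiff.1 h).2 (Finset.mem_union_left _ heU)
    have hMQ : e ∈ M → e ∈ Q := by
      intro h
      rcases Finset.mem_union.1 h with h | h
      · obtain ⟨v, hv, u, hu, rfl⟩ := resv_cases (Finset.mem_inter.1 h).2
        exact absurd (Finset.mk_mem_sym2_iff.1 heU).1 (Finset.disjoint_left.1 hWU hv)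
      · exact h
    rcases Finset.mem_union.1 heD with h | h
    · exact absurd (hP h) hnotG'
    rcases Finset.mem_union.1 h with h | h
    · rcases Finset.mem_union.1 h with h | h
      · exact absurd (hLG' h) hnotG'
      · exact hMQ (hFM h)
    · exact hMQ (Finset.mem_sdiff.1 (hH3sub h)).1
  · intro v hv
    have h1 : nbr (P ∪ ((L ∪ F) ∪ H3)) v ∩ U ⊆
        nbr F v ∪ nbr (W.biUnion Mt) v := by
      intro u hu
      rw [Finset.mem_inter, mem_nbr, Finset.mem_union, Finset.mem_union, Finset.mem_union] at hu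
      obtain ⟨hu1, huU⟩ := hu
      have hvuU : s(v, u) ∈ U.sym2 := Finset.mk_mem_sym2_iff.2 ⟨hv, huU⟩
      have hnotG' : s(v, u) ∉ G' := fun h =>
        (Finset.mem_sdiff.1 h).2 (Finset.mem_union_left _ hvuU)
      rcases hu1 with h | (h | h) | h
      · exact absurd (hP h) hnotG'
      · exact absurd (hLG' h) hnotG'
      · exact Finset.mem_union_left _ (mem_nbr.2 h)
      · obtain ⟨w, hw, hew⟩ := Finset.mem_biUnion.1 h
        rcases Finset.mem_union.1 hew with h5 | h5
        · obtain ⟨a, ha, hae⟩ := mem_star.1 h5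
          have hwU : w ∈ U := by
            rcases Sym2.eq_iff.1 hae with ⟨h6, _⟩ | ⟨h6, _⟩
            · rw [h6]; exact hv
            · rw [h6]; exact huU
          exact absurd hwU (Finset.disjoint_left.1 hWU hw)
        · exact Finset.mem_union_right _ (mem_nbr.2 (Finset.mem_biUnion.2 ⟨w, hw, h5⟩))
    have h2 := Finset.card_le_card h1
    have h3 := Finset.card_union_le (nbr F v) (nbr (W.biUnion Mt) v)
    have h4 := hFdeg' v (hUX hv)
    have h5 := hMtdeg v
    have h6 : (W.filter fun w => v ∈ Dv w).card ≤ q * T := by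
      refine le_trans (Finset.card_le_card ?_) (card_lines_through c lam hT v)
      intro w hw
      obtain ⟨hwW, hvw⟩ := Finset.mem_filter.1 hw
      exact Finset.mem_filter.2 ⟨hwW, (mem_lineSet.1 ((hDvmem w hwW v).1 hvw).2.1).2⟩
    unfold degIn
    unfold deg at h4 h5
    omega


end NW
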