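import Pool.Agent.NW3.Statements3

/-!
# Project NW3, row P4c: the input of the approximate decomposition in one step of the cover down

For a labelled vortex (`LVortex`) and a current graph `G` on `U j` the graph
`G \ ((U (j+1)).sym2 ∪ rsv q U lab j)` has all degrees in the right range and is nearly balanced.
-/

set_option linter.unusedSectionVars false

namespace NW3

open Finset NW

variable {V : Type} [Fintype V] [DecidableEq V]

theorem pdeg_eq_card (κ : V → Fin 3) (E : Finset (Sym2 V)) (i : Fin 3) (v : V) :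
    pdeg κ E i v = (nbr E v ∩ part κ i).card := by
  rw [pdeg_eq_degIn]; rfl

/-- counting by labels -/
theorem card_filter_lab {A : Type} [Fintype A] [DecidableEq A] (S : Finset V) (lab : V → A)
    (P : A → Prop) [DecidablePred P] :
    (S.filter fun v => P (lab v)).card =
      ∑ a ∈ univ.filter P, (S.filter fun v => lab v = a).card := by
  rw [Finset.card_eq_sum_card_fiberwise (s := S.filter fun v => P (lab v)) (t := univ.filter P)
    (f := lab) (fun v hv => ?_)]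
  · refine Finset.sum_congr rfl fun a ha => ?_
    congr 1
    ext v
    simp only [mem_filter]
    constructor
    · rintro ⟨⟨h1, _⟩, h3⟩
      exact ⟨h1, h3⟩
    · rintro ⟨h1, h2⟩
      exact ⟨⟨h1, by rw [h2]; exact (mem_filter.1 ha).2⟩, h2⟩
  · rw [Finset.mem_coe, mem_filter] at hv
    exact Finset.mem_coe.2 (mem_filter.2 ⟨mem_univ _, hv.2⟩)

/-- number of labels whose point lies on `l` -/
theorem card_lab_point (q : ℕ) [Fact q.Prime] (l : PlLine q) :
    (univ.filter fun a : PlPoint q × PlLine q => PlOn q a.1 l).card = (q + 1) * q ^ 2 := by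
  have h : (univ.filter fun a : PlPoint q × PlLine q => PlOn q a.1 l) =
      (univ.filter fun p => PlOn q p l) ×ˢ univ := by
    ext a
    simp
  rw [h, card_product, pl_points_card, card_univ, Fintype.card_prod, ZMod.card, pow_two]

/-- number of labels whose line passes through `p` -/
theorem card_lab_line (q : ℕ) [Fact q.Prime] (p : PlPoint q) :
    (univ.filter fun a : PlPoint q × PlLine q => PlOn q p a.2).card = (q + 1) * q ^ 2 := by
  have h : (univ.filter fun a : PlPoint q × PlLine q => PlOn q p a.2) =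
      univ ×ˢ (univ.filter fun l => PlOn q p l) := by
    ext a
    simp
  rw [h, card_product, pl_lines_card, card_univ, Fintype.card_sum, Fintype.card_prod, ZMod.card]
  ring

theorem card_lab (q : ℕ) [Fact q.Prime] :
    Fintype.card (PlPoint q × PlLine q) = (q + 1) * q ^ 2 * q := by
  simp only [Fintype.card_prod, Fintype.card_sum, ZMod.card]
  ring

theorem sum_close {A : Type} (S : Finset A) (f : A → ℝ) (x t : ℝ)
    (h : ∀ a ∈ S, |f a - x| ≤ t) : |∑ a ∈ S, f a - S.card * x| ≤ S.card * t := by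
  have h1 : ∑ a ∈ S, f a - S.card * x = ∑ a ∈ S, (f a - x) := by
    rw [sum_sub_distrib, sum_const, nsmul_eq_mul]
  rw [h1]
  calc |∑ a ∈ S, (f a - x)| ≤ ∑ a ∈ S, |f a - x| := abs_sum_le_sum_abs _ _
    _ ≤ ∑ _a ∈ S, t := sum_le_sum h
    _ = S.card * t := by rw [sum_const, nsmul_eq_mul]

theorem mem_resv_right {q : ℕ} {W Z : Finset V} (hWZ : Disjoint W Z) {c : V → PlPoint q}
    {lam : V → PlLine q} {u w : V} (hu : u ∈ Z) :
    s(u, w) ∈ resv q W Z c lam ↔ w ∈ W ∧ PlOn q (c u) (lam w) := by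
  constructor
  · intro h
    obtain ⟨v, hv, a, ha, hae⟩ := resv_cases h
    rcases Sym2.eq_iff.1 hae with ⟨h1, _⟩ | ⟨h1, h2⟩
    · exact absurd hu (h1 ▸ Finset.disjoint_left.1 hWZ hv)
    · subst h1; subst h2
      exact ⟨hv, (mem_lineSet.1 ha).2⟩
  · rintro ⟨h1, h2⟩
    rw [Sym2.eq_swap, mem_resv_iff hWZ h1]
    exact mem_lineSet.2 ⟨hu, h2⟩

section Vortex

variable {q : ℕ} [Fact q.Prime] {κ : V → Fin 3} {E : Finset (Sym2 V)} {n K ℓ : ℕ} {τ : ℝ}
  {U : ℕ → Finset V} {s : ℕ → ℕ} {lab : V → PlPoint q × PlLine q}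

theorem disj_level (U : ℕ → Finset V) (j : ℕ) :
    Disjoint (U j \ U (j + 1)) (U (j + 1) \ U (j + 2)) := by
  rw [Finset.disjoint_left]
  intro v hv hv'
  exact (mem_sdiff.1 hv).2 (mem_sdiff.1 hv').1

theorem rsv_subset_sym2 (hsub : ∀ j, U (j + 1) ⊆ U j) (j : ℕ) :
    rsv q U lab j ⊆ (U j).sym2 := by
  intro e he
  obtain ⟨v, hv, u, hu, rfl⟩ := resv_cases he
  exact Finset.mk_mem_sym2_iff.2 ⟨(mem_sdiff.1 hv).1,
    hsub j (mem_sdiff.1 (mem_lineSet.1 hu).1).1⟩

theorem rsv_disjoint_sym2 (U : ℕ → Finset V) (lab : V → PlPoint q × PlLine q) (j : ℕ) :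
    Disjoint (rsv q U lab j) (U (j + 1)).sym2 := by
  rw [Finset.disjoint_left]
  intro e he he'
  obtain ⟨v, hv, u, hu, rfl⟩ := resv_cases he
  exact (mem_sdiff.1 hv).2 (Finset.mk_mem_sym2_iff.1 he').1

/-- reserved neighbours of a vertex of level `j` -/
theorem nbr_rsv_left {j : ℕ} {v : V} (hv : v ∈ U j \ U (j + 1)) (i : Fin 3) :
    nbr (E ∩ rsv q U lab j) v ∩ part κ i =
      (nbr E v ∩ (U (j + 1) \ U (j + 2)) ∩ part κ i).filter
        (fun u => PlOn q (lab u).1 (lab v).2) := by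
  ext u
  rw [mem_inter, mem_nbr, mem_inter, rsv, mem_resv_iff (disj_level U j) hv, mem_lineSet,
    mem_filter, mem_inter, mem_inter, mem_nbr]
  tauto

/-- reserved neighbours of a vertex of level `j + 1` -/
theorem nbr_rsv_right {j : ℕ} {u : V} (hu : u ∈ U (j + 1) \ U (j + 2)) (i : Fin 3) :
    nbr (E ∩ rsv q U lab j) u ∩ part κ i =
      (nbr E u ∩ (U j \ U (j + 1)) ∩ part κ i).filter
        (fun w => PlOn q (lab u).1 (lab w).2) := by
  ext w
  rw [mem_inter, mem_nbr, mem_inter, rsv, mem_resv_right (disj_level U j) hu,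
    mem_filter, mem_inter, mem_inter, mem_nbr]
  tauto

/-- other vertices have no reserved neighbours -/
theorem nbr_rsv_zero (hsub : ∀ j, U (j + 1) ⊆ U j) {j : ℕ} {u : V} (hu : u ∈ U (j + 2))
    (i : Fin 3) : nbr (E ∩ rsv q U lab j) u ∩ part κ i = ∅ := by
  rw [Finset.eq_empty_iff_forall_notMem]
  intro w hw
  rw [mem_inter, mem_nbr, mem_inter] at hw
  obtain ⟨v, hv, a, ha, hae⟩ := resv_cases hw.1.2
  rcases Sym2.eq_iff.1 hae with ⟨h1, _⟩ | ⟨h1, _⟩
  · subst h1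
    exact (mem_sdiff.1 hv).2 (hsub _ hu)
  · subst h1
    exact (mem_sdiff.1 (mem_lineSet.1 ha).1).2 hu

theorem inter_level_filter (U : ℕ → Finset V) (lab : V → PlPoint q × PlLine q) (j : ℕ)
    (N : Finset V) (S : Finset V) (a : PlPoint q × PlLine q) :
    (N ∩ (U j \ U (j + 1)) ∩ S).filter (fun v => lab v = a) = N ∩ lcls U lab j a ∩ S := by
  ext v
  simp only [lcls, mem_filter, mem_inter]
  tauto

/-- degree into the reserved set from level `j`, as a sum over labels -/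
theorem pdeg_rsv_left {j : ℕ} {v : V} (hv : v ∈ U j \ U (j + 1)) (i : Fin 3) :
    pdeg κ (E ∩ rsv q U lab j) i v =
      ∑ a ∈ univ.filter (fun a : PlPoint q × PlLine q => PlOn q a.1 (lab v).2),
        (nbr E v ∩ lcls U lab (j + 1) a ∩ part κ i).card := by
  rw [pdeg_eq_card, nbr_rsv_left hv,
    card_filter_lab _ lab (fun a : PlPoint q × PlLine q => PlOn q a.1 (lab v).2)]
  exact sum_congr rfl fun a _ => by rw [inter_level_filter U lab (j + 1)]

theorem pdeg_rsv_right {j : ℕ} {u : V} (hu : u ∈ U (j + 1) \ U (j + 2)) (i : Fin 3) :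
    pdeg κ (E ∩ rsv q U lab j) i u =
      ∑ a ∈ univ.filter (fun a : PlPoint q × PlLine q => PlOn q (lab u).1 a.2),
        (nbr E u ∩ lcls U lab j a ∩ part κ i).card := by
  rw [pdeg_eq_card, nbr_rsv_right hu,
    card_filter_lab _ lab (fun a : PlPoint q × PlLine q => PlOn q (lab u).1 a.2)]
  exact sum_congr rfl fun a _ => by rw [inter_level_filter U lab j]

theorem LVortex.sub_pred (hL : LVortex κ E n K ℓ τ U s lab) (j : ℕ) : U j ⊆ U (j - 1) := by
  cases j with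
  | zero => exact subset_rfl
  | succ j => exact hL.sub j

/-- the number of reserved neighbours, seen from level `j` -/
theorem LVortex.rsv_left (hL : LVortex κ E n K ℓ τ U s lab) {j : ℕ} (hj : j < ℓ) {v : V}
    (hv : v ∈ U j \ U (j + 1)) (i : Fin 3) :
    |(pdeg κ (E ∩ rsv q U lab j) i v : ℝ) -
      ((q + 1) * q ^ 2 : ℕ) * ((pdeg κ E i v : ℝ) / n *
        (((s (j + 1) : ℝ) - s (j + 2)) / Fintype.card (PlPoint q × PlLine q)))| ≤
      ((q + 1) * q ^ 2 : ℕ) * (τ * s (j + 1)) := by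
  rw [pdeg_rsv_left hv i]
  have h := sum_close (univ.filter (fun a : PlPoint q × PlLine q => PlOn q a.1 (lab v).2))
    (fun a => ((nbr E v ∩ lcls U lab (j + 1) a ∩ part κ i).card : ℝ))
    ((pdeg κ E i v : ℝ) / n *
        (((s (j + 1) : ℝ) - s (j + 1 + 1)) / Fintype.card (PlPoint q × PlLine q)))
    (τ * s (j + 1)) (fun a _ => hL.cls (j + 1) hj v (mem_sdiff.1 hv).1 i a)
  rw [card_lab_point] at h
  push_cast at h ⊢
  exact h

/-- the number of reserved neighbours, seen from level `j + 1` -/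
theorem LVortex.rsv_right (hL : LVortex κ E n K ℓ τ U s lab) {j : ℕ} (hj : j < ℓ) {u : V}
    (hu : u ∈ U (j + 1) \ U (j + 2)) (i : Fin 3) :
    |(pdeg κ (E ∩ rsv q U lab j) i u : ℝ) -
      ((q + 1) * q ^ 2 : ℕ) * ((pdeg κ E i u : ℝ) / n *
        (((s j : ℝ) - s (j + 1)) / Fintype.card (PlPoint q × PlLine q)))| ≤
      ((q + 1) * q ^ 2 : ℕ) * (τ * s j) := by
  rw [pdeg_rsv_right hu i]
  have h := sum_close (univ.filter (fun a : PlPoint q × PlLine q => PlOn q (lab u).1 a.2))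
    (fun a => ((nbr E u ∩ lcls U lab j a ∩ part κ i).card : ℝ))
    ((pdeg κ E i u : ℝ) / n *
        (((s j : ℝ) - s (j + 1)) / Fintype.card (PlPoint q × PlLine q)))
    (τ * s j) (fun a _ => hL.cls j hj.le u
      (hL.sub_pred j (hL.sub j (mem_sdiff.1 hu).1)) i a)
  rw [card_lab_line] at h
  push_cast at h ⊢
  exact h

theorem LVortex.s_anti (hL : LVortex κ E n K ℓ τ U s lab) (j : ℕ) : s (j + 1) ≤ s j := by
  rw [← hL.card (j + 1) 0, ← hL.card j 0]
  exact card_le_card (inter_subset_inter_right (hL.sub j))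

theorem q_ratio (q : ℕ) [Fact q.Prime] (x : ℝ) :
    ((q + 1) * q ^ 2 : ℕ) * (x / Fintype.card (PlPoint q × PlLine q)) = x / q := by
  have hq : (q : ℝ) ≠ 0 := Nat.cast_ne_zero.2 (Fact.out : q.Prime).ne_zero
  have hq1 : (q : ℝ) + 1 ≠ 0 := by positivity
  rw [card_lab]
  push_cast
  field_simp

/-- crude upper bound of the number of reserved neighbours, from level `j` -/
theorem LVortex.rsv_left_le (hL : LVortex κ E n K ℓ τ U s lab) {j : ℕ} (hj : j < ℓ) {v : V}
    (hv : v ∈ U j \ U (j + 1)) (i : Fin 3) :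
    (pdeg κ (E ∩ rsv q U lab j) i v : ℝ) ≤
      (s (j + 1) : ℝ) / q + ((q + 1) * q ^ 2 : ℕ) * (τ * s (j + 1)) := by
  rw [pdeg_rsv_left hv i]
  have hq : (0 : ℝ) < q := Nat.cast_pos.2 (Fact.out : q.Prime).pos
  have h1 : ∀ a ∈ univ.filter (fun a : PlPoint q × PlLine q => PlOn q a.1 (lab v).2),
      ((nbr E v ∩ lcls U lab (j + 1) a ∩ part κ i).card : ℝ) ≤
        ((s (j + 1) : ℝ) - s (j + 2)) / Fintype.card (PlPoint q × PlLine q) + τ * s (j + 1) := by
    intro a _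
    have h2 := (abs_le.1 (hL.clscard (j + 1) hj i a)).2
    have h3 : (nbr E v ∩ lcls U lab (j + 1) a ∩ part κ i).card ≤
        (lcls U lab (j + 1) a ∩ part κ i).card :=
      card_le_card (inter_subset_inter_right inter_subset_right)
    have h4 : ((nbr E v ∩ lcls U lab (j + 1) a ∩ part κ i).card : ℝ) ≤
        (lcls U lab (j + 1) a ∩ part κ i).card := Nat.cast_le.2 h3
    linarith
  have h5 := sum_le_sum h1
  rw [sum_const, nsmul_eq_mul, card_lab_point, mul_add, q_ratio] at h5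
  push_cast at h5 ⊢
  have h6 : ((s (j + 1) : ℝ) - s (j + 2)) / q ≤ (s (j + 1) : ℝ) / q := by
    apply div_le_div_of_nonneg_right _ hq.le
    have : (0 : ℝ) ≤ s (j + 2) := Nat.cast_nonneg _
    linarith
  linarith

/-- crude upper bound of the number of reserved neighbours, from level `j + 1` -/
theorem LVortex.rsv_right_le (hL : LVortex κ E n K ℓ τ U s lab) {j : ℕ} (hj : j < ℓ) {u : V}
    (hu : u ∈ U (j + 1) \ U (j + 2)) (i : Fin 3) :
    (pdeg κ (E ∩ rsv q U lab j) i u : ℝ) ≤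
      (s j : ℝ) / q + ((q + 1) * q ^ 2 : ℕ) * (τ * s j) := by
  rw [pdeg_rsv_right hu i]
  have hq : (0 : ℝ) < q := Nat.cast_pos.2 (Fact.out : q.Prime).pos
  have h1 : ∀ a ∈ univ.filter (fun a : PlPoint q × PlLine q => PlOn q (lab u).1 a.2),
      ((nbr E u ∩ lcls U lab j a ∩ part κ i).card : ℝ) ≤
        ((s j : ℝ) - s (j + 1)) / Fintype.card (PlPoint q × PlLine q) + τ * s j := by
    intro a _
    have h2 := (abs_le.1 (hL.clscard j hj.le i a)).2
    have h3 : (nbr E u ∩ lcls U lab j a ∩ part κ i).card ≤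
        (lcls U lab j a ∩ part κ i).card :=
      card_le_card (inter_subset_inter_right inter_subset_right)
    have h4 : ((nbr E u ∩ lcls U lab j a ∩ part κ i).card : ℝ) ≤
        (lcls U lab j a ∩ part κ i).card := Nat.cast_le.2 h3
    linarith
  have h5 := sum_le_sum h1
  rw [sum_const, nsmul_eq_mul, card_lab_line, mul_add, q_ratio] at h5
  push_cast at h5 ⊢
  have h6 : ((s j : ℝ) - s (j + 1)) / q ≤ (s j : ℝ) / q := by
    apply div_le_div_of_nonneg_right _ hq.le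
    have : (0 : ℝ) ≤ s (j + 1) := Nat.cast_nonneg _
    linarith
  linarith

/-- the number of neighbours inside `U j` -/
theorem pdeg_inter_sym2 (κ : V → Fin 3) (E : Finset (Sym2 V)) (X : Finset V) {v : V}
    (hv : v ∈ X) (i : Fin 3) :
    pdeg κ (E ∩ X.sym2) i v = (nbr E v ∩ X ∩ part κ i).card := by
  rw [pdeg_eq_card]
  congr 1
  ext u
  rw [mem_inter, mem_nbr, mem_inter, Finset.mk_mem_sym2_iff, mem_inter, mem_inter, mem_nbr]
  tauto

theorem pdeg_inter_sym2_zero (κ : V → Fin 3) (E : Finset (Sym2 V)) (X : Finset V) {v : V}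
    (hv : v ∉ X) (i : Fin 3) : pdeg κ (E ∩ X.sym2) i v = 0 := by
  rw [pdeg_eq_card, card_eq_zero, Finset.eq_empty_iff_forall_notMem]
  intro u hu
  rw [mem_inter, mem_nbr, mem_inter, Finset.mk_mem_sym2_iff] at hu
  exact hv hu.1.2.1

/-- the decomposition of the degree of `G` at a vertex -/
theorem pdeg_split {j : ℕ} {G : Finset (Sym2 V)} (hGE : G ⊆ E)
    (hin : E ∩ (U (j + 1)).sym2 ⊆ G) (hrs : E ∩ rsv q U lab j ⊆ G) (i : Fin 3) (v : V) :
    pdeg κ (G \ ((U (j + 1)).sym2 ∪ rsv q U lab j)) i v +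
      (pdeg κ (E ∩ (U (j + 1)).sym2) i v + pdeg κ (E ∩ rsv q U lab j) i v) = pdeg κ G i v := by
  have h1 : Disjoint (E ∩ (U (j + 1)).sym2) (E ∩ rsv q U lab j) :=
    Finset.disjoint_of_subset_left inter_subset_right
      (Finset.disjoint_of_subset_right inter_subset_right (rsv_disjoint_sym2 U lab j).symm)
  have h2 : G \ ((U (j + 1)).sym2 ∪ rsv q U lab j) =
      G \ (E ∩ (U (j + 1)).sym2 ∪ E ∩ rsv q U lab j) := by
    ext e
    simp only [mem_sdiff, mem_union, mem_inter]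
    constructor
    · rintro ⟨h, h'⟩
      exact ⟨h, fun h'' => h' (h''.imp And.right And.right)⟩
    · rintro ⟨h, h'⟩
      exact ⟨h, fun h'' => h' (h''.imp (fun x => ⟨hGE h, x⟩) (fun x => ⟨hGE h, x⟩))⟩
  rw [h2, ← pdeg_union h1]
  exact pdeg_sdiff_add (union_subset hin hrs) i v

/-- **P4c**: the input of the approximate decomposition. -/
theorem stepA {j : ℕ} {G : Finset (Sym2 V)} {lo hi α : ℝ} (hn : 0 < n) (hK : 1 ≤ K)
    (hτ : 0 ≤ τ) (hL : LVortex κ E n K ℓ τ U s lab) (hj : j < ℓ) (hBE : Bal3 κ E)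
    (hdeg : ∀ v i, i ≠ κ v →
      (lo + α) * (n : ℝ) ≤ (pdeg κ E i v : ℝ) ∧ (pdeg κ E i v : ℝ) ≤ (hi - α) * (n : ℝ))
    (hGE : G ⊆ E) (hGU : G ⊆ (U j).sym2) (hBG : Bal3 κ G) (hin : E ∩ (U (j + 1)).sym2 ⊆ G)
    (hrs : E ∩ rsv q U lab j ⊆ G)
    (hdef : ∀ v ∈ U j, (NW.deg ((E ∩ (U j).sym2) \ G) v : ℝ) ≤ α / 4 * (s j : ℝ)) :
    (∀ v ∈ U j, ∀ i, i ≠ κ v →
      (lo + 3 * α / 4 - (τ + 1 / K + 1 / q + ((q + 1) * q ^ 2 : ℕ) * τ)) * (s j : ℝ) ≤
          (pdeg κ (G \ ((U (j + 1)).sym2 ∪ rsv q U lab j)) i v : ℝ) ∧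
        (pdeg κ (G \ ((U (j + 1)).sym2 ∪ rsv q U lab j)) i v : ℝ) ≤
          (hi - α + τ) * (s j : ℝ)) ∧
    (∀ v ∈ U j, ∀ i i', i ≠ κ v → i' ≠ κ v →
      (pdeg κ (G \ ((U (j + 1)).sym2 ∪ rsv q U lab j)) i v : ℝ) ≤
        (pdeg κ (G \ ((U (j + 1)).sym2 ∪ rsv q U lab j)) i' v : ℝ) +
          (2 * τ + 2 * (((q + 1) * q ^ 2 : ℕ) * τ)) * (s j : ℝ)) := by
  have hq : (0 : ℝ) < q := Nat.cast_pos.2 (Fact.out : q.Prime).pos
  have hq1 : (1 : ℝ) ≤ q := Nat.one_le_cast.2 (Fact.out : q.Prime).one_lt.le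
  have hn' : (0 : ℝ) < n := Nat.cast_pos.2 hn
  have hK' : (1 : ℝ) ≤ K := Nat.one_le_cast.2 hK
  have hs0 : (0 : ℝ) ≤ s j := Nat.cast_nonneg _
  have hs1 : (0 : ℝ) ≤ s (j + 1) := Nat.cast_nonneg _
  have hs : (s (j + 1) : ℝ) ≤ s j := Nat.cast_le.2 (hL.s_anti j)
  have hsK : (s (j + 1) : ℝ) ≤ 1 / K * s j := by
    have h1 : ((K * s (j + 1) : ℕ) : ℝ) ≤ s j := Nat.cast_le.2 (hL.up j hj)
    push_cast at h1
    rw [div_mul_eq_mul_div, one_mul, le_div_iff₀ (by linarith)]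
    linarith
  set B : ℝ := (((q + 1) * q ^ 2 : ℕ) : ℝ) with hB
  have hB0 : 0 ≤ B := Nat.cast_nonneg _
  have hBs : B * (τ * s (j + 1)) ≤ B * τ * s j := by
    rw [mul_assoc]
    exact mul_le_mul_of_nonneg_left (mul_le_mul_of_nonneg_left hs hτ) hB0
  have hτs : τ * s (j + 1) ≤ τ * s j := mul_le_mul_of_nonneg_left hs hτ
  have hqs : (s (j + 1) : ℝ) / q ≤ (s j : ℝ) / q := div_le_div_of_nonneg_right hs hq.le
  -- the number of reserved neighbours
  have hR : ∀ v ∈ U j, ∀ i, (pdeg κ (E ∩ rsv q U lab j) i v : ℝ) ≤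
      (s j : ℝ) / q + B * τ * s j := by
    intro v hv i
    by_cases h1 : v ∈ U (j + 1)
    · by_cases h2 : v ∈ U (j + 2)
      · rw [pdeg_eq_card, nbr_rsv_zero hL.sub h2]
        simp only [card_empty, Nat.cast_zero]
        positivity
      · have h3 := hL.rsv_right_le hj (mem_sdiff.2 ⟨h1, h2⟩) i
        rw [mul_assoc B]
        exact h3
    · have h3 := hL.rsv_left_le hj (mem_sdiff.2 ⟨hv, h1⟩) i
      rw [← hB] at h3
      linarith
  -- their balance
  have hRb : ∀ v ∈ U j, ∀ i i', i ≠ κ v → i' ≠ κ v →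
      (pdeg κ (E ∩ rsv q U lab j) i' v : ℝ) ≤
        (pdeg κ (E ∩ rsv q U lab j) i v : ℝ) + 2 * (B * τ) * s j := by
    intro v hv i i' hk hk'
    have hbal := hBE v i i' hk hk'
    by_cases h1 : v ∈ U (j + 1)
    · by_cases h2 : v ∈ U (j + 2)
      · rw [pdeg_eq_card, pdeg_eq_card, nbr_rsv_zero hL.sub h2, nbr_rsv_zero hL.sub h2]
        simp only [card_empty, Nat.cast_zero, zero_add]
        positivity
      · have h3 := abs_le.1 (hL.rsv_right hj (mem_sdiff.2 ⟨h1, h2⟩) i)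
        have h4 := abs_le.1 (hL.rsv_right hj (mem_sdiff.2 ⟨h1, h2⟩) i')
        rw [hbal] at h3
        rw [← hB] at h3 h4
        linarith [h3.1, h4.2]
    · have h3 := abs_le.1 (hL.rsv_left hj (mem_sdiff.2 ⟨hv, h1⟩) i)
      have h4 := abs_le.1 (hL.rsv_left hj (mem_sdiff.2 ⟨hv, h1⟩) i')
      rw [hbal] at h3
      rw [← hB] at h3 h4
      linarith [h3.1, h4.2]
  -- the neighbours inside `U (j+1)`
  have hI : ∀ v ∈ U j, ∀ i, (pdeg κ (E ∩ (U (j + 1)).sym2) i v : ℝ) ≤ s (j + 1) := by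
    intro v _ i
    by_cases h1 : v ∈ U (j + 1)
    · rw [pdeg_inter_sym2 κ E _ h1, ← hL.card (j + 1) i]
      exact Nat.cast_le.2 (card_le_card (inter_subset_inter_right inter_subset_right))
    · rw [pdeg_inter_sym2_zero κ E _ h1]
      simp
  have hIb : ∀ v ∈ U j, ∀ i i', i ≠ κ v → i' ≠ κ v →
      (pdeg κ (E ∩ (U (j + 1)).sym2) i' v : ℝ) ≤
        (pdeg κ (E ∩ (U (j + 1)).sym2) i v : ℝ) + 2 * τ * s j := by
    intro v hv i i' hk hk'
    have hbal := hBE v i i' hk hk'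
    by_cases h1 : v ∈ U (j + 1)
    · rw [pdeg_inter_sym2 κ E _ h1, pdeg_inter_sym2 κ E _ h1]
      have h3 := abs_le.1 (hL.dg (j + 1) hj v hv i)
      have h4 := abs_le.1 (hL.dg (j + 1) hj v hv i')
      rw [hbal] at h3
      linarith [h3.1, h4.2]
    · rw [pdeg_inter_sym2_zero κ E _ h1, pdeg_inter_sym2_zero κ E _ h1]
      simp only [Nat.cast_zero, zero_add]
      positivity
  -- the degree of `G`
  have hGlo : ∀ v ∈ U j, ∀ i, i ≠ κ v →
      (lo + 3 * α / 4 - τ) * s j ≤ (pdeg κ G i v : ℝ) := by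
    intro v hv i hk
    have h1 := (abs_le.1 (hL.dg j hj.le v (hL.sub_pred j hv) i)).1
    have h2 := hdef v hv
    have h3 : pdeg κ (E ∩ (U j).sym2) i v ≤
        pdeg κ G i v + NW.deg ((E ∩ (U j).sym2) \ G) v := by
      have h4 := pdeg_le_deg κ ((E ∩ (U j).sym2) \ G) i v
      have h5 : pdeg κ (E ∩ (U j).sym2) i v ≤
          pdeg κ (G ∪ ((E ∩ (U j).sym2) \ G)) i v :=
        pdeg_mono (fun e he => by
          by_cases h : e ∈ G
          · exact mem_union_left _ h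
          · exact mem_union_right _ (mem_sdiff.2 ⟨he, h⟩)) i v
      rw [pdeg_union Finset.disjoint_sdiff] at h5
      omega
    rw [pdeg_inter_sym2 κ E _ hv] at h3
    have h4 : ((nbr E v ∩ U j ∩ part κ i).card : ℝ) ≤
        (pdeg κ G i v : ℝ) + (NW.deg ((E ∩ (U j).sym2) \ G) v : ℝ) := by
      exact_mod_cast h3
    have h5 : (lo + α) * s j ≤ (pdeg κ E i v : ℝ) / n * s j := by
      refine mul_le_mul_of_nonneg_right ?_ hs0
      rw [le_div_iff₀ hn']
      exact (hdeg v i hk).1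
    linarith
  have hGhi : ∀ v ∈ U j, ∀ i, i ≠ κ v → (pdeg κ G i v : ℝ) ≤ (hi - α + τ) * s j := by
    intro v hv i hk
    have h1 := (abs_le.1 (hL.dg j hj.le v (hL.sub_pred j hv) i)).2
    have h3 : pdeg κ G i v ≤ pdeg κ (E ∩ (U j).sym2) i v :=
      pdeg_mono (subset_inter hGE hGU) i v
    rw [pdeg_inter_sym2 κ E _ hv] at h3
    have h4 : (pdeg κ G i v : ℝ) ≤ ((nbr E v ∩ U j ∩ part κ i).card : ℝ) :=
      Nat.cast_le.2 h3
    have h5 : (pdeg κ E i v : ℝ) / n * s j ≤ (hi - α) * s j := by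
      refine mul_le_mul_of_nonneg_right ?_ hs0
      rw [div_le_iff₀ hn']
      exact (hdeg v i hk).2
    linarith
  refine ⟨fun v hv i hk => ⟨?_, ?_⟩, fun v hv i i' hk hk' => ?_⟩
  · have h1 := pdeg_split (κ := κ) (lab := lab) hGE hin hrs i v
    have h1' : (pdeg κ (G \ ((U (j + 1)).sym2 ∪ rsv q U lab j)) i v : ℝ) +
        ((pdeg κ (E ∩ (U (j + 1)).sym2) i v : ℝ) + (pdeg κ (E ∩ rsv q U lab j) i v : ℝ)) =
          (pdeg κ G i v : ℝ) := by
      exact_mod_cast h1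
    have h2 := hGlo v hv i hk
    have h3 := hR v hv i
    have h4 := hI v hv i
    have h5 : (s j : ℝ) / q = 1 / q * s j := by ring
    nlinarith
  · have h1 := pdeg_split (κ := κ) (lab := lab) hGE hin hrs i v
    have h1' : (pdeg κ (G \ ((U (j + 1)).sym2 ∪ rsv q U lab j)) i v : ℝ) ≤
          (pdeg κ G i v : ℝ) := by
      have : pdeg κ (G \ ((U (j + 1)).sym2 ∪ rsv q U lab j)) i v ≤ pdeg κ G i v := by omega
      exact_mod_cast this
    exact h1'.trans (hGhi v hv i hk)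
  · have h1 := pdeg_split (κ := κ) (lab := lab) hGE hin hrs i v
    have h1' : (pdeg κ (G \ ((U (j + 1)).sym2 ∪ rsv q U lab j)) i v : ℝ) +
        ((pdeg κ (E ∩ (U (j + 1)).sym2) i v : ℝ) + (pdeg κ (E ∩ rsv q U lab j) i v : ℝ)) =
          (pdeg κ G i v : ℝ) := by
      exact_mod_cast h1
    have h2 := pdeg_split (κ := κ) (lab := lab) hGE hin hrs i' v
    have h2' : (pdeg κ (G \ ((U (j + 1)).sym2 ∪ rsv q U lab j)) i' v : ℝ) +
        ((pdeg κ (E ∩ (U (j + 1)).sym2) i' v : ℝ) + (pdeg κ (E ∩ rsv q U lab j) i' v : ℝ)) =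
          (pdeg κ G i' v : ℝ) := by
      exact_mod_cast h2
    have h3 := hRb v hv i i' hk hk'
    have h4 := hIb v hv i i' hk hk'
    have h5 : (pdeg κ G i v : ℝ) = (pdeg κ G i' v : ℝ) := by
      exact_mod_cast hBG v i i' hk hk'
    linarith

end Vortex

/-- the case `n = 0` of the step is trivial: the graph has no edges -/
theorem empty_of_zero {κ : V → Fin 3} {E : Finset (Sym2 V)} {hi α : ℝ} (hT : Tri3 κ E)
    (hdeg : ∀ v i, i ≠ κ v → (pdeg κ E i v : ℝ) ≤ (hi - α) * ((0 : ℕ) : ℝ)) : E = ∅ := by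
  rw [Finset.eq_empty_iff_forall_notMem]
  intro e he
  induction e using Sym2.ind with
  | _ x y =>
    have h1 := hdeg x (κ y) (Ne.symm (hT x y he))
    rw [Nat.cast_zero, mul_zero] at h1
    have h2 : 0 < pdeg κ E (κ y) x := by
      unfold pdeg
      exact card_pos.2 ⟨y, mem_filter.2 ⟨mem_univ _, he, rfl⟩⟩
    have h3 : (0 : ℝ) < (pdeg κ E (κ y) x : ℝ) := Nat.cast_pos.2 h2
    linarith

end NW3
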