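import Pool.Agent.NW3.StepB2

/-!
# Project NW3: the perfect matching hypothesis of `cover_core3` in the setting `StepHyp`
-/

set_option linter.unusedSectionVars false

namespace NW3

open Finset NW

section Pm

variable {V : Type} [Fintype V] [DecidableEq V] {q : ℕ} [Fact q.Prime]
  {κ : V → Fin 3} {E G : Finset (Sym2 V)} {n K ℓ : ℕ} {τ : ℝ} {U : ℕ → Finset V} {s : ℕ → ℕ}
  {lab : V → PlPoint q × PlLine q} {j : ℕ} {lo hi α : ℝ}

theorem card_inter_lineSet (c : V → PlPoint q) (Z : Finset V) (l : PlLine q) (S : Finset V) :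
    (S ∩ lineSet q c Z l).card =
      ∑ p ∈ univ.filter (fun p => PlOn q p l), (S ∩ cell q c Z p).card := by
  rw [Finset.card_eq_sum_card_fiberwise (f := c) (t := univ.filter (fun p => PlOn q p l))
    (fun x hx => by
      have h1 := Finset.mem_inter.1 (Finset.mem_coe.1 hx)
      exact Finset.mem_coe.2 (Finset.mem_filter.2 ⟨Finset.mem_univ _, (mem_lineSet.1 h1.2).2⟩))]
  refine Finset.sum_congr rfl fun p hp => ?_
  have hp' := (Finset.mem_filter.1 hp).2
  congr 1
  ext u
  rw [Finset.mem_filter, Finset.mem_inter, Finset.mem_inter, mem_lineSet, mem_cell]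
  constructor
  · rintro ⟨⟨h1, h2, _⟩, h3⟩
    exact ⟨h1, h2, h3⟩
  · rintro ⟨h1, h2, h3⟩
    exact ⟨⟨h1, h2, by rw [h3]; exact hp'⟩, h3⟩

/-- neighbours on a line, upper bound -/
theorem line_nbr_le (hLV : LVortex κ E n K ℓ τ U s lab) {j : ℕ} (hj : j ≤ ℓ) {v : V}
    (hv : v ∈ U (j - 1)) (i : Fin 3) (l : PlLine q) :
    ((nbr E v ∩ part κ i ∩ lineSet q (pnt lab) (U j \ U (j + 1)) l).card : ℝ) ≤
      ((q : ℝ) + 1) * ((pdeg κ E i v : ℝ) / n * (((s j : ℝ) - s (j + 1)) / ((q : ℝ) * q + q)) +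
        (q : ℝ) * q * (τ * s j)) := by
  rw [card_inter_lineSet]
  push_cast
  have h3 : ∀ p ∈ univ.filter (fun p => PlOn q p l),
      ((nbr E v ∩ part κ i ∩ cell q (pnt lab) (U j \ U (j + 1)) p).card : ℝ) ≤
      (pdeg κ E i v : ℝ) / n * (((s j : ℝ) - s (j + 1)) / ((q : ℝ) * q + q)) +
        (q : ℝ) * q * (τ * s j) := by
    intro p _
    have h4 := (abs_le.1 (cell_nbr hLV hj hv i p)).2
    unfold lcell at h4
    linarith
  refine (Finset.sum_le_card_nsmul _ _ _ h3).trans ?_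
  rw [pl_points_card, nsmul_eq_mul]
  push_cast
  exact le_rfl

/-- codegrees on a line, lower bound -/
theorem line_codeg (hLV : LVortex κ E n K ℓ τ U s lab) {j : ℕ} (hj : j ≤ ℓ) {x y : V}
    (hx : x ∈ U (j - 1)) (hy : y ∈ U (j - 1)) (i : Fin 3) (l : PlLine q) :
    ((q : ℝ) + 1) * (((pdeg κ E i x : ℝ) / n + (pdeg κ E i y : ℝ) / n - 1) *
        (((s j : ℝ) - s (j + 1)) / ((q : ℝ) * q + q)) - 3 * ((q : ℝ) * q * (τ * s j))) ≤
      ((nbr E x ∩ nbr E y ∩ part κ i ∩ lineSet q (pnt lab) (U j \ U (j + 1)) l).card : ℝ) := by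
  rw [card_inter_lineSet]
  push_cast
  have h3 : ∀ p ∈ univ.filter (fun p => PlOn q p l),
      ((pdeg κ E i x : ℝ) / n + (pdeg κ E i y : ℝ) / n - 1) *
        (((s j : ℝ) - s (j + 1)) / ((q : ℝ) * q + q)) - 3 * ((q : ℝ) * q * (τ * s j)) ≤
      ((nbr E x ∩ nbr E y ∩ part κ i ∩ cell q (pnt lab) (U j \ U (j + 1)) p).card : ℝ) := by
    intro p _
    have h4 := codeg_cell hLV hj hx hy i p
    unfold lcell at h4
    rw [← Finset.inter_assoc] at h4
    exact h4
  have h5 := Finset.card_nsmul_le_sum _ _ _ h3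
  rw [pl_points_card, nsmul_eq_mul] at h5
  push_cast at h5
  exact h5

/-- the perfect matching hypothesis -/
theorem stepB_pm (h : StepHyp q κ E G n K ℓ τ U s lab j lo hi α)
    (hτ : 100 * ((q : ℝ) + 1) ^ 6 * τ ≤ 1) (hq1 : 64 ≤ q) (g B cm T : ℕ)
    (hnum : ((cm : ℝ) + (g + 2 * B) + T) * 64 ≤ (s (j + 1) : ℝ) / q) :
    ∀ v ∈ U j \ U (j + 1), ∀ E' ⊆ G, Dec E' → ∀ D : Finset V, D = nbr G v \ nbr E' v →
      D ⊆ nbr G v ∩ lineSet q (fun u => (lab u).1) (U (j + 1) \ U (j + 2)) (lab v).2 →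
      (nbr G v ∩ lineSet q (fun u => (lab u).1) (U (j + 1) \ U (j + 2)) (lab v).2).card ≤
        D.card + (g + 2 * B) →
      ∀ F ⊆ edg D, F ⊆ innQ q G U lab j →
      (∀ a ∈ D, (nbr (innQ q G U lab j) a ∩ D).card ≤ NW.deg F a + (cm + (g + 2 * B) + T)) →
      ∃ f, PMOn D F f := by
  intro v hv E' hE' hdec D hD hDsub hDcard F hFD hFQ hFdeg
  by_cases hn : n = 0
  · have hDe : D = ∅ := by
      rw [Finset.eq_empty_iff_forall_notMem]
      intro b hb
      exact h.no_edge hn (mem_nbr.1 (Finset.mem_inter.1 (hDsub hb)).1)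
    subst hDe
    exact ⟨id, fun a => rfl, fun a _ => rfl, fun a ha => absurd ha (Finset.notMem_empty a)⟩
  have hq := q_pos q
  have hq2 : (64 : ℝ) ≤ q := by exact_mod_cast hq1
  have hs : (0 : ℝ) < s (j + 1) := by exact_mod_cast h.spos
  have hvj : v ∈ U j := (Finset.mem_sdiff.1 hv).1
  have hGtri : Tri3 κ G := h.tri.mono h.GE
  have hQG : innQ q G U lab j ⊆ G := by
    intro e he
    exact (Finset.mem_inter.1 (Finset.mem_sdiff.1 he).1).1
  -- elements of `D`
  have hDG : ∀ b ∈ D, s(v, b) ∈ G := fun b hb => mem_nbr.1 (Finset.mem_inter.1 (hDsub hb)).1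
  have hDκ : ∀ b ∈ D, κ b ≠ κ v := fun b hb => (hGtri v b (hDG b hb)).symm
  have hDZ : ∀ b ∈ D, b ∈ U (j + 1) \ U (j + 2) := fun b hb =>
    (mem_lineSet.1 (Finset.mem_inter.1 (hDsub hb)).2).1
  -- the parts of `D`
  have hcardD : ∀ i, i ≠ κ v →
      (D.filter (fun b => κ b = i)).card + pdeg κ E' i v = pdeg κ G i v := by
    intro i _
    have h1 := pdeg_sdiff_add (κ := κ) hE' i v
    have h2 : pdeg κ (G \ E') i v = (D.filter (fun b => κ b = i)).card := by
      unfold pdeg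
      congr 1
      ext b
      rw [Finset.mem_filter, Finset.mem_filter, hD, ← nbr_sdiff, mem_nbr]
      simp
    omega
  obtain ⟨i, k, hi', hk', hik, hcov⟩ := fin3_others (κ v)
  have hcardeq : (D.filter (fun b => κ b = i)).card = (D.filter (fun b => κ b = k)).card := by
    have h1 := hcardD i hi'
    have h2 := hcardD k hk'
    have h3 := h.balG v i k hi' hk'
    have h4 := bal3_of_dec hdec (hGtri.mono hE') v i k hi' hk'
    omega
  have hDunion : D.filter (fun b => κ b = i) ∪ D.filter (fun b => κ b = k) = D := by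
    ext b
    rw [Finset.mem_union, Finset.mem_filter, Finset.mem_filter]
    constructor
    · rintro (h1 | h1) <;> exact h1.1
    · intro hb
      rcases hcov _ (hDκ b hb) with h1 | h1
      · exact Or.inl ⟨hb, h1⟩
      · exact Or.inr ⟨hb, h1⟩
  -- the degree condition
  have key : ∀ i k : Fin 3, i ≠ κ v → k ≠ κ v → i ≠ k → ∀ a ∈ D, κ a = i →
      (D.filter (fun b => κ b = k)).card ≤
        2 * ((D.filter (fun b => κ b = k)).filter (fun b => s(a, b) ∈ F)).card := by
    intro i k hi' hk' hik a ha hai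
    have haZ := hDZ a ha
    have haU : a ∈ U (j + 1) := (Finset.mem_sdiff.1 haZ).1
    have hka : k ≠ κ a := by rw [hai]; exact hik.symm
    -- `F`-neighbours of `a` are in part `k` of `D`
    have h1 : NW.deg F a ≤ ((D.filter (fun b => κ b = k)).filter (fun b => s(a, b) ∈ F)).card := by
      refine Finset.card_le_card ?_
      intro b hb
      rw [mem_nbr] at hb
      have hbD : b ∈ D := (mk_mem_edg.1 (hFD hb)).2.1
      have hbG := hQG (hFQ hb)
      have hab : κ a ≠ κ b := hGtri a b hbG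
      have hbk : κ b = k := by
        have h2 := hDκ b hbD
        by_contra hc
        have : ∀ w x y z : Fin 3, x ≠ w → y ≠ w → x ≠ y → z ≠ w → z ≠ x → z = y := by decide
        exact hc (this (κ v) i k (κ b) hi' hk' hik h2 (by rw [← hai]; exact hab.symm))
      exact Finset.mem_filter.2 ⟨Finset.mem_filter.2 ⟨hbD, hbk⟩, hb⟩
    -- common neighbours on the line
    set Lset := lineSet q (pnt lab) (U (j + 1) \ U (j + 1 + 1)) (lab v).2 with hLset
    have h2 : nbr E v ∩ nbr E a ∩ part κ k ∩ Lset ⊆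
        (nbr (innQ q G U lab j) a ∩ D) ∪ ((nbr G v ∩ Lset) \ D) := by
      intro b hb
      rw [Finset.mem_inter, Finset.mem_inter, Finset.mem_inter, mem_nbr, mem_nbr] at hb
      obtain ⟨⟨⟨hbv, hba⟩, _⟩, hbL⟩ := hb
      have hbZ := (mem_lineSet.1 hbL).1
      have hbGv : s(v, b) ∈ G := h.reserved hv hbL hbv
      by_cases hbD : b ∈ D
      · apply Finset.mem_union_left
        rw [Finset.mem_inter, mem_nbr]
        exact ⟨h.inner haU hbZ hba (fun hc => (Finset.mem_sdiff.1 haZ).2 hc.1), hbD⟩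
      · apply Finset.mem_union_right
        rw [Finset.mem_sdiff, Finset.mem_inter, mem_nbr]
        exact ⟨⟨hbGv, hbL⟩, hbD⟩
    have h3 := (Finset.card_le_card h2).trans (Finset.card_union_le _ _)
    have hDsub' : D ⊆ nbr G v ∩ Lset := hDsub
    have h4 : ((nbr G v ∩ Lset) \ D).card ≤ g + 2 * B := by
      have h5 := Finset.card_sdiff_add_card_eq_card hDsub'
      have h6 : (nbr G v ∩ Lset).card ≤ D.card + (g + 2 * B) := hDcard
      omega
    have h5 := hFdeg a ha
    -- `D` in part `k` is small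
    have h6 : (D.filter (fun b => κ b = k)).card ≤ (nbr E v ∩ part κ k ∩ Lset).card := by
      refine Finset.card_le_card ?_
      intro b hb
      rw [Finset.mem_filter] at hb
      have hb' := Finset.mem_inter.1 (hDsub' hb.1)
      rw [Finset.mem_inter, Finset.mem_inter, mem_part, mem_nbr]
      exact ⟨⟨h.GE (mem_nbr.1 hb'.1), hb.2⟩, hb'.2⟩
    -- numbers
    have hc1 := line_codeg h.lv (j := j + 1) h.hj (x := v) (y := a) hvj (h.lv.sub j haU) k (lab v).2
    have hc2 := line_nbr_le h.lv (j := j + 1) h.hj (v := v) hvj k (lab v).2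
    have hd1 := h.dens hn v k hk'
    have hd2 := h.dens hn a k hka
    have ht := h.tau_bound hτ
    have hsg := h.sigma hq1
    set σ := ((s (j + 1) : ℝ) - s (j + 1 + 1)) / ((q : ℝ) * q + q) with hσ
    set e := (q : ℝ) * q * (τ * s (j + 1)) with he
    set dv := (pdeg κ E k v : ℝ) / n with hdv
    set da := (pdeg κ E k a : ℝ) / n with hda
    have hσ0 : 0 ≤ σ := le_trans (by positivity) hsg
    have e0 : 0 ≤ e := by
      have := h.τ0
      rw [he]
      positivity
    -- the required surplus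
    have hq1σ : (s (j + 1) : ℝ) / q / 3 ≤ ((q : ℝ) + 1) * σ := by
      have h7 : ((q : ℝ) + 1) * ((s (j + 1) : ℝ) / (3 * (q : ℝ) ^ 2)) ≤ ((q : ℝ) + 1) * σ :=
        mul_le_mul_of_nonneg_left hsg (by positivity)
      have h8 : (s (j + 1) : ℝ) / q / 3 ≤ ((q : ℝ) + 1) * ((s (j + 1) : ℝ) / (3 * (q : ℝ) ^ 2)) := by
        have h9 : (s (j + 1) : ℝ) / q / 3 = (q : ℝ) * ((s (j + 1) : ℝ) / (3 * (q : ℝ) ^ 2)) := by
          field_simp
        rw [h9]
        exact mul_le_mul_of_nonneg_right (by linarith) (by positivity)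
      exact h8.trans h7
    have hqe : ((q : ℝ) + 1) * e ≤ (s (j + 1) : ℝ) / q / 1000 := by
      have h7 : ((q : ℝ) + 1) * e ≤ ((q : ℝ) + 1) * ((s (j + 1) : ℝ) / (100 * ((q : ℝ) + 1) ^ 4)) :=
        mul_le_mul_of_nonneg_left ht (by positivity)
      have h8 : ((q : ℝ) + 1) * ((s (j + 1) : ℝ) / (100 * ((q : ℝ) + 1) ^ 4)) =
          (s (j + 1) : ℝ) / (100 * ((q : ℝ) + 1) ^ 3) := by
        field_simp
      have h9 : (s (j + 1) : ℝ) / (100 * ((q : ℝ) + 1) ^ 3) ≤ (s (j + 1) : ℝ) / (1000 * q) := by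
        apply div_le_div_of_nonneg_left hs.le (by positivity)
        have h10 : (65 : ℝ) ^ 2 * q ≤ ((q : ℝ) + 1) ^ 2 * ((q : ℝ) + 1) := by
          apply mul_le_mul
          · exact pow_le_pow_left₀ (by norm_num) (by linarith) 2
          · linarith
          · positivity
          · positivity
        have h11 : ((q : ℝ) + 1) ^ 2 * ((q : ℝ) + 1) = ((q : ℝ) + 1) ^ 3 := by ring
        rw [h11] at h10
        nlinarith
      have h10 : (s (j + 1) : ℝ) / q / 1000 = (s (j + 1) : ℝ) / (1000 * q) := by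
        field_simp
      rw [h10]
      linarith
    have hmain : ((q : ℝ) + 1) * (dv * σ + e) + 4 * ((cm : ℝ) + (g + 2 * B) + T) ≤
        2 * (((q : ℝ) + 1) * ((dv + da - 1) * σ - 3 * e)) := by
      have h7 : 1 / 4 ≤ dv + 2 * da - 2 := by linarith
      have h8 : 1 / 4 * (((q : ℝ) + 1) * σ) ≤ (dv + 2 * da - 2) * (((q : ℝ) + 1) * σ) :=
        mul_le_mul_of_nonneg_right h7 (by positivity)
      have h9 : 2 * (((q : ℝ) + 1) * ((dv + da - 1) * σ - 3 * e)) -
          ((q : ℝ) + 1) * (dv * σ + e) =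
          (dv + 2 * da - 2) * (((q : ℝ) + 1) * σ) - 7 * (((q : ℝ) + 1) * e) := by ring
      have h10 : 0 ≤ (s (j + 1) : ℝ) / q := by positivity
      linarith
    -- back to natural numbers
    have h7 : ((nbr E v ∩ nbr E a ∩ part κ k ∩ Lset).card : ℝ) ≤
        ((nbr (innQ q G U lab j) a ∩ D).card : ℝ) + ((g : ℝ) + 2 * B) := by
      have h8 : (nbr E v ∩ nbr E a ∩ part κ k ∩ Lset).card ≤
          (nbr (innQ q G U lab j) a ∩ D).card + (g + 2 * B) := by omega
      exact_mod_cast h8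
    have h8 : ((nbr (innQ q G U lab j) a ∩ D).card : ℝ) ≤ (NW.deg F a : ℝ) +
        ((cm : ℝ) + (g + 2 * B) + T) := by exact_mod_cast h5
    have h9 : ((D.filter (fun b => κ b = k)).card : ℝ) ≤
        ((nbr E v ∩ part κ k ∩ Lset).card : ℝ) := by exact_mod_cast h6
    have h10 : (NW.deg F a : ℝ) ≤
        (((D.filter (fun b => κ b = k)).filter (fun b => s(a, b) ∈ F)).card : ℝ) := by
      exact_mod_cast h1
    have h11 : ((D.filter (fun b => κ b = k)).card : ℝ) ≤
        2 * (((D.filter (fun b => κ b = k)).filter (fun b => s(a, b) ∈ F)).card : ℝ) := by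
      have hcm : (0 : ℝ) ≤ cm := Nat.cast_nonneg _
      have hT : (0 : ℝ) ≤ T := Nat.cast_nonneg _
      linarith
    exact_mod_cast h11
  obtain ⟨f, hf, _⟩ := pm_bip (D.filter (fun b => κ b = i)) (D.filter (fun b => κ b = k))
    (by
      rw [Finset.disjoint_left]
      intro b h1 h2
      exact hik ((Finset.mem_filter.1 h1).2.symm.trans (Finset.mem_filter.1 h2).2))
    hcardeq F
    (fun a ha => key i k hi' hk' hik a (Finset.mem_filter.1 ha).1 (Finset.mem_filter.1 ha).2)
    (fun a ha => key k i hk' hi' hik.symm a (Finset.mem_filter.1 ha).1 (Finset.mem_filter.1 ha).2)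
  rw [hDunion] at hf
  exact ⟨f, hf⟩

end Pm

end NW3
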