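import Pool.Agent.NW3.StepDefs
import Pool.Agent.NW3.StepA
import Pool.Agent.NW3.StepB3
import Pool.Agent.NW3.CoverCore3

/-!
# Project NW3: one step of the cover down (assembly and choice of the constants)
-/

set_option linter.unusedSectionVars false

namespace NW3

open Finset NW

section FromA

variable {q : ℕ} [Fact q.Prime] {V : Type} [Fintype V] [DecidableEq V]
    {κ : V → Fin 3} {E G : Finset (Sym2 V)} {n K ℓ : ℕ} {τ : ℝ} {U : ℕ → Finset V} {s : ℕ → ℕ}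
    {lab : V → PlPoint q × PlLine q} {j : ℕ} {lo hi α : ℝ}

theorem poly_q (q : ℕ) (τ : ℝ) (hτ : 0 ≤ τ) :
    τ + (((q + 1) * q ^ 2 : ℕ) : ℝ) * τ ≤ ((q : ℝ) + 1) ^ 4 * τ := by
  have hq : (0 : ℝ) ≤ q := Nat.cast_nonneg q
  have h1 : 1 + ((q : ℝ) + 1) * (q : ℝ) ^ 2 ≤ ((q : ℝ) + 1) ^ 4 := by
    nlinarith [mul_nonneg hq hq, mul_nonneg (mul_nonneg hq hq) hq,
      mul_nonneg (mul_nonneg hq hq) (mul_nonneg hq hq)]
  push_cast
  nlinarith

theorem stepA_deg (hn : 0 < n) (h : StepHyp q κ E G n K ℓ τ U s lab j lo hi α)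
    (hK : 16 ≤ α * K) (hq : 16 ≤ α * q) (hτ : 16 * ((q : ℝ) + 1) ^ 4 * τ ≤ α) :
    ∀ v ∈ U j, ∀ i, i ≠ κ v → lo * (s j : ℝ) ≤ (pdeg κ (restG q G U lab j) i v : ℝ) ∧
      (pdeg κ (restG q G U lab j) i v : ℝ) ≤ hi * (s j : ℝ) := by
  intro v hv i hi'
  obtain ⟨h1, _⟩ := stepA hn (le_trans one_le_two h.K2) h.τ0.le h.lv h.hj h.balE h.dE h.GE h.GU
    h.balG h.EU h.ER h.dG
  obtain ⟨h2, h3⟩ := h1 v hv i hi'
  have hs0 : (0 : ℝ) ≤ s j := Nat.cast_nonneg _
  have hα := h.α0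
  have hKpos : (0 : ℝ) < K := by
    have : (2 : ℝ) ≤ K := by exact_mod_cast h.K2
    linarith
  have hqpos : (0 : ℝ) < q := Nat.cast_pos.2 (Fact.out : q.Prime).pos
  have hK1 : (1 : ℝ) / K ≤ α / 16 := by
    rw [div_le_iff₀ hKpos]; linarith
  have hq1 : (1 : ℝ) / q ≤ α / 16 := by
    rw [div_le_iff₀ hqpos]; linarith
  have hpoly := poly_q q τ h.τ0.le
  have hB0 : (0 : ℝ) ≤ (((q + 1) * q ^ 2 : ℕ) : ℝ) * τ :=
    mul_nonneg (Nat.cast_nonneg _) h.τ0.le
  have hτ16 : τ + (((q + 1) * q ^ 2 : ℕ) : ℝ) * τ ≤ α / 16 := by linarith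
  constructor
  · refine le_trans (mul_le_mul_of_nonneg_right ?_ hs0) h2
    linarith
  · refine h3.trans (mul_le_mul_of_nonneg_right ?_ hs0)
    linarith

theorem stepA_bal (hn : 0 < n) (h : StepHyp q κ E G n K ℓ τ U s lab j lo hi α) (θ : ℝ)
    (hτ : 16 * ((q : ℝ) + 1) ^ 4 * τ ≤ θ) : ∀ v ∈ U j, ∀ i k, i ≠ κ v → k ≠ κ v →
    (pdeg κ (restG q G U lab j) i v : ℝ) ≤
      (pdeg κ (restG q G U lab j) k v : ℝ) + θ * (s j : ℝ) := by
  intro v hv i k hi' hk'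
  obtain ⟨_, h1⟩ := stepA hn (le_trans one_le_two h.K2) h.τ0.le h.lv h.hj h.balE h.dE h.GE h.GU
    h.balG h.EU h.ER h.dG
  have h2 := h1 v hv i k hi' hk'
  have hs0 : (0 : ℝ) ≤ s j := Nat.cast_nonneg _
  have hpoly := poly_q q τ h.τ0.le
  have h0 := h.τ0
  have hp0 : (0 : ℝ) ≤ ((q : ℝ) + 1) ^ 4 * τ := by positivity
  have h3 : 2 * τ + 2 * ((((q + 1) * q ^ 2 : ℕ) : ℝ) * τ) ≤ θ := by linarith
  have h4 := mul_le_mul_of_nonneg_right h3 hs0
  unfold restG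
  linarith

end FromA

/-! ## Elementary facts -/

section Facts

variable {V : Type} [Fintype V] [DecidableEq V] {A : Type} [Fintype A] [DecidableEq A]
  {κ : V → Fin 3} {E : Finset (Sym2 V)} {n K ℓ : ℕ} {τ : ℝ} {U : ℕ → Finset V} {s : ℕ → ℕ}
  {lab : V → A}

theorem LVortex.anti0 (h : LVortex κ E n K ℓ τ U s lab) (i : ℕ) : s (i + 1) ≤ s i := by
  rw [← h.card (i + 1) 0, ← h.card i 0]
  exact Finset.card_le_card (Finset.inter_subset_inter_right (h.sub i))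

theorem LVortex.anti' (h : LVortex κ E n K ℓ τ U s lab) {i k : ℕ} (hik : i ≤ k) : s k ≤ s i := by
  induction k, hik using Nat.le_induction with
  | base => exact le_rfl
  | succ k _ ih => exact (h.anti0 k).trans ih

theorem LVortex.cardU (h : LVortex κ E n K ℓ τ U s lab) (i : ℕ) : (U i).card = 3 * s i := by
  have h1 : (U i).card = ∑ k : Fin 3, (U i ∩ part κ k).card := by
    rw [Finset.card_eq_sum_card_fiberwise (s := U i) (t := univ) (f := κ)
      (fun _ _ => Finset.mem_coe.2 (Finset.mem_univ _))]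
    refine Finset.sum_congr rfl fun k _ => ?_
    congr 1
    ext v
    simp [part]
  rw [h1, Finset.sum_congr rfl (fun k _ => h.card i k), Finset.sum_const, Finset.card_univ,
    Fintype.card_fin, smul_eq_mul]

end Facts

/-! ## The choice of the constants -/

/-- the numbers of one step -/
theorem step_numbers {K q : ℕ} {μ β N t : ℝ} (hK : 2 ≤ K) (hμ : 0 < μ) (hq1 : 16 * K ≤ μ * q)
    (hq2 : 1000 * K ≤ q) (hβ0 : 0 < β) (hβ1 : β * (12 * K) ≤ μ)
    (hβ2 : β * (1000 * K * (q : ℝ) ^ 2) ≤ 1) (hN : N ≤ 2 * K * t) (ht : 0 < t)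
    (hβN : 2 ≤ β * N) :
    let g := ⌊β ^ 2 * N⌋₊
    let B := ⌊β * N⌋₊
    let T := ⌊4 * N / (q : ℝ) ^ 2⌋₊
    let cm := ⌊4 * t / (q : ℝ) ^ 2⌋₊
    0 < B ∧
    (∀ X : ℕ, (X : ℝ) ≤ 3 * N → ((2 * g + 4 * B + g * X / B : ℕ) : ℝ) < t / (20 * (q : ℝ) ^ 2)) ∧
    (((cm : ℝ) + (g + 2 * B) + T) * 64 ≤ t / q) ∧
    (((g + 2 * B + q * T : ℕ) : ℝ) ≤ μ * t) := by
  intro g B T cm
  have hK' : (2 : ℝ) ≤ K := by exact_mod_cast hK
  have hq0 : (0 : ℝ) < q := by
    have : (0 : ℝ) < 1000 * K := by positivity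
    have h2 : (1000 * K : ℝ) ≤ q := by exact_mod_cast hq2
    linarith
  have hq2' : (1000 * K : ℝ) ≤ q := by exact_mod_cast hq2
  have hN0 : 0 < N := by
    by_contra h
    push Not at h
    have : β * N ≤ 0 := mul_nonpos_of_nonneg_of_nonpos hβ0.le h
    linarith
  have hβ3 : β ≤ 1 / 1000 := by
    have h1 : (1 : ℝ) ≤ K * (q : ℝ) ^ 2 := by
      have : (1 : ℝ) ≤ (q : ℝ) ^ 2 := one_le_pow₀ (by linarith)
      nlinarith
    nlinarith
  have hg : (g : ℝ) ≤ β ^ 2 * N := Nat.floor_le (by positivity)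
  have hB : (B : ℝ) ≤ β * N := Nat.floor_le (by positivity)
  have hB' : β * N / 2 ≤ (B : ℝ) := by
    have h1 : β * N < (B : ℝ) + 1 := Nat.lt_floor_add_one _
    linarith
  have hT : (T : ℝ) ≤ 4 * N / (q : ℝ) ^ 2 := Nat.floor_le (by positivity)
  have hcm : (cm : ℝ) ≤ 4 * t / (q : ℝ) ^ 2 := Nat.floor_le (by positivity)
  have hBpos : (0 : ℝ) < B := by linarith
  have hg' : (g : ℝ) ≤ β * N := by
    have : β ^ 2 * N ≤ β * N := by
      have : β * (β * N) ≤ 1 * (β * N) := by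
        apply mul_le_mul_of_nonneg_right _ (by positivity)
        linarith
      nlinarith
    linarith
  -- `β N` against `t`
  have hβt : β * N ≤ 2 * (β * K) * t := by
    have := mul_le_mul_of_nonneg_left hN hβ0.le
    nlinarith
  have hβt2 : β * N ≤ t / (500 * (q : ℝ) ^ 2) := by
    rw [le_div_iff₀ (by positivity)]
    have h1 : β * N * (500 * (q : ℝ) ^ 2) ≤ 2 * (β * K) * t * (500 * (q : ℝ) ^ 2) :=
      mul_le_mul_of_nonneg_right hβt (by positivity)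
    have h2 : 2 * (β * K) * t * (500 * (q : ℝ) ^ 2) = β * (1000 * K * (q : ℝ) ^ 2) * t := by ring
    have h3 : β * (1000 * K * (q : ℝ) ^ 2) * t ≤ 1 * t := mul_le_mul_of_nonneg_right hβ2 ht.le
    linarith
  refine ⟨by exact_mod_cast hBpos, ?_, ?_, ?_⟩
  · intro X hX
    have h1 : ((g * X / B : ℕ) : ℝ) ≤ (g : ℝ) * X / B := by
      have := Nat.cast_div_le (α := ℝ) (m := g * X) (n := B)
      rwa [Nat.cast_mul] at this
    have h2 : (g : ℝ) * X / B ≤ 6 * (β * N) := by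
      rw [div_le_iff₀ hBpos]
      have h3 : (g : ℝ) * X ≤ (β ^ 2 * N) * (3 * N) :=
        mul_le_mul hg hX (Nat.cast_nonneg _) (by positivity)
      have h4 : (β ^ 2 * N) * (3 * N) = 6 * (β * N) * (β * N / 2) := by ring
      have h5 : 6 * (β * N) * (β * N / 2) ≤ 6 * (β * N) * B :=
        mul_le_mul_of_nonneg_left hB' (by positivity)
      linarith
    have h3 : 12 * (t / (500 * (q : ℝ) ^ 2)) < t / (20 * (q : ℝ) ^ 2) := by
      have h4 : t / (500 * (q : ℝ) ^ 2) = (t / (q : ℝ) ^ 2) / 500 := by field_simp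
      have h5 : t / (20 * (q : ℝ) ^ 2) = (t / (q : ℝ) ^ 2) / 20 := by field_simp
      rw [h4, h5]
      have h6 : 0 < t / (q : ℝ) ^ 2 := by positivity
      linarith
    push_cast
    have h4 : ((g * X / B : ℕ) : ℝ) ≤ 6 * (β * N) := h1.trans h2
    push_cast at h4
    linarith
  · have h1 : 4 * N / (q : ℝ) ^ 2 ≤ 8 * K * (t / (q : ℝ) ^ 2) := by
      rw [div_le_iff₀ (by positivity)]
      have : 8 * K * (t / (q : ℝ) ^ 2) * (q : ℝ) ^ 2 = 8 * K * t := by field_simp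
      rw [this]
      linarith
    have h2 : t / (500 * (q : ℝ) ^ 2) = (t / (q : ℝ) ^ 2) / 500 := by field_simp
    have h3 : 4 * t / (q : ℝ) ^ 2 = 4 * (t / (q : ℝ) ^ 2) := by ring
    have h4 : 0 < t / (q : ℝ) ^ 2 := by positivity
    have h5 : ((cm : ℝ) + (g + 2 * B) + T) ≤ (5 + 8 * K) * (t / (q : ℝ) ^ 2) := by
      rw [h2] at hβt2
      rw [h3] at hcm
      nlinarith
    have h6 : (5 + 8 * (K : ℝ)) * (t / (q : ℝ) ^ 2) * 64 ≤ t / q := by
      have h7 : t / (q : ℝ) = q * (t / (q : ℝ) ^ 2) := by field_simp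
      rw [h7]
      have h8 : (5 + 8 * (K : ℝ)) * 64 ≤ q := by nlinarith
      nlinarith
    nlinarith
  · have h1 : (q : ℝ) * T ≤ μ * t / 2 := by
      have h2 : (q : ℝ) * T ≤ q * (4 * N / (q : ℝ) ^ 2) := mul_le_mul_of_nonneg_left hT hq0.le
      have h3 : (q : ℝ) * (4 * N / (q : ℝ) ^ 2) = 4 * N / q := by field_simp
      have h4 : 4 * N / q ≤ μ * t / 2 := by
        rw [div_le_iff₀ hq0]
        have h5 : (16 * K : ℝ) * t ≤ μ * q * t := mul_le_mul_of_nonneg_right hq1 ht.le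
        nlinarith
      linarith
    have h2 : (g : ℝ) + 2 * B ≤ μ * t / 2 := by
      have h3 : (g : ℝ) + 2 * B ≤ 3 * (β * N) := by linarith
      have h4 : 3 * (β * N) ≤ 3 * (2 * (β * K) * t) := by linarith
      have h5 : β * (12 * K) * t ≤ μ * t := mul_le_mul_of_nonneg_right hβ1 ht.le
      nlinarith
    push_cast
    linarith

/-- **P4: one step of the cover down.** -/
theorem step3 : StepStatement3 := by
  intro lo hi hlo hAD α hα
  refine ⟨max 2 ⌈16 / α⌉₊, ?_⟩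
  intro K hK μ hμ
  have hK2 : 2 ≤ K := (le_max_left _ _).trans hK
  have hK2' : (2 : ℝ) ≤ K := by exact_mod_cast hK2
  have hKα : 16 ≤ α * K := by
    have h1 : (16 / α : ℝ) ≤ K := by
      refine (Nat.le_ceil _).trans ?_
      exact_mod_cast (le_max_right _ _).trans hK
    rw [div_le_iff₀ hα] at h1
    linarith
  obtain ⟨q, hqge, hqp⟩ := Nat.exists_infinite_primes
    (max 64 (max (1000 * K) (max ⌈16 / α⌉₊ ⌈16 * K / μ⌉₊)))
  haveI hqF : Fact q.Prime := ⟨hqp⟩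
  have hq64 : 64 ≤ q := (le_max_left _ _).trans hqge
  have hq1000 : 1000 * K ≤ q := ((le_max_left _ _).trans (le_max_right _ _)).trans hqge
  have hqα : 16 ≤ α * q := by
    have h1 : (16 / α : ℝ) ≤ q := by
      refine (Nat.le_ceil _).trans ?_
      exact_mod_cast ((le_max_left _ _).trans ((le_max_right _ _).trans
        (le_max_right _ _))).trans hqge
    rw [div_le_iff₀ hα] at h1
    linarith
  have hqμ : 16 * (K : ℝ) ≤ μ * q := by
    have h1 : (16 * K / μ : ℝ) ≤ q := by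
      refine (Nat.le_ceil _).trans ?_
      exact_mod_cast ((le_max_right _ _).trans ((le_max_right _ _).trans
        (le_max_right _ _))).trans hqge
    rw [div_le_iff₀ hμ] at h1
    linarith
  have hq0 : (0 : ℝ) < q := by
    have : (64 : ℝ) ≤ q := by exact_mod_cast hq64
    linarith
  -- `β`
  obtain ⟨β, hβdef⟩ : ∃ β : ℝ, β = min (μ / (12 * K)) (1 / (1000 * K * (q : ℝ) ^ 2)) := ⟨_, rfl⟩
  have hβ0 : 0 < β := by rw [hβdef]; exact lt_min (by positivity) (by positivity)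
  have hβ1 : β * (12 * K) ≤ μ := by
    have h1 : β ≤ μ / (12 * K) := by rw [hβdef]; exact min_le_left _ _
    rwa [le_div_iff₀ (by positivity)] at h1
  have hβ2 : β * (1000 * K * (q : ℝ) ^ 2) ≤ 1 := by
    have h1 : β ≤ 1 / (1000 * K * (q : ℝ) ^ 2) := by rw [hβdef]; exact min_le_right _ _
    rwa [le_div_iff₀ (by positivity)] at h1
  obtain ⟨θ, hθ, n0, hADn⟩ := hAD (β ^ 2) (by positivity)
  -- `τ`
  obtain ⟨τ, hτdef⟩ : ∃ τ : ℝ, τ = min (α / (16 * ((q : ℝ) + 1) ^ 4))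
    (min (θ / (16 * ((q : ℝ) + 1) ^ 4)) (1 / (100 * ((q : ℝ) + 1) ^ 6))) := ⟨_, rfl⟩
  have hτ0 : 0 < τ := by
    rw [hτdef]
    exact lt_min (by positivity) (lt_min (by positivity) (by positivity))
  have hτ1 : 16 * ((q : ℝ) + 1) ^ 4 * τ ≤ α := by
    have h1 : τ ≤ α / (16 * ((q : ℝ) + 1) ^ 4) := by rw [hτdef]; exact min_le_left _ _
    rw [le_div_iff₀ (by positivity)] at h1
    linarith
  have hτ2 : 16 * ((q : ℝ) + 1) ^ 4 * τ ≤ θ := by
    have h1 : τ ≤ θ / (16 * ((q : ℝ) + 1) ^ 4) := by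
      rw [hτdef]; exact (min_le_right _ _).trans (min_le_left _ _)
    rw [le_div_iff₀ (by positivity)] at h1
    linarith
  have hτ3 : 100 * ((q : ℝ) + 1) ^ 6 * τ ≤ 1 := by
    have h1 : τ ≤ 1 / (100 * ((q : ℝ) + 1) ^ 6) := by
      rw [hτdef]; exact (min_le_right _ _).trans (min_le_right _ _)
    rw [le_div_iff₀ (by positivity)] at h1
    linarith
  refine ⟨q, hqF, τ, hτ0, max 1 (max n0 ⌈2 / β⌉₊), ?_⟩
  intro V _ _ κ E G n ℓ U s lab j htri hlv hm hj hbalE hdE hGE hGU hbalG hEU hER hdG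
  rcases Nat.eq_zero_or_pos n with hn | hn
  · subst hn
    have hE0 : E = ∅ := empty_of_zero (hi := hi) (α := α) htri (fun v i hi' => (hdE v i hi').2)
    have hG0 : G = ∅ := Finset.subset_empty.1 (hE0 ▸ hGE)
    refine ⟨∅, Finset.empty_subset _, Dec.empty, ?_, Finset.disjoint_empty_left _,
      Finset.disjoint_empty_left _, fun v _ => ?_⟩
    · rw [hG0, Finset.empty_sdiff]
      exact Finset.empty_subset _
    · rw [Finset.empty_inter]
      have : NW.deg (∅ : Finset (Sym2 V)) v = 0 := by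
        unfold NW.deg nbr
        simp
      rw [this]
      push_cast
      positivity
  -- sizes
  have hs1 : s ℓ ≤ s (j + 1) := hlv.anti' (by omega)
  have hs2 : s (j + 1) ≤ s j := hlv.anti0 j
  have hs0 : 0 < s (j + 1) := by
    have := (le_max_left _ _).trans hm
    omega
  have hn0 : n0 ≤ s j := ((le_max_left _ _).trans ((le_max_right _ _).trans hm)).trans
    (hs1.trans hs2)
  have hβN : 2 ≤ β * (s j : ℝ) := by
    have h1 : (2 / β : ℝ) ≤ s j := by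
      refine (Nat.le_ceil _).trans ?_
      exact_mod_cast ((le_max_right _ _).trans ((le_max_right _ _).trans hm)).trans
        (hs1.trans hs2)
    rw [div_le_iff₀ hβ0] at h1
    linarith
  have hNt : (s j : ℝ) ≤ 2 * K * s (j + 1) := by exact_mod_cast hlv.low j hj
  have ht : (0 : ℝ) < s (j + 1) := by exact_mod_cast hs0
  have H : StepHyp q κ E G n K ℓ τ U s lab j lo hi α :=
    ⟨htri, hlv, hj, hbalE, hdE, hGE, hGU, hbalG, hEU, hER, hdG, hlo, hα, hτ0, hK2, hs0⟩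
  -- the approximate decomposition
  have hrG : restG q G U lab j ⊆ G := Finset.sdiff_subset
  obtain ⟨P, hP, hPdec, hPdeg⟩ := hADn V κ (U j) (s j) (restG q G U lab j)
    (htri.mono (hrG.trans hGE)) (hrG.trans hGU) hn0 (fun i => hlv.card j i)
    (stepA_deg hn H hKα hqα hτ1) (stepA_bal hn H θ hτ2)
  obtain ⟨hB, hnum1, hnum2, hnum3⟩ := step_numbers (N := s j) (t := s (j + 1)) hK2 hμ hqμ
    hq1000 hβ0 hβ1 hβ2 hNt ht hβN
  have hcardX : (((U j).card : ℕ) : ℝ) ≤ 3 * (s j : ℝ) := by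
    rw [hlv.cardU j]; push_cast; exact le_rfl
  have hlt := hnum1 _ hcardX
  have hXU : U (j + 1) ⊆ U j := hlv.sub j
  have hQG : innQ q G U lab j ⊆ G := Finset.sdiff_subset.trans Finset.inter_subset_left
  have hQU : innQ q G U lab j ⊆ (U (j + 1)).sym2 :=
    Finset.sdiff_subset.trans Finset.inter_subset_right
  have hNL : NL G := (htri.mono hGE).nl
  obtain ⟨D, hDG, hDdec, hDU, hDQ, hDdeg⟩ := cover_core3 q G (innQ q G U lab j) (U j) (U (j + 1))
    (U (j + 1) \ U (j + 2)) hNL hGU hXU Finset.sdiff_subset hQG hQU (fun u => (lab u).1)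
    (fun v => (lab v).2) ⌊β ^ 2 * (s j : ℝ)⌋₊ ⌊β * (s j : ℝ)⌋₊ ⌊4 * (s j : ℝ) / (q : ℝ) ^ 2⌋₊
    ⌊4 * (s (j + 1) : ℝ) / (q : ℝ) ^ 2⌋₊ hB P hP hPdec
    (fun v hv => Nat.le_floor (hPdeg v hv))
    (fun l => Nat.le_floor (stepB_cls H hτ3 l))
    (fun p => Nat.le_floor (stepB_cell H hτ3 p))
    (fun x hx y hy hxy p hp1 hp2 => by
      have h1 := stepB_comW H hτ3 hq64 x hx y hy hxy p hp1 hp2
      exact_mod_cast lt_of_lt_of_le hlt h1)
    (fun x hx y hy hxy p hp => by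
      have h1 := stepB_comU H hτ3 hq64 x hx y hy hxy p hp
      exact_mod_cast lt_of_lt_of_le hlt h1)
    (stepB_pm H hτ3 hq64 _ _ _ _ hnum2)
  refine ⟨D, hDG, hDdec, hDU, ?_, ?_, ?_⟩
  · rw [Finset.disjoint_left]
    intro e he he'
    have h1 : e ∈ (U (j + 1)).sym2 := Finset.sym2_mono (hlv.sub (j + 1)) he'
    have h2 := hDQ (Finset.mem_inter.2 ⟨he, h1⟩)
    exact (Finset.mem_sdiff.1 h2).2 (Finset.mem_union_left _ he')
  · rw [Finset.disjoint_left]
    intro e he he'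
    have h1 : e ∈ (U (j + 1)).sym2 := by
      obtain ⟨v, hv, u, hu, rfl⟩ := resv_cases he'
      rw [Finset.mk_mem_sym2_iff]
      exact ⟨(Finset.mem_sdiff.1 hv).1,
        hlv.sub (j + 1) (Finset.mem_sdiff.1 (mem_lineSet.1 hu).1).1⟩
    have h2 := hDQ (Finset.mem_inter.2 ⟨he, h1⟩)
    exact (Finset.mem_sdiff.1 h2).2 (Finset.mem_union_right _ he')
  · intro v hv
    have h1 : NW.deg (D ∩ (U (j + 1)).sym2) v ≤ degIn D (U (j + 1)) v := by
      unfold NW.deg degIn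
      refine Finset.card_le_card fun u hu => ?_
      rw [mem_nbr, Finset.mem_inter, Finset.mk_mem_sym2_iff] at hu
      rw [Finset.mem_inter, mem_nbr]
      exact ⟨hu.1, hu.2.2⟩
    have h2 : ((NW.deg (D ∩ (U (j + 1)).sym2) v : ℕ) : ℝ) ≤
        ((⌊β ^ 2 * (s j : ℝ)⌋₊ + 2 * ⌊β * (s j : ℝ)⌋₊ + q * ⌊4 * (s j : ℝ) / (q : ℝ) ^ 2⌋₊ : ℕ) : ℝ) := by
      exact_mod_cast h1.trans (hDdeg v hv)
    exact h2.trans hnum3

end NW3
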