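import Pool.Agent.NW.AbsB

/-!
# 3-partite absorbers, part A: transversal triangle decompositions of multisets of pairs
-/

set_option linter.unusedSectionVars false

namespace NW

open Finset

namespace Ab3

open Ab

variable {V : Type} [DecidableEq V]

/-- the three vertices lie in different parts -/
def Tv (κ : V → Fin 3) (a b c : V) : Prop := κ a ≠ κ b ∧ κ b ≠ κ c ∧ κ a ≠ κ c

theorem Tv.rot {κ : V → Fin 3} {a b c : V} (h : Tv κ a b c) : Tv κ b c a :=
  ⟨h.2.1, h.2.2.symm, h.1.symm⟩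

theorem Tv.swap {κ : V → Fin 3} {a b c : V} (h : Tv κ a b c) : Tv κ b a c :=
  ⟨h.1.symm, h.2.2, h.2.1⟩

theorem Tv.n1 {κ : V → Fin 3} {a b c : V} (h : Tv κ a b c) : a ≠ b := fun e => h.1 (by rw [e])

theorem Tv.n2 {κ : V → Fin 3} {a b c : V} (h : Tv κ a b c) : b ≠ c := fun e => h.2.1 (by rw [e])

theorem Tv.n3 {κ : V → Fin 3} {a b c : V} (h : Tv κ a b c) : a ≠ c := fun e => h.2.2 (by rw [e])

/-- a multiset of pairs which is a sum of transversal triangles, none of them inside `W` -/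
inductive MDec (κ : V → Fin 3) (W : Finset V) : Multiset (Sym2 V) → Prop
  | zero : MDec κ W 0
  | cons {a b c : V} {M : Multiset (Sym2 V)} (ht : Tv κ a b c)
      (hn : ¬ (a ∈ W ∧ b ∈ W ∧ c ∈ W)) (h : MDec κ W M) : MDec κ W (trim a b c + M)

variable {κ : V → Fin 3}

/-- the triangle which contains a given pair -/
theorem MDec.find {W : Finset V} {M : Multiset (Sym2 V)} (h : MDec κ W M) {x y : V}
    (hx : x ∈ W) (hy : y ∈ W) (hm : s(x, y) ∈ M) :
    ∃ z M', z ∉ W ∧ Tv κ x y z ∧ M = trim x y z + M' ∧ MDec κ W M' := by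
  induction h with
  | zero => simp at hm
  | @cons a b c M ht hn h ih =>
    rcases Multiset.mem_add.1 hm with h1 | h1
    · simp only [trim, Multiset.mem_add, Multiset.mem_singleton, Sym2.eq_iff] at h1
      rcases h1 with ((⟨rfl, rfl⟩ | ⟨rfl, rfl⟩) | ⟨rfl, rfl⟩ | ⟨rfl, rfl⟩) |
        ⟨rfl, rfl⟩ | ⟨rfl, rfl⟩
      · exact ⟨c, M, fun hc => hn ⟨hx, hy, hc⟩, ht, rfl, h⟩
      · exact ⟨c, M, fun hc => hn ⟨hy, hx, hc⟩, ht.swap, by rw [trim_swap], h⟩
      · exact ⟨a, M, fun hc => hn ⟨hc, hx, hy⟩, ht.rot, by rw [trim_rot], h⟩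
      · exact ⟨a, M, fun hc => hn ⟨hc, hy, hx⟩, ht.rot.swap, by rw [trim_rot, trim_swap], h⟩
      · exact ⟨b, M, fun hc => hn ⟨hx, hc, hy⟩, ht.swap.rot,
          by rw [trim_swap, trim_rot, trim_swap], h⟩
      · exact ⟨b, M, fun hc => hn ⟨hy, hc, hx⟩, ht.rot.rot, by rw [trim_rot, trim_rot], h⟩
    · obtain ⟨z, M', hz, t, e, h2⟩ := ih h1
      refine ⟨z, trim a b c + M', hz, t, ?_, MDec.cons ht hn h2⟩
      rw [e]
      abel

theorem MDec.dec {W : Finset V} {M : Multiset (Sym2 V)} (h : MDec κ W M) :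
    ∀ E : Finset (Sym2 V), E.val = M → Dec E := by
  have h1 : Ab.MDec W M := by
    induction h with
    | zero => exact Ab.MDec.zero
    | cons ht hn _ ih => exact Ab.MDec.cons ht.n1 ht.n2 ht.n3 hn ih
  exact h1.dec

/-- the state of the construction -/
def St (κ : V → Fin 3) (E : Finset (Sym2 V)) (W B S₀ : Finset V) (k : ℕ)
    (a b : Multiset (Sym2 V)) : Prop :=
  ∃ (S : Finset V) (N : Multiset (Sym2 V)), S₀ ⊆ S ∧ S.card ≤ k ∧ Good E B S N ∧
    MDec κ W (N + a) ∧ MDec κ W (N + b)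

theorem St.symm {E : Finset (Sym2 V)} {W B S₀ : Finset V} {k : ℕ} {a b : Multiset (Sym2 V)}
    (h : St κ E W B S₀ k a b) : St κ E W B S₀ k b a := by
  obtain ⟨S, N, h1, h2, h3, h4, h5⟩ := h
  exact ⟨S, N, h1, h2, h3, h5, h4⟩

theorem St.mono {E : Finset (Sym2 V)} {W B S₀ : Finset V} {k k' : ℕ} {a b : Multiset (Sym2 V)}
    (h : St κ E W B S₀ k a b) (hk : k ≤ k') : St κ E W B S₀ k' a b := by
  obtain ⟨S, N, h1, h2, h3⟩ := h
  exact ⟨S, N, h1, h2.trans hk, h3⟩

theorem St.start (κ : V → Fin 3) (E : Finset (Sym2 V)) (W B S₀ : Finset V) :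
    St κ E W B S₀ S₀.card 0 0 := by
  refine ⟨S₀, 0, Finset.Subset.refl _, le_rfl, ⟨Multiset.nodup_zero, ?_, ?_, ?_⟩, ?_, ?_⟩
  · intro e he
    exact absurd he (Multiset.notMem_zero e)
  · intro e he
    exact absurd he (Multiset.notMem_zero e)
  · intro e he
    exact absurd he (Multiset.notMem_zero e)
  · rw [add_zero]
    exact MDec.zero
  · rw [add_zero]
    exact MDec.zero

/-- new vertices exist in every part -/
def Rich (κ : V → Fin 3) (E : Finset (Sym2 V)) (B : Finset V) (q : ℕ) : Prop :=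
  ∀ (l : List V) (i : Fin 3) (S : Finset V), l.length ≤ 4 → (∀ a ∈ l, κ a ≠ i) → S.card < q →
    ∃ w, κ w = i ∧ w ∉ S ∧ w ∉ B ∧ ∀ a ∈ l, s(w, a) ∈ E

/-- **octahedron** -/
theorem St.oct {E : Finset (Sym2 V)} {W B S₀ : Finset V} {k q : ℕ} {a b : Multiset (Sym2 V)}
    (hR : Rich κ E B q) (hk : k + 3 ≤ q) (hWB : W ⊆ B) (hWS : W ⊆ S₀)
    (h : St κ E W B S₀ k a b) {x y z : V} (hx : x ∈ W) (hy : y ∈ W) (hz : z ∈ W)
    (ht : Tv κ x y z) :
    St κ E W B S₀ (k + 3) (trim x y z + a) b := by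
  have hxy := ht.n1
  have hyz := ht.n2
  have hxz := ht.n3
  obtain ⟨S, N, h1, h2, h3, h4, h5⟩ := h
  have xS : x ∈ S := h1 (hWS hx)
  have yS : y ∈ S := h1 (hWS hy)
  have zS : z ∈ S := h1 (hWS hz)
  obtain ⟨x', x0, x1, x2, x3⟩ := hR [y, z] (κ x) S (by simp) (by
    simp [ht.1.symm, ht.2.2.symm]) (by omega)
  have c1 := Finset.card_insert_le x' S
  obtain ⟨y', y0, y1, y2, y3⟩ := hR [x, z, x'] (κ y) (insert x' S) (by simp) (by
    simp [ht.1, ht.2.1.symm, x0]) (by omega)
  have c2 := Finset.card_insert_le y' (insert x' S)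
  obtain ⟨z', z0, z1, z2, z3⟩ := hR [x, y, x', y'] (κ z) (insert y' (insert x' S)) (by simp) (by
    simp [ht.2.2, ht.2.1, x0, y0]) (by omega)
  have c3 := Finset.card_insert_le z' (insert y' (insert x' S))
  have k1 : x' ≠ x := fun e => x1 (e ▸ xS)
  have k2 : x' ≠ y := fun e => x1 (e ▸ yS)
  have k3 : x' ≠ z := fun e => x1 (e ▸ zS)
  have x'W : x' ∉ W := fun h => x2 (hWB h)
  have y'W : y' ∉ W := fun h => y2 (hWB h)
  have z'W : z' ∉ W := fun h => z2 (hWB h)
  rw [Finset.mem_insert, not_or] at y1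
  rw [Finset.mem_insert, not_or, Finset.mem_insert, not_or] at z1
  have l1 : y' ≠ x := fun e => y1.2 (e ▸ xS)
  have l2 : y' ≠ y := fun e => y1.2 (e ▸ yS)
  have l3 : y' ≠ z := fun e => y1.2 (e ▸ zS)
  have m1 : z' ≠ x := fun e => z1.2.2 (e ▸ xS)
  have m2 : z' ≠ y := fun e => z1.2.2 (e ▸ yS)
  have m3 : z' ≠ z := fun e => z1.2.2 (e ▸ zS)
  have g1 := h3.grow (w := x') (l := [y, z]) x1 x2 (by simp [hyz]) (by
    intro a ha
    simp only [List.mem_cons, List.not_mem_nil, or_false] at ha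
    rcases ha with rfl | rfl <;> assumption) x3
  have g2 := g1.grow (w := y') (l := [x, z, x']) (by
    rw [Finset.mem_insert, not_or]; exact y1) y2 (by simp [hxz, k1.symm, k3.symm]) (by
    intro a ha
    simp only [List.mem_cons, List.not_mem_nil, or_false] at ha
    rcases ha with rfl | rfl | rfl
    · exact Finset.mem_insert_of_mem xS
    · exact Finset.mem_insert_of_mem zS
    · exact Finset.mem_insert_self _ _) y3
  have g3 := g2.grow (w := z') (l := [x, y, x', y']) (by
    rw [Finset.mem_insert, not_or, Finset.mem_insert, not_or]; exact z1) z2 (by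
      simp [hxy, k1.symm, k2.symm, l1.symm, l2.symm, Ne.symm y1.1]) (by
    intro a ha
    simp only [List.mem_cons, List.not_mem_nil, or_false] at ha
    rcases ha with rfl | rfl | rfl | rfl
    · exact Finset.mem_insert_of_mem (Finset.mem_insert_of_mem xS)
    · exact Finset.mem_insert_of_mem (Finset.mem_insert_of_mem yS)
    · exact Finset.mem_insert_of_mem (Finset.mem_insert_self _ _)
    · exact Finset.mem_insert_self _ _) z3
  refine ⟨_, _, ?_, ?_, g3, ?_, ?_⟩
  · intro v hv
    exact Finset.mem_insert_of_mem (Finset.mem_insert_of_mem (Finset.mem_insert_of_mem (h1 hv)))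
  · omega
  · have e : Ab.star z' [x, y, x', y'] + (Ab.star y' [x, z, x'] + (Ab.star x' [y, z] + N)) +
        (trim x y z + a) = trim x' y z + (trim x y' z + (trim x y z' + (trim x' y' z' +
          (N + a)))) := by
      unfold trim Ab.star
      simp only [List.map_cons, List.map_nil, ← Multiset.cons_coe, Multiset.coe_nil,
        ← Multiset.singleton_add]
      rw [Sym2.eq_swap (a := z') (b := x), Sym2.eq_swap (a := z') (b := y),
        Sym2.eq_swap (a := z') (b := x'), Sym2.eq_swap (a := z') (b := y'),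
        Sym2.eq_swap (a := y') (b := x), Sym2.eq_swap (a := y') (b := x')]
      abel
    rw [e]
    have t1 : Tv κ x' y z := by unfold Tv; rw [x0]; exact ht
    have t2 : Tv κ x y' z := by unfold Tv; rw [y0]; exact ht
    have t3 : Tv κ x y z' := by unfold Tv; rw [z0]; exact ht
    have t4 : Tv κ x' y' z' := by unfold Tv; rw [x0, y0, z0]; exact ht
    exact MDec.cons t1 (fun h => x'W h.1) (MDec.cons t2 (fun h => y'W h.2.1)
      (MDec.cons t3 (fun h => z'W h.2.2) (MDec.cons t4 (fun h => x'W h.1) h4)))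
  · have e : Ab.star z' [x, y, x', y'] + (Ab.star y' [x, z, x'] + (Ab.star x' [y, z] + N)) + b =
        trim x y' z' + (trim x' y z' + (trim x' y' z + (N + b))) := by
      unfold trim Ab.star
      simp only [List.map_cons, List.map_nil, ← Multiset.cons_coe, Multiset.coe_nil,
        ← Multiset.singleton_add]
      rw [Sym2.eq_swap (a := z') (b := x), Sym2.eq_swap (a := z') (b := y),
        Sym2.eq_swap (a := z') (b := x'), Sym2.eq_swap (a := z') (b := y'),
        Sym2.eq_swap (a := y') (b := x), Sym2.eq_swap (a := y') (b := x')]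
      abel
    rw [e]
    have t1 : Tv κ x y' z' := by unfold Tv; rw [y0, z0]; exact ht
    have t2 : Tv κ x' y z' := by unfold Tv; rw [x0, z0]; exact ht
    have t3 : Tv κ x' y' z := by unfold Tv; rw [x0, y0]; exact ht
    exact MDec.cons t1 (fun h => y'W h.2.1) (MDec.cons t2 (fun h => x'W h.1)
      (MDec.cons t3 (fun h => x'W h.1) h5))

/-- **cancellation** -/
theorem St.cancel {E : Finset (Sym2 V)} {W B S₀ : Finset V} {k q : ℕ} {a b : Multiset (Sym2 V)}
    (hR : Rich κ E B q) (hk : k + 2 ≤ q) (hWB : W ⊆ B) (hWS : W ⊆ S₀)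
    (ha : ∀ e ∈ a, ∀ v ∈ e, v ∈ W) (hb : ∀ e ∈ b, ∀ v ∈ e, v ∈ W) {x y : V}
    (hx : x ∈ W) (hy : y ∈ W)
    (h : St κ E W B S₀ k (s(x, y) ::ₘ a) (s(x, y) ::ₘ b)) :
    St κ E W B S₀ (k + 2) a b := by
  obtain ⟨S, N, h1, h2, h3, h4, h5⟩ := h
  obtain ⟨z, M₂, hz, tz, e2, d2⟩ := h4.find hx hy
    (Multiset.mem_add.2 (Or.inr (Multiset.mem_cons_self _ _)))
  obtain ⟨t, M₁, ht, tt, e1, d1⟩ := h5.find hx hy
    (Multiset.mem_add.2 (Or.inr (Multiset.mem_cons_self _ _)))
  obtain ⟨N₂, f2, r2⟩ := peel hz ha e2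
  obtain ⟨N₁, f1, r1⟩ := peel ht hb e1
  by_cases hzt : z = t
  · subst hzt
    have : N₂ = N₁ := by
      rw [f2] at f1
      exact add_left_cancel f1
    subst this
    refine ⟨S, N₂, h1, by omega, ?_, r2 ▸ d2, r1 ▸ d1⟩
    rw [f2] at h3
    exact h3.sub'
  · have xS : x ∈ S := h1 (hWS hx)
    have yS : y ∈ S := h1 (hWS hy)
    have zS : z ∈ S := h3.supp s(y, z) (by rw [f2]; simp) z (Sym2.mem_mk_right _ _)
    have tS : t ∈ S := h3.supp s(y, t) (by rw [f1]; simp) t (Sym2.mem_mk_right _ _)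
    have hzx : z ≠ x := fun e => hz (e ▸ hx)
    have hzy : z ≠ y := fun e => hz (e ▸ hy)
    have htx : t ≠ x := fun e => ht (e ▸ hx)
    have hty : t ≠ y := fun e => ht (e ▸ hy)
    have hκ : κ t = κ z := by
      have h1 := tz.2.1
      have h2 := tz.2.2
      have h3 := tt.2.1
      have h4 := tt.2.2
      have h5 := tz.1
      omega
    obtain ⟨w, w0, w1, w2, w3⟩ := hR [x, z, t] (κ y) S (by simp) (by
      simp [tz.1, tz.2.1.symm, hκ]) (by omega)
    have c1 := Finset.card_insert_le w S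
    obtain ⟨u, u0, u1, u2, u3⟩ := hR [z, y, t, w] (κ x) (insert w S) (by simp) (by
      simp [tz.1.symm, tz.2.2.symm, hκ, w0]) (by omega)
    have c2 := Finset.card_insert_le u (insert w S)
    have wW : w ∉ W := fun h => w2 (hWB h)
    have uW : u ∉ W := fun h => u2 (hWB h)
    rw [Finset.mem_insert, not_or] at u1
    have p1 : w ≠ x := fun e => w1 (e ▸ xS)
    have p2 : w ≠ y := fun e => w1 (e ▸ yS)
    have p3 : w ≠ z := fun e => w1 (e ▸ zS)
    have p4 : w ≠ t := fun e => w1 (e ▸ tS)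
    have q1 : u ≠ x := fun e => u1.2 (e ▸ xS)
    have q2 : u ≠ y := fun e => u1.2 (e ▸ yS)
    have q3 : u ≠ z := fun e => u1.2 (e ▸ zS)
    have q4 : u ≠ t := fun e => u1.2 (e ▸ tS)
    have g1 := h3.grow (w := w) (l := [x, z, t]) w1 w2 (by simp [hzx.symm, htx.symm, hzt]) (by
      intro a ha
      simp only [List.mem_cons, List.not_mem_nil, or_false] at ha
      rcases ha with rfl | rfl | rfl <;> assumption) w3
    have g2 := g1.grow (w := u) (l := [z, y, t, w]) (by
      rw [Finset.mem_insert, not_or]; exact u1) u2 (by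
        simp [hzy, hzt, hty.symm, p2.symm, p3.symm, p4.symm]) (by
      intro a ha
      simp only [List.mem_cons, List.not_mem_nil, or_false] at ha
      rcases ha with rfl | rfl | rfl | rfl
      · exact Finset.mem_insert_of_mem zS
      · exact Finset.mem_insert_of_mem yS
      · exact Finset.mem_insert_of_mem tS
      · exact Finset.mem_insert_self _ _) u3
    refine ⟨_, _, ?_, ?_, g2, ?_, ?_⟩
    · intro v hv
      exact Finset.mem_insert_of_mem (Finset.mem_insert_of_mem (h1 hv))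
    · omega
    · have e : Ab.star u [z, y, t, w] + (Ab.star w [x, z, t] + N) + a =
          trim x z w + (trim z y u + (trim t w u + M₂)) := by
        rw [r2, f2]
        unfold trim Ab.star
        simp only [List.map_cons, List.map_nil, ← Multiset.cons_coe, Multiset.coe_nil,
          ← Multiset.singleton_add]
        rw [Sym2.eq_swap (a := u) (b := z), Sym2.eq_swap (a := u) (b := y),
          Sym2.eq_swap (a := u) (b := t), Sym2.eq_swap (a := u) (b := w),
          Sym2.eq_swap (a := w) (b := x), Sym2.eq_swap (a := w) (b := z),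
          Sym2.eq_swap (a := w) (b := t), Sym2.eq_swap (a := y) (b := z)]
        abel
      rw [e]
      have t1 : Tv κ x z w := by
        unfold Tv
        rw [w0]
        exact ⟨tz.2.2, tz.2.1.symm, tz.1⟩
      have t2 : Tv κ z y u := by
        unfold Tv
        rw [u0]
        exact ⟨tz.2.1.symm, tz.1.symm, tz.2.2.symm⟩
      have t3 : Tv κ t w u := by
        unfold Tv
        rw [u0, w0, hκ]
        exact ⟨tz.2.1.symm, tz.1.symm, tz.2.2.symm⟩
      exact MDec.cons t1 (fun h => hz h.2.1) (MDec.cons t2 (fun h => hz h.1)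
        (MDec.cons t3 (fun h => ht h.1) d2))
    · have e : Ab.star u [z, y, t, w] + (Ab.star w [x, z, t] + N) + b =
          trim x t w + (trim t y u + (trim z w u + M₁)) := by
        rw [r1, f1]
        unfold trim Ab.star
        simp only [List.map_cons, List.map_nil, ← Multiset.cons_coe, Multiset.coe_nil,
          ← Multiset.singleton_add]
        rw [Sym2.eq_swap (a := u) (b := z), Sym2.eq_swap (a := u) (b := y),
          Sym2.eq_swap (a := u) (b := t), Sym2.eq_swap (a := u) (b := w),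
          Sym2.eq_swap (a := w) (b := x), Sym2.eq_swap (a := w) (b := z),
          Sym2.eq_swap (a := w) (b := t), Sym2.eq_swap (a := y) (b := t)]
        abel
      rw [e]
      have t1 : Tv κ x t w := by
        unfold Tv
        rw [w0]
        exact ⟨tt.2.2, tt.2.1.symm, tt.1⟩
      have t2 : Tv κ t y u := by
        unfold Tv
        rw [u0]
        exact ⟨tt.2.1.symm, tt.1.symm, tt.2.2.symm⟩
      have t3 : Tv κ z w u := by
        unfold Tv
        rw [u0, w0]
        exact ⟨tz.2.1.symm, tz.1.symm, tz.2.2.symm⟩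
      exact MDec.cons t1 (fun h => ht h.2.1) (MDec.cons t2 (fun h => ht h.1)
        (MDec.cons t3 (fun h => hz h.1) d1))

end Ab3

end NW
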