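import Pool.Agent.NW3.FinalFifth
import Pool.Agent.NW3.Step3
import Pool.Agent.NW3.LVortexProof
import Pool.Agent.NW3.AbsWrap

/-!
# Project NW3: completion of partial latin squares with few filled cells in each line

`pls_of_FT`: a weighted fractional theorem with the constant `ρ ≤ 1 / 4` gives the completion of
every partial latin square of large order `n` in which every row and every column has at most
`(ρ - ε) n` filled cells and every symbol is used at most `(ρ - ε) n` times.
-/

set_option linter.unusedSectionVars false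

namespace NW3

open Finset NW

section Gen

variable {n : ℕ}

open Classical in
/-- the number of filled triples through a vertex is at most `K` -/
theorem card_filled_le {P : Fin n → Fin n → Option (Fin n)} {K : ℕ}
    (hs : ∀ s : Fin n,
      (Finset.univ.filter (fun p : Fin n × Fin n => P p.1 p.2 = some s)).card ≤ K)
    (hr : ∀ r : Fin n, (Finset.univ.filter (fun c : Fin n => P r c ≠ none)).card ≤ K)
    (hc : ∀ c : Fin n, (Finset.univ.filter (fun r : Fin n => P r c ≠ none)).card ≤ K)
    (i : Fin 3) (a : Fin n) :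
    (univ.filter (fun f : Fin 3 → Fin n => Filled P f ∧ f i = a)).card ≤ K := by
  have h0 : ∀ a : Fin n, (univ.filter (fun f : Fin 3 → Fin n => Filled P f ∧ f 0 = a)).card ≤ K := by
    intro a
    refine le_trans (Finset.card_le_card_of_injOn (fun f => f 1) ?_ ?_) (hr a)
    · intro f hf
      rw [Finset.mem_coe, Finset.mem_filter] at hf
      rw [Finset.mem_coe, Finset.mem_filter]
      refine ⟨Finset.mem_univ _, ?_⟩
      rw [← hf.2.2, hf.2.1]
      exact Option.some_ne_none _
    · intro f hf g hg h
      rw [Finset.mem_coe, Finset.mem_filter] at hf hg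
      have h' : f 0 = g 0 := hf.2.2.trans hg.2.2.symm
      have h1 : f 1 = g 1 := h
      have h2 : f 2 = g 2 := by
        have h3 := hf.2.1
        have h4 := hg.2.1
        unfold Filled at h3 h4
        rw [h', h1, h4] at h3
        exact (Option.some.inj h3).symm
      funext l
      fin_cases l <;> [exact h'; exact h; exact h2]
  have h1 : ∀ a : Fin n, (univ.filter (fun f : Fin 3 → Fin n => Filled P f ∧ f 1 = a)).card ≤ K := by
    intro a
    refine le_trans (Finset.card_le_card_of_injOn (fun f => f 0) ?_ ?_) (hc a)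
    · intro f hf
      rw [Finset.mem_coe, Finset.mem_filter] at hf
      rw [Finset.mem_coe, Finset.mem_filter]
      refine ⟨Finset.mem_univ _, ?_⟩
      rw [← hf.2.2, hf.2.1]
      exact Option.some_ne_none _
    · intro f hf g hg h
      rw [Finset.mem_coe, Finset.mem_filter] at hf hg
      have h' : f 1 = g 1 := hf.2.2.trans hg.2.2.symm
      have h0' : f 0 = g 0 := h
      have h2 : f 2 = g 2 := by
        have h3 := hf.2.1
        have h4 := hg.2.1
        unfold Filled at h3 h4
        rw [h', h0', h4] at h3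
        exact (Option.some.inj h3).symm
      funext l
      fin_cases l <;> [exact h; exact h'; exact h2]
  have h2 : ∀ a : Fin n, (univ.filter (fun f : Fin 3 → Fin n => Filled P f ∧ f 2 = a)).card ≤ K := by
    intro a
    refine le_trans (Finset.card_le_card_of_injOn (fun f => (f 0, f 1)) ?_ ?_) (hs a)
    · intro f hf
      rw [Finset.mem_coe, Finset.mem_filter] at hf
      rw [Finset.mem_coe, Finset.mem_filter]
      refine ⟨Finset.mem_univ _, ?_⟩
      rw [← hf.2.2]
      exact hf.2.1
    · intro f hf g hg h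
      rw [Finset.mem_coe, Finset.mem_filter] at hf hg
      obtain ⟨h3, h4⟩ := Prod.mk.inj h
      have h5 : f 2 = g 2 := hf.2.2.trans hg.2.2.symm
      funext l
      fin_cases l <;> [exact h3; exact h4; exact h5]
  fin_cases i
  · exact h0 a
  · exact h1 a
  · exact h2 a

open Classical in
/-- the degrees of the complement, in terms of the number of filled triples -/
theorem pdeg_compl3_gen {P : Fin n → Fin n → Option (Fin n)}
    (hrow : ∀ (r c₁ c₂ s : Fin n), P r c₁ = some s → P r c₂ = some s → c₁ = c₂)
    (hcol : ∀ (c r₁ r₂ s : Fin n), P r₁ c = some s → P r₂ c = some s → r₁ = r₂)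
    (v : Fin 3 × Fin n) (j : Fin 3) (hj : j ≠ v.1) :
    pdeg Prod.fst (compl3 P) j v +
      (univ.filter (fun f : Fin 3 → Fin n => Filled P f ∧ f v.1 = v.2)).card = n := by
  set S : Finset (Fin 3 → Fin n) := univ.filter (fun f => Filled P f ∧ f v.1 = v.2) with hS
  have hinj : Set.InjOn (fun f : Fin 3 → Fin n => f j) (S : Set (Fin 3 → Fin n)) := by
    intro f hf g hg h
    rw [Finset.mem_coe, hS, Finset.mem_filter] at hf hg
    exact filled_unique hrow hcol hf.2.1 hg.2.1 hj h (hf.2.2.trans hg.2.2.symm)
  have h1 : (S.image (fun f => f j)).card = S.card := Finset.card_image_of_injOn hinj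
  have h2 : pdeg Prod.fst (compl3 P) j v = ((S.image (fun f => f j))ᶜ).card := by
    unfold pdeg
    refine Finset.card_bij (fun u _ => u.2) ?_ ?_ ?_
    · intro u hu
      rw [Finset.mem_filter] at hu
      rw [Finset.mem_compl, Finset.mem_image]
      rintro ⟨f, hf, hfu⟩
      rw [hS, Finset.mem_filter] at hf
      have := (mem_compl3.1 hu.2.1).2 f hf.2.1 hf.2.2
      rw [hu.2.2] at this
      exact this hfu
    · intro u hu w hw h
      rw [Finset.mem_filter] at hu hw
      exact Prod.ext (hu.2.2.trans hw.2.2.symm) h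
    · intro b hb
      rw [Finset.mem_compl, Finset.mem_image] at hb
      refine ⟨(j, b), ?_, rfl⟩
      rw [Finset.mem_filter]
      refine ⟨Finset.mem_univ _, ?_, rfl⟩
      rw [mem_compl3]
      refine ⟨hj.symm, fun f hf hv hb' => hb ⟨f, ?_, hb'⟩⟩
      rw [hS, Finset.mem_filter]
      exact ⟨Finset.mem_univ _, hf, hv⟩
  have h3 := Finset.card_compl_add_card (S.image (fun f => f j))
  rw [Fintype.card_fin] at h3
  rw [h2, ← h1]
  exact h3

end Gen

/-- Partial latin squares of large order in which every row and every column has at most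
`(ρ - ε) n` filled cells and every symbol is used at most `(ρ - ε) n` times are completable. -/
def PLS (ρ : ℝ) : Prop :=
  ∀ ε : ℝ, 0 < ε → ∃ n0 : ℕ, ∀ n : ℕ, n0 ≤ n →
    ∀ P : Fin n → Fin n → Option (Fin n),
      (∀ (r c₁ c₂ s : Fin n), P r c₁ = some s → P r c₂ = some s → c₁ = c₂) →
      (∀ (c r₁ r₂ s : Fin n), P r₁ c = some s → P r₂ c = some s → r₁ = r₂) →
      (∀ r : Fin n,
        ((Finset.univ.filter (fun c : Fin n => P r c ≠ none)).card : ℝ) ≤ (ρ - ε) * n) →
      (∀ c : Fin n,
        ((Finset.univ.filter (fun r : Fin n => P r c ≠ none)).card : ℝ) ≤ (ρ - ε) * n) →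
      (∀ s : Fin n,
        ((Finset.univ.filter (fun p : Fin n × Fin n => P p.1 p.2 = some s)).card : ℝ) ≤
          (ρ - ε) * n) →
      ∃ L : Fin n → Fin n → Fin n,
        (∀ r : Fin n, Function.Injective (L r)) ∧
        (∀ c : Fin n, Function.Injective (fun r : Fin n => L r c)) ∧
        ∀ (r c s : Fin n), P r c = some s → L r c = s

/-- from the 3-partite theorem (without an upper bound for the degrees) to `PLS` -/
theorem pls_of_main {ρ : ℝ} (H : ∀ ε : ℝ, 0 < ε → ∃ hi : ℝ, 1 < hi ∧ Main3 (1 - ρ + ε) hi) :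
    PLS ρ := by
  intro ε hε
  obtain ⟨hi, hhi, hM⟩ := H (ε / 2) (by positivity)
  obtain ⟨α, hα⟩ : ∃ α : ℝ, α = min (ε / 2) (hi - 1) := ⟨_, rfl⟩
  have hα0 : 0 < α := by rw [hα]; exact lt_min (by positivity) (by linarith)
  have hα1 : α ≤ ε / 2 := by rw [hα]; exact min_le_left _ _
  have hα2 : α ≤ hi - 1 := by rw [hα]; exact min_le_right _ _
  obtain ⟨n0, hn0⟩ := hM α hα0
  refine ⟨n0, ?_⟩
  intro n hn P hrow hcol hr hc hs
  classical
  rcases Nat.eq_zero_or_pos n with rfl | hpos
  · exact ⟨fun r => r.elim0, fun r => r.elim0, fun c => c.elim0, fun r => r.elim0⟩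
  have hρn : 0 ≤ (ρ - ε) * n := (Nat.cast_nonneg _).trans (hr ⟨0, hpos⟩)
  obtain ⟨K, hK⟩ : ∃ K : ℕ, K = ⌊(ρ - ε) * n⌋₊ := ⟨_, rfl⟩
  have hKR : (K : ℝ) ≤ (ρ - ε) * n := by rw [hK]; exact Nat.floor_le hρn
  have hle : ∀ m : ℕ, (m : ℝ) ≤ (ρ - ε) * n → m ≤ K := by
    intro m hm
    rw [hK]
    exact Nat.le_floor hm
  have hcard := card_filled_le (P := P) (K := K) (fun s => hle _ (hs s)) (fun r => hle _ (hr r))
    (fun c => hle _ (hc c))
  have hdeg := pdeg_compl3_gen hrow hcol
  have hDec : Dec (compl3 P) := by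
    refine hn0 (Fin 3 × Fin n) Prod.fst n (compl3 P) ?_ ?_ hn ?_ ?_
    · intro u v huv
      exact (mem_compl3.1 huv).1
    · intro v i j hi hj
      have h1 := hdeg v i hi
      have h2 := hdeg v j hj
      omega
    · intro i
      have : part (Prod.fst : Fin 3 × Fin n → Fin 3) i = univ.image (fun a : Fin n => (i, a)) := by
        ext x
        rw [mem_part, Finset.mem_image]
        constructor
        · intro h
          exact ⟨x.2, Finset.mem_univ _, Prod.ext h.symm rfl⟩
        · rintro ⟨a, _, rfl⟩
          rfl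
      rw [this, Finset.card_image_of_injective _ (fun a b h => (Prod.mk.inj h).2),
        Finset.card_univ, Fintype.card_fin]
    · intro v i hi'
      have h1 := hdeg v i hi'
      have h2 := hcard v.1 v.2
      have hnR : (0 : ℝ) ≤ (n : ℝ) := Nat.cast_nonneg n
      have h3 : (n : ℝ) ≤ (pdeg Prod.fst (compl3 P) i v : ℝ) + K := by
        exact_mod_cast (show n ≤ pdeg Prod.fst (compl3 P) i v + K by omega)
      have h4 : (pdeg Prod.fst (compl3 P) i v : ℝ) ≤ n := by
        exact_mod_cast (show pdeg Prod.fst (compl3 P) i v ≤ n by omega)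
      constructor
      · have h5 : (1 - ρ + ε / 2 + α) * (n : ℝ) ≤ (1 - (ρ - ε)) * n :=
          mul_le_mul_of_nonneg_right (by linarith) hnR
        linarith
      · have h5 : 1 * (n : ℝ) ≤ (hi - α) * n := mul_le_mul_of_nonneg_right (by linarith) hnR
        linarith
  exact latin_of_dec hrow hcol hDec

/-- **a weighted fractional theorem with constant `ρ ≤ 1 / 4` is enough**, for every partial
latin square -/
theorem pls_of_FT (ρ : ℝ) (hρ : ρ ≤ 1 / 4) (hF : FT ρ) : PLS ρ :=
  pls_of_main fun ε hε => ⟨2, by norm_num,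
    glue3 lVortexStatement step3 absorber (1 - ρ + ε) 2 (by linarith)
      (ad3 nibble (1 - ρ + ε) 2 (by linarith) (frac3_of_FT ρ hρ hF ε hε 2))⟩

/-- the general form contains the protoplexes -/
theorem PLS.proto {ρ : ℝ} (h : PLS ρ) : Proto ρ := by
  intro ε hε
  obtain ⟨n0, hn⟩ := h ε hε
  refine ⟨n0, ?_⟩
  intro n k hn0 hk P hrow hcol hs hr hc
  exact hn n hn0 P hrow hcol (fun r => by rw [hr r]; exact hk) (fun c => by rw [hc c]; exact hk)
    (fun s => by rw [hs s]; exact hk)

end NW3
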