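import Pool.Agent.NW.Defs

/-!
# Project NW3: 3-partite graphs, common definitions

The parts are given by a colouring `κ : V → Fin 3`.
-/

set_option linter.unusedSectionVars false

namespace NW3

open Finset NW

variable {V : Type*} [DecidableEq V] [Fintype V]

/-- part `i` -/
def part (κ : V → Fin 3) (i : Fin 3) : Finset V := univ.filter (fun v => κ v = i)

/-- every edge joins two different parts (so there are no loops) -/
def Tri3 (κ : V → Fin 3) (E : Finset (Sym2 V)) : Prop := ∀ u v, s(u, v) ∈ E → κ u ≠ κ v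

/-- the number of neighbours of `v` in part `i` -/
def pdeg (κ : V → Fin 3) (E : Finset (Sym2 V)) (i : Fin 3) (v : V) : ℕ :=
  (univ.filter (fun u => s(v, u) ∈ E ∧ κ u = i)).card

/-- `E` is balanced at `v`: equally many neighbours in the two other parts -/
def BalAt (κ : V → Fin 3) (E : Finset (Sym2 V)) (v : V) : Prop :=
  ∀ i j, i ≠ κ v → j ≠ κ v → pdeg κ E i v = pdeg κ E j v

/-- locally balanced -/
def Bal3 (κ : V → Fin 3) (E : Finset (Sym2 V)) : Prop := ∀ v, BalAt κ E v

@[simp] theorem mem_part {κ : V → Fin 3} {i : Fin 3} {v : V} : v ∈ part κ i ↔ κ v = i := by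
  simp [part]

theorem Tri3.nl {κ : V → Fin 3} {E : Finset (Sym2 V)} (h : Tri3 κ E) : NL E := by
  intro e he
  induction e using Sym2.ind with
  | _ x y =>
    intro hd
    exact h x y he (by rw [Sym2.mk_isDiag_iff.1 hd])

theorem Tri3.mono {κ : V → Fin 3} {E F : Finset (Sym2 V)} (h : F ⊆ E) (hE : Tri3 κ E) :
    Tri3 κ F := fun u v huv => hE u v (h huv)

theorem pdeg_eq_degIn (κ : V → Fin 3) (E : Finset (Sym2 V)) (i : Fin 3) (v : V) :
    pdeg κ E i v = degIn E (part κ i) v := by
  unfold pdeg degIn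
  congr 1
  ext u
  simp [part]

theorem pdeg_mono {κ : V → Fin 3} {E F : Finset (Sym2 V)} (h : F ⊆ E) (i : Fin 3) (v : V) :
    pdeg κ F i v ≤ pdeg κ E i v := by
  unfold pdeg
  refine Finset.card_le_card fun u hu => ?_
  rw [Finset.mem_filter] at hu ⊢
  exact ⟨hu.1, h hu.2.1, hu.2.2⟩

theorem pdeg_union {κ : V → Fin 3} {E F : Finset (Sym2 V)} (h : Disjoint E F) (i : Fin 3)
    (v : V) : pdeg κ (E ∪ F) i v = pdeg κ E i v + pdeg κ F i v := by
  unfold pdeg
  rw [← Finset.card_union_of_disjoint]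
  · congr 1
    ext u
    simp only [Finset.mem_filter, Finset.mem_union, Finset.mem_univ, true_and]
    tauto
  · rw [Finset.disjoint_left]
    intro u hu hu'
    exact Finset.disjoint_left.1 h (Finset.mem_filter.1 hu).2.1 (Finset.mem_filter.1 hu').2.1

theorem pdeg_sdiff_add {κ : V → Fin 3} {E F : Finset (Sym2 V)} (h : F ⊆ E) (i : Fin 3) (v : V) :
    pdeg κ (E \ F) i v + pdeg κ F i v = pdeg κ E i v := by
  rw [← pdeg_union Finset.sdiff_disjoint, Finset.sdiff_union_of_subset h]

theorem pdeg_le_deg (κ : V → Fin 3) (E : Finset (Sym2 V)) (i : Fin 3) (v : V) :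
    pdeg κ E i v ≤ deg E v := by
  unfold pdeg deg
  refine Finset.card_le_card fun u hu => ?_
  rw [Finset.mem_filter] at hu
  exact mem_nbr.2 hu.2.1

theorem sum_pdeg (κ : V → Fin 3) (E : Finset (Sym2 V)) (v : V) :
    ∑ i, pdeg κ E i v = deg E v := by
  unfold pdeg deg
  rw [Finset.card_eq_sum_card_fiberwise (s := nbr E v) (t := univ) (f := κ)
    (fun _ _ => Finset.mem_coe.2 (Finset.mem_univ _))]
  refine Finset.sum_congr rfl fun i _ => ?_
  congr 1
  ext u
  simp

theorem Tri3.pdeg_self {κ : V → Fin 3} {E : Finset (Sym2 V)} (h : Tri3 κ E) (v : V) :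
    pdeg κ E (κ v) v = 0 := by
  unfold pdeg
  rw [Finset.card_eq_zero, Finset.eq_empty_iff_forall_notMem]
  intro u hu
  rw [Finset.mem_filter] at hu
  exact h v u hu.2.1 hu.2.2.symm

/-- a triangle is balanced -/
theorem pdeg_tri {κ : V → Fin 3} {a b c : V} (hab : κ a ≠ κ b) (hbc : κ b ≠ κ c)
    (hac : κ a ≠ κ c) (v : V) (i : Fin 3) (hi : i ≠ κ v) :
    pdeg κ (NW.tri a b c) i v = if v = a ∨ v = b ∨ v = c then 1 else 0 := by
  have hab' : a ≠ b := fun h => hab (by rw [h])
  have hbc' : b ≠ c := fun h => hbc (by rw [h])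
  have hac' : a ≠ c := fun h => hac (by rw [h])
  have key : ∀ x y z : V, κ x ≠ κ y → κ y ≠ κ z → κ x ≠ κ z → ∀ j : Fin 3, j ≠ κ x →
      (univ.filter (fun u => (u = y ∨ u = z) ∧ κ u = j)).card = 1 := by
    intro x y z hxy hyz hxz j hj
    have hj' : j = κ y ∨ j = κ z := by
      revert hxy hyz hxz hj
      generalize κ x = p
      generalize κ y = q
      generalize κ z = r
      revert p q r j
      decide
    rw [Finset.card_eq_one]
    rcases hj' with rfl | rfl
    · refine ⟨y, ?_⟩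
      ext u
      rw [Finset.mem_filter, Finset.mem_singleton]
      constructor
      · rintro ⟨_, h1 | h1, h2⟩
        · exact h1
        · rw [h1] at h2; exact absurd h2.symm hyz
      · rintro rfl
        exact ⟨Finset.mem_univ _, Or.inl rfl, rfl⟩
    · refine ⟨z, ?_⟩
      ext u
      rw [Finset.mem_filter, Finset.mem_singleton]
      constructor
      · rintro ⟨_, h1 | h1, h2⟩
        · rw [h1] at h2; exact absurd h2 hyz
        · exact h1
      · rintro rfl
        exact ⟨Finset.mem_univ _, Or.inr rfl, rfl⟩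
  by_cases hva : v = a
  · subst hva
    rw [if_pos (Or.inl rfl), ← key v b c hab hbc hac i hi]
    unfold pdeg
    congr 1
    ext u
    rw [Finset.mem_filter, Finset.mem_filter, mem_tri, Sym2.eq_iff, Sym2.eq_iff, Sym2.eq_iff]
    constructor
    · rintro ⟨_, h1, h2⟩
      refine ⟨Finset.mem_univ _, ?_, h2⟩
      rcases h1 with (⟨_, h⟩ | ⟨h, _⟩) | (⟨h, _⟩ | ⟨h, _⟩) | (⟨_, h⟩ | ⟨h, _⟩)
      · exact Or.inl h
      · exact absurd h hab'
      · exact absurd h hab'
      · exact absurd h hac'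
      · exact Or.inr h
      · exact absurd h hac'
    · rintro ⟨_, h1 | h1, h2⟩
      · exact ⟨Finset.mem_univ _, Or.inl (Or.inl ⟨rfl, h1⟩), h2⟩
      · exact ⟨Finset.mem_univ _, Or.inr (Or.inr (Or.inl ⟨rfl, h1⟩)), h2⟩
  · by_cases hvb : v = b
    · subst hvb
      rw [if_pos (Or.inr (Or.inl rfl)), ← key v a c (Ne.symm hab) hac hbc i hi]
      unfold pdeg
      congr 1
      ext u
      rw [Finset.mem_filter, Finset.mem_filter, mem_tri, Sym2.eq_iff, Sym2.eq_iff, Sym2.eq_iff]
      constructor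
      · rintro ⟨_, h1, h2⟩
        refine ⟨Finset.mem_univ _, ?_, h2⟩
        rcases h1 with (⟨h, _⟩ | ⟨_, h⟩) | (⟨_, h⟩ | ⟨h, _⟩) | (⟨h, _⟩ | ⟨h, _⟩)
        · exact absurd h hva
        · exact Or.inl h
        · exact Or.inr h
        · exact absurd h hbc'
        · exact absurd h hva
        · exact absurd h hbc'
      · rintro ⟨_, h1 | h1, h2⟩
        · exact ⟨Finset.mem_univ _, Or.inl (Or.inr ⟨rfl, h1⟩), h2⟩
        · exact ⟨Finset.mem_univ _, Or.inr (Or.inl (Or.inl ⟨rfl, h1⟩)), h2⟩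
    · by_cases hvc : v = c
      · subst hvc
        rw [if_pos (Or.inr (Or.inr rfl)), ← key v a b (Ne.symm hac) hab (Ne.symm hbc) i hi]
        unfold pdeg
        congr 1
        ext u
        rw [Finset.mem_filter, Finset.mem_filter, mem_tri, Sym2.eq_iff, Sym2.eq_iff, Sym2.eq_iff]
        constructor
        · rintro ⟨_, h1, h2⟩
          refine ⟨Finset.mem_univ _, ?_, h2⟩
          rcases h1 with (⟨h, _⟩ | ⟨h, _⟩) | (⟨h, _⟩ | ⟨_, h⟩) | (⟨h, _⟩ | ⟨_, h⟩)
          · exact absurd h hva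
          · exact absurd h hvb
          · exact absurd h hvb
          · exact Or.inr h
          · exact absurd h hva
          · exact Or.inl h
        · rintro ⟨_, h1 | h1, h2⟩
          · exact ⟨Finset.mem_univ _, Or.inr (Or.inr (Or.inr ⟨rfl, h1⟩)), h2⟩
          · exact ⟨Finset.mem_univ _, Or.inr (Or.inl (Or.inr ⟨rfl, h1⟩)), h2⟩
      · rw [if_neg (by rintro (h | h | h) <;> [exact hva h; exact hvb h; exact hvc h])]
        unfold pdeg
        rw [Finset.card_eq_zero, Finset.eq_empty_iff_forall_notMem]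
        intro u hu
        rw [Finset.mem_filter, mem_tri, Sym2.eq_iff, Sym2.eq_iff, Sym2.eq_iff] at hu
        rcases hu.2.1 with (⟨h, _⟩ | ⟨h, _⟩) | (⟨h, _⟩ | ⟨h, _⟩) | (⟨h, _⟩ | ⟨h, _⟩)
        · exact hva h
        · exact hvb h
        · exact hvb h
        · exact hvc h
        · exact hva h
        · exact hvc h

/-- a decomposable 3-partite edge set is locally balanced -/
theorem bal3_of_dec {κ : V → Fin 3} {E : Finset (Sym2 V)} (hE : Dec E) (h3 : Tri3 κ E) :
    Bal3 κ E := by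
  induction hE with
  | empty =>
    intro v i j _ _
    unfold pdeg
    simp
  | @cons a b c E hab hbc hac hd _ ih =>
    intro v i j hi hj
    have h1 : κ a ≠ κ b := h3 a b (Finset.mem_union_left _ (mem_tri.2 (Or.inl rfl)))
    have h2 : κ b ≠ κ c := h3 b c (Finset.mem_union_left _ (mem_tri.2 (Or.inr (Or.inl rfl))))
    have h4 : κ a ≠ κ c := h3 a c (Finset.mem_union_left _ (mem_tri.2 (Or.inr (Or.inr rfl))))
    rw [pdeg_union hd, pdeg_union hd, pdeg_tri h1 h2 h4 v i hi, pdeg_tri h1 h2 h4 v j hj,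
      ih (h3.mono Finset.subset_union_right) v i j hi hj]

/-- removing a balanced subset keeps the balance at a vertex -/
theorem BalAt.sdiff {κ : V → Fin 3} {E F : Finset (Sym2 V)} {v : V} (hE : BalAt κ E v)
    (hF : BalAt κ F v) (h : F ⊆ E) : BalAt κ (E \ F) v := by
  intro i j hi hj
  have h1 := pdeg_sdiff_add (κ := κ) h i v
  have h2 := pdeg_sdiff_add (κ := κ) h j v
  have h3 := hE i j hi hj
  have h4 := hF i j hi hj
  omega

theorem Bal3.sdiff_dec {κ : V → Fin 3} {E F : Finset (Sym2 V)} (hE : Bal3 κ E) (h3 : Tri3 κ E)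
    (hF : Dec F) (h : F ⊆ E) : Bal3 κ (E \ F) :=
  fun v => (hE v).sdiff (bal3_of_dec hF (h3.mono h) v) h

end NW3
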