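import Pool.Agent.NW3.RepairM3
import Pool.Agent.H56.FP.WHom

set_option autoImplicit false
set_option linter.unusedSectionVars false

/-!
# Bounded fractional triangle decompositions of nearly regular tripartite graphs, up to `n / 5`
-/

open Finset

namespace NW3

open H56FP

variable {n : ℕ} {g : M3 ℝ n} {d : ZMod 3 → Fin n → ℝ} {k : ℝ}

theorem wd_const (S : WSetup g d k) (i : ZMod 3) : ∑ a, d i a = ∑ a, d 0 a := by
  refine const_of_succ (fun i => ∑ a, d i a) (fun i => ?_) i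
  have h1 : ∑ a, d (i + 1) a = ∑ a, ∑ c, (1 - g i c a) := by
    refine Finset.sum_congr rfl fun a _ => ?_
    have := S.col (i + 1) a
    rw [e12] at this
    exact this.symm
  have h2 : ∑ a, d i a = ∑ a, ∑ b, (1 - g i a b) :=
    Finset.sum_congr rfl fun a _ => (S.row i a).symm
  rw [h1, h2, Finset.sum_comm]

theorem wed_eq (S : WSetup g d k) : Ed g 0 = (n : ℝ) ^ 2 - ∑ a, d 0 a := by
  have h2 : ∑ a, d 0 a = ∑ a, ∑ b, (1 - g 0 a b) :=
    Finset.sum_congr rfl fun a _ => (S.row 0 a).symm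
  rw [h2]
  unfold Ed
  simp only [Finset.sum_sub_distrib, sum_const, card_univ, Fintype.card_fin, nsmul_eq_mul, mul_one]
  ring

theorem pair_sum3 (S : WSetup g d k) (i : ZMod 3) :
    ∑ a, ∑ b, ∑ c, (1 - g i a b) * (1 - g (i + 1) b c) ≤ k * ∑ a, d 0 a := by
  rw [Finset.sum_comm]
  have h : ∀ b, ∑ a, ∑ c, (1 - g i a b) * (1 - g (i + 1) b c) = d (i + 1) b * d (i + 1) b := by
    intro b
    rw [← Finset.sum_mul_sum, S.row]
    have := S.col (i + 1) b
    rw [e12] at this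
    rw [this]
  rw [Finset.sum_congr rfl fun b _ => h b, ← wd_const S (i + 1), Finset.mul_sum]
  refine Finset.sum_le_sum fun b _ => ?_
  exact mul_le_mul_of_nonneg_right (S.dk _ _) (S.d0 _ _)

theorem single_sum3 (S : WSetup g d k) (i : ZMod 3) :
    ∑ a : Fin n, ∑ b : Fin n, ∑ _c : Fin n, (1 - g i a b) = n * ∑ a, d 0 a := by
  rw [← wd_const S i, Finset.mul_sum]
  refine Finset.sum_congr rfl fun a _ => ?_
  rw [← S.row i a, Finset.mul_sum]
  refine Finset.sum_congr rfl fun b _ => ?_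
  rw [Finset.sum_const, card_univ, Fintype.card_fin, nsmul_eq_mul]

theorem three_le3 {p q r : ℝ} (hp1 : p ≤ 1) (hq1 : q ≤ 1) (hr1 : r ≤ 1) :
    p * q * r ≤ 1 - (1 - p) - (1 - q) - (1 - r) + (1 - p) * (1 - q)
      + (1 - q) * (1 - r) + (1 - r) * (1 - p) := by
  have : 0 ≤ (1 - p) * (1 - q) * (1 - r) :=
    mul_nonneg (mul_nonneg (by linarith) (by linarith)) (by linarith)
  linarith

theorem nt_le3 (S : WSetup g d k) :
    NT g 0 ≤ (n : ℝ) ^ 3 - 3 * n * (∑ a, d 0 a) + 3 * k * ∑ a, d 0 a := by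
  have r1 : ∀ F : Fin n → Fin n → Fin n → ℝ, ∑ a, ∑ b, ∑ c, F b c a = ∑ a, ∑ b, ∑ c, F a b c :=
    fun F => rot F
  have s0 := single_sum3 S 0
  have s1 : ∑ a : Fin n, ∑ b : Fin n, ∑ c : Fin n, (1 - g 1 b c) = n * ∑ a, d 0 a := by
    rw [← single_sum3 S 1, ← r1 (fun a b _ => 1 - g 1 a b)]
  have s2 : ∑ a : Fin n, ∑ b : Fin n, ∑ c : Fin n, (1 - g 2 c a) = n * ∑ a, d 0 a := by
    rw [← single_sum3 S 2, ← r1 (fun a _ c => 1 - g 2 c a)]
  have p0 := pair_sum3 S 0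
  have p1 : ∑ a : Fin n, ∑ b : Fin n, ∑ c : Fin n, (1 - g 1 b c) * (1 - g 2 c a)
      ≤ k * ∑ a, d 0 a := by
    refine le_trans (le_of_eq ?_) (pair_sum3 S 1)
    rw [← r1 (fun a b c => (1 - g 1 a b) * (1 - g (1 + 1) b c))]
    rfl
  have p2 : ∑ a : Fin n, ∑ b : Fin n, ∑ c : Fin n, (1 - g 2 c a) * (1 - g 0 a b)
      ≤ k * ∑ a, d 0 a := by
    refine le_trans (le_of_eq ?_) (pair_sum3 S 2)
    rw [← r1 (fun a b c => (1 - g 2 c a) * (1 - g 0 a b))]
    rfl
  have h1 : NT g 0 ≤ ∑ a : Fin n, ∑ b : Fin n, ∑ c : Fin n,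
      (1 - (1 - g 0 a b) - (1 - g 1 b c) - (1 - g 2 c a)
        + (1 - g 0 a b) * (1 - g (0 + 1) b c) + (1 - g 1 b c) * (1 - g 2 c a)
        + (1 - g 2 c a) * (1 - g 0 a b)) := by
    unfold NT
    refine Finset.sum_le_sum fun a _ => Finset.sum_le_sum fun b _ =>
      Finset.sum_le_sum fun c _ => ?_
    rw [z01, z02]
    exact three_le3 (S.g1 _ _ _) (S.g1 _ _ _) (S.g1 _ _ _)
  have c1 : ∑ _a : Fin n, ∑ _b : Fin n, ∑ _c : Fin n, (1 : ℝ) = (n : ℝ) ^ 3 := by
    simp only [sum_const, card_univ, Fintype.card_fin, nsmul_eq_mul, mul_one]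
    ring
  simp only [Finset.sum_add_distrib, Finset.sum_sub_distrib] at h1 s0 s1 s2 p0 p1 p2 c1 ⊢
  linarith

theorem poly5 {n k u : ℝ} (hn : 0 < n) (hk : 0 ≤ k) (h : 5 * k ≤ n) (hu0 : 0 ≤ u)
    (hu : u ≤ n ^ 2 / 100) :
    6 * k * (n ^ 3 - 3 * n * (n * k - u) + 3 * k * (n * k - u)) < (n ^ 2 - (n * k - u)) ^ 2 := by
  obtain ⟨t, ht⟩ : ∃ t : ℝ, n = 5 * k + t := ⟨n - 5 * k, by ring⟩
  have ht0 : 0 ≤ t := by linarith
  have e1 : (n ^ 2 - (n * k - u)) ^ 2
      - 6 * k * (n ^ 3 - 3 * n * (n * k - u) + 3 * k * (n * k - u))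
      = n * (2 * k ^ 3 + 14 * k ^ 2 * t + 7 * k * t ^ 2 + t ^ 3)
        - (4 * k + t) * (8 * k - 2 * t) * u + u ^ 2 := by
    rw [ht]; ring
  have h2 : (4 * k + t) * (8 * k - 2 * t) * u ≤ (4 * k + t) * (8 * k) * (n ^ 2 / 100) := by
    have e2 : (4 * k + t) * (8 * k - 2 * t) * u ≤ (4 * k + t) * (8 * k) * u := by
      refine mul_le_mul_of_nonneg_right ?_ hu0
      exact mul_le_mul_of_nonneg_left (by linarith) (by positivity)
    exact e2.trans (mul_le_mul_of_nonneg_left hu (by positivity))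
  have h3 : n * (2 * k ^ 3 + 14 * k ^ 2 * t + 7 * k * t ^ 2 + t ^ 3)
      - (4 * k + t) * (8 * k) * (n ^ 2 / 100)
      = n * (2 / 5 * k ^ 3 + (332 / 25) * k ^ 2 * t + (173 / 25) * k * t ^ 2 + t ^ 3) := by
    rw [ht]; ring
  have h4 : 0 < 2 / 5 * k ^ 3 + (332 / 25) * k ^ 2 * t + (173 / 25) * k * t ^ 2 + t ^ 3 := by
    rcases hk.eq_or_lt with h | h
    · rw [← h] at ht ⊢
      have : 0 < t := by linarith
      positivity
    · positivity
  have h5 := mul_pos hn h4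
  nlinarith [sq_nonneg u]

/-- common weight in a weighted tripartite graph -/
theorem wcommon (S : WSetup g d k) (i : ZMod 3) (a b : Fin n) :
    (n : ℝ) - 2 * k ≤ ∑ c, g (i + 1) b c * g (i + 2) c a := by
  have h1 : (n : ℝ) - d (i + 1) b - d i a
      = ∑ c : Fin n, (1 - (1 - g (i + 1) b c) - (1 - g (i + 2) c a)) := by
    rw [Finset.sum_sub_distrib, Finset.sum_sub_distrib, S.row, S.col]
    simp
  have h2 := S.dk (i + 1) b
  have h3 := S.dk i a
  have h4 : ∑ c : Fin n, (1 - (1 - g (i + 1) b c) - (1 - g (i + 2) c a))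
      ≤ ∑ c, g (i + 1) b c * g (i + 2) c a := by
    refine Finset.sum_le_sum fun c _ => ?_
    nlinarith [S.g0 (i + 1) b c, S.g1 (i + 1) b c, S.g0 (i + 2) c a, S.g1 (i + 2) c a]
  linarith

/-- The least squares decomposition is bounded. -/
theorem decomp_bounded (S : WSetup g d k) (hk0 : 0 ≤ k)
    (hk : 4 * k < n) (hcrit : 6 * k * NT g 0 < Ed g 0 ^ 2) :
    ∃ w : Fin n → Fin n → Fin n → ℝ, IsDecomp g w ∧
      ∀ a b c, w a b c * ((n : ℝ) - 2 * k) ≤ 3 * (g 0 a b * g 1 b c * g 2 c a) := by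
  obtain ⟨y, hy, hye, hyp⟩ := w_sol_pos S hk0 hk hcrit
  have hL : 0 < (n : ℝ) - 2 * k := by linarith
  have hy0 : ∀ i a b, 0 ≤ y i a b := by
    intro i a b
    by_cases h : g i a b = 0
    · have := hy.1 i a b
      unfold sg at this
      rw [if_pos h, zero_mul] at this
      exact this.le
    · exact (hyp i a b h).le
  have hyle : ∀ i a b, y i a b * ((n : ℝ) - 2 * k) ≤ 1 := by
    intro i a b
    by_cases h : g i a b = 0
    · have := hy.1 i a b
      unfold sg at this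
      rw [if_pos h, zero_mul] at this
      rw [← this, zero_mul]
      exact zero_le_one
    · have h1 := congrFun (congrFun (congrFun hye i) a) b
      unfold WM at h1
      have hsg : sg g i a b = 1 := by unfold sg; rw [if_neg h]
      rw [hsg, one_mul] at h1
      rw [← h1]
      calc y i a b * ((n : ℝ) - 2 * k) ≤ y i a b * ∑ c, g (i + 1) b c * g (i + 2) c a :=
            mul_le_mul_of_nonneg_left (wcommon S i a b) (hy0 i a b)
        _ = ∑ c, g (i + 1) b c * g (i + 2) c a * y i a b := by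
            rw [Finset.mul_sum]
            exact Finset.sum_congr rfl fun c _ => by ring
        _ ≤ _ := by
            refine Finset.sum_le_sum fun c _ => ?_
            refine mul_le_mul_of_nonneg_left ?_ (mul_nonneg (S.g0 _ _ _) (S.g0 _ _ _))
            have := hy0 (i + 1) b c
            have := hy0 (i + 2) c a
            linarith
  have key : ∀ i a b, ∑ c, g i a b * g (i + 1) b c * g (i + 2) c a *
      (y i a b + y (i + 1) b c + y (i + 2) c a) = g i a b := by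
    intro i a b
    rw [← gWM, hye, g_sg]
  have hggg : ∀ a b c, 0 ≤ g 0 a b * g 1 b c * g 2 c a := fun a b c =>
    mul_nonneg (mul_nonneg (S.g0 _ _ _) (S.g0 _ _ _)) (S.g0 _ _ _)
  refine ⟨fun a b c => g 0 a b * g 1 b c * g 2 c a * (y 0 a b + y 1 b c + y 2 c a),
    ⟨?_, ?_, ?_, ?_⟩, ?_⟩
  · intro a b c
    have h0 := hggg a b c
    have := hy0 0 a b
    have := hy0 1 b c
    have := hy0 2 c a
    positivity
  · intro a b
    have h := key 0 a b
    rw [z01, z02] at h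
    exact h
  · intro b c
    have h := key 1 b c
    rw [z11, z12] at h
    rw [← h]
    refine Finset.sum_congr rfl fun a _ => ?_
    ring
  · intro c a
    have h := key 2 c a
    rw [z21, z22] at h
    rw [← h]
    refine Finset.sum_congr rfl fun b _ => ?_
    ring
  · intro a b c
    have h1 := hyle 0 a b
    have h2 := hyle 1 b c
    have h3 := hyle 2 c a
    calc g 0 a b * g 1 b c * g 2 c a * (y 0 a b + y 1 b c + y 2 c a) * ((n : ℝ) - 2 * k)
        = g 0 a b * g 1 b c * g 2 c a * (y 0 a b * ((n : ℝ) - 2 * k)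
          + y 1 b c * ((n : ℝ) - 2 * k) + y 2 c a * ((n : ℝ) - 2 * k)) := by ring
      _ ≤ g 0 a b * g 1 b c * g 2 c a * 3 :=
          mul_le_mul_of_nonneg_left (by linarith) (hggg a b c)
      _ = _ := by ring

/-- **P-N1 for `κ < 1 / 5`**: nearly regular tripartite graphs have bounded fractional triangle
packings with all edge sums in `[1 - γ, 1]`. The tolerance `δ` for the regularity does not depend
on `γ`, the tolerance `θ` for the local balance does. -/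
theorem frac5 (ε : ℝ) (hε : 0 < ε) : ∃ δ : ℝ, 0 < δ ∧ ∀ γ : ℝ, 0 < γ → ∃ θ : ℝ, 0 < θ ∧
    ∀ (n : ℕ) (g : M3 ℝ n) (κ : ℝ), 0 < n → 0 ≤ κ → κ ≤ 1 / 5 - ε →
    (∀ i a b, 0 ≤ g i a b) → (∀ i a b, g i a b ≤ 1) →
    (∀ i a, |∑ b, (1 - g i a b) - κ * n| ≤ δ * n) →
    (∀ i a, |∑ c, (1 - g (i + 2) c a) - κ * n| ≤ δ * n) →
    (∀ i a, |∑ b, g i a b - ∑ c, g (i + 2) c a| ≤ θ * n) →
    ∃ w : Fin n → Fin n → Fin n → ℝ, (∀ a b c, 0 ≤ w a b c) ∧
      (∀ a b c, w a b c * n ≤ 5 * (g 0 a b * g 1 b c * g 2 c a)) ∧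
      (∀ a b, (1 - γ) * g 0 a b ≤ ∑ c, w a b c ∧ ∑ c, w a b c ≤ g 0 a b) ∧
      (∀ b c, (1 - γ) * g 1 b c ≤ ∑ a, w a b c ∧ ∑ a, w a b c ≤ g 1 b c) ∧
      (∀ c a, (1 - γ) * g 2 c a ≤ ∑ b, w a b c ∧ ∑ b, w a b c ≤ g 2 c a) := by
  set δ : ℝ := min (ε / 4) (1 / 400) with hδ
  have hδ0 : 0 < δ := lt_min (by linarith) (by norm_num)
  have hδ1 : 4 * δ ≤ ε := by
    have : δ ≤ ε / 4 := min_le_left _ _
    linarith
  have hδ2 : δ ≤ 1 / 400 := min_le_right _ _
  refine ⟨δ, hδ0, ?_⟩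
  intro γ hγ
  -- `η` is the repair error
  set η : ℝ := min (min (γ / 2) (ε / 4)) (1 / 800) with hη
  have hη0 : 0 < η := lt_min (lt_min (by linarith) (by linarith)) (by norm_num)
  have hη1 : 2 * η ≤ γ := by
    have : η ≤ γ / 2 := (min_le_left _ _).trans (min_le_left _ _)
    linarith
  have hη2 : 4 * η ≤ ε := by
    have : η ≤ ε / 4 := (min_le_left _ _).trans (min_le_right _ _)
    linarith
  have hη3 : η ≤ 1 / 800 := min_le_right _ _
  refine ⟨η / 8, by positivity, ?_⟩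
  intro n g κ hn hκ0 hκ h0 h1 hrow hcol hbal
  have hn' : (0 : ℝ) < n := by exact_mod_cast hn
  have hrow' : ∀ i a, ∑ b, (1 - g i a b) ≤ (κ + δ) * n := by
    intro i a
    have := (abs_le.1 (hrow i a)).2
    linarith
  have hcol' : ∀ i a, ∑ c, (1 - g (i + 2) c a) ≤ (κ + δ) * n := by
    intro i a
    have := (abs_le.1 (hcol i a)).2
    linarith
  have hk2 : 2 * ((κ + δ) * n) < n := by
    have : κ + δ < 1 / 2 := by linarith
    nlinarith
  obtain ⟨h, d, hh, S⟩ := repairM3 g ((κ + δ) * n) (η / 8 * n) η h0 h1 hrow' hcol' hk2 hbal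
    (by
      have e1 : (1 : ℝ) / 2 * n ≤ (n : ℝ) - 2 * ((κ + δ) * n) := by
        have : κ + δ ≤ 1 / 4 := by linarith
        nlinarith
      have e2 : η * ((1 : ℝ) / 2 * n) ≤ η * ((n : ℝ) - 2 * ((κ + δ) * n)) :=
        mul_le_mul_of_nonneg_left e1 hη0.le
      have e3 : 4 * (η / 8 * n) = η * ((1 : ℝ) / 2 * n) := by ring
      linarith) hη0.le (by linarith)
  set k : ℝ := (κ + δ) * n + 2 * η * n with hk
  have hk0 : 0 ≤ k := by positivity
  have hk5 : 5 * k ≤ n := by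
    have : κ + δ + 2 * η ≤ 1 / 5 := by linarith
    have h5 : k = (κ + δ + 2 * η) * n := by rw [hk]; ring
    rw [h5]
    nlinarith
  have hk4 : 4 * k < n := by
    rcases hk0.eq_or_lt with e | e
    · rw [← e]; linarith
    · linarith
  -- the total deficiency
  have hD : (κ - δ) * n * n ≤ ∑ a, d 0 a := by
    have e1 : ∑ _a : Fin n, (κ - δ) * n ≤ ∑ a, d 0 a := by
      refine Finset.sum_le_sum fun a _ => ?_
      have e2 := (abs_le.1 (hrow 0 a)).1
      have e3 : ∑ b, (1 - g 0 a b) ≤ d 0 a := by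
        rw [← S.row 0 a]
        exact Finset.sum_le_sum fun b _ => by linarith [(hh 0 a b).2]
      linarith
    rw [Finset.sum_const, Finset.card_univ, Fintype.card_fin, nsmul_eq_mul] at e1
    linarith
  have hDk : ∑ a, d 0 a ≤ n * k := by
    calc ∑ a, d 0 a ≤ ∑ _a : Fin n, k := Finset.sum_le_sum fun a _ => S.dk 0 a
      _ = n * k := by rw [sum_const, card_univ, Fintype.card_fin, nsmul_eq_mul]
  have hcrit : 6 * k * NT h 0 < Ed h 0 ^ 2 := by
    obtain ⟨u, hu⟩ : ∃ u : ℝ, ∑ a, d 0 a = n * k - u := ⟨n * k - ∑ a, d 0 a, by ring⟩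
    have hu0 : 0 ≤ u := by linarith
    have hu1 : u ≤ (n : ℝ) ^ 2 / 100 := by
      have e1 : u ≤ n * k - (κ - δ) * n * n := by linarith
      have e2 : n * k - (κ - δ) * n * n = (2 * δ + 2 * η) * (n : ℝ) ^ 2 := by rw [hk]; ring
      have e3 : 2 * δ + 2 * η ≤ 1 / 100 := by linarith
      have e4 : (2 * δ + 2 * η) * (n : ℝ) ^ 2 ≤ 1 / 100 * (n : ℝ) ^ 2 :=
        mul_le_mul_of_nonneg_right e3 (sq_nonneg _)
      linarith
    have e5 := nt_le3 S
    rw [wed_eq S, hu]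
    rw [hu] at e5
    exact lt_of_le_of_lt (mul_le_mul_of_nonneg_left e5 (by linarith))
      (poly5 hn' hk0 hk5 hu0 hu1)
  obtain ⟨w, hw, hwb⟩ := decomp_bounded S hk0 hk4 hcrit
  have hle : ∀ i a b, 0 ≤ h i a b := S.g0
  refine ⟨w, hw.1, ?_, ?_, ?_, ?_⟩
  · intro a b c
    have e1 := hwb a b c
    have e2 : (3 : ℝ) / 5 * n ≤ (n : ℝ) - 2 * k := by linarith
    have e3 : w a b c * ((3 : ℝ) / 5 * n) ≤ w a b c * ((n : ℝ) - 2 * k) :=
      mul_le_mul_of_nonneg_left e2 (hw.1 a b c)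
    have e4 : h 0 a b * h 1 b c * h 2 c a ≤ g 0 a b * g 1 b c * g 2 c a := by
      refine mul_le_mul ?_ (hh 2 c a).2 (hle _ _ _) (mul_nonneg (h0 _ _ _) (h0 _ _ _))
      exact mul_le_mul (hh 0 a b).2 (hh 1 b c).2 (hle _ _ _) (h0 _ _ _)
    linarith
  · intro a b
    rw [hw.2.1 a b]
    refine ⟨?_, (hh 0 a b).2⟩
    refine le_trans ?_ (hh 0 a b).1
    exact mul_le_mul_of_nonneg_right (by linarith) (h0 _ _ _)
  · intro b c
    rw [hw.2.2.1 b c]
    refine ⟨?_, (hh 1 b c).2⟩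
    refine le_trans ?_ (hh 1 b c).1
    exact mul_le_mul_of_nonneg_right (by linarith) (h0 _ _ _)
  · intro c a
    rw [hw.2.2.2 c a]
    refine ⟨?_, (hh 2 c a).2⟩
    refine le_trans ?_ (hh 2 c a).1
    exact mul_le_mul_of_nonneg_right (by linarith) (h0 _ _ _)

end NW3
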