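import Pool.Agent.NW3.Frac5
import Pool.Agent.NW3.Sample3
import Pool.Agent.NW.Statements

set_option autoImplicit false
set_option linter.unusedSectionVars false

/-!
# The fractional input for 3-partite edge sets

The statement `FracR ρ` is independent of the definitions of the 3-partite project (raw form).
-/

open Finset

namespace NW3

open NW H56FP

/-- the identity between the two index types of the parts -/
def c3 (i : ZMod 3) : Fin 3 := i

theorem c3_0 : c3 0 = 0 := by decide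
theorem c3_1 : c3 1 = 1 := by decide
theorem c3_2 : c3 2 = 2 := by decide

theorem c3_ne1 (i : ZMod 3) : c3 (i + 1) ≠ c3 i := by revert i; decide

theorem c3_ne2 (i : ZMod 3) : c3 (i + 2) ≠ c3 i := by revert i; decide

section Conv

variable {V : Type} [DecidableEq V] [Fintype V] {n : ℕ}

/-- the vertices of colour `i` -/
def cpt (κ : V → Fin 3) (i : Fin 3) : Finset V := univ.filter (fun v => κ v = i)

theorem mem_cpt {κ : V → Fin 3} {i : Fin 3} {v : V} : v ∈ cpt κ i ↔ κ v = i := by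
  simp [cpt]

/-- every edge joins two different colours -/
def Col3 (κ : V → Fin 3) (E : Finset (Sym2 V)) : Prop := ∀ u v, s(u, v) ∈ E → κ u ≠ κ v

/-- the vertex set of a transversal triple -/
def tr3 (emb : Fin 3 → Fin n → V) (p : Fin n × Fin n × Fin n) : Finset V :=
  {emb 0 p.1, emb 1 p.2.1, emb 2 p.2.2}

theorem exists_emb (κ : V → Fin 3) (hn : ∀ i, (cpt κ i).card = n) :
    ∃ emb : Fin 3 → Fin n → V, (∀ i a, κ (emb i a) = i) ∧ (∀ i, Function.Injective (emb i)) ∧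
      ∀ v, ∃ a, emb (κ v) a = v := by
  have h : ∀ i, ∃ f : Fin n → V, (∀ a, κ (f a) = i) ∧ Function.Injective f ∧
      ∀ v, κ v = i → ∃ a, f a = v := by
    intro i
    let e := (cpt κ i).equivFinOfCardEq (hn i)
    refine ⟨fun a => (e.symm a : V), fun a => mem_cpt.1 (e.symm a).2, ?_, ?_⟩
    · intro a b hab
      exact e.symm.injective (Subtype.ext hab)
    · intro v hv
      exact ⟨e ⟨v, mem_cpt.2 hv⟩, by simp⟩
  choose f hf1 hf2 hf3 using h
  exact ⟨f, hf1, hf2, fun v => hf3 (κ v) v rfl⟩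

theorem emb_ne {κ : V → Fin 3} {emb : Fin 3 → Fin n → V} (hc : ∀ i a, κ (emb i a) = i)
    {i j : Fin 3} (hij : i ≠ j) (a b : Fin n) : emb i a ≠ emb j b := by
  intro h
  apply hij
  rw [← hc i a, h, hc j b]

theorem mem_tr3 {κ : V → Fin 3} {emb : Fin 3 → Fin n → V} (hc : ∀ i a, κ (emb i a) = i)
    (hinj : ∀ i, Function.Injective (emb i)) (p : Fin n × Fin n × Fin n) :
    (∀ a, emb 0 a ∈ tr3 emb p ↔ a = p.1) ∧ (∀ a, emb 1 a ∈ tr3 emb p ↔ a = p.2.1) ∧
      (∀ a, emb 2 a ∈ tr3 emb p ↔ a = p.2.2) := by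
  unfold tr3
  refine ⟨?_, ?_, ?_⟩
  · intro a
    simp only [Finset.mem_insert, Finset.mem_singleton]
    constructor
    · rintro (h | h | h)
      · exact hinj 0 h
      · exact absurd h (emb_ne hc (by decide) _ _)
      · exact absurd h (emb_ne hc (by decide) _ _)
    · rintro rfl
      exact Or.inl rfl
  · intro a
    simp only [Finset.mem_insert, Finset.mem_singleton]
    constructor
    · rintro (h | h | h)
      · exact absurd h (emb_ne hc (by decide) _ _)
      · exact hinj 1 h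
      · exact absurd h (emb_ne hc (by decide) _ _)
    · rintro rfl
      exact Or.inr (Or.inl rfl)
  · intro a
    simp only [Finset.mem_insert, Finset.mem_singleton]
    constructor
    · rintro (h | h | h)
      · exact absurd h (emb_ne hc (by decide) _ _)
      · exact absurd h (emb_ne hc (by decide) _ _)
      · exact hinj 2 h
    · rintro rfl
      exact Or.inr (Or.inr rfl)

theorem tr3_inj {κ : V → Fin 3} {emb : Fin 3 → Fin n → V} (hc : ∀ i a, κ (emb i a) = i)
    (hinj : ∀ i, Function.Injective (emb i)) {p q : Fin n × Fin n × Fin n}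
    (h : tr3 emb p = tr3 emb q) : p = q := by
  have hq := mem_tr3 hc hinj q
  have hp := mem_tr3 hc hinj p
  have h1 : p.1 = q.1 := (hq.1 p.1).1 (h ▸ (hp.1 p.1).2 rfl)
  have h2 : p.2.1 = q.2.1 := (hq.2.1 p.2.1).1 (h ▸ (hp.2.1 p.2.1).2 rfl)
  have h3 : p.2.2 = q.2.2 := (hq.2.2 p.2.2).1 (h ▸ (hp.2.2 p.2.2).2 rfl)
  exact Prod.ext h1 (Prod.ext h2 h3)

/-- the weight on sets -/
noncomputable def wt3 (emb : Fin 3 → Fin n → V) (w : Fin n → Fin n → Fin n → ℝ) (T : Finset V) :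
    ℝ := ∑ p : Fin n × Fin n × Fin n, if tr3 emb p = T then w p.1 p.2.1 p.2.2 else 0

theorem wt3_tr3 {κ : V → Fin 3} {emb : Fin 3 → Fin n → V} (hc : ∀ i a, κ (emb i a) = i)
    (hinj : ∀ i, Function.Injective (emb i)) (w : Fin n → Fin n → Fin n → ℝ)
    (p : Fin n × Fin n × Fin n) : wt3 emb w (tr3 emb p) = w p.1 p.2.1 p.2.2 := by
  unfold wt3
  rw [Finset.sum_eq_single p]
  · rw [if_pos rfl]
  · intro q _ hq
    rw [if_neg]
    intro h
    exact hq (tr3_inj hc hinj h)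
  · intro h
    exact absurd (Finset.mem_univ _) h

theorem wt3_ne_zero {emb : Fin 3 → Fin n → V} {w : Fin n → Fin n → Fin n → ℝ} {T : Finset V}
    (h : wt3 emb w T ≠ 0) : ∃ p, tr3 emb p = T := by
  by_contra hcon
  push Not at hcon
  exact h (Finset.sum_eq_zero fun p _ => if_neg (hcon p))

theorem wsum_wt3 (emb : Fin 3 → Fin n → V) (w : Fin n → Fin n → Fin n → ℝ) (e : Sym2 V) :
    wsum (wt3 emb w) e = ∑ a, ∑ b, ∑ c, if e ∈ edg (tr3 emb (a, b, c)) then w a b c else 0 := by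
  unfold wsum wt3
  rw [Finset.sum_comm, Fintype.sum_prod_type]
  refine Finset.sum_congr rfl fun a _ => ?_
  rw [Fintype.sum_prod_type]
  refine Finset.sum_congr rfl fun b _ => Finset.sum_congr rfl fun c _ => ?_
  rw [Finset.sum_ite_eq]
  simp

theorem isWt_of_triple {κ : V → Fin 3} {E : Finset (Sym2 V)} (h3 : Col3 κ E)
    {emb : Fin 3 → Fin n → V} (hc : ∀ i a, κ (emb i a) = i)
    (hinj : ∀ i, Function.Injective (emb i)) (hsurj : ∀ v, ∃ a, emb (κ v) a = v)
    (hcard : Fintype.card V = 3 * n)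
    (w : Fin n → Fin n → Fin n → ℝ) (hw0 : ∀ a b c, 0 ≤ w a b c) (C δ : ℝ) (hC0 : 0 ≤ C)
    (hC : ∀ a b c, w a b c * n ≤ C)
    (hs : ∀ a b c, w a b c ≠ 0 → s(emb 0 a, emb 1 b) ∈ E ∧ s(emb 1 b, emb 2 c) ∈ E ∧
      s(emb 2 c, emb 0 a) ∈ E)
    (h01 : ∀ a b, s(emb 0 a, emb 1 b) ∈ E → 1 - δ ≤ ∑ c, w a b c ∧ ∑ c, w a b c ≤ 1)
    (h12 : ∀ b c, s(emb 1 b, emb 2 c) ∈ E → 1 - δ ≤ ∑ a, w a b c ∧ ∑ a, w a b c ≤ 1)
    (h20 : ∀ c a, s(emb 2 c, emb 0 a) ∈ E → 1 - δ ≤ ∑ b, w a b c ∧ ∑ b, w a b c ≤ 1) :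
    ∃ w' : Finset V → ℝ, IsWt E w' (3 * C) ∧ ∀ e ∈ E, 1 - δ ≤ wsum w' e ∧ wsum w' e ≤ 1 := by
  have hne01 : ∀ a b, emb 0 a ≠ emb 1 b := fun a b => emb_ne hc (by decide) a b
  have hne12 : ∀ a b, emb 1 a ≠ emb 2 b := fun a b => emb_ne hc (by decide) a b
  have hne20 : ∀ a b, emb 2 a ≠ emb 0 b := fun a b => emb_ne hc (by decide) a b
  refine ⟨wt3 emb w, ⟨?_, ?_, ?_⟩, ?_⟩
  · intro T
    refine Finset.sum_nonneg fun p _ => ?_
    split_ifs
    · exact hw0 _ _ _
    · exact le_rfl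
  · intro T
    by_cases hT : wt3 emb w T = 0
    · rw [hT, zero_mul]
      linarith
    · obtain ⟨p, rfl⟩ := wt3_ne_zero hT
      rw [wt3_tr3 hc hinj, hcard]
      push_cast
      have := hC p.1 p.2.1 p.2.2
      linarith
  · intro T hT
    obtain ⟨p, rfl⟩ := wt3_ne_zero hT
    rw [wt3_tr3 hc hinj] at hT
    obtain ⟨e1, e2, e3⟩ := hs _ _ _ hT
    refine ⟨?_, ?_⟩
    · unfold tr3
      exact Finset.card_eq_three.2 ⟨_, _, _, hne01 _ _, (hne20 _ _).symm, hne12 _ _, rfl⟩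
    · unfold tr3
      rw [edg_triple (hne01 _ _) (hne12 _ _) (hne20 _ _).symm]
      intro e he
      rcases mem_tri.1 he with rfl | rfl | rfl
      · exact e1
      · exact e2
      · rw [Sym2.eq_swap]
        exact e3
  · -- the edge sums
    have key01 : ∀ a b, wsum (wt3 emb w) s(emb 0 a, emb 1 b) = ∑ c, w a b c := by
      intro a b
      rw [wsum_wt3, Finset.sum_eq_single a, Finset.sum_eq_single b]
      · refine Finset.sum_congr rfl fun c _ => ?_
        rw [if_pos]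
        rw [mk_mem_edg]
        exact ⟨((mem_tr3 hc hinj (a, b, c)).1 a).2 rfl, ((mem_tr3 hc hinj (a, b, c)).2.1 b).2 rfl,
          hne01 _ _⟩
      · intro b' _ hb'
        refine Finset.sum_eq_zero fun c _ => if_neg ?_
        rw [mk_mem_edg]
        rintro ⟨_, h, _⟩
        exact hb' (((mem_tr3 hc hinj (a, b', c)).2.1 b).1 h).symm
      · intro h; exact absurd (Finset.mem_univ _) h
      · intro a' _ ha'
        refine Finset.sum_eq_zero fun b' _ => Finset.sum_eq_zero fun c _ => if_neg ?_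
        rw [mk_mem_edg]
        rintro ⟨h, _, _⟩
        exact ha' (((mem_tr3 hc hinj (a', b', c)).1 a).1 h).symm
      · intro h; exact absurd (Finset.mem_univ _) h
    have key12 : ∀ b c, wsum (wt3 emb w) s(emb 1 b, emb 2 c) = ∑ a, w a b c := by
      intro b c
      rw [wsum_wt3]
      refine Finset.sum_congr rfl fun a _ => ?_
      rw [Finset.sum_eq_single b, Finset.sum_eq_single c]
      · rw [if_pos]
        rw [mk_mem_edg]
        exact ⟨((mem_tr3 hc hinj (a, b, c)).2.1 b).2 rfl, ((mem_tr3 hc hinj (a, b, c)).2.2 c).2 rfl,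
          hne12 _ _⟩
      · intro c' _ hc'
        refine if_neg ?_
        rw [mk_mem_edg]
        rintro ⟨_, h, _⟩
        exact hc' (((mem_tr3 hc hinj (a, b, c')).2.2 c).1 h).symm
      · intro h; exact absurd (Finset.mem_univ _) h
      · intro b' _ hb'
        refine Finset.sum_eq_zero fun c' _ => if_neg ?_
        rw [mk_mem_edg]
        rintro ⟨h, _, _⟩
        exact hb' (((mem_tr3 hc hinj (a, b', c')).2.1 b).1 h).symm
      · intro h; exact absurd (Finset.mem_univ _) h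
    have key20 : ∀ c a, wsum (wt3 emb w) s(emb 2 c, emb 0 a) = ∑ b, w a b c := by
      intro c a
      rw [wsum_wt3, Finset.sum_eq_single a]
      · refine Finset.sum_congr rfl fun b _ => ?_
        rw [Finset.sum_eq_single c]
        · rw [if_pos]
          rw [mk_mem_edg]
          exact ⟨((mem_tr3 hc hinj (a, b, c)).2.2 c).2 rfl, ((mem_tr3 hc hinj (a, b, c)).1 a).2 rfl,
            hne20 _ _⟩
        · intro c' _ hc'
          refine if_neg ?_
          rw [mk_mem_edg]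
          rintro ⟨h, _, _⟩
          exact hc' (((mem_tr3 hc hinj (a, b, c')).2.2 c).1 h).symm
        · intro h; exact absurd (Finset.mem_univ _) h
      · intro a' _ ha'
        refine Finset.sum_eq_zero fun b' _ => Finset.sum_eq_zero fun c' _ => if_neg ?_
        rw [mk_mem_edg]
        rintro ⟨_, h, _⟩
        exact ha' (((mem_tr3 hc hinj (a', b', c')).1 a).1 h).symm
      · intro h; exact absurd (Finset.mem_univ _) h
    -- every edge is of one of the three types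
    have hi3 : ∀ i : Fin 3, i = 0 ∨ i = 1 ∨ i = 2 := by decide
    have hall : ∀ x y, κ y = κ x + 1 → s(x, y) ∈ E →
        1 - δ ≤ wsum (wt3 emb w) s(x, y) ∧ wsum (wt3 emb w) s(x, y) ≤ 1 := by
      intro x y hxy he
      obtain ⟨a, ha⟩ := hsurj x
      obtain ⟨b, hb⟩ := hsurj y
      rw [hxy] at hb
      generalize κ x = i at ha hb
      rw [← ha, ← hb] at he ⊢
      have hi := hi3 i
      rcases hi with rfl | rfl | rfl
      · have e : (0 : Fin 3) + 1 = 1 := by decide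
        rw [e] at he ⊢
        rw [key01]
        exact h01 a b he
      · have e : (1 : Fin 3) + 1 = 2 := by decide
        rw [e] at he ⊢
        rw [key12]
        exact h12 a b he
      · have e : (2 : Fin 3) + 1 = 0 := by decide
        rw [e] at he ⊢
        rw [key20]
        exact h20 a b he
    intro e he
    induction e using Sym2.ind with
    | _ x y =>
      have hne := h3 x y he
      have h : κ y = κ x + 1 ∨ κ x = κ y + 1 := by
        revert hne
        generalize κ x = p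
        generalize κ y = q
        revert p q
        decide
      rcases h with h | h
      · exact hall x y h he
      · rw [Sym2.eq_swap]
        exact hall y x h (by rwa [Sym2.eq_swap])

/-- the matrices of a 3-partite edge set -/
noncomputable def mat3 (emb : Fin 3 → Fin n → V) (E : Finset (Sym2 V)) : M3 ℝ n :=
  fun i a b => if s(emb (c3 i) a, emb (c3 (i + 1)) b) ∈ E then 1 else 0

theorem pdeg_emb {κ : V → Fin 3} {E : Finset (Sym2 V)} {emb : Fin 3 → Fin n → V}
    (hc : ∀ i a, κ (emb i a) = i)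
    (hinj : ∀ i, Function.Injective (emb i)) (hsurj : ∀ v, ∃ a, emb (κ v) a = v) (v : V)
    (j : Fin 3) : ∑ b, (if s(v, emb j b) ∈ E then (1 : ℝ) else 0) = (degIn E (cpt κ j) v : ℝ) := by
  rw [← Finset.sum_filter, Finset.sum_const, nsmul_eq_mul, mul_one]
  congr 1
  unfold degIn
  refine Finset.card_bij (fun b _ => emb j b) ?_ ?_ ?_
  · intro b hb
    rw [Finset.mem_filter] at hb
    rw [Finset.mem_inter, mem_nbr, mem_cpt]
    exact ⟨hb.2, hc j b⟩
  · intro b _ b' _ h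
    exact hinj j h
  · intro u hu
    rw [Finset.mem_inter, mem_nbr, mem_cpt] at hu
    obtain ⟨a, ha⟩ := hsurj u
    rw [hu.2] at ha
    refine ⟨a, ?_, ha⟩
    rw [Finset.mem_filter, ha]
    exact ⟨Finset.mem_univ _, hu.1⟩

theorem mat3_row {κ : V → Fin 3} {E : Finset (Sym2 V)} {emb : Fin 3 → Fin n → V}
    (hc : ∀ i a, κ (emb i a) = i)
    (hinj : ∀ i, Function.Injective (emb i)) (hsurj : ∀ v, ∃ a, emb (κ v) a = v)
    (i : ZMod 3) (a : Fin n) :
    ∑ b, mat3 emb E i a b = (degIn E (cpt κ (c3 (i + 1))) (emb (c3 i) a) : ℝ) := by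
  exact pdeg_emb hc hinj hsurj (emb (c3 i) a) (c3 (i + 1))

theorem mat3_col {κ : V → Fin 3} {E : Finset (Sym2 V)} {emb : Fin 3 → Fin n → V}
    (hc : ∀ i a, κ (emb i a) = i)
    (hinj : ∀ i, Function.Injective (emb i)) (hsurj : ∀ v, ∃ a, emb (κ v) a = v)
    (i : ZMod 3) (a : Fin n) :
    ∑ c, mat3 emb E (i + 2) c a = (degIn E (cpt κ (c3 (i + 2))) (emb (c3 i) a) : ℝ) := by
  rw [← pdeg_emb hc hinj hsurj (emb (c3 i) a) (c3 (i + 2))]
  refine Finset.sum_congr rfl fun c _ => ?_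
  unfold mat3
  have e : i + 2 + 1 = i := by revert i; decide
  have e' : s(emb (c3 (i + 2)) c, emb (c3 (i + 2 + 1)) a) = s(emb (c3 i) a, emb (c3 (i + 2)) c) := by
    rw [e, Sym2.eq_swap]
  rw [e']

theorem card_parts (κ : V → Fin 3) (hn : ∀ i, (cpt κ i).card = n) : Fintype.card V = 3 * n := by
  rw [← Finset.card_univ, Finset.card_eq_sum_card_fiberwise (s := univ) (t := univ) (f := κ)
    (fun _ _ => Finset.mem_coe.2 (Finset.mem_univ _))]
  have h : ∀ i, (univ.filter (fun v => κ v = i)).card = n := hn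
  rw [Finset.sum_congr rfl fun i _ => h i, Finset.sum_const, Finset.card_univ, Fintype.card_fin,
    smul_eq_mul]

end Conv

/-- the last step: from the matrices to `Frac3`-type conclusions -/
theorem frac3_of_mat {V : Type} [DecidableEq V] [Fintype V] {n : ℕ} {κ : V → Fin 3}
    {E : Finset (Sym2 V)} (h3 : Col3 κ E) (hn : ∀ i, (cpt κ i).card = n)
    {emb : Fin 3 → Fin n → V} (hc : ∀ i a, κ (emb i a) = i)
    (hinj : ∀ i, Function.Injective (emb i)) (hsurj : ∀ v, ∃ a, emb (κ v) a = v)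
    (C δ : ℝ) (hC : 0 ≤ C)
    (w : Fin n → Fin n → Fin n → ℝ) (hw0 : ∀ a b c, 0 ≤ w a b c)
    (hwC : ∀ a b c, w a b c * n ≤ C * mat3 emb E 0 a b ∧ w a b c * n ≤ C * mat3 emb E 1 b c ∧
      w a b c * n ≤ C * mat3 emb E 2 c a)
    (h01 : ∀ a b, (1 - δ) * mat3 emb E 0 a b ≤ ∑ c, w a b c ∧ ∑ c, w a b c ≤ mat3 emb E 0 a b)
    (h12 : ∀ b c, (1 - δ) * mat3 emb E 1 b c ≤ ∑ a, w a b c ∧ ∑ a, w a b c ≤ mat3 emb E 1 b c)
    (h20 : ∀ c a, (1 - δ) * mat3 emb E 2 c a ≤ ∑ b, w a b c ∧ ∑ b, w a b c ≤ mat3 emb E 2 c a) :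
    ∃ w' : Finset V → ℝ, IsWt E w' (3 * C) ∧ ∀ e ∈ E, 1 - δ ≤ wsum w' e ∧ wsum w' e ≤ 1 := by
  have m0 : ∀ a b, mat3 emb E 0 a b = if s(emb 0 a, emb 1 b) ∈ E then 1 else 0 := by
    intro a b
    unfold mat3
    rw [z01, c3_0, c3_1]
  have m1 : ∀ a b, mat3 emb E 1 a b = if s(emb 1 a, emb 2 b) ∈ E then 1 else 0 := by
    intro a b
    unfold mat3
    rw [z11, c3_1, c3_2]
  have m2 : ∀ a b, mat3 emb E 2 a b = if s(emb 2 a, emb 0 b) ∈ E then 1 else 0 := by
    intro a b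
    unfold mat3
    rw [z21, c3_2, c3_0]
  have hle : ∀ i a b, mat3 emb E i a b ≤ 1 := by
    intro i a b
    unfold mat3
    split_ifs <;> norm_num
  refine isWt_of_triple h3 hc hinj hsurj (card_parts κ hn) w hw0 C δ hC ?_ ?_ ?_ ?_ ?_
  · intro a b c
    refine (hwC a b c).1.trans ?_
    have := mul_le_mul_of_nonneg_left (hle 0 a b) hC
    linarith
  · intro a b c h
    have hn0 : (0 : ℝ) < n := by exact_mod_cast (Fin.pos a)
    have hpos : 0 < w a b c * n := mul_pos (lt_of_le_of_ne (hw0 a b c) (Ne.symm h)) hn0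
    obtain ⟨e1, e2, e3⟩ := hwC a b c
    rw [m0] at e1
    rw [m1] at e2
    rw [m2] at e3
    refine ⟨?_, ?_, ?_⟩
    · by_contra hcon
      rw [if_neg hcon, mul_zero] at e1
      linarith
    · by_contra hcon
      rw [if_neg hcon, mul_zero] at e2
      linarith
    · by_contra hcon
      rw [if_neg hcon, mul_zero] at e3
      linarith
  · intro a b he
    have := h01 a b
    rw [m0, if_pos he] at this
    exact ⟨by linarith [this.1], this.2⟩
  · intro a b he
    have := h12 a b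
    rw [m1, if_pos he] at this
    exact ⟨by linarith [this.1], this.2⟩
  · intro a b he
    have := h20 a b
    rw [m2, if_pos he] at this
    exact ⟨by linarith [this.1], this.2⟩

/-- The fractional input: nearly regular and nearly balanced 3-partite edge sets with relative
degree `1 - κ'`, `κ' ≤ ρ - ε`, have bounded fractional packings with sums in `[1 - γ, 1]`. -/
def FracR (ρ : ℝ) : Prop :=
  ∀ ε : ℝ, 0 < ε → ∃ δ : ℝ, 0 < δ ∧ ∀ γ : ℝ, 0 < γ → ∃ θ : ℝ, 0 < θ ∧ ∃ C : ℝ,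
    ∀ (V : Type) [Fintype V] [DecidableEq V] (κ : V → Fin 3) (n : ℕ) (E : Finset (Sym2 V))
      (t : ℝ), Col3 κ E → 0 < n → (∀ i, (cpt κ i).card = n) → 0 ≤ t → t ≤ ρ - ε →
      (∀ v i, i ≠ κ v → |(degIn E (cpt κ i) v : ℝ) - (1 - t) * n| ≤ δ * n) →
      (∀ v i j, i ≠ κ v → j ≠ κ v →
        (degIn E (cpt κ i) v : ℝ) ≤ (degIn E (cpt κ j) v : ℝ) + θ * n) →
      ∃ w : Finset V → ℝ, IsWt E w C ∧ ∀ e ∈ E, 1 - γ ≤ wsum w e ∧ wsum w e ≤ 1

/-- **the case `ρ = 1 / 5`** -/
theorem fracR_fifth : FracR (1 / 5) := by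
  intro ε hε
  obtain ⟨η, hη, h⟩ := frac5 ε hε
  refine ⟨η, hη, ?_⟩
  intro γ hγ
  obtain ⟨θ, hθ, h⟩ := h γ hγ
  refine ⟨θ, hθ, 3 * 5, ?_⟩
  intro V _ _ κ n E t h3 hn0 hn ht0 ht1 hdeg hbal
  obtain ⟨emb, hc, hinj, hsurj⟩ := exists_emb κ hn
  have hone : ∀ i a b, 0 ≤ mat3 emb E i a b ∧ mat3 emb E i a b ≤ 1 := by
    intro i a b
    unfold mat3
    split_ifs <;> norm_num
  have hi1 : ∀ (i : ZMod 3) (a : Fin n), c3 (i + 1) ≠ κ (emb (c3 i) a) := by
    intro i a
    rw [hc]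
    exact c3_ne1 i
  have hi2 : ∀ (i : ZMod 3) (a : Fin n), c3 (i + 2) ≠ κ (emb (c3 i) a) := by
    intro i a
    rw [hc]
    exact c3_ne2 i
  obtain ⟨w, hw0, hwC, h01, h12, h20⟩ := h n (mat3 emb E) t hn0 ht0 ht1
    (fun i a b => (hone i a b).1) (fun i a b => (hone i a b).2)
    (by
      intro i a
      rw [Finset.sum_sub_distrib, mat3_row hc hinj hsurj]
      simp only [Finset.sum_const, Finset.card_univ, Fintype.card_fin, nsmul_eq_mul, mul_one]
      have := abs_le.1 (hdeg (emb (c3 i) a) (c3 (i + 1)) (hi1 i a))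
      rw [abs_le]
      constructor <;> nlinarith [this.1, this.2])
    (by
      intro i a
      rw [Finset.sum_sub_distrib, mat3_col hc hinj hsurj]
      simp only [Finset.sum_const, Finset.card_univ, Fintype.card_fin, nsmul_eq_mul, mul_one]
      have := abs_le.1 (hdeg (emb (c3 i) a) (c3 (i + 2)) (hi2 i a))
      rw [abs_le]
      constructor <;> nlinarith [this.1, this.2])
    (by
      intro i a
      rw [mat3_row hc hinj hsurj, mat3_col hc hinj hsurj]
      have e1 := hbal (emb (c3 i) a) (c3 (i + 1)) (c3 (i + 2)) (hi1 i a) (hi2 i a)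
      have e2 := hbal (emb (c3 i) a) (c3 (i + 2)) (c3 (i + 1)) (hi2 i a) (hi1 i a)
      rw [abs_le]
      constructor <;> linarith)
  refine frac3_of_mat h3 hn hc hinj hsurj 5 γ (by norm_num) w hw0 ?_ h01 h12 h20
  intro a b c
  have e := hwC a b c
  have f0 := hone 0 a b
  have f1 := hone 1 b c
  have f2 := hone 2 c a
  refine ⟨?_, ?_, ?_⟩
  · have : mat3 emb E 0 a b * mat3 emb E 1 b c * mat3 emb E 2 c a ≤ mat3 emb E 0 a b := by
      calc mat3 emb E 0 a b * mat3 emb E 1 b c * mat3 emb E 2 c a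
          ≤ mat3 emb E 0 a b * 1 * 1 :=
            mul_le_mul (mul_le_mul_of_nonneg_left f1.2 f0.1) f2.2 f2.1 (by linarith [f0.1])
        _ = mat3 emb E 0 a b := by ring
    linarith
  · have : mat3 emb E 0 a b * mat3 emb E 1 b c * mat3 emb E 2 c a ≤ mat3 emb E 1 b c := by
      calc mat3 emb E 0 a b * mat3 emb E 1 b c * mat3 emb E 2 c a
          ≤ 1 * mat3 emb E 1 b c * 1 :=
            mul_le_mul (mul_le_mul_of_nonneg_right f0.2 f1.1) f2.2 f2.1 (by linarith [f1.1])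
        _ = mat3 emb E 1 b c := by ring
    linarith
  · have : mat3 emb E 0 a b * mat3 emb E 1 b c * mat3 emb E 2 c a ≤ mat3 emb E 2 c a := by
      calc mat3 emb E 0 a b * mat3 emb E 1 b c * mat3 emb E 2 c a
          ≤ (1 * 1) * mat3 emb E 2 c a :=
            mul_le_mul_of_nonneg_right (mul_le_mul f0.2 f1.2 f1.1 zero_le_one) f2.1
        _ = mat3 emb E 2 c a := by ring
    linarith

/-- **from any weighted fractional theorem**, with a lower bound for the degrees only -/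
theorem frac_of_FT (ρ : ℝ) (hρ : ρ ≤ 1 / 4) (hF : FT ρ) (ε γ : ℝ) (hε : 0 < ε) (hγ : 0 < γ) :
    ∃ θ : ℝ, 0 < θ ∧ ∃ C : ℝ,
    ∀ (V : Type) [Fintype V] [DecidableEq V] (κ : V → Fin 3) (n : ℕ) (E : Finset (Sym2 V)),
      Col3 κ E → 0 < n → (∀ i, (cpt κ i).card = n) →
      (∀ v i, i ≠ κ v → (1 - ρ + ε) * n ≤ (degIn E (cpt κ i) v : ℝ)) →
      (∀ v i j, i ≠ κ v → j ≠ κ v →
        (degIn E (cpt κ i) v : ℝ) ≤ (degIn E (cpt κ j) v : ℝ) + θ * n) →
      ∃ w : Finset V → ℝ, IsWt E w C ∧ ∀ e ∈ E, 1 - γ ≤ wsum w e ∧ wsum w e ≤ 1 := by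
  obtain ⟨θ, hθ, C, hC, h⟩ := sample3 ρ hρ hF ε γ hε hγ
  refine ⟨θ, hθ, 3 * C, ?_⟩
  intro V _ _ κ n E h3 hn0 hn hdeg hbal
  obtain ⟨emb, hc, hinj, hsurj⟩ := exists_emb κ hn
  have hone : ∀ i a b, 0 ≤ mat3 emb E i a b ∧ mat3 emb E i a b ≤ 1 := by
    intro i a b
    unfold mat3
    split_ifs <;> norm_num
  have hi1 : ∀ (i : ZMod 3) (a : Fin n), c3 (i + 1) ≠ κ (emb (c3 i) a) := by
    intro i a
    rw [hc]
    exact c3_ne1 i
  have hi2 : ∀ (i : ZMod 3) (a : Fin n), c3 (i + 2) ≠ κ (emb (c3 i) a) := by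
    intro i a
    rw [hc]
    exact c3_ne2 i
  obtain ⟨w, hw0, hwC, h01, h12, h20⟩ := h n (mat3 emb E) hn0
    (fun i a b => (hone i a b).1) (fun i a b => (hone i a b).2)
    (by
      intro i a
      rw [Finset.sum_sub_distrib, mat3_row hc hinj hsurj]
      simp only [Finset.sum_const, Finset.card_univ, Fintype.card_fin, nsmul_eq_mul, mul_one]
      have := hdeg (emb (c3 i) a) (c3 (i + 1)) (hi1 i a)
      linarith)
    (by
      intro i a
      rw [Finset.sum_sub_distrib, mat3_col hc hinj hsurj]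
      simp only [Finset.sum_const, Finset.card_univ, Fintype.card_fin, nsmul_eq_mul, mul_one]
      have := hdeg (emb (c3 i) a) (c3 (i + 2)) (hi2 i a)
      linarith)
    (by
      intro i a
      rw [mat3_row hc hinj hsurj, mat3_col hc hinj hsurj]
      have e1 := hbal (emb (c3 i) a) (c3 (i + 1)) (c3 (i + 2)) (hi1 i a) (hi2 i a)
      have e2 := hbal (emb (c3 i) a) (c3 (i + 2)) (c3 (i + 1)) (hi2 i a) (hi1 i a)
      rw [abs_le]
      constructor <;> linarith)
  exact frac3_of_mat h3 hn hc hinj hsurj C γ hC.le w hw0 hwC h01 h12 h20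

theorem fracR_of_FT (ρ : ℝ) (hρ : ρ ≤ 1 / 4) (hF : FT ρ) : FracR ρ := by
  intro ε hε
  refine ⟨ε / 2, by linarith, ?_⟩
  intro γ hγ
  obtain ⟨θ, hθ, C, h⟩ := frac_of_FT ρ hρ hF (ε / 2) γ (by linarith) hγ
  refine ⟨θ, hθ, C, ?_⟩
  intro V _ _ κ n E t h3 hn0 hn ht0 ht1 hdeg hbal
  refine h V κ n E h3 hn0 hn ?_ hbal
  intro v i hi
  have e1 := (abs_le.1 (hdeg v i hi)).1
  have hn' : (0 : ℝ) < n := by exact_mod_cast hn0
  nlinarith

end NW3
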