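import Pool.Agent.NW3.Statements3
import Pool.Agent.NW.Final

/-!
# Project NW3: the 3-partite main theorem from the labelled vortex, the step and the absorbers
-/

set_option linter.unusedSectionVars false

namespace NW3

open Finset NW

section Lemmas

variable {V : Type*} [DecidableEq V] [Fintype V]

theorem card_of_parts {κ : V → Fin 3} {X : Finset V} {s : ℕ}
    (h : ∀ i, (X ∩ part κ i).card = s) : X.card = 3 * s := by
  rw [Finset.card_eq_sum_card_fiberwise (s := X) (t := univ) (f := κ)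
    (fun _ _ => Finset.mem_coe.2 (Finset.mem_univ _))]
  have h1 : ∀ i ∈ (univ : Finset (Fin 3)), (X.filter (fun x => κ x = i)).card = s := by
    intro i _
    rw [← h i]
    congr 1
    ext u
    simp
  rw [Finset.sum_congr rfl h1]
  simp

/-- four vertices outside part `i` have many common neighbours in part `i` outside `F` -/
theorem card_cnbr3 {κ : V → Fin 3} {E : Finset (Sym2 V)} {n : ℕ} {α : ℝ}
    (hpart : ∀ i, (part κ i).card = n) (hα : 0 ≤ (1 / 4 - α) * (n : ℝ))
    (hdeg : ∀ v i, i ≠ κ v → (3 / 4 + α) * (n : ℝ) ≤ (pdeg κ E i v : ℝ))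
    (S F : Finset V) (i : Fin 3) (hS : S.card ≤ 4) (hSi : ∀ x ∈ S, κ x ≠ i) :
    4 * α * (n : ℝ) - ((F ∩ part κ i).card : ℝ) ≤ ((cnbr E S F ∩ part κ i).card : ℝ) := by
  have h1 : part κ i ⊆ (cnbr E S F ∩ part κ i) ∪
      ((F ∩ part κ i) ∪ S.biUnion (fun x => part κ i \ nbr E x)) := by
    intro y hy
    by_cases hy1 : y ∈ F
    · exact Finset.mem_union_right _ (Finset.mem_union_left _ (Finset.mem_inter.2 ⟨hy1, hy⟩))
    by_cases hy2 : ∀ x ∈ S, s(x, y) ∈ E
    · exact Finset.mem_union_left _ (Finset.mem_inter.2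
        ⟨Finset.mem_filter.2 ⟨Finset.mem_univ _, hy1, hy2⟩, hy⟩)
    · push Not at hy2
      obtain ⟨x, hx, hx2⟩ := hy2
      refine Finset.mem_union_right _ (Finset.mem_union_right _ (Finset.mem_biUnion.2
        ⟨x, hx, Finset.mem_sdiff.2 ⟨hy, ?_⟩⟩))
      rw [mem_nbr]
      exact hx2
  have h2 := Finset.card_le_card h1
  rw [hpart i] at h2
  have h3 := h2.trans ((Finset.card_union_le _ _).trans
    (Nat.add_le_add_left (Finset.card_union_le _ _) _))
  have h3' : (n : ℝ) ≤ (cnbr E S F ∩ part κ i).card + ((F ∩ part κ i).card +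
      (S.biUnion (fun x => part κ i \ nbr E x)).card) := by exact_mod_cast h3
  have h5 : ((S.biUnion (fun x => part κ i \ nbr E x)).card : ℝ) ≤
      ∑ x ∈ S, ((part κ i \ nbr E x).card : ℝ) := by
    exact_mod_cast Finset.card_biUnion_le
  have h6 : ∑ x ∈ S, ((part κ i \ nbr E x).card : ℝ) ≤
      ∑ _x ∈ S, ((1 / 4 - α) * (n : ℝ)) := by
    refine Finset.sum_le_sum fun x hx => ?_
    have h7 := hdeg x i (Ne.symm (hSi x hx))
    rw [pdeg_eq_degIn] at h7
    unfold degIn at h7
    have h8 := Finset.card_sdiff_add_card_inter (part κ i) (nbr E x)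
    rw [hpart i, Finset.inter_comm (part κ i) (nbr E x)] at h8
    have h9 : (((part κ i \ nbr E x).card : ℕ) : ℝ) + ((nbr E x ∩ part κ i).card : ℝ) = n := by
      exact_mod_cast h8
    linarith
  rw [Finset.sum_const, nsmul_eq_mul] at h6
  have h9 : (S.card : ℝ) * ((1 / 4 - α) * (n : ℝ)) ≤ 4 * ((1 / 4 - α) * (n : ℝ)) :=
    mul_le_mul_of_nonneg_right (by exact_mod_cast hS) hα
  linarith

theorem rsv_cases {q : ℕ} {V : Type} [DecidableEq V] {U : ℕ → Finset V}
    {lab : V → PlPoint q × PlLine q} {j : ℕ} {e : Sym2 V} (he : e ∈ rsv q U lab j) :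
    ∃ v ∈ U j \ U (j + 1), ∃ u ∈ U (j + 1) \ U (j + 2), e = s(v, u) := by
  unfold rsv at he
  obtain ⟨v, hv, u, hu, h⟩ := resv_cases he
  exact ⟨v, hv, u, (mem_lineSet.1 hu).1, h⟩

end Lemmas

theorem glue3 : GlueStatement3 := by
  intro hV hS hA lo hi hlo hAD α hα
  obtain ⟨K0, hK0⟩ := hS lo hi hlo hAD α hα
  obtain ⟨K1, hK1⟩ := exists_nat_ge (1 / α)
  obtain ⟨K, hK⟩ : ∃ K : ℕ, K = max K0 (max 2 K1) := ⟨_, rfl⟩
  have hKK0 : K0 ≤ K := by rw [hK]; exact le_max_left _ _
  have hK2 : 2 ≤ K := by rw [hK]; exact (le_max_left _ _).trans (le_max_right _ _)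
  have hKK1 : K1 ≤ K := by rw [hK]; exact (le_max_right _ _).trans (le_max_right _ _)
  have hKα : 1 ≤ α * K := by
    have h1 : 1 / α ≤ (K : ℝ) := hK1.trans (by exact_mod_cast hKK1)
    rw [div_le_iff₀ hα] at h1
    linarith
  obtain ⟨q, hq, τ, hτ, m, hstep⟩ := hK0 K hKK0 (α / 4) (by positivity)
  haveI := hq
  obtain ⟨M, n1, hvor⟩ := hV (PlPoint q × PlLine q) K hK2 τ hτ m
  obtain ⟨C, hC⟩ := hA (3 * M)
  obtain ⟨n2, hn2⟩ := exists_nat_ge (4 * C / α)
  refine ⟨max 1 (max n1 n2), ?_⟩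
  intro V _ _ κ n E hT hB hn hpart hdeg
  have hn1 : 1 ≤ n := (le_max_left _ _).trans hn
  have hnn1 : n1 ≤ n := ((le_max_left _ _).trans (le_max_right _ _)).trans hn
  have hnn2 : n2 ≤ n := ((le_max_right _ _).trans (le_max_right _ _)).trans hn
  have hCn : (C : ℝ) ≤ α / 4 * n := by
    have h1 : 4 * (C : ℝ) / α ≤ n := hn2.trans (by exact_mod_cast hnn2)
    rw [div_le_iff₀ hα] at h1
    linarith
  obtain ⟨l, U, s, lab, hL, hl, hms, hsM⟩ := hvor V κ n E hpart hnn1
  have hanti : Antitone U := antitone_nat_of_succ_le hL.sub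
  have hs0 : s 0 = n := by
    rw [← hL.card 0 0, hL.zero, Finset.univ_inter, hpart]
  have hs1 : (s 1 : ℝ) ≤ α * n := by
    have h1 : K * s (0 + 1) ≤ s 0 := hL.up 0 (by omega)
    rw [hs0] at h1
    have h2 : (K : ℝ) * s 1 ≤ n := by exact_mod_cast h1
    have h3 : (0 : ℝ) ≤ s 1 := Nat.cast_nonneg _
    have h4 : 1 * (s 1 : ℝ) ≤ α * K * s 1 := mul_le_mul_of_nonneg_right hKα h3
    have h5 : α * (K * (s 1 : ℝ)) ≤ α * n := mul_le_mul_of_nonneg_left h2 hα.le
    linarith
  have hdeg34 : ∀ v i, i ≠ κ v → (3 / 4 + α) * (n : ℝ) ≤ (pdeg κ E i v : ℝ) := by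
    intro v i hi
    have h1 := (hdeg v i hi).1
    have h2 : (3 / 4 + α) * (n : ℝ) ≤ (lo + α) * (n : ℝ) :=
      mul_le_mul_of_nonneg_right (by linarith) (Nat.cast_nonneg _)
    linarith
  have hα4 : 0 ≤ (1 / 4 - α) * (n : ℝ) := by
    obtain ⟨v, hv⟩ : (part κ 0).Nonempty := by
      rw [← Finset.card_pos, hpart]
      omega
    rw [mem_part] at hv
    have h1 := hdeg34 v 1 (by rw [hv]; decide)
    have h2 : pdeg κ E 1 v ≤ n := by
      rw [pdeg_eq_degIn, ← hpart 1]
      exact Finset.card_le_card Finset.inter_subset_right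
    have h3 : (pdeg κ E 1 v : ℝ) ≤ n := by exact_mod_cast h2
    linarith
  -- the absorber
  obtain ⟨A, hAE, hAdec, hAcard, hAF, hAU, hAabs⟩ := hC V κ E (U l) (U 1) hT
    (by
      rw [card_of_parts (hL.card l)]
      omega)
    (hanti (by omega))
    (fun S i hS4 hSi => by
      have h1 := card_cnbr3 hpart hα4 hdeg34 S (U 1) i hS4 hSi
      rw [hL.card 1 i] at h1
      have h2 : (0 : ℝ) ≤ α * n := by positivity
      have h3 : (C : ℝ) ≤ ((cnbr E S (U 1) ∩ part κ i).card : ℝ) := by linarith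
      exact_mod_cast h3)
  have hdegA : ∀ v, (NW.deg A v : ℝ) ≤ C := fun v => by
    exact_mod_cast (deg_le_card A v).trans hAcard
  have hAsym : ∀ j, 1 ≤ j → Disjoint A (U j).sym2 := by
    intro j hj
    rw [Finset.disjoint_left]
    intro e he he2
    obtain ⟨v, hv, hvF⟩ := hAF e he
    exact hvF (hanti hj (Finset.mem_sym2_iff.1 he2 v hv))
  have hArsv : ∀ j, Disjoint A (rsv q U lab j) := by
    intro j
    rw [Finset.disjoint_left]
    intro e he he2
    obtain ⟨v, hv, u, hu, rfl⟩ := rsv_cases he2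
    rw [Finset.mem_sdiff] at hv hu
    rcases Nat.eq_zero_or_pos j with rfl | hj
    · have h1 : u ∈ U l := hAU _ he u (Sym2.mem_mk_right v u) hu.1
      exact hu.2 (hanti (show 0 + 2 ≤ l by omega) h1)
    · exact Finset.disjoint_left.1 (hAsym j hj) he
        (Finset.mk_mem_sym2_iff.2 ⟨hv.1, hL.sub j hu.1⟩)
  have hrsvsym : ∀ j, rsv q U lab j ⊆ (U j).sym2 := by
    intro j e he
    obtain ⟨v, hv, u, hu, rfl⟩ := rsv_cases he
    rw [Finset.mem_sdiff] at hv hu
    exact Finset.mk_mem_sym2_iff.2 ⟨hv.1, hL.sub j hu.1⟩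
  have hHT : Tri3 κ (E \ A) := hT.mono Finset.sdiff_subset
  have hHB : Bal3 κ (E \ A) := hB.sdiff_dec hT hAdec hAE
  have hmain : ∀ j, j ≤ l → ∃ D, D ⊆ E \ A ∧ Dec D ∧ (E \ A) \ D ⊆ (U j).sym2 ∧
      Disjoint D (U (j + 1)).sym2 ∧ Disjoint D (rsv q U lab j) ∧
      ∀ v ∈ U j, (NW.deg ((E ∩ (U j).sym2) \ ((E \ A) \ D)) v : ℝ) ≤ α / 4 * (s j : ℝ) := by
    intro j
    induction j with
    | zero =>
      intro _
      refine ⟨∅, Finset.empty_subset _, Dec.empty, ?_, Finset.disjoint_empty_left _,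
        Finset.disjoint_empty_left _, ?_⟩
      · intro e _
        rw [hL.zero, Finset.mem_sym2_iff]
        exact fun v _ => Finset.mem_univ v
      · intro v _
        have h1 : (E ∩ (U 0).sym2) \ ((E \ A) \ ∅) ⊆ A := by
          intro e he
          rw [Finset.mem_sdiff, Finset.mem_inter, Finset.mem_sdiff, Finset.mem_sdiff] at he
          by_contra h
          exact he.2 ⟨⟨he.1.1, h⟩, Finset.notMem_empty _⟩
        have h2 : (NW.deg ((E ∩ (U 0).sym2) \ ((E \ A) \ ∅)) v : ℝ) ≤ NW.deg A v := by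
          exact_mod_cast deg_mono h1 v
        have h3 := hdegA v
        rw [hs0]
        linarith
    | succ j ih =>
      intro hjl
      obtain ⟨D, hDH, hDdec, hDU, hDsym, hDrsv, hDdeg⟩ := ih (by omega)
      obtain ⟨D', hD'G, hD'dec, hD'U, hD'sym, hD'rsv, hD'deg⟩ :=
        hstep V κ E ((E \ A) \ D) n l U s lab j hT hL hms (by omega) hB hdeg
          (Finset.sdiff_subset.trans Finset.sdiff_subset) hDU
          (hHB.sdiff_dec hHT hDdec hDH)
          (fun e he => by
            rw [Finset.mem_inter] at he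
            rw [Finset.mem_sdiff, Finset.mem_sdiff]
            exact ⟨⟨he.1, fun h => Finset.disjoint_left.1 (hAsym (j + 1) (by omega)) h he.2⟩,
              fun h => Finset.disjoint_left.1 hDsym h he.2⟩)
          (fun e he => by
            rw [Finset.mem_inter] at he
            rw [Finset.mem_sdiff, Finset.mem_sdiff]
            exact ⟨⟨he.1, fun h => Finset.disjoint_left.1 (hArsv j) h he.2⟩,
              fun h => Finset.disjoint_left.1 hDrsv h he.2⟩)
          hDdeg
      have hD'H : D' ⊆ E \ A := hD'G.trans Finset.sdiff_subset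
      have hsd : (E \ A) \ (D ∪ D') = ((E \ A) \ D) \ D' := by
        ext e
        simp only [Finset.mem_sdiff, Finset.mem_union]
        tauto
      have hmonosym : (U (j + 1 + 1)).sym2 ⊆ (U (j + 1)).sym2 :=
        Finset.sym2_mono (hL.sub (j + 1))
      refine ⟨D ∪ D', Finset.union_subset hDH hD'H, hDdec.union hD'dec ?_, ?_, ?_, ?_, ?_⟩
      · rw [Finset.disjoint_right]
        intro e he
        exact (Finset.mem_sdiff.1 (hD'G he)).2
      · rw [hsd]
        exact hD'U
      · rw [Finset.disjoint_union_left]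
        exact ⟨Finset.disjoint_of_subset_right hmonosym hDsym, hD'sym⟩
      · rw [Finset.disjoint_union_left]
        exact ⟨Finset.disjoint_of_subset_right (hrsvsym (j + 1)) hDsym, hD'rsv⟩
      · intro v hv
        have h1 : (E ∩ (U (j + 1)).sym2) \ ((E \ A) \ (D ∪ D')) ⊆ D' ∩ (U (j + 1)).sym2 := by
          intro e he
          rw [Finset.mem_sdiff, Finset.mem_inter] at he
          rw [Finset.mem_inter]
          refine ⟨?_, he.1.2⟩
          by_contra h
          refine he.2 (Finset.mem_sdiff.2 ⟨Finset.mem_sdiff.2 ⟨he.1.1, fun hA' => ?_⟩,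
            fun hD => ?_⟩)
          · exact Finset.disjoint_left.1 (hAsym (j + 1) (by omega)) hA' he.1.2
          · rcases Finset.mem_union.1 hD with hD | hD
            · exact Finset.disjoint_left.1 hDsym hD he.1.2
            · exact h hD
        have h2 : (NW.deg ((E ∩ (U (j + 1)).sym2) \ ((E \ A) \ (D ∪ D'))) v : ℝ) ≤
            NW.deg (D' ∩ (U (j + 1)).sym2) v := by
          exact_mod_cast deg_mono h1 v
        exact h2.trans (hD'deg v hv)
  obtain ⟨D, hDH, hDdec, hDU, -, -, -⟩ := hmain l le_rfl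
  have hAL := hAabs ((E \ A) \ D) hDU (hHT.mono Finset.sdiff_subset)
    (hHB.sdiff_dec hHT hDdec hDH)
  have hfin : E = D ∪ (A ∪ ((E \ A) \ D)) := by
    ext x
    have h1 := @hDH x
    have h2 := @hAE x
    rw [Finset.mem_sdiff] at h1
    rw [Finset.mem_union, Finset.mem_union, Finset.mem_sdiff, Finset.mem_sdiff]
    tauto
  rw [hfin]
  refine hDdec.union hAL ?_
  rw [Finset.disjoint_union_right]
  refine ⟨?_, Finset.disjoint_sdiff⟩
  rw [Finset.disjoint_left]
  intro x hx hxA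
  exact (Finset.mem_sdiff.1 (hDH hx)).2 hxA

end NW3
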