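import Pool.Agent.NW3.FinalFifth

/-!
# Project NW3: completing sparse partial latin squares from the fractional theorem

`compl_of_FT`: if the weighted fractional theorem `FT ρ` holds with `ρ ≤ 1/4`, then every partial
latin square of large order `n` in which every row, column and symbol is used at most `(ρ - ε) n`
times is completable.
-/

set_option linter.unusedSectionVars false

namespace NW3

open Finset NW

section General

variable {n : ℕ}

open Classical in
/-- the number of filled triples with `i`-th coordinate `a` -/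
noncomputable def cntF (P : Fin n → Fin n → Option (Fin n)) (i : Fin 3) (a : Fin n) : ℕ :=
  (univ.filter (fun f : Fin 3 → Fin n => Filled P f ∧ f i = a)).card

theorem cntF_zero (P : Fin n → Fin n → Option (Fin n)) (a : Fin n) :
    cntF P 0 a = (Finset.univ.filter (fun c : Fin n => P a c ≠ none)).card := by
  classical
  unfold cntF
  refine Finset.card_bij (fun f _ => f 1) ?_ ?_ ?_
  · intro f hf
    rw [Finset.mem_filter] at hf ⊢
    refine ⟨Finset.mem_univ _, ?_⟩
    rw [← hf.2.2, hf.2.1]
    exact Option.some_ne_none _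
  · intro f hf g hg h
    rw [Finset.mem_filter] at hf hg
    have h' : f 0 = g 0 := hf.2.2.trans hg.2.2.symm
    have h2 : f 2 = g 2 := by
      have h3 := hf.2.1
      have h4 := hg.2.1
      unfold Filled at h3 h4
      rw [h', h, h4] at h3
      exact (Option.some.inj h3).symm
    funext l
    fin_cases l <;> [exact h'; exact h; exact h2]
  · intro c hc
    rw [Finset.mem_filter] at hc
    obtain ⟨s, hs⟩ := Option.ne_none_iff_exists'.1 hc.2
    refine ⟨![a, c, s], ?_, rfl⟩
    rw [Finset.mem_filter]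
    exact ⟨Finset.mem_univ _, hs, rfl⟩

theorem cntF_one (P : Fin n → Fin n → Option (Fin n)) (a : Fin n) :
    cntF P 1 a = (Finset.univ.filter (fun r : Fin n => P r a ≠ none)).card := by
  classical
  unfold cntF
  refine Finset.card_bij (fun f _ => f 0) ?_ ?_ ?_
  · intro f hf
    rw [Finset.mem_filter] at hf ⊢
    refine ⟨Finset.mem_univ _, ?_⟩
    rw [← hf.2.2, hf.2.1]
    exact Option.some_ne_none _
  · intro f hf g hg h
    rw [Finset.mem_filter] at hf hg
    have h' : f 1 = g 1 := hf.2.2.trans hg.2.2.symm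
    have h2 : f 2 = g 2 := by
      have h3 := hf.2.1
      have h4 := hg.2.1
      unfold Filled at h3 h4
      rw [h', h, h4] at h3
      exact (Option.some.inj h3).symm
    funext l
    fin_cases l <;> [exact h; exact h'; exact h2]
  · intro r hr
    rw [Finset.mem_filter] at hr
    obtain ⟨s, hs⟩ := Option.ne_none_iff_exists'.1 hr.2
    refine ⟨![r, a, s], ?_, rfl⟩
    rw [Finset.mem_filter]
    exact ⟨Finset.mem_univ _, hs, rfl⟩

theorem cntF_two (P : Fin n → Fin n → Option (Fin n)) (a : Fin n) :
    cntF P 2 a = (Finset.univ.filter (fun p : Fin n × Fin n => P p.1 p.2 = some a)).card := by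
  classical
  unfold cntF
  refine Finset.card_bij (fun f _ => (f 0, f 1)) ?_ ?_ ?_
  · intro f hf
    rw [Finset.mem_filter] at hf ⊢
    refine ⟨Finset.mem_univ _, ?_⟩
    rw [← hf.2.2]
    exact hf.2.1
  · intro f hf g hg h
    rw [Finset.mem_filter] at hf hg
    obtain ⟨h3, h4⟩ := Prod.mk.inj h
    have h5 : f 2 = g 2 := hf.2.2.trans hg.2.2.symm
    funext l
    fin_cases l <;> [exact h3; exact h4; exact h5]
  · intro p hp
    rw [Finset.mem_filter] at hp
    refine ⟨![p.1, p.2, a], ?_, rfl⟩
    rw [Finset.mem_filter]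
    exact ⟨Finset.mem_univ _, hp.2, rfl⟩

/-- the degrees of the complement of any partial latin square -/
theorem pdeg_compl3_gen {P : Fin n → Fin n → Option (Fin n)}
    (hrow : ∀ (r c₁ c₂ s : Fin n), P r c₁ = some s → P r c₂ = some s → c₁ = c₂)
    (hcol : ∀ (c r₁ r₂ s : Fin n), P r₁ c = some s → P r₂ c = some s → r₁ = r₂)
    (v : Fin 3 × Fin n) (j : Fin 3) (hj : j ≠ v.1) :
    pdeg Prod.fst (compl3 P) j v + cntF P v.1 v.2 = n := by
  classical
  set S : Finset (Fin 3 → Fin n) := univ.filter (fun f => Filled P f ∧ f v.1 = v.2) with hS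
  have hScard : S.card = cntF P v.1 v.2 := rfl
  have hinj : Set.InjOn (fun f : Fin 3 → Fin n => f j) (S : Set (Fin 3 → Fin n)) := by
    intro f hf g hg h
    rw [Finset.mem_coe, hS, Finset.mem_filter] at hf hg
    exact filled_unique hrow hcol hf.2.1 hg.2.1 hj h (hf.2.2.trans hg.2.2.symm)
  have h1 : (S.image (fun f => f j)).card = cntF P v.1 v.2 := by
    rw [Finset.card_image_of_injOn hinj, hScard]
  have h2 : pdeg Prod.fst (compl3 P) j v = ((S.image (fun f => f j))ᶜ).card := by
    unfold pdeg
    refine Finset.card_bij (fun u _ => u.2) ?_ ?_ ?_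
    · intro u hu
      rw [Finset.mem_filter] at hu
      rw [Finset.mem_compl, Finset.mem_image]
      rintro ⟨f, hf, hfu⟩
      rw [hS, Finset.mem_filter] at hf
      have := (mem_compl3.1 hu.2.1).2 f hf.2.1 hf.2.2
      rw [hu.2.2] at this
      exact this hfu
    · intro u hu w hw h
      rw [Finset.mem_filter] at hu hw
      exact Prod.ext (hu.2.2.trans hw.2.2.symm) h
    · intro b hb
      rw [Finset.mem_compl, Finset.mem_image] at hb
      refine ⟨(j, b), ?_, rfl⟩
      rw [Finset.mem_filter]
      refine ⟨Finset.mem_univ _, ?_, rfl⟩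
      rw [mem_compl3]
      refine ⟨hj.symm, fun f hf hv hb' => hb ⟨f, ?_, hb'⟩⟩
      rw [hS, Finset.mem_filter]
      exact ⟨Finset.mem_univ _, hf, hv⟩
  have h3 := Finset.card_compl_add_card (S.image (fun f => f j))
  rw [Fintype.card_fin] at h3
  rw [h2, ← h1]
  exact h3

end General

/-- partial latin squares of large order in which every row, column and symbol is used at most
`(ρ - ε) n` times are completable -/
def Compl (ρ : ℝ) : Prop :=
  ∀ ε : ℝ, 0 < ε → ∃ n0 : ℕ, ∀ n : ℕ, n0 ≤ n →
    ∀ P : Fin n → Fin n → Option (Fin n),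
      (∀ (r c₁ c₂ s : Fin n), P r c₁ = some s → P r c₂ = some s → c₁ = c₂) →
      (∀ (c r₁ r₂ s : Fin n), P r₁ c = some s → P r₂ c = some s → r₁ = r₂) →
      (∀ r : Fin n,
        ((Finset.univ.filter (fun c : Fin n => P r c ≠ none)).card : ℝ) ≤ (ρ - ε) * n) →
      (∀ c : Fin n,
        ((Finset.univ.filter (fun r : Fin n => P r c ≠ none)).card : ℝ) ≤ (ρ - ε) * n) →
      (∀ s : Fin n,
        ((Finset.univ.filter (fun p : Fin n × Fin n => P p.1 p.2 = some s)).card : ℝ)
          ≤ (ρ - ε) * n) →
      ∃ L : Fin n → Fin n → Fin n,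
        (∀ r : Fin n, Function.Injective (L r)) ∧
        (∀ c : Fin n, Function.Injective (fun r : Fin n => L r c)) ∧
        ∀ (r c s : Fin n), P r c = some s → L r c = s

theorem compl_of_main (ρ : ℝ) (H : ∀ ε : ℝ, 0 < ε → Main3 (1 - ρ + ε) 2) : Compl ρ := by
  intro ε hε
  obtain ⟨ε', hε'⟩ : ∃ ε' : ℝ, ε' = min (ε / 2) 1 := ⟨_, rfl⟩
  have hε0 : 0 < ε' := by rw [hε']; exact lt_min (by positivity) one_pos
  have hε1 : ε' ≤ ε / 2 := by rw [hε']; exact min_le_left _ _
  have hε2 : ε' ≤ 1 := by rw [hε']; exact min_le_right _ _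
  obtain ⟨n0, hn0⟩ := H ε' hε0 ε' hε0
  refine ⟨n0 + 1, ?_⟩
  intro n hn P hrow hcol hr hc hs
  have hnpos : 0 < n := by omega
  have hnR : (0 : ℝ) < (n : ℝ) := by exact_mod_cast hnpos
  have hdeg := pdeg_compl3_gen hrow hcol
  have hcnt : ∀ (i : Fin 3) (a : Fin n), (cntF P i a : ℝ) ≤ (ρ - ε) * n := by
    intro i a
    fin_cases i
    · show (cntF P 0 a : ℝ) ≤ _
      rw [cntF_zero]; exact hr a
    · show (cntF P 1 a : ℝ) ≤ _
      rw [cntF_one]; exact hc a
    · show (cntF P 2 a : ℝ) ≤ _
      rw [cntF_two]; exact hs a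
  have hDec : Dec (compl3 P) := by
    refine hn0 (Fin 3 × Fin n) Prod.fst n (compl3 P) ?_ ?_ (by omega) ?_ ?_
    · intro u v huv
      exact (mem_compl3.1 huv).1
    · intro v i j hi hj
      have h1 := hdeg v i hi
      have h2 := hdeg v j hj
      omega
    · intro i
      have : part (Prod.fst : Fin 3 × Fin n → Fin 3) i = univ.image (fun a : Fin n => (i, a)) := by
        ext x
        rw [mem_part, Finset.mem_image]
        constructor
        · intro h
          exact ⟨x.2, Finset.mem_univ _, Prod.ext h.symm rfl⟩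
        · rintro ⟨a, _, rfl⟩
          rfl
      rw [this, Finset.card_image_of_injective _ (fun a b h => (Prod.mk.inj h).2),
        Finset.card_univ, Fintype.card_fin]
    · intro v i hi
      have h1 : (pdeg Prod.fst (compl3 P) i v : ℝ) + cntF P v.1 v.2 = n := by
        exact_mod_cast hdeg v i hi
      have h2 := hcnt v.1 v.2
      have h3 : (0 : ℝ) ≤ cntF P v.1 v.2 := Nat.cast_nonneg _
      constructor
      · nlinarith
      · nlinarith
  exact latin_of_dec hrow hcol hDec

/-- the weighted fractional theorem with constant `ρ ≤ 1 / 4` is enough -/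
theorem compl_of_FT (hL : LVortexStatement) (hS : StepStatement3) (hA : AbsorberStatement3)
    (ρ : ℝ) (hρ : ρ ≤ 1 / 4) (hF : FT ρ) : Compl ρ :=
  compl_of_main ρ (fun ε hε => glue3 hL hS hA _ _ (by linarith)
    (ad3 nibble _ _ (by linarith) (frac3_of_FT ρ hρ hF ε hε 2)))

end NW3
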