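import Mathlib

set_option autoImplicit false
set_option linter.unusedSectionVars false

/-!
# Repair of the local balance by an explicit formula

`A` is a symmetric weight on pairs, `s` an antisymmetric sign.  If the imbalance
`b p = ∑ q, s p q * A p q` is at most `D` in absolute value and any two points have common weight
at least `L`, then `A` can be multiplied by symmetric factors `1 + r p q` with `|r| ≤ 4 D / L` such
that the balance becomes exact.
-/

open Finset

namespace NW3

variable {X : Type*} [Fintype X]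

/-- common weight -/
def cw (A : X → X → ℝ) (v w : X) : ℝ := ∑ z, A v z * A w z

/-- imbalance -/
def imb (A s : X → X → ℝ) (p : X) : ℝ := ∑ q, s p q * A p q

/-- the correcting flow -/
noncomputable def phi (A s : X → X → ℝ) (p q : X) : ℝ :=
  -(1 / (Fintype.card X : ℝ)) * ∑ w, ((imb A s p - imb A s w) * A w q / cw A p w
    - (imb A s q - imb A s w) * A w p / cw A q w)

theorem cw_symm (A : X → X → ℝ) (v w : X) : cw A v w = cw A w v :=
  Finset.sum_congr rfl fun _ _ => mul_comm _ _

theorem phi_antisymm (A s : X → X → ℝ) (p q : X) : phi A s p q = - phi A s q p := by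
  unfold phi
  have h : ∑ w, ((imb A s p - imb A s w) * A w q / cw A p w
      - (imb A s q - imb A s w) * A w p / cw A q w)
      = - ∑ w, ((imb A s q - imb A s w) * A w p / cw A q w
      - (imb A s p - imb A s w) * A w q / cw A p w) := by
    rw [← Finset.sum_neg_distrib]
    refine Finset.sum_congr rfl fun w _ => ?_
    ring
  rw [h]
  ring

theorem sum_imb (A s : X → X → ℝ) (hA : ∀ p q, A p q = A q p) (hs : ∀ p q, s p q = - s q p) :
    ∑ p, imb A s p = 0 := by
  have h1 : ∑ p, imb A s p = - ∑ p, imb A s p := by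
    unfold imb
    conv_lhs => rw [Finset.sum_comm]
    rw [← Finset.sum_neg_distrib]
    refine Finset.sum_congr rfl fun p _ => ?_
    rw [← Finset.sum_neg_distrib]
    refine Finset.sum_congr rfl fun q _ => ?_
    rw [hs q p, hA q p]
    ring
  linarith

/-- the divergence of the correcting flow -/
theorem div_phi [Nonempty X] (A s : X → X → ℝ) (hA : ∀ p q, A p q = A q p)
    (hs : ∀ p q, s p q = - s q p) (L : ℝ) (hL : 0 < L) (hN : ∀ v w, L ≤ cw A v w) (p : X) :
    ∑ q, A p q * phi A s p q = - imb A s p := by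
  have hX : (0 : ℝ) < (Fintype.card X : ℝ) := by exact_mod_cast Fintype.card_pos
  have hne : ∀ v w, cw A v w ≠ 0 := fun v w => (lt_of_lt_of_le hL (hN v w)).ne'
  have h1 : ∑ q, A p q * phi A s p q = -(1 / (Fintype.card X : ℝ)) *
      ((∑ q, ∑ w, A p q * ((imb A s p - imb A s w) * A w q / cw A p w))
      - ∑ q, ∑ w, A p q * ((imb A s q - imb A s w) * A w p / cw A q w)) := by
    unfold phi
    rw [← Finset.sum_sub_distrib, Finset.mul_sum]
    refine Finset.sum_congr rfl fun q _ => ?_
    rw [← Finset.sum_sub_distrib, Finset.mul_sum, Finset.mul_sum, Finset.mul_sum]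
    refine Finset.sum_congr rfl fun w _ => ?_
    ring
  have h2 : ∑ q, ∑ w, A p q * ((imb A s p - imb A s w) * A w q / cw A p w)
      = (Fintype.card X : ℝ) * imb A s p := by
    rw [Finset.sum_comm]
    have h3 : ∀ w, ∑ q, A p q * ((imb A s p - imb A s w) * A w q / cw A p w)
        = imb A s p - imb A s w := by
      intro w
      have h4 : ∑ q, A p q * ((imb A s p - imb A s w) * A w q / cw A p w)
          = (imb A s p - imb A s w) / cw A p w * ∑ q, A p q * A w q := by
        rw [Finset.mul_sum]
        refine Finset.sum_congr rfl fun q _ => ?_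
        ring
      rw [h4]
      exact div_mul_cancel₀ _ (hne p w)
    rw [Finset.sum_congr rfl fun w _ => h3 w, Finset.sum_sub_distrib, sum_imb A s hA hs,
      Finset.sum_const, Finset.card_univ, nsmul_eq_mul, sub_zero]
  have h5 : ∑ q, ∑ w, A p q * ((imb A s q - imb A s w) * A w p / cw A q w) = 0 := by
    have h6 : ∑ q, ∑ w, A p q * ((imb A s q - imb A s w) * A w p / cw A q w)
        = - ∑ q, ∑ w, A p q * ((imb A s q - imb A s w) * A w p / cw A q w) := by
      conv_lhs => rw [Finset.sum_comm]
      rw [← Finset.sum_neg_distrib]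
      refine Finset.sum_congr rfl fun q _ => ?_
      rw [← Finset.sum_neg_distrib]
      refine Finset.sum_congr rfl fun w _ => ?_
      rw [cw_symm A w q, hA w p, hA q p]
      ring
    linarith
  rw [h1, h2, h5]
  field_simp
  ring

theorem phi_le [Nonempty X] (A s : X → X → ℝ) (hA0 : ∀ p q, 0 ≤ A p q) (hA1 : ∀ p q, A p q ≤ 1)
    (L : ℝ) (hL : 0 < L) (hN : ∀ v w, L ≤ cw A v w) (D : ℝ) (hb : ∀ p, |imb A s p| ≤ D)
    (p q : X) : |phi A s p q| ≤ 4 * D / L := by
  have hX : (0 : ℝ) < (Fintype.card X : ℝ) := by exact_mod_cast Fintype.card_pos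
  have hD : 0 ≤ D := (abs_nonneg _).trans (hb p)
  unfold phi
  rw [abs_mul, abs_neg, abs_of_pos (by positivity : (0 : ℝ) < 1 / (Fintype.card X : ℝ))]
  have h1 : ∀ u v w, |(imb A s u - imb A s w) * A w v / cw A u w| ≤ 2 * D / L := by
    intro u v w
    have hc := lt_of_lt_of_le hL (hN u w)
    rw [abs_div, abs_mul, abs_of_pos hc, abs_of_nonneg (hA0 w v)]
    have h2 : |imb A s u - imb A s w| ≤ 2 * D := by
      have := abs_sub (imb A s u) (imb A s w)
      have := hb u
      have := hb w
      linarith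
    have h3 : |imb A s u - imb A s w| * A w v ≤ 2 * D := by
      calc |imb A s u - imb A s w| * A w v ≤ |imb A s u - imb A s w| * 1 :=
            mul_le_mul_of_nonneg_left (hA1 w v) (abs_nonneg _)
        _ ≤ 2 * D := by linarith
    exact div_le_div₀ (by linarith) h3 hL (hN u w)
  have h2 : |∑ w, ((imb A s p - imb A s w) * A w q / cw A p w
    - (imb A s q - imb A s w) * A w p / cw A q w)| ≤ (Fintype.card X : ℝ) * (4 * D / L) := by
    refine (Finset.abs_sum_le_sum_abs _ _).trans ?_
    rw [← Finset.card_univ, ← nsmul_eq_mul]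
    refine Finset.sum_le_card_nsmul _ _ _ fun w _ => ?_
    refine (abs_sub _ _).trans ?_
    have h3 := h1 p q w
    have h4 := h1 q p w
    have h5 : 4 * D / L = 2 * D / L + 2 * D / L := by ring
    linarith
  calc 1 / (Fintype.card X : ℝ) * |∑ w, ((imb A s p - imb A s w) * A w q / cw A p w
    - (imb A s q - imb A s w) * A w p / cw A q w)|
      ≤ 1 / (Fintype.card X : ℝ) * ((Fintype.card X : ℝ) * (4 * D / L)) :=
        mul_le_mul_of_nonneg_left h2 (by positivity)
    _ = 4 * D / L := by field_simp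

/-- **Repair.** -/
theorem repair (A s : X → X → ℝ) (hA : ∀ p q, A p q = A q p)
    (hA0 : ∀ p q, 0 ≤ A p q) (hA1 : ∀ p q, A p q ≤ 1) (hs : ∀ p q, s p q = - s q p)
    (hs1 : ∀ p q, |s p q| ≤ 1) (hss : ∀ p q, s p q * s p q * A p q = A p q)
    (L : ℝ) (hL : 0 < L) (hN : ∀ v w, L ≤ cw A v w) (D : ℝ) (hb : ∀ p, |imb A s p| ≤ D)
    (η : ℝ) (hη : 4 * D / L ≤ η) (hη1 : η ≤ 1) :
    ∃ h : X → X → ℝ, (∀ p q, h p q = h q p) ∧ (∀ p q, (1 - 2 * η) * A p q ≤ h p q) ∧
      (∀ p q, h p q ≤ A p q) ∧ ∀ p, ∑ q, s p q * h p q = 0 := by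
  rcases isEmpty_or_nonempty X with hX | hX
  · exact ⟨A, fun p => (hX.false p).elim, fun p => (hX.false p).elim,
      fun p => (hX.false p).elim, fun p => (hX.false p).elim⟩
  have hη0 : 0 ≤ η := by
    obtain ⟨p⟩ := hX
    have hD : 0 ≤ D := (abs_nonneg _).trans (hb p)
    exact (by positivity : (0 : ℝ) ≤ 4 * D / L).trans hη
  have hphi : ∀ p q, |s p q * phi A s p q| ≤ η := by
    intro p q
    rw [abs_mul]
    calc |s p q| * |phi A s p q| ≤ 1 * |phi A s p q| :=
          mul_le_mul_of_nonneg_right (hs1 p q) (abs_nonneg _)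
      _ ≤ η := by
          rw [one_mul]
          exact (phi_le A s hA0 hA1 L hL hN D hb p q).trans hη
  refine ⟨fun p q => (1 - η) * (A p q * (1 + s p q * phi A s p q)), ?_, ?_, ?_, ?_⟩
  · intro p q
    simp only
    rw [hA p q, hs p q, phi_antisymm A s p q]
    ring
  · intro p q
    have h1 := (abs_le.1 (hphi p q)).1
    have h2 : (1 - η) * (A p q * (1 + s p q * phi A s p q)) ≥ (1 - η) * (A p q * (1 - η)) := by
      refine mul_le_mul_of_nonneg_left ?_ (by linarith)
      exact mul_le_mul_of_nonneg_left (by linarith) (hA0 p q)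
    have h3 : (1 - η) * (A p q * (1 - η)) = (1 - 2 * η) * A p q + η ^ 2 * A p q := by ring
    have h4 : 0 ≤ η ^ 2 * A p q := mul_nonneg (sq_nonneg _) (hA0 p q)
    linarith
  · intro p q
    have h1 := (abs_le.1 (hphi p q)).2
    have h2 : (1 - η) * (A p q * (1 + s p q * phi A s p q)) ≤ (1 - η) * (A p q * (1 + η)) := by
      refine mul_le_mul_of_nonneg_left ?_ (by linarith)
      exact mul_le_mul_of_nonneg_left (by linarith) (hA0 p q)
    have h3 : (1 - η) * (A p q * (1 + η)) = A p q - η ^ 2 * A p q := by ring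
    have h4 : 0 ≤ η ^ 2 * A p q := mul_nonneg (sq_nonneg _) (hA0 p q)
    linarith
  · intro p
    have h1 : ∑ q, s p q * ((1 - η) * (A p q * (1 + s p q * phi A s p q)))
        = (1 - η) * (imb A s p + ∑ q, A p q * phi A s p q) := by
      unfold imb
      rw [← Finset.sum_add_distrib, Finset.mul_sum]
      refine Finset.sum_congr rfl fun q _ => ?_
      have := hss p q
      linear_combination ((1 - η) * phi A s p q) * this
    rw [h1, div_phi A s hA hs L hL hN p]
    ring

end NW3
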