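import Pool.Agent.NW3.Repair
import Pool.Agent.H56.FP.WDefs

set_option autoImplicit false
set_option linter.unusedSectionVars false

/-!
# Repair of the local balance of a tripartite graph
-/

open Finset

namespace NW3

open H56FP

/-- A sum over the three parts, seen from part `i`. -/
theorem sum_parts (i : ZMod 3) (f : ZMod 3 → ℝ) : ∑ j, f j = f i + f (i + 1) + f (i + 2) := by
  have h1 : ∑ j, f j = ∑ j, f (i + j) := (Equiv.sum_comp (Equiv.addLeft i) f).symm
  rw [h1, H56FP.sum3, add_zero]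

variable {n : ℕ}

/-- symmetric adjacency weight on all vertices -/
def adj3 (g : M3 ℝ n) (p q : ZMod 3 × Fin n) : ℝ :=
  if q.1 = p.1 + 1 then g p.1 p.2 q.2 else if p.1 = q.1 + 1 then g q.1 q.2 p.2 else 0

/-- the cyclic sign -/
def sgn3 (p q : ZMod 3 × Fin n) : ℝ :=
  if q.1 = p.1 + 1 then 1 else if p.1 = q.1 + 1 then -1 else 0

theorem adj3_self (g : M3 ℝ n) (i : ZMod 3) (a b : Fin n) : adj3 g (i, a) (i, b) = 0 := by
  unfold adj3
  have h : ¬ (i = i + 1) := by revert i; decide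
  simp only
  rw [if_neg h, if_neg h]

theorem adj3_succ (g : M3 ℝ n) (i : ZMod 3) (a b : Fin n) :
    adj3 g (i, a) (i + 1, b) = g i a b := by
  unfold adj3
  exact if_pos rfl

theorem adj3_pred (g : M3 ℝ n) (i : ZMod 3) (a b : Fin n) :
    adj3 g (i, a) (i + 2, b) = g (i + 2) b a := by
  unfold adj3
  have h : ¬ (i + 2 = i + 1) := by revert i; decide
  have h' : i = i + 2 + 1 := by revert i; decide
  simp only
  rw [if_neg h, if_pos h']

theorem sgn3_self (i : ZMod 3) (a b : Fin n) : sgn3 (i, a) (i, b) = 0 := by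
  unfold sgn3
  have h : ¬ (i = i + 1) := by revert i; decide
  simp only
  rw [if_neg h, if_neg h]

theorem sgn3_succ (i : ZMod 3) (a b : Fin n) : sgn3 (i, a) (i + 1, b) = 1 := by
  unfold sgn3
  exact if_pos rfl

theorem sgn3_pred (i : ZMod 3) (a b : Fin n) : sgn3 (i, a) (i + 2, b) = -1 := by
  unfold sgn3
  have h : ¬ (i + 2 = i + 1) := by revert i; decide
  have h' : i = i + 2 + 1 := by revert i; decide
  simp only
  rw [if_neg h, if_pos h']

theorem adj3_symm (g : M3 ℝ n) (p q : ZMod 3 × Fin n) : adj3 g p q = adj3 g q p := by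
  unfold adj3
  by_cases h1 : q.1 = p.1 + 1
  · have h2 : ¬ (p.1 = q.1 + 1) := by
      rw [h1]; generalize p.1 = i; revert i; decide
    rw [if_pos h1, if_neg h2, if_pos h1]
  · by_cases h2 : p.1 = q.1 + 1
    · rw [if_neg h1, if_pos h2, if_pos h2]
    · rw [if_neg h1, if_neg h2, if_neg h2, if_neg h1]

theorem sgn3_antisymm (p q : ZMod 3 × Fin n) : sgn3 p q = - sgn3 q p := by
  unfold sgn3
  by_cases h1 : q.1 = p.1 + 1
  · have h2 : ¬ (p.1 = q.1 + 1) := by
      rw [h1]; generalize p.1 = i; revert i; decide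
    rw [if_pos h1, if_neg h2, if_pos h1]; norm_num
  · by_cases h2 : p.1 = q.1 + 1
    · rw [if_neg h1, if_pos h2, if_pos h2]
    · rw [if_neg h1, if_neg h2, if_neg h2, if_neg h1]; norm_num

theorem sum_X (i : ZMod 3) (F : ZMod 3 × Fin n → ℝ) :
    ∑ q, F q = ∑ b, F (i, b) + ∑ b, F (i + 1, b) + ∑ b, F (i + 2, b) := by
  rw [Fintype.sum_prod_type, sum_parts i]

/-- **Repair of a tripartite graph.** -/
theorem repairM3 (g : M3 ℝ n) (k D η : ℝ) (h0 : ∀ i a b, 0 ≤ g i a b) (h1 : ∀ i a b, g i a b ≤ 1)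
    (hrow : ∀ i a, ∑ b, (1 - g i a b) ≤ k) (hcol : ∀ i a, ∑ c, (1 - g (i + 2) c a) ≤ k)
    (hk : 2 * k < n) (hb : ∀ i a, |∑ b, g i a b - ∑ c, g (i + 2) c a| ≤ D)
    (hη : 4 * D ≤ η * ((n : ℝ) - 2 * k)) (hη0 : 0 ≤ η) (hη1 : 2 * η ≤ 1) :
    ∃ (h : M3 ℝ n) (d : ZMod 3 → Fin n → ℝ),
      (∀ i a b, (1 - 2 * η) * g i a b ≤ h i a b ∧ h i a b ≤ g i a b) ∧
      WSetup h d (k + 2 * η * n) := by
  have hL : 0 < (n : ℝ) - 2 * k := by linarith
  have hA0 : ∀ p q, 0 ≤ adj3 g p q := by
    intro p q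
    unfold adj3
    split_ifs
    · exact h0 _ _ _
    · exact h0 _ _ _
    · exact le_rfl
  have hA1 : ∀ p q, adj3 g p q ≤ 1 := by
    intro p q
    unfold adj3
    split_ifs
    · exact h1 _ _ _
    · exact h1 _ _ _
    · exact zero_le_one
  -- deficiency of a vertex towards any other part
  have hdef : ∀ (i l : ZMod 3) (a : Fin n), l ≠ i → ∑ c, (1 - adj3 g (i, a) (l, c)) ≤ k := by
    intro i l a hl
    have h2 : l = i + 1 ∨ l = i + 2 := by
      revert hl; revert i l; decide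
    rcases h2 with rfl | rfl
    · simp only [adj3_succ]
      exact hrow i a
    · simp only [adj3_pred]
      exact hcol i a
  have hN : ∀ v w, (n : ℝ) - 2 * k ≤ cw (adj3 g) v w := by
    rintro ⟨i, a⟩ ⟨j, b⟩
    obtain ⟨l, hl1, hl2⟩ : ∃ l : ZMod 3, l ≠ i ∧ l ≠ j := by
      revert i j; decide
    have h3 : ∑ c, adj3 g (i, a) (l, c) * adj3 g (j, b) (l, c) ≤ cw (adj3 g) (i, a) (j, b) := by
      unfold cw
      rw [Fintype.sum_prod_type]
      exact Finset.single_le_sum
        (f := fun l => ∑ c, adj3 g (i, a) (l, c) * adj3 g (j, b) (l, c))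
        (fun l _ => Finset.sum_nonneg fun c _ => mul_nonneg (hA0 _ _) (hA0 _ _))
        (Finset.mem_univ l)
    refine le_trans ?_ h3
    have h4 : ∑ c : Fin n, (1 - (1 - adj3 g (i, a) (l, c)) - (1 - adj3 g (j, b) (l, c)))
        ≤ ∑ c, adj3 g (i, a) (l, c) * adj3 g (j, b) (l, c) := by
      refine Finset.sum_le_sum fun c _ => ?_
      nlinarith [hA1 (i, a) (l, c), hA1 (j, b) (l, c), hA0 (i, a) (l, c), hA0 (j, b) (l, c)]
    refine le_trans ?_ h4
    rw [Finset.sum_sub_distrib, Finset.sum_sub_distrib]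
    have h5 := hdef i l a hl1
    have h6 := hdef j l b hl2
    simp only [Finset.sum_const, Finset.card_univ, Fintype.card_fin, nsmul_eq_mul, mul_one]
    linarith
  have himb : ∀ p, |imb (adj3 g) sgn3 p| ≤ D := by
    rintro ⟨i, a⟩
    unfold imb
    rw [sum_X i]
    simp only [adj3_self, adj3_succ, adj3_pred, sgn3_self, sgn3_succ, sgn3_pred, mul_zero,
      Finset.sum_const_zero, zero_add, one_mul, neg_mul, Finset.sum_neg_distrib]
    exact hb i a
  have hsgn1 : ∀ p q : ZMod 3 × Fin n, |sgn3 p q| ≤ 1 := by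
    intro p q
    unfold sgn3
    split_ifs <;> simp
  have hsgn2 : ∀ p q, sgn3 p q * sgn3 p q * adj3 g p q = adj3 g p q := by
    intro p q
    unfold sgn3 adj3
    split_ifs <;> simp
  obtain ⟨h, hh1, hh2, hh3, hh4⟩ := repair (adj3 g) sgn3 (adj3_symm g) hA0 hA1 sgn3_antisymm hsgn1
    hsgn2 ((n : ℝ) - 2 * k) hL hN D himb η (by rw [div_le_iff₀ hL]; exact hη) (by linarith)
  refine ⟨fun i a b => h (i, a) (i + 1, b),
    fun i a => ∑ b, (1 - h (i, a) (i + 1, b)), ?_, ?_⟩
  · intro i a b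
    have e1 := hh2 (i, a) (i + 1, b)
    have e2 := hh3 (i, a) (i + 1, b)
    rw [adj3_succ] at e1 e2
    exact ⟨e1, e2⟩
  · have hbal : ∀ i a, ∑ b, h (i, a) (i + 1, b) = ∑ c, h (i + 2, c) (i, a) := by
      intro i a
      have e1 := hh4 (i, a)
      rw [sum_X i] at e1
      simp only [sgn3_self, sgn3_succ, sgn3_pred, zero_mul,
        Finset.sum_const_zero, zero_add, one_mul, neg_mul, Finset.sum_neg_distrib] at e1
      have e2 : ∑ c, h (i + 2, c) (i, a) = ∑ c, h (i, a) (i + 2, c) :=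
        Finset.sum_congr rfl fun c _ => hh1 _ _
      rw [e2]
      linarith
    refine ⟨?_, ?_, ?_, ?_, ?_⟩
    · intro i a b
      have e1 := hh2 (i, a) (i + 1, b)
      rw [adj3_succ] at e1
      exact (mul_nonneg (by linarith) (h0 i a b)).trans e1
    · intro i a b
      have e2 := hh3 (i, a) (i + 1, b)
      rw [adj3_succ] at e2
      exact e2.trans (h1 i a b)
    · intro i a
      rfl
    · intro i a
      rw [Finset.sum_sub_distrib, Finset.sum_sub_distrib, hbal i a]
      have e : ∀ c, h (i + 2, c) (i + 2 + 1, a) = h (i + 2, c) (i, a) := by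
        intro c
        rw [show i + 2 + 1 = i by revert i; decide]
      simp only [e]
    · intro i a
      have e3 : ∑ b, (1 - h (i, a) (i + 1, b)) ≤ ∑ b, ((1 - g i a b) + 2 * η) := by
        refine Finset.sum_le_sum fun b _ => ?_
        have e1 := hh2 (i, a) (i + 1, b)
        rw [adj3_succ] at e1
        nlinarith [h1 i a b, h0 i a b]
      refine e3.trans ?_
      rw [Finset.sum_add_distrib]
      have e4 := hrow i a
      simp only [Finset.sum_const, Finset.card_univ, Fintype.card_fin, nsmul_eq_mul]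
      linarith

end NW3
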