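import Pool.Agent.NW3.Statements3
import Pool.Agent.NW3.CoverCore3
import Pool.Agent.NW.PerfMatchBip

/-!
# Project NW3: the hypotheses of `cover_core3` from a labelled vortex

Cells of level `j`: the vertices of `U j`, not in `U (j+1)`, whose point is `p`.
-/

set_option linter.unusedSectionVars false

namespace NW3

open Finset NW

theorem card_plPoint (q : ℕ) [Fact q.Prime] : Fintype.card (PlPoint q) = q * q + q := by
  rw [Fintype.card_sum, Fintype.card_prod, ZMod.card]

theorem card_plLine (q : ℕ) [Fact q.Prime] : Fintype.card (PlLine q) = q * q := by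
  rw [Fintype.card_prod, ZMod.card]

theorem abs_sum_sub_le {ι : Type*} (t : Finset ι) (f : ι → ℝ) (c e : ℝ)
    (h : ∀ i ∈ t, |f i - c| ≤ e) : |∑ i ∈ t, f i - t.card * c| ≤ t.card * e := by
  have h1 : ∑ i ∈ t, f i - t.card * c = ∑ i ∈ t, (f i - c) := by
    rw [Finset.sum_sub_distrib, Finset.sum_const, nsmul_eq_mul]
  rw [h1]
  refine (Finset.abs_sum_le_sum_abs _ _).trans ?_
  refine (Finset.sum_le_sum h).trans ?_
  rw [Finset.sum_const, nsmul_eq_mul]

theorem card_add_card_le {V : Type*} [DecidableEq V] {A B C : Finset V} (hA : A ⊆ C) (hB : B ⊆ C) :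
    A.card + B.card ≤ (A ∩ B).card + C.card := by
  have h1 := Finset.card_union_add_card_inter A B
  have h2 := Finset.card_le_card (Finset.union_subset hA hB)
  omega

section Cells

variable {V : Type} [Fintype V] [DecidableEq V] {q : ℕ} [Fact q.Prime]

/-- the points -/
def pnt (lab : V → PlPoint q × PlLine q) : V → PlPoint q := fun u => (lab u).1

/-- the lines -/
def lne (lab : V → PlPoint q × PlLine q) : V → PlLine q := fun u => (lab u).2

/-- the cell of level `j` with point `p` -/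
def lcell (U : ℕ → Finset V) (lab : V → PlPoint q × PlLine q) (j : ℕ) (p : PlPoint q) : Finset V :=
  cell q (pnt lab) (U j \ U (j + 1)) p

theorem mem_lcell {U : ℕ → Finset V} {lab : V → PlPoint q × PlLine q} {j : ℕ} {p : PlPoint q}
    {u : V} : u ∈ lcell U lab j p ↔ (u ∈ U j ∧ u ∉ U (j + 1)) ∧ (lab u).1 = p := by
  unfold lcell pnt
  rw [mem_cell, Finset.mem_sdiff]

theorem mem_lcls {U : ℕ → Finset V} {lab : V → PlPoint q × PlLine q} {j : ℕ}
    {a : PlPoint q × PlLine q} {u : V} :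
    u ∈ lcls U lab j a ↔ (u ∈ U j ∧ u ∉ U (j + 1)) ∧ lab u = a := by
  unfold lcls
  rw [Finset.mem_filter, Finset.mem_sdiff]

theorem card_inter_lcell (U : ℕ → Finset V) (lab : V → PlPoint q × PlLine q) (j : ℕ)
    (p : PlPoint q) (S : Finset V) :
    (S ∩ lcell U lab j p).card = ∑ l : PlLine q, (S ∩ lcls U lab j (p, l)).card := by
  rw [Finset.card_eq_sum_card_fiberwise (f := fun u => (lab u).2) (t := univ)
    (fun x _ => Finset.mem_coe.2 (Finset.mem_univ _))]
  refine Finset.sum_congr rfl fun l _ => ?_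
  congr 1
  ext u
  have hp : lab u = (p, l) ↔ (lab u).1 = p ∧ (lab u).2 = l := Prod.ext_iff
  rw [Finset.mem_filter, Finset.mem_inter, Finset.mem_inter, mem_lcell, mem_lcls, hp]
  tauto

variable {κ : V → Fin 3} {E : Finset (Sym2 V)} {n K ℓ : ℕ} {τ : ℝ} {U : ℕ → Finset V} {s : ℕ → ℕ}
  {lab : V → PlPoint q × PlLine q}

theorem card_labR : (Fintype.card (PlPoint q × PlLine q) : ℝ) = ((q : ℝ) * q + q) * (q * q) := by
  rw [Fintype.card_prod, card_plPoint, card_plLine]
  push_cast
  ring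

theorem q_pos (q : ℕ) [Fact q.Prime] : (0 : ℝ) < q := by
  have := (Fact.out : q.Prime).pos
  exact_mod_cast this

/-- cells, seen from a vertex of `U (j-1)` -/
theorem cell_nbr (hLV : LVortex κ E n K ℓ τ U s lab) {j : ℕ} (hj : j ≤ ℓ) {v : V}
    (hv : v ∈ U (j - 1)) (i : Fin 3) (p : PlPoint q) :
    |((nbr E v ∩ part κ i ∩ lcell U lab j p).card : ℝ) -
      (pdeg κ E i v : ℝ) / n * (((s j : ℝ) - s (j + 1)) / ((q : ℝ) * q + q))| ≤
      (q : ℝ) * q * (τ * s j) := by
  have hq := q_pos q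
  rw [card_inter_lcell]
  push_cast
  have h := abs_sum_sub_le (univ : Finset (PlLine q))
    (fun l => ((nbr E v ∩ part κ i ∩ lcls U lab j (p, l)).card : ℝ))
    ((pdeg κ E i v : ℝ) / n * (((s j : ℝ) - s (j + 1)) / Fintype.card (PlPoint q × PlLine q)))
    (τ * s j) (fun l _ => by
      have h1 := hLV.cls j hj v hv i (p, l)
      rwa [Finset.inter_right_comm] at h1)
  rw [Finset.card_univ, card_plLine, card_labR] at h
  push_cast at h
  have h2 : (q : ℝ) * q * ((pdeg κ E i v : ℝ) / n *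
      (((s j : ℝ) - s (j + 1)) / (((q : ℝ) * q + q) * (q * q)))) =
      (pdeg κ E i v : ℝ) / n * (((s j : ℝ) - s (j + 1)) / ((q : ℝ) * q + q)) := by
    field_simp
  rw [h2] at h
  exact h

/-- the size of the cells -/
theorem cell_part (hLV : LVortex κ E n K ℓ τ U s lab) {j : ℕ} (hj : j ≤ ℓ) (i : Fin 3)
    (p : PlPoint q) :
    |((part κ i ∩ lcell U lab j p).card : ℝ) - ((s j : ℝ) - s (j + 1)) / ((q : ℝ) * q + q)| ≤
      (q : ℝ) * q * (τ * s j) := by
  have hq := q_pos q
  rw [card_inter_lcell]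
  push_cast
  have h := abs_sum_sub_le (univ : Finset (PlLine q))
    (fun l => ((part κ i ∩ lcls U lab j (p, l)).card : ℝ))
    (((s j : ℝ) - s (j + 1)) / Fintype.card (PlPoint q × PlLine q))
    (τ * s j) (fun l _ => by
      have h1 := hLV.clscard j hj i (p, l)
      rwa [Finset.inter_comm] at h1)
  rw [Finset.card_univ, card_plLine, card_labR] at h
  push_cast at h
  have h2 : (q : ℝ) * q * (((s j : ℝ) - s (j + 1)) / (((q : ℝ) * q + q) * (q * q))) =
      ((s j : ℝ) - s (j + 1)) / ((q : ℝ) * q + q) := by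
    field_simp
  rw [h2] at h
  exact h

/-- the vertices of a cell whose line passes through a given point -/
theorem cell_line (hLV : LVortex κ E n K ℓ τ U s lab) {j : ℕ} (hj : j ≤ ℓ) (i : Fin 3)
    (p r : PlPoint q) :
    (((part κ i ∩ lcell U lab j p).filter (fun z => PlOn q r (lab z).2)).card : ℝ) ≤
      ((s j : ℝ) - s (j + 1)) / ((q : ℝ) * q + q) / q + q * (τ * s j) := by
  have hq := q_pos q
  have hsub : ((part κ i ∩ lcell U lab j p).filter (fun z => PlOn q r (lab z).2)) ⊆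
      (univ.filter fun l => PlOn q r l).biUnion fun l => lcls U lab j (p, l) ∩ part κ i := by
    intro z hz
    rw [Finset.mem_filter, Finset.mem_inter, mem_lcell] at hz
    refine Finset.mem_biUnion.2 ⟨(lab z).2, Finset.mem_filter.2 ⟨Finset.mem_univ _, hz.2⟩, ?_⟩
    rw [Finset.mem_inter, mem_lcls]
    exact ⟨⟨hz.1.2.1, Prod.ext_iff.2 ⟨hz.1.2.2, rfl⟩⟩, hz.1.1⟩
  have h1 := (Finset.card_le_card hsub).trans Finset.card_biUnion_le
  have h2 : (((part κ i ∩ lcell U lab j p).filter (fun z => PlOn q r (lab z).2)).card : ℝ) ≤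
      ∑ l ∈ univ.filter (fun l => PlOn q r l), ((lcls U lab j (p, l) ∩ part κ i).card : ℝ) := by
    exact_mod_cast h1
  refine h2.trans ?_
  have h3 : ∀ l ∈ univ.filter (fun l => PlOn q r l), ((lcls U lab j (p, l) ∩ part κ i).card : ℝ) ≤
      ((s j : ℝ) - s (j + 1)) / Fintype.card (PlPoint q × PlLine q) + τ * s j := by
    intro l _
    have h4 := (abs_le.1 (hLV.clscard j hj i (p, l))).2
    linarith
  refine (Finset.sum_le_card_nsmul _ _ _ h3).trans ?_
  rw [pl_lines_card, nsmul_eq_mul, card_labR]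
  apply le_of_eq
  field_simp

/-- the vertices of level `j` with a given line -/
theorem card_line (hLV : LVortex κ E n K ℓ τ U s lab) {j : ℕ} (hj : j ≤ ℓ) (l : PlLine q) :
    (((U j \ U (j + 1)).filter (fun v => (lab v).2 = l)).card : ℝ) ≤
      3 * (((s j : ℝ) - s (j + 1)) / (q * q) + (q * q + q) * (τ * s j)) := by
  have hq := q_pos q
  have hsub : ((U j \ U (j + 1)).filter (fun v => (lab v).2 = l)) ⊆
      (univ : Finset (Fin 3 × PlPoint q)).biUnion fun a => lcls U lab j (a.2, l) ∩ part κ a.1 := by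
    intro z hz
    rw [Finset.mem_filter, Finset.mem_sdiff] at hz
    refine Finset.mem_biUnion.2 ⟨(κ z, (lab z).1), Finset.mem_univ _, ?_⟩
    rw [Finset.mem_inter, mem_lcls, mem_part]
    exact ⟨⟨hz.1, Prod.ext_iff.2 ⟨rfl, hz.2⟩⟩, rfl⟩
  have h1 := (Finset.card_le_card hsub).trans Finset.card_biUnion_le
  have h2 : (((U j \ U (j + 1)).filter (fun v => (lab v).2 = l)).card : ℝ) ≤
      ∑ a : Fin 3 × PlPoint q, ((lcls U lab j (a.2, l) ∩ part κ a.1).card : ℝ) := by
    exact_mod_cast h1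
  refine h2.trans ?_
  have h3 : ∀ a ∈ (univ : Finset (Fin 3 × PlPoint q)),
      ((lcls U lab j (a.2, l) ∩ part κ a.1).card : ℝ) ≤
      ((s j : ℝ) - s (j + 1)) / Fintype.card (PlPoint q × PlLine q) + τ * s j := by
    intro a _
    have h4 := (abs_le.1 (hLV.clscard j hj a.1 (a.2, l))).2
    linarith
  refine (Finset.sum_le_card_nsmul _ _ _ h3).trans ?_
  rw [Finset.card_univ, Fintype.card_prod, Fintype.card_fin, card_plPoint, nsmul_eq_mul, card_labR]
  push_cast
  apply le_of_eq
  field_simp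

/-- the total size of a cell -/
theorem card_lcell (hLV : LVortex κ E n K ℓ τ U s lab) {j : ℕ} (hj : j ≤ ℓ) (p : PlPoint q) :
    ((lcell U lab j p).card : ℝ) ≤
      3 * (((s j : ℝ) - s (j + 1)) / ((q : ℝ) * q + q) + q * q * (τ * s j)) := by
  have h1 : (lcell U lab j p).card = ∑ i : Fin 3, (part κ i ∩ lcell U lab j p).card := by
    rw [Finset.card_eq_sum_card_fiberwise (f := κ) (t := univ)
      (fun x _ => Finset.mem_coe.2 (Finset.mem_univ _))]
    refine Finset.sum_congr rfl fun i _ => ?_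
    congr 1
    ext u
    rw [Finset.mem_filter, Finset.mem_inter, mem_part]
    tauto
  rw [h1, Fin.sum_univ_three]
  push_cast
  have h2 := (abs_le.1 (cell_part hLV hj 0 p)).2
  have h3 := (abs_le.1 (cell_part hLV hj 1 p)).2
  have h4 := (abs_le.1 (cell_part hLV hj 2 p)).2
  linarith

/-- codegrees in a cell, for two vertices of `U (j-1)` -/
theorem codeg_cell (hLV : LVortex κ E n K ℓ τ U s lab) {j : ℕ} (hj : j ≤ ℓ) {x y : V}
    (hx : x ∈ U (j - 1)) (hy : y ∈ U (j - 1)) (i : Fin 3) (p : PlPoint q) :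
    ((pdeg κ E i x : ℝ) / n + (pdeg κ E i y : ℝ) / n - 1) *
        (((s j : ℝ) - s (j + 1)) / ((q : ℝ) * q + q)) - 3 * ((q : ℝ) * q * (τ * s j)) ≤
      ((nbr E x ∩ nbr E y ∩ (part κ i ∩ lcell U lab j p)).card : ℝ) := by
  have h1 := (abs_le.1 (cell_nbr hLV hj hx i p)).1
  have h2 := (abs_le.1 (cell_nbr hLV hj hy i p)).1
  have h3 := (abs_le.1 (cell_part hLV hj i p)).2
  have h4 := card_add_card_le (A := nbr E x ∩ part κ i ∩ lcell U lab j p)
    (B := nbr E y ∩ part κ i ∩ lcell U lab j p) (C := part κ i ∩ lcell U lab j p)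
    (by rw [Finset.inter_assoc]; exact Finset.inter_subset_right)
    (by rw [Finset.inter_assoc]; exact Finset.inter_subset_right)
  have h5 : nbr E x ∩ part κ i ∩ lcell U lab j p ∩ (nbr E y ∩ part κ i ∩ lcell U lab j p) =
      nbr E x ∩ nbr E y ∩ (part κ i ∩ lcell U lab j p) := by
    ext u
    simp only [Finset.mem_inter]
    tauto
  rw [h5] at h4
  have h6 : ((nbr E x ∩ part κ i ∩ lcell U lab j p).card : ℝ) +
      (nbr E y ∩ part κ i ∩ lcell U lab j p).card ≤
      (nbr E x ∩ nbr E y ∩ (part κ i ∩ lcell U lab j p)).card +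
      (part κ i ∩ lcell U lab j p).card := by exact_mod_cast h4
  nlinarith

end Cells

end NW3
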