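import Pool.Agent.NW3.Statements3

/-!
# Project NW3: the setting of one step of the cover down
-/

set_option linter.unusedSectionVars false

namespace NW3

open Finset NW

/-- all hypotheses of `StepStatement3` at level `j` -/
structure StepHyp (q : ℕ) [Fact q.Prime] {V : Type} [Fintype V] [DecidableEq V]
    (κ : V → Fin 3) (E G : Finset (Sym2 V)) (n K ℓ : ℕ) (τ : ℝ) (U : ℕ → Finset V) (s : ℕ → ℕ)
    (lab : V → PlPoint q × PlLine q) (j : ℕ) (lo hi α : ℝ) : Prop where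
  tri : Tri3 κ E
  lv : LVortex κ E n K ℓ τ U s lab
  hj : j < ℓ
  balE : Bal3 κ E
  dE : ∀ v i, i ≠ κ v →
    (lo + α) * (n : ℝ) ≤ (pdeg κ E i v : ℝ) ∧ (pdeg κ E i v : ℝ) ≤ (hi - α) * (n : ℝ)
  GE : G ⊆ E
  GU : G ⊆ (U j).sym2
  balG : Bal3 κ G
  EU : E ∩ (U (j + 1)).sym2 ⊆ G
  ER : E ∩ rsv q U lab j ⊆ G
  dG : ∀ v ∈ U j, (NW.deg ((E ∩ (U j).sym2) \ G) v : ℝ) ≤ α / 4 * (s j : ℝ)
  lo34 : 3 / 4 ≤ lo
  α0 : 0 < α
  τ0 : 0 < τ
  K2 : 2 ≤ K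
  spos : 0 < s (j + 1)

/-- the graph given to the approximate decomposition -/
def restG (q : ℕ) {V : Type} [DecidableEq V] (G : Finset (Sym2 V)) (U : ℕ → Finset V)
    (lab : V → PlPoint q × PlLine q) (j : ℕ) : Finset (Sym2 V) :=
  G \ ((U (j + 1)).sym2 ∪ rsv q U lab j)

/-- the usable inner edges -/
def innQ (q : ℕ) {V : Type} [DecidableEq V] (G : Finset (Sym2 V)) (U : ℕ → Finset V)
    (lab : V → PlPoint q × PlLine q) (j : ℕ) : Finset (Sym2 V) :=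
  (G ∩ (U (j + 1)).sym2) \ ((U (j + 2)).sym2 ∪ rsv q U lab (j + 1))

end NW3
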