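import Pool.Agent.NW3.StepB
import Pool.Agent.NW3.StepDefs

/-!
# Project NW3: the hypotheses of `cover_core3` in the setting `StepHyp`
-/

set_option linter.unusedSectionVars false

namespace NW3

open Finset NW

section Hyp

variable {V : Type} [Fintype V] [DecidableEq V] {q : ℕ} [Fact q.Prime]
  {κ : V → Fin 3} {E G : Finset (Sym2 V)} {n K ℓ : ℕ} {τ : ℝ} {U : ℕ → Finset V} {s : ℕ → ℕ}
  {lab : V → PlPoint q × PlLine q} {j : ℕ} {lo hi α : ℝ}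

/-- the two other parts -/
theorem fin3_others : ∀ c : Fin 3, ∃ i k : Fin 3, i ≠ c ∧ k ≠ c ∧ i ≠ k ∧
    ∀ l : Fin 3, l ≠ c → l = i ∨ l = k := by
  decide

theorem fin3_third' : ∀ i j : Fin 3, ∃ k : Fin 3, k ≠ i ∧ k ≠ j := by
  decide

theorem StepHyp.dens (h : StepHyp q κ E G n K ℓ τ U s lab j lo hi α) (hn : n ≠ 0) (v : V)
    (i : Fin 3) (hi' : i ≠ κ v) : 3 / 4 ≤ (pdeg κ E i v : ℝ) / n := by
  have hn' : (0 : ℝ) < n := by exact_mod_cast Nat.pos_of_ne_zero hn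
  rw [le_div_iff₀ hn']
  have h1 := (h.dE v i hi').1
  have h2 := h.lo34
  have h3 := h.α0
  nlinarith

theorem StepHyp.no_edge (h : StepHyp q κ E G n K ℓ τ U s lab j lo hi α) (hn : n = 0) {x y : V}
    (hxy : s(x, y) ∈ G) : False := by
  have hE := h.GE hxy
  have h1 := (h.dE x (κ y) (h.tri x y hE).symm).2
  rw [hn] at h1
  have h2 : 0 < pdeg κ E (κ y) x := by
    unfold pdeg
    exact Finset.card_pos.2 ⟨y, Finset.mem_filter.2 ⟨Finset.mem_univ _, hE, rfl⟩⟩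
  have h3 : (0 : ℝ) < pdeg κ E (κ y) x := by exact_mod_cast h2
  simp at h1
  linarith

theorem StepHyp.spart (h : StepHyp q κ E G n K ℓ τ U s lab j lo hi α) :
    (s (j + 2) : ℝ) ≤ (s (j + 1) : ℝ) / 2 := by
  have hK := h.K2
  have hj := h.hj
  have h1 : 2 * s (j + 2) ≤ s (j + 1) := by
    by_cases h2 : j + 1 < ℓ
    · have h3 := h.lv.up (j + 1) h2
      have h4 : 2 * s (j + 2) ≤ K * s (j + 2) := Nat.mul_le_mul_right _ hK
      exact h4.trans h3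
    · have h3 : j + 1 = ℓ := by omega
      have h4 : U (j + 2) = ∅ := by
        have := h.lv.last
        rw [← h3] at this
        exact this
      have h5 := h.lv.card (j + 2) 0
      rw [h4, Finset.empty_inter, Finset.card_empty] at h5
      omega
  have h2 : (2 : ℝ) * s (j + 2) ≤ s (j + 1) := by exact_mod_cast h1
  linarith

theorem rsv_eq (U : ℕ → Finset V) (lab : V → PlPoint q × PlLine q) (j : ℕ) :
    rsv q U lab j = resv q (U j \ U (j + 1)) (U (j + 1) \ U (j + 2)) (pnt lab) (lne lab) := rfl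

theorem levels_disjoint (U : ℕ → Finset V) (j : ℕ) :
    Disjoint (U j \ U (j + 1)) (U (j + 1) \ U (j + 2)) := by
  rw [Finset.disjoint_left]
  intro v h1 h2
  exact (Finset.mem_sdiff.1 h1).2 (Finset.mem_sdiff.1 h2).1

/-- reserved edges are present -/
theorem StepHyp.reserved (h : StepHyp q κ E G n K ℓ τ U s lab j lo hi α) {x z : V}
    (hx : x ∈ U j \ U (j + 1))
    (hz : z ∈ lineSet q (pnt lab) (U (j + 1) \ U (j + 2)) (lne lab x)) (hE : s(x, z) ∈ E) :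
    s(x, z) ∈ G := by
  apply h.ER
  rw [Finset.mem_inter]
  refine ⟨hE, ?_⟩
  rw [rsv_eq]
  exact (mem_resv_iff (levels_disjoint U j) hx).2 hz

/-- usable inner edges -/
theorem StepHyp.inner (h : StepHyp q κ E G n K ℓ τ U s lab j lo hi α) {y z : V}
    (hy : y ∈ U (j + 1)) (hz : z ∈ U (j + 1) \ U (j + 2)) (hE : s(y, z) ∈ E)
    (hno : ¬ (y ∈ U (j + 2) ∧ PlOn q (lab y).1 (lab z).2)) : s(y, z) ∈ innQ q G U lab j := by
  have hz' := Finset.mem_sdiff.1 hz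
  unfold innQ
  rw [Finset.mem_sdiff, Finset.mem_inter]
  have hin : s(y, z) ∈ (U (j + 1)).sym2 := Finset.mk_mem_sym2_iff.2 ⟨hy, hz'.1⟩
  refine ⟨⟨h.EU (Finset.mem_inter.2 ⟨hE, hin⟩), hin⟩, ?_⟩
  intro hc
  rcases Finset.mem_union.1 hc with hc | hc
  · exact hz'.2 (Finset.mk_mem_sym2_iff.1 hc).2
  · rw [rsv_eq] at hc
    obtain ⟨v, hv, u, hu, huv⟩ := resv_cases hc
    have hu' := mem_lineSet.1 hu
    have hu2 := (Finset.mem_sdiff.1 hu'.1).1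
    rcases Sym2.eq_iff.1 huv with ⟨h1, h2⟩ | ⟨h1, h2⟩
    · rw [← h2] at hu2
      exact hz'.2 hu2
    · rw [← h1, ← h2] at hu'
      rw [← h1] at hu2
      exact hno ⟨hu2, hu'.2⟩

variable (h : StepHyp q κ E G n K ℓ τ U s lab j lo hi α)

include h

theorem StepHyp.tau_bound (hτ : 100 * ((q : ℝ) + 1) ^ 6 * τ ≤ 1) :
    (q : ℝ) * q * (τ * s (j + 1)) ≤ (s (j + 1) : ℝ) / (100 * ((q : ℝ) + 1) ^ 4) := by
  have hq := q_pos q
  have h0 := h.τ0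
  have hs : (0 : ℝ) < s (j + 1) := by exact_mod_cast h.spos
  rw [le_div_iff₀ (by positivity)]
  have h1 : (q : ℝ) * q ≤ ((q : ℝ) + 1) ^ 2 := by nlinarith
  have h2 : (q : ℝ) * q * (τ * s (j + 1)) * (100 * ((q : ℝ) + 1) ^ 4) ≤
      ((q : ℝ) + 1) ^ 2 * (τ * s (j + 1)) * (100 * ((q : ℝ) + 1) ^ 4) := by
    refine mul_le_mul_of_nonneg_right (mul_le_mul_of_nonneg_right h1 (by positivity))
      (by positivity)
  have h3 : ((q : ℝ) + 1) ^ 2 * (τ * s (j + 1)) * (100 * ((q : ℝ) + 1) ^ 4) =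
      100 * ((q : ℝ) + 1) ^ 6 * τ * s (j + 1) := by ring
  rw [h3] at h2
  nlinarith

/-- sizes of the cells -/
theorem stepB_cell (hτ : 100 * ((q : ℝ) + 1) ^ 6 * τ ≤ 1) (p : PlPoint q) :
    ((cell q (fun u => (lab u).1) (U (j + 1) \ U (j + 2)) p).card : ℝ) ≤
      4 * (s (j + 1) : ℝ) / (q : ℝ) ^ 2 := by
  have hq := q_pos q
  have hs : (0 : ℝ) < s (j + 1) := by exact_mod_cast h.spos
  have h1 := card_lcell h.lv (j := j + 1) h.hj p
  have h2 := h.tau_bound hτ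
  have h3 : ((s (j + 1) : ℝ) - s (j + 1 + 1)) / ((q : ℝ) * q + q) ≤ (s (j + 1) : ℝ) / (q : ℝ) ^ 2 := by
    rw [div_le_div_iff₀ (by positivity) (by positivity)]
    have h4 : (0 : ℝ) ≤ s (j + 1 + 1) := Nat.cast_nonneg _
    nlinarith [mul_nonneg h4 (sq_nonneg (q : ℝ)), mul_pos hs hq]
  have h5 : (s (j + 1) : ℝ) / (100 * ((q : ℝ) + 1) ^ 4) ≤ (s (j + 1) : ℝ) / (3 * (q : ℝ) ^ 2) := by
    apply div_le_div_of_nonneg_left hs.le (by positivity)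
    have h6 : (q : ℝ) ^ 2 ≤ ((q : ℝ) + 1) ^ 4 := by
      have : (q : ℝ) ^ 2 ≤ ((q : ℝ) + 1) ^ 2 := by nlinarith
      have h7 : ((q : ℝ) + 1) ^ 2 ≤ ((q : ℝ) + 1) ^ 4 :=
        pow_le_pow_right₀ (by linarith) (by norm_num)
      linarith
    nlinarith [sq_nonneg (q : ℝ)]
  have h6 : (s (j + 1) : ℝ) / (3 * (q : ℝ) ^ 2) = (s (j + 1) : ℝ) / (q : ℝ) ^ 2 / 3 := by
    field_simp
  have h7 : 4 * (s (j + 1) : ℝ) / (q : ℝ) ^ 2 = 4 * ((s (j + 1) : ℝ) / (q : ℝ) ^ 2) := by ring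
  rw [h7]
  refine h1.trans ?_
  linarith

/-- sizes of the line classes -/
theorem stepB_cls (hτ : 100 * ((q : ℝ) + 1) ^ 6 * τ ≤ 1) (l : PlLine q) :
    (((U j \ U (j + 1)).filter (fun v => (lab v).2 = l)).card : ℝ) ≤
      4 * (s j : ℝ) / (q : ℝ) ^ 2 := by
  have hq := q_pos q
  have h0 := h.τ0
  have hs : (0 : ℝ) ≤ s j := Nat.cast_nonneg _
  have hs' : (0 : ℝ) ≤ s (j + 1) := Nat.cast_nonneg _
  have h1 := card_line h.lv (j := j) h.hj.le l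
  refine h1.trans ?_
  have h2 : ((s j : ℝ) - s (j + 1)) / (q * q) ≤ (s j : ℝ) / (q : ℝ) ^ 2 := by
    rw [pow_two]
    exact div_le_div_of_nonneg_right (by linarith) (by positivity)
  have h3 : ((q : ℝ) * q + q) * (τ * s j) ≤ (s j : ℝ) / (q : ℝ) ^ 2 / 3 := by
    rw [div_div, le_div_iff₀ (by positivity)]
    have h4 : (q : ℝ) * q + q ≤ ((q : ℝ) + 1) ^ 2 := by nlinarith
    have h5 : (q : ℝ) ^ 2 ≤ ((q : ℝ) + 1) ^ 2 := by nlinarith
    have h6 : ((q : ℝ) * q + q) * (τ * s j) * ((q : ℝ) ^ 2 * 3) ≤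
        ((q : ℝ) + 1) ^ 2 * (τ * s j) * (((q : ℝ) + 1) ^ 2 * 3) := by
      apply mul_le_mul
      · exact mul_le_mul_of_nonneg_right h4 (by positivity)
      · linarith
      · positivity
      · positivity
    have h7 : ((q : ℝ) + 1) ^ 2 * (τ * s j) * (((q : ℝ) + 1) ^ 2 * 3) =
        3 * ((q : ℝ) + 1) ^ 4 * τ * s j := by ring
    have h8 : ((q : ℝ) + 1) ^ 4 ≤ ((q : ℝ) + 1) ^ 6 :=
      pow_le_pow_right₀ (by linarith) (by norm_num)
    have h9 : 3 * ((q : ℝ) + 1) ^ 4 * τ ≤ 1 := by nlinarith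
    rw [h7] at h6
    nlinarith
  have h7 : 4 * (s j : ℝ) / (q : ℝ) ^ 2 = 4 * ((s j : ℝ) / (q : ℝ) ^ 2) := by ring
  rw [h7]
  linarith

theorem StepHyp.sigma (hq1 : 64 ≤ q) :
    (s (j + 1) : ℝ) / (3 * (q : ℝ) ^ 2) ≤
      ((s (j + 1) : ℝ) - s (j + 1 + 1)) / ((q : ℝ) * q + q) := by
  have hq := q_pos q
  have hq2 : (64 : ℝ) ≤ q := by exact_mod_cast hq1
  have hs : (0 : ℝ) < s (j + 1) := by exact_mod_cast h.spos
  have h1 := h.spart
  rw [div_le_div_iff₀ (by positivity) (by positivity)]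
  have h2 : (s (j + 1) : ℝ) / 2 ≤ (s (j + 1) : ℝ) - s (j + 1 + 1) := by
    have : (s (j + 2) : ℝ) = s (j + 1 + 1) := rfl
    linarith
  have h3 : (s (j + 1) : ℝ) / 2 * (3 * (q : ℝ) ^ 2) ≤
      ((s (j + 1) : ℝ) - s (j + 1 + 1)) * (3 * (q : ℝ) ^ 2) :=
    mul_le_mul_of_nonneg_right h2 (by positivity)
  nlinarith [mul_pos hs hq, mul_pos (mul_pos hs hq) hq]

/-- codegrees, outer vertices -/
theorem stepB_comW (hτ : 100 * ((q : ℝ) + 1) ^ 6 * τ ≤ 1) (hq1 : 64 ≤ q) :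
    ∀ x ∈ U j \ U (j + 1), ∀ y ∈ U j \ U (j + 1), s(x, y) ∈ G → ∀ p, PlOn q p (lab x).2 →
      PlOn q p (lab y).2 → (s (j + 1) : ℝ) / (20 * (q : ℝ) ^ 2) ≤
      ((nbr G x ∩ nbr G y ∩ cell q (fun u => (lab u).1) (U (j + 1) \ U (j + 2)) p).card : ℝ) := by
  intro x hx y hy hxy p hpx hpy
  by_cases hn : n = 0
  · exact (h.no_edge hn hxy).elim
  have hq := q_pos q
  have hq2 : (64 : ℝ) ≤ q := by exact_mod_cast hq1
  have hs : (0 : ℝ) < s (j + 1) := by exact_mod_cast h.spos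
  obtain ⟨k, hkx, hky⟩ := fin3_third' (κ x) (κ y)
  have h1 := codeg_cell h.lv (j := j + 1) h.hj (x := x) (y := y) (Finset.mem_sdiff.1 hx).1
    (Finset.mem_sdiff.1 hy).1 k p
  have h2 : nbr E x ∩ nbr E y ∩ (part κ k ∩ lcell U lab (j + 1) p) ⊆
      nbr G x ∩ nbr G y ∩ cell q (fun u => (lab u).1) (U (j + 1) \ U (j + 2)) p := by
    intro z hz
    rw [Finset.mem_inter, Finset.mem_inter, Finset.mem_inter, mem_nbr, mem_nbr] at hz
    obtain ⟨⟨hzx, hzy⟩, _, hzc⟩ := hz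
    rw [Finset.mem_inter, Finset.mem_inter, mem_nbr, mem_nbr]
    exact ⟨⟨h.reserved hx (cell_subset_lineSet hpx hzc) hzx,
      h.reserved hy (cell_subset_lineSet hpy hzc) hzy⟩, hzc⟩
  have h3 : ((nbr E x ∩ nbr E y ∩ (part κ k ∩ lcell U lab (j + 1) p)).card : ℝ) ≤
      ((nbr G x ∩ nbr G y ∩ cell q (fun u => (lab u).1) (U (j + 1) \ U (j + 2)) p).card : ℝ) := by
    exact_mod_cast Finset.card_le_card h2
  refine le_trans ?_ h3
  refine le_trans ?_ h1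
  have h4 := h.dens hn x k hkx
  have h5 := h.dens hn y k hky
  have h6 := h.tau_bound hτ
  have h7 := h.sigma hq1
  set σ := ((s (j + 1) : ℝ) - s (j + 1 + 1)) / ((q : ℝ) * q + q) with hσ
  have hσ0 : 0 ≤ σ := le_trans (by positivity) h7
  have h8 : (1 / 2) * σ ≤ ((pdeg κ E k x : ℝ) / n + (pdeg κ E k y : ℝ) / n - 1) * σ :=
    mul_le_mul_of_nonneg_right (by linarith) hσ0
  have h9 : (s (j + 1) : ℝ) / (100 * ((q : ℝ) + 1) ^ 4) ≤ (s (j + 1) : ℝ) / (100 * (q : ℝ) ^ 2) := by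
    apply div_le_div_of_nonneg_left hs.le (by positivity)
    have h6 : (q : ℝ) ^ 2 ≤ ((q : ℝ) + 1) ^ 4 := by
      have : (q : ℝ) ^ 2 ≤ ((q : ℝ) + 1) ^ 2 := by nlinarith
      have h7 : ((q : ℝ) + 1) ^ 2 ≤ ((q : ℝ) + 1) ^ 4 :=
        pow_le_pow_right₀ (by linarith) (by norm_num)
      linarith
    linarith
  have e1 : (s (j + 1) : ℝ) / (20 * (q : ℝ) ^ 2) = (s (j + 1) : ℝ) / (q : ℝ) ^ 2 / 20 := by
    field_simp
  have e2 : (s (j + 1) : ℝ) / (3 * (q : ℝ) ^ 2) = (s (j + 1) : ℝ) / (q : ℝ) ^ 2 / 3 := by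
    field_simp
  have e3 : (s (j + 1) : ℝ) / (100 * (q : ℝ) ^ 2) = (s (j + 1) : ℝ) / (q : ℝ) ^ 2 / 100 := by
    field_simp
  have e4 : 0 ≤ (s (j + 1) : ℝ) / (q : ℝ) ^ 2 := by positivity
  rw [e1]
  rw [e2] at h7
  rw [e3] at h9
  linarith

/-- codegrees, an outer and an inner vertex -/
theorem stepB_comU (hτ : 100 * ((q : ℝ) + 1) ^ 6 * τ ≤ 1) (hq1 : 64 ≤ q) :
    ∀ x ∈ U j \ U (j + 1), ∀ y ∈ U (j + 1), s(x, y) ∈ G → ∀ p, PlOn q p (lab x).2 →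
      (s (j + 1) : ℝ) / (20 * (q : ℝ) ^ 2) ≤
      ((nbr G x ∩ nbr (innQ q G U lab j) y ∩
        cell q (fun u => (lab u).1) (U (j + 1) \ U (j + 2)) p).card : ℝ) := by
  intro x hx y hy hxy p hpx
  by_cases hn : n = 0
  · exact (h.no_edge hn hxy).elim
  have hq := q_pos q
  have hq2 : (64 : ℝ) ≤ q := by exact_mod_cast hq1
  have hs : (0 : ℝ) < s (j + 1) := by exact_mod_cast h.spos
  obtain ⟨k, hkx, hky⟩ := fin3_third' (κ x) (κ y)
  have h1 := codeg_cell h.lv (j := j + 1) h.hj (x := x) (y := y) (Finset.mem_sdiff.1 hx).1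
    (h.lv.sub j hy) k p
  have hcl := cell_line h.lv (j := j + 1) h.hj k p (lab y).1
  have h2 : nbr E x ∩ nbr E y ∩ (part κ k ∩ lcell U lab (j + 1) p) ⊆
      (nbr G x ∩ nbr (innQ q G U lab j) y ∩
        cell q (fun u => (lab u).1) (U (j + 1) \ U (j + 2)) p) ∪
      (part κ k ∩ lcell U lab (j + 1) p).filter (fun z => PlOn q (lab y).1 (lab z).2) := by
    intro z hz
    rw [Finset.mem_inter, Finset.mem_inter, mem_nbr, mem_nbr] at hz
    obtain ⟨⟨hzx, hzy⟩, hzpc⟩ := hz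
    have hzc := (Finset.mem_inter.1 hzpc).2
    rw [Finset.mem_union]
    by_cases hon : PlOn q (lab y).1 (lab z).2
    · exact Or.inr (Finset.mem_filter.2 ⟨hzpc, hon⟩)
    · left
      rw [Finset.mem_inter, Finset.mem_inter, mem_nbr, mem_nbr]
      exact ⟨⟨h.reserved hx (cell_subset_lineSet hpx hzc) hzx,
        h.inner hy (mem_cell.1 hzc).1 hzy (fun hc => hon hc.2)⟩, hzc⟩
  have h3 : ((nbr E x ∩ nbr E y ∩ (part κ k ∩ lcell U lab (j + 1) p)).card : ℝ) ≤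
      ((nbr G x ∩ nbr (innQ q G U lab j) y ∩
        cell q (fun u => (lab u).1) (U (j + 1) \ U (j + 2)) p).card : ℝ) +
      (((part κ k ∩ lcell U lab (j + 1) p).filter (fun z => PlOn q (lab y).1 (lab z).2)).card : ℝ) := by
    exact_mod_cast (Finset.card_le_card h2).trans (Finset.card_union_le _ _)
  have h4 := h.dens hn x k hkx
  have h5 := h.dens hn y k hky
  have h6 := h.tau_bound hτ
  have h7 := h.sigma hq1
  set σ := ((s (j + 1) : ℝ) - s (j + 1 + 1)) / ((q : ℝ) * q + q) with hσ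
  have hσ0 : 0 ≤ σ := le_trans (by positivity) h7
  have h8 : (1 / 2) * σ ≤ ((pdeg κ E k x : ℝ) / n + (pdeg κ E k y : ℝ) / n - 1) * σ :=
    mul_le_mul_of_nonneg_right (by linarith) hσ0
  have h9 : (s (j + 1) : ℝ) / (100 * ((q : ℝ) + 1) ^ 4) ≤ (s (j + 1) : ℝ) / (100 * (q : ℝ) ^ 2) := by
    apply div_le_div_of_nonneg_left hs.le (by positivity)
    have h6 : (q : ℝ) ^ 2 ≤ ((q : ℝ) + 1) ^ 4 := by
      have : (q : ℝ) ^ 2 ≤ ((q : ℝ) + 1) ^ 2 := by nlinarith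
      have h7 : ((q : ℝ) + 1) ^ 2 ≤ ((q : ℝ) + 1) ^ 4 :=
        pow_le_pow_right₀ (by linarith) (by norm_num)
      linarith
    linarith
  have h10 : σ / q ≤ σ / 64 := div_le_div_of_nonneg_left hσ0 (by norm_num) hq2
  have h11 : (q : ℝ) * (τ * s (j + 1)) ≤ (q : ℝ) * q * (τ * s (j + 1)) := by
    have h0 := h.τ0
    apply mul_le_mul_of_nonneg_right _ (by positivity)
    nlinarith
  have e1 : (s (j + 1) : ℝ) / (20 * (q : ℝ) ^ 2) = (s (j + 1) : ℝ) / (q : ℝ) ^ 2 / 20 := by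
    field_simp
  have e2 : (s (j + 1) : ℝ) / (3 * (q : ℝ) ^ 2) = (s (j + 1) : ℝ) / (q : ℝ) ^ 2 / 3 := by
    field_simp
  have e3 : (s (j + 1) : ℝ) / (100 * (q : ℝ) ^ 2) = (s (j + 1) : ℝ) / (q : ℝ) ^ 2 / 100 := by
    field_simp
  have e4 : 0 ≤ (s (j + 1) : ℝ) / (q : ℝ) ^ 2 := by positivity
  rw [e1]
  rw [e2] at h7
  rw [e3] at h9
  linarith

end Hyp

end NW3
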